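import Mathlib
import Pool.Agent.Helper17.Berk.Tile

/-!
# Case E: many disjoint discs of positive mass (module B14, MP_160e9b_an)
-/

open Polynomial Topology MeasureTheory Filter

set_option linter.dupNamespace false
set_option linter.unusedSectionVars false

namespace Pool.Agent.Helper32.CaseE

open Pool.Agent.Helper17.Berk

universe u

variable {K : Type u} [NontriviallyNormedField K] [IsUltrametricDist K] [IsAlgClosed K]

/-- the open disc attached to a pair. -/
abbrev DD (V : K × ℝ) : Set (P1 K) := oD V.1 V.2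

theorem meas_DD (V : K × ℝ) : MeasurableSet (DD V : Set (P1 K)) :=
  (isOpen_oD V.1 V.2).measurableSet

theorem nonempty_DD {V : K × ℝ} (hs : 0 < V.2) : (DD V : Set (P1 K)).Nonempty :=
  ⟨((pt V.1 : Berk K) : P1 K), by
    show _ ∈ oD V.1 V.2
    rw [coe_mem_oD, pt_lin, sub_self, norm_zero]; exact hs⟩

open Classical in
/-- maximal discs of a finite family. -/
theorem exists_max (F : Finset (K × ℝ)) : ∃ G ⊆ F,
    (∀ V ∈ G, ∀ V' ∈ G, V ≠ V' → Disjoint (DD V : Set (P1 K)) (DD V')) ∧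
    (⋃ V ∈ F, (DD V : Set (P1 K))) ⊆ ⋃ V ∈ G, DD V := by
  induction F using Finset.induction_on with
  | empty => exact ⟨∅, by simp, by simp, by simp⟩
  | insert a F ha ih =>
    obtain ⟨G, hGF, hGd, hGc⟩ := ih
    by_cases h : ∃ W ∈ G, (DD a : Set (P1 K)) ⊆ DD W
    · obtain ⟨W, hW, haW⟩ := h
      refine ⟨G, hGF.trans (Finset.subset_insert _ _), hGd, ?_⟩
      rw [Finset.set_biUnion_insert]
      refine Set.union_subset (haW.trans ?_) hGc
      exact Set.subset_biUnion_of_mem (u := fun V : K × ℝ => (DD V : Set (P1 K))) hW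
    · push Not at h
      have key : ∀ W ∈ G, ¬ (DD W : Set (P1 K)) ⊆ DD a → Disjoint (DD a : Set (P1 K)) (DD W) := by
        intro W hW hWa
        rcases le_total a.2 W.2 with hle | hle
        · rcases oD_subset_or_disjoint (K := K) (a := a.1) (b := W.1) hle with h1 | h1
          · exact (h W hW h1).elim
          · exact h1
        · rcases oD_subset_or_disjoint (K := K) (a := W.1) (b := a.1) hle with h1 | h1
          · exact (hWa h1).elim
          · exact h1.symm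
      refine ⟨insert a (G.filter (fun W => ¬ (DD W : Set (P1 K)) ⊆ DD a)), ?_, ?_, ?_⟩
      · refine Finset.insert_subset_insert _ ((Finset.filter_subset _ _).trans hGF)
      · intro V hV V' hV' hne
        rw [Finset.mem_insert, Finset.mem_filter] at hV hV'
        rcases hV with rfl | hV <;> rcases hV' with rfl | hV'
        · exact (hne rfl).elim
        · exact key V' hV'.1 hV'.2
        · exact (key V hV.1 hV.2).symm
        · exact hGd V hV.1 V' hV'.1 hne
      · intro x hx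
        rw [Finset.set_biUnion_insert] at hx ⊢
        rcases hx with hx | hx
        · exact Or.inl hx
        · have h1 := hGc hx
          rw [Set.mem_iUnion₂] at h1
          obtain ⟨W, hW, hxW⟩ := h1
          by_cases h2 : (DD W : Set (P1 K)) ⊆ DD a
          · exact Or.inl (h2 hxW)
          · right
            rw [Set.mem_iUnion₂]
            exact ⟨W, Finset.mem_filter.2 ⟨hW, h2⟩, hxW⟩

variable {R : RatMap K} {ρ : Measure (P1 K)}

theorem one_le_deg_iter (h : Setup R ρ) (n : ℕ) : 1 ≤ (R.iter n).deg := by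
  rw [RatMap.deg_iter]
  exact Nat.one_le_pow _ _ (by have := h.hd; omega)

theorem deg_pos (h : Setup R ρ) : (0 : ℝ) < R.deg := by
  have := h.hd
  have h2 : 0 < R.deg := by omega
  exact_mod_cast h2

theorem bet_nonneg (h : Setup R ρ) (n : ℕ) : 0 ≤ RatMap.bet R.deg n := by
  unfold RatMap.bet
  have := h.hd
  have h2 : (1 : ℝ) ≤ R.deg := by
    have : 1 ≤ R.deg := by omega
    exact_mod_cast this
  exact pow_nonneg (div_nonneg (by linarith) (by linarith)) _

/-- discs of a tree have small mass. -/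
theorem mass_le (h : Setup R ρ) (hG : ¬ R.CaseG) {c : K} {s : ℝ}
    (hs : ∃ π : K, π ≠ 0 ∧ s = ‖π‖) (h0 : 0 < ρ.real (oD c s)) (h1 : ρ.real (oD c s) < 1)
    {T : ℕ → Finset (K × ℝ)} (hT : R.IsTree c s T) (l : ℕ) {V : K × ℝ} (hV : V ∈ T l) :
    ρ.real (DD V) ≤ RatMap.bet R.deg l * ρ.real (oD c s) := by
  obtain ⟨π, hπ, rfl⟩ := hs
  have hg := hT.good l V hV
  have e1 := h.goodPull_measure l hg
  have e2 := h.gdeg_le hG l hπ hg h0 h1
  have hd : (0 : ℝ) < (R.deg : ℝ) ^ l := pow_pos (deg_pos h) l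
  have e3 : (R.deg : ℝ) ^ l * ρ.real (oD V.1 V.2) ≤
      (R.deg : ℝ) ^ l * (RatMap.bet R.deg l * ρ.real (oD c ‖π‖)) := by
    rw [e1]
    calc ((R.iter l).gdeg V.1 V.2 c : ℝ) * ρ.real (oD c ‖π‖)
        ≤ (RatMap.bet R.deg l * (R.deg : ℝ) ^ l) * ρ.real (oD c ‖π‖) :=
          mul_le_mul_of_nonneg_right e2 h0.le
      _ = _ := by ring
  exact le_of_mul_le_mul_left e3 hd

/-- discs of a tree have positive mass. -/
theorem mass_pos (h : Setup R ρ) {c : K} {s : ℝ} (h0 : 0 < ρ.real (oD c s))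
    {T : ℕ → Finset (K × ℝ)} (hT : R.IsTree c s T) (l : ℕ) {V : K × ℝ} (hV : V ∈ T l) :
    0 < ρ.real (DD V) := by
  have hg := hT.good l V hV
  have e1 := h.goodPull_measure l hg
  have hd : (0 : ℝ) < (R.deg : ℝ) ^ l := pow_pos (deg_pos h) l
  have e2 : (1 : ℝ) ≤ ((R.iter l).gdeg V.1 V.2 c : ℝ) := by
    exact_mod_cast hg.one_le_gdeg (one_le_deg_iter h l)
  have e3 : 0 < (R.deg : ℝ) ^ l * ρ.real (oD V.1 V.2) := by
    rw [e1]
    exact mul_pos (by linarith) h0
  exact pos_of_mul_pos_right e3 hd.le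

theorem mass_le' (h : Setup R ρ) {c : K} {s : ℝ} 
    {T : ℕ → Finset (K × ℝ)} (hT : R.IsTree c s T) (l : ℕ) {V : K × ℝ} (hV : V ∈ T l) :
    ρ.real (DD V) ≤ ρ.real (oD c s) := by
  have := h.prob
  have hg := hT.good l V hV
  have e1 : (DD V : Set (P1 K)) ⊆ (R.iter l).act ⁻¹' (oD c s) := fun x hx =>
    hg.mapsTo (one_le_deg_iter h l) hx
  have e2 := h.measure_preimage l (isOpen_oD c s).measurableSet
  refine (measureReal_mono e1).trans ?_
  rw [measureReal_def, measureReal_def, e2]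

/-- discs of the same level in trees of disjoint discs are disjoint. -/
theorem level_disj (h : Setup R ρ) {c c' : K} {s s' : ℝ}
    (hd : Disjoint (oD c s : Set (P1 K)) (oD c' s')) {T T' : ℕ → Finset (K × ℝ)}
    (hT : R.IsTree c s T) (hT' : R.IsTree c' s' T') (l : ℕ) {V V' : K × ℝ} (hV : V ∈ T l)
    (hV' : V' ∈ T' l) : Disjoint (DD V : Set (P1 K)) (DD V') := by
  rw [Set.disjoint_left]
  intro x hx hx'
  have e1 := (hT.good l V hV).mapsTo (one_le_deg_iter h l) hx
  have e2 := (hT'.good l V' hV').mapsTo (one_le_deg_iter h l) hx'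
  exact Set.disjoint_left.1 hd e1 e2

open Classical in
/-- at each level the trees of disjoint discs have at most `d² + 1` bad discs altogether. -/
theorem sum_card_bad (h : Setup R ρ) (J : Finset (K × ℝ))
    (hJ : ∀ V ∈ J, ∀ V' ∈ J, V ≠ V' → Disjoint (DD V : Set (P1 K)) (DD V'))
    (T : K × ℝ → ℕ → Finset (K × ℝ)) (hT : ∀ V ∈ J, R.IsTree V.1 V.2 (T V)) (l : ℕ) :
    ∑ V ∈ J, ((T V l).filter (fun U => R.Bad U.1 U.2)).card ≤ R.deg ^ 2 + 1 := by
  have hpos : ∀ V ∈ J, ∀ U ∈ T V l, 0 < U.2 := fun V hV U hU => ((hT V hV).good l U hU).rpos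
  rw [← Finset.card_biUnion]
  · set L := J.biUnion (fun V => (T V l).filter (fun U => R.Bad U.1 U.2)) with hL
    have hLb : L.filter (fun U => R.Bad U.1 U.2) = L := by
      rw [Finset.filter_eq_self]
      intro U hU
      rw [hL, Finset.mem_biUnion] at hU
      obtain ⟨V, hV, hU⟩ := hU
      exact (Finset.mem_filter.1 hU).2
    rw [← hLb]
    refine R.card_bad_le (by have := h.hd; omega) L ?_ ?_
    · intro U hU
      rw [hL, Finset.mem_biUnion] at hU
      obtain ⟨V, hV, hU⟩ := hU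
      exact hpos V hV U (Finset.mem_filter.1 hU).1
    · intro U hU U' hU' hne
      rw [hL, Finset.mem_biUnion] at hU hU'
      obtain ⟨V, hV, hU⟩ := hU
      obtain ⟨V', hV', hU'⟩ := hU'
      by_cases hVV : V = V'
      · subst hVV
        exact (hT V hV).disj l U (Finset.mem_filter.1 hU).1 U' (Finset.mem_filter.1 hU').1 hne
      · exact level_disj h (hJ V hV V' hV' hVV) (hT V hV) (hT V' hV') l
          (Finset.mem_filter.1 hU).1 (Finset.mem_filter.1 hU').1
  · intro V hV V' hV' hne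
    rw [Function.onFun, Finset.disjoint_left]
    intro U hU hU'
    have e1 := level_disj h (hJ V hV V' hV' hne) (hT V hV) (hT V' hV') l
          (Finset.mem_filter.1 hU).1 (Finset.mem_filter.1 hU').1
    obtain ⟨x, hx⟩ := nonempty_DD (hpos V hV U (Finset.mem_filter.1 hU).1)
    exact Set.disjoint_left.1 e1 hx hx

theorem loss_nonneg (T : ℕ → Finset (K × ℝ)) (l : ℕ) : 0 ≤ loss R ρ T l := by
  unfold loss
  exact Finset.sum_nonneg fun V _ => measureReal_nonneg

open Classical in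
/-- total loss at a level. -/
theorem sum_loss_le (h : Setup R ρ) (hG : ¬ R.CaseG) (J : Finset (K × ℝ))
    (hJ : ∀ V ∈ J, ∀ V' ∈ J, V ≠ V' → Disjoint (DD V : Set (P1 K)) (DD V'))
    (T : K × ℝ → ℕ → Finset (K × ℝ)) (hT : ∀ V ∈ J, R.IsTree V.1 V.2 (T V))
    (h2 : ∀ V ∈ J, ∃ π : K, π ≠ 0 ∧ V.2 = ‖π‖) (h0 : ∀ V ∈ J, 0 < ρ.real (DD V))
    (h1 : ∀ V ∈ J, ρ.real (DD V) < 1) {m : ℝ} (hm : ∀ V ∈ J, ρ.real (DD V) ≤ m) (hm0 : 0 ≤ m)
    (l : ℕ) :
    ∑ V ∈ J, loss R ρ (T V) l ≤ ((R.deg : ℝ) ^ 2 + 1) * RatMap.bet R.deg l * m := by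
  have hb := bet_nonneg h l
  calc ∑ V ∈ J, loss R ρ (T V) l
      ≤ ∑ V ∈ J, (((T V l).filter (fun U => R.Bad U.1 U.2)).card : ℝ) *
          (RatMap.bet R.deg l * m) := by
        refine Finset.sum_le_sum fun V hV => ?_
        unfold loss
        rw [← nsmul_eq_mul]
        refine Finset.sum_le_card_nsmul _ _ _ ?_
        intro U hU
        refine (mass_le h hG (h2 V hV) (h0 V hV) (h1 V hV) (hT V hV) l
          (Finset.mem_filter.1 hU).1).trans ?_
        exact mul_le_mul_of_nonneg_left (hm V hV) hb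
    _ = ((∑ V ∈ J, ((T V l).filter (fun U => R.Bad U.1 U.2)).card : ℕ) : ℝ) *
          (RatMap.bet R.deg l * m) := by
        rw [Nat.cast_sum, Finset.sum_mul]
    _ ≤ ((R.deg : ℝ) ^ 2 + 1) * (RatMap.bet R.deg l * m) := by
        refine mul_le_mul_of_nonneg_right ?_ (mul_nonneg hb hm0)
        exact_mod_cast sum_card_bad h J hJ T hT l
    _ = _ := by ring

/-- the points whose orbit under `R^g` avoids `U` for the times `< k`. -/
def avoid (R : RatMap K) (U : Set (P1 K)) (g : ℕ) : ℕ → Set (P1 K)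
  | 0 => Set.univ
  | k + 1 => (R.iter g).act ⁻¹' (avoid R U g k) \ U

theorem mem_avoid (U : Set (P1 K)) (g k : ℕ) {x : P1 K}
    (hx : ∀ i < k, (R.iter (i * g)).act x ∉ U) : x ∈ avoid R U g k := by
  induction k generalizing x with
  | zero => exact Set.mem_univ _
  | succ k ih =>
    refine ⟨ih ?_, ?_⟩
    · intro i hi
      have := hx (i + 1) (by omega)
      rw [add_mul, one_mul, RatMap.act_iter_add] at this
      exact this
    · have := hx 0 (by omega)
      rw [zero_mul] at this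
      rwa [show (R.iter 0).act x = x from RatMap.act_id x] at this

theorem meas_avoid {U : Set (P1 K)} (hU : MeasurableSet U) (g k : ℕ) :
    MeasurableSet (avoid R U g k) := by
  induction k with
  | zero => exact MeasurableSet.univ
  | succ k ih => exact ((R.iter g).continuous_act.measurable ih).diff hU

theorem mass_avoid (h : Setup R ρ) (hG : ¬ R.CaseG) {c : K} {s : ℝ} (hs : 0 < s) {g : ℕ}
    (hg : RatMap.bet R.deg g ≤ ρ.real (oD c s) / 2) (k : ℕ) :
    ρ.real (avoid R (oD c s) g k) ≤ (1 - ρ.real (oD c s) / 2) ^ k := by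
  have := h.prob
  have hle1 : ρ.real (oD c s) ≤ 1 := measureReal_le_one
  induction k with
  | zero => simp
  | succ k ih =>
    have hm := meas_avoid (R := R) (isOpen_oD c s).measurableSet g k
    have e0 : ρ.real ((R.iter g).act ⁻¹' (avoid R (oD c s) g k)) =
        ρ.real (avoid R (oD c s) g k) := by
      rw [measureReal_def, measureReal_def, h.measure_preimage g hm]
    have e1 := measureReal_inter_add_sdiff (μ := ρ)
      (s := (R.iter g).act ⁻¹' (avoid R (oD c s) g k)) (isOpen_oD c s).measurableSet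
    rw [Set.inter_comm, e0] at e1
    have e2 := h.mixing_oD hG g c hs hm
    have e3 := (abs_le.1 e2).1
    have h4 : 0 ≤ ρ.real (avoid R (oD c s) g k) := measureReal_nonneg
    have e5 : ρ.real (avoid R (oD c s) g (k + 1)) ≤
        (1 - ρ.real (oD c s) / 2) * ρ.real (avoid R (oD c s) g k) := by
      show ρ.real ((R.iter g).act ⁻¹' (avoid R (oD c s) g k) \ (oD c s)) ≤ _
      have := mul_le_mul_of_nonneg_right hg h4
      nlinarith
    refine e5.trans ?_
    rw [pow_succ']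
    exact mul_le_mul_of_nonneg_left ih (by linarith)

open Classical in
theorem uncovered (h : Setup R ρ) (hG : ¬ R.CaseG) {c : K} {s : ℝ}
    (hs : ∃ π : K, π ≠ 0 ∧ s = ‖π‖) (h0 : 0 < ρ.real (oD c s)) (h1 : ρ.real (oD c s) < 1)
    {T : ℕ → Finset (K × ℝ)} (hT : R.IsTree c s T) (n : ℕ) :
    ρ.real ((R.iter n).act ⁻¹' (oD c s) \ ⋃ V ∈ T n, oD V.1 V.2) ≤
      ∑ l ∈ Finset.range n, loss R ρ T l := by
  have := h.prob
  obtain ⟨π, hπ, rfl⟩ := hs
  have hm : MeasurableSet (⋃ V ∈ T n, (oD V.1 V.2 : Set (P1 K))) :=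
    Finset.measurableSet_biUnion _ fun V _ => (isOpen_oD V.1 V.2).measurableSet
  have e1 := h.measure_uncovered_le hG hπ h0 h1 hT n hm.compl
  rw [Set.compl_inter_self, measureReal_empty, zero_add] at e1
  rw [Set.sdiff_eq, Set.inter_comm]
  refine e1.trans (Finset.sum_le_sum fun l _ => ?_)
  unfold loss
  refine Finset.sum_le_sum fun V _ => ?_
  have e2 := h.measure_preimage (n - l) (isOpen_oD V.1 V.2).measurableSet
  refine (measureReal_mono Set.inter_subset_right).trans ?_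
  rw [measureReal_def, measureReal_def, e2]

open Classical in
/-- choice of the disc `U`. -/
theorem exists_start (h : Setup R ρ) (J : Finset (K × ℝ))
    (hJ : ∀ V ∈ J, ∀ V' ∈ J, V ≠ V' → Disjoint (DD V : Set (P1 K)) (DD V'))
    (T : K × ℝ → ℕ → Finset (K × ℝ)) (hT : ∀ V ∈ J, R.IsTree V.1 V.2 (T V)) (l₀ : ℕ) {δ : ℝ}
    (hδ : 0 < δ) (hcard : l₀ * (R.deg ^ 2 + 1) + ⌈1 / δ⌉₊ + 1 ≤ J.card) :
    ∃ V ∈ J, ρ.real (DD V) ≤ δ ∧ ∀ l < l₀, (T V l).filter (fun U => R.Bad U.1 U.2) = ∅ := by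
  have := h.prob
  by_contra hcon
  push Not at hcon
  have hsub : J ⊆ (Finset.range l₀).biUnion (fun l => J.filter
      (fun V => ((T V l).filter (fun U => R.Bad U.1 U.2)).Nonempty)) ∪
      J.filter (fun V => δ < ρ.real (DD V)) := by
    intro V hV
    rw [Finset.mem_union]
    by_cases hb : ρ.real (DD V) ≤ δ
    · left
      obtain ⟨l, hl, hne⟩ := hcon V hV hb
      rw [Finset.mem_biUnion]
      exact ⟨l, Finset.mem_range.2 hl, Finset.mem_filter.2 ⟨hV, hne⟩⟩
    · right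
      exact Finset.mem_filter.2 ⟨hV, not_le.1 hb⟩
  have hc1 : ((Finset.range l₀).biUnion (fun l => J.filter
      (fun V => ((T V l).filter (fun U => R.Bad U.1 U.2)).Nonempty))).card ≤
      l₀ * (R.deg ^ 2 + 1) := by
    refine Finset.card_biUnion_le.trans ?_
    have : ∀ l ∈ Finset.range l₀, (J.filter
      (fun V => ((T V l).filter (fun U => R.Bad U.1 U.2)).Nonempty)).card ≤ R.deg ^ 2 + 1 := by
      intro l _
      refine le_trans ?_ (sum_card_bad h J hJ T hT l)
      rw [Finset.card_eq_sum_ones, Finset.sum_filter]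
      refine Finset.sum_le_sum fun V _ => ?_
      split_ifs with hne
      · exact Finset.card_pos.2 hne
      · exact Nat.zero_le _
    refine (Finset.sum_le_card_nsmul _ _ _ this).trans ?_
    rw [Finset.card_range, smul_eq_mul]
  have hc2 : (J.filter (fun V => δ < ρ.real (DD V))).card ≤ ⌈1 / δ⌉₊ := by
    have e1 : ((J.filter (fun V => δ < ρ.real (DD V))).card : ℝ) * δ ≤ 1 := by
      rw [← nsmul_eq_mul]
      refine (Finset.card_nsmul_le_sum _ _ _ (fun V hV => (Finset.mem_filter.1 hV).2.le)).trans ?_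
      rw [← measureReal_biUnion_finset]
      · exact measureReal_le_one
      · intro V hV V' hV' hne
        exact hJ V (Finset.mem_filter.1 hV).1 V' (Finset.mem_filter.1 hV').1 hne
      · exact fun V _ => meas_DD V
    have e2 : ((J.filter (fun V => δ < ρ.real (DD V))).card : ℝ) ≤ 1 / δ := by
      rw [le_div_iff₀ hδ]
      exact e1
    exact_mod_cast e2.trans (Nat.le_ceil _)
  have hc3 := Finset.card_le_card hsub
  have hc4 := hc3.trans (Finset.card_union_le _ _)
  omega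

/-- the sum of the losses of a tree without bad discs at low levels. -/
theorem sum_loss_start (h : Setup R ρ) (hG : ¬ R.CaseG) {c : K} {s : ℝ}
    (hs : ∃ π : K, π ≠ 0 ∧ s = ‖π‖) (h0 : 0 < ρ.real (oD c s)) (h1 : ρ.real (oD c s) < 1)
    {T : ℕ → Finset (K × ℝ)} (hT : R.IsTree c s T) {l₀ : ℕ} (hl : ∀ l < l₀, loss R ρ T l = 0)
    (n : ℕ) :
    ∑ l ∈ Finset.range n, loss R ρ T l ≤
      ((R.deg : ℝ) ^ 2 + 1) * ρ.real (oD c s) * ∑' k, RatMap.bet R.deg (k + l₀) := by
  obtain ⟨π, hπ, rfl⟩ := hs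
  have e1 : ∑ l ∈ Finset.range n, loss R ρ T l ≤ ∑ l ∈ Finset.range (l₀ + n), loss R ρ T l :=
    Finset.sum_le_sum_of_subset_of_nonneg (Finset.range_subset_range.2 (by omega))
      (fun l _ _ => loss_nonneg T l)
  refine e1.trans ?_
  rw [Finset.sum_range_add, Finset.sum_eq_zero (fun l hl' => hl l (Finset.mem_range.1 hl')),
    zero_add]
  have hsum : Summable (fun k => RatMap.bet R.deg (k + l₀)) :=
    (summable_nat_add_iff l₀).2 h.summable_bet
  calc ∑ x ∈ Finset.range n, loss R ρ T (l₀ + x)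
      ≤ ∑ x ∈ Finset.range n, ((R.deg : ℝ) ^ 2 + 1) * ρ.real (oD c ‖π‖) *
          RatMap.bet R.deg (x + l₀) := by
        refine Finset.sum_le_sum fun x _ => ?_
        refine (h.loss_le hG hπ h0 h1 hT (l₀ + x)).trans (le_of_eq ?_)
        rw [add_comm l₀ x]
        ring
    _ = ((R.deg : ℝ) ^ 2 + 1) * ρ.real (oD c ‖π‖) *
          ∑ x ∈ Finset.range n, RatMap.bet R.deg (x + l₀) := by rw [Finset.mul_sum]
    _ ≤ _ := by
        refine mul_le_mul_of_nonneg_left ?_ (by positivity)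
        exact hsum.sum_le_tsum _ (fun k _ => bet_nonneg h _)

open Classical in
/-- **Case E**: if there are arbitrarily many disjoint discs of positive mass, then there are tile
families. -/
theorem tileFam_of_many (h : Setup R ρ) (hG : ¬ R.CaseG)
    (hE : ∀ N : ℕ, ∃ I : Finset (K × K), N ≤ I.card ∧
      (∀ p ∈ I, p.2 ≠ 0 ∧ 0 < ρ (oD p.1 ‖p.2‖)) ∧
      ∀ p ∈ I, ∀ q ∈ I, p ≠ q → Disjoint (oD p.1 ‖p.2‖ : Set (P1 K)) (oD q.1 ‖q.2‖))
    {ε : ℝ} (hε : 0 < ε) : TileFam R ρ ε := by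
  have := h.prob
  have hd1 : 1 ≤ R.deg := by have := h.hd; omega
  -- constants
  set D : ℝ := (R.deg : ℝ) ^ 2 + 1 with hD
  have hD0 : 0 < D := by positivity
  set B : ℝ := ∑' k, RatMap.bet R.deg k with hB
  have hB0 : 0 ≤ B := tsum_nonneg fun k => bet_nonneg h k
  set M₀ : ℝ := 8 / ε with hM₀
  have hM0 : 0 < M₀ := by positivity
  have hexp : Real.exp (-(M₀ / 2)) ≤ ε / 4 := by
    have e1 : M₀ / 2 ≤ Real.exp (M₀ / 2) := by
      have := Real.add_one_le_exp (M₀ / 2)
      linarith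
    rw [Real.exp_neg]
    have e2 : (Real.exp (M₀ / 2))⁻¹ ≤ (M₀ / 2)⁻¹ := inv_anti₀ (by positivity) e1
    refine e2.trans (le_of_eq ?_)
    rw [hM₀]
    field_simp
    norm_num
  obtain ⟨l₀, hl₀⟩ : ∃ l₀ : ℕ, (M₀ + 2) * D * ∑' k, RatMap.bet R.deg (k + l₀) < ε / 4 := by
    have e1 := (tendsto_sum_nat_add (RatMap.bet R.deg)).const_mul ((M₀ + 2) * D)
    rw [mul_zero] at e1
    exact (e1.eventually_lt_const (by positivity)).exists
  set δ : ℝ := min (min ε (1 / 2)) (ε / (4 * (D * B + 1))) with hδ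
  have hδ0 : 0 < δ := by
    rw [hδ]
    refine lt_min (lt_min hε (by norm_num)) (by positivity)
  have hδε : δ ≤ ε := (min_le_left _ _).trans (min_le_left _ _)
  have hδ2 : δ ≤ 1 / 2 := (min_le_left _ _).trans (min_le_right _ _)
  have hδB : D * B * δ ≤ ε / 4 := by
    have e1 : δ ≤ ε / (4 * (D * B + 1)) := min_le_right _ _
    have e2 : D * B * δ ≤ (D * B + 1) * (ε / (4 * (D * B + 1))) := by
      refine mul_le_mul (by linarith) e1 hδ0.le (by positivity)
    refine e2.trans (le_of_eq ?_)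
    field_simp
  -- trees
  have hTr : ∀ V : K × ℝ, ∃ T : ℕ → Finset (K × ℝ), 0 < V.2 → R.IsTree V.1 V.2 T := by
    intro V
    by_cases hV : 0 < V.2
    · obtain ⟨T, hT⟩ := R.exists_tree hd1 (c := V.1) hV
      exact ⟨T, fun _ => hT⟩
    · exact ⟨fun _ => ∅, fun h => (hV h).elim⟩
  choose T hT using hTr
  -- the family of discs
  obtain ⟨I, hIc, hIp, hId⟩ := hE (l₀ * (R.deg ^ 2 + 1) + ⌈1 / δ⌉₊ + 1)
  set J : Finset (K × ℝ) := I.image (fun p => (p.1, ‖p.2‖)) with hJdef
  have hJI : ∀ V ∈ J, ∃ p ∈ I, V = (p.1, ‖p.2‖) := by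
    intro V hV
    obtain ⟨p, hp, rfl⟩ := Finset.mem_image.1 hV
    exact ⟨p, hp, rfl⟩
  have hJcard : J.card = I.card := by
    rw [hJdef]
    refine Finset.card_image_of_injOn ?_
    intro p hp q hq hpq
    by_contra hne
    have e1 := hId p hp q hq hne
    simp only [Prod.mk.injEq] at hpq
    rw [hpq.1, hpq.2] at e1
    obtain ⟨x, hx⟩ := nonempty_DD (K := K) (V := (q.1, ‖q.2‖)) (norm_pos_iff.2 (hIp q hq).1)
    exact Set.disjoint_left.1 e1 hx hx
  have hJd : ∀ V ∈ J, ∀ V' ∈ J, V ≠ V' → Disjoint (DD V : Set (P1 K)) (DD V') := by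
    intro V hV V' hV' hne
    obtain ⟨p, hp, rfl⟩ := hJI V hV
    obtain ⟨q, hq, rfl⟩ := hJI V' hV'
    exact hId p hp q hq (fun hpq => hne (by rw [hpq]))
  have hJpos : ∀ V ∈ J, 0 < V.2 := by
    intro V hV
    obtain ⟨p, hp, rfl⟩ := hJI V hV
    exact norm_pos_iff.2 (hIp p hp).1
  have hJT : ∀ V ∈ J, R.IsTree V.1 V.2 (T V) := fun V hV => hT V (hJpos V hV)
  obtain ⟨U, hUJ, hUδ, hUbad⟩ := exists_start h J hJd T hJT l₀ hδ0 (by rw [hJcard]; exact hIc)
  have hU2 : ∃ π : K, π ≠ 0 ∧ U.2 = ‖π‖ := by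
    obtain ⟨p, hp, rfl⟩ := hJI U hUJ
    exact ⟨p.2, (hIp p hp).1, rfl⟩
  have hU0 : 0 < ρ.real (oD U.1 U.2) := by
    obtain ⟨p, hp, rfl⟩ := hJI U hUJ
    exact ENNReal.toReal_pos (hIp p hp).2.ne' (measure_ne_top _ _)
  have hU1 : ρ.real (oD U.1 U.2) < 1 := by
    have : ρ.real (DD U) < 1 := by linarith
    exact this
  have hUT := hJT U hUJ
  have hUl : ∀ l < l₀, loss R ρ (T U) l = 0 := by
    intro l hl
    unfold loss
    rw [hUbad l hl, Finset.sum_empty]
  set p := ρ.real (oD U.1 U.2) with hp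
  set τ := ∑' k, RatMap.bet R.deg (k + l₀) with hτ
  have hτ0 : 0 ≤ τ := tsum_nonneg fun k => bet_nonneg h _
  have hpδ : p ≤ δ := hUδ
  obtain ⟨g, hg⟩ : ∃ g, RatMap.bet R.deg g ≤ p / 2 :=
    (h.summable_bet.tendsto_atTop_zero.eventually_le_const (by positivity)).exists
  set M := ⌈M₀ / p⌉₊ with hM
  have hM1 : M₀ / p ≤ M := Nat.le_ceil _
  have hM2 : (M : ℝ) < M₀ / p + 1 := Nat.ceil_lt_add_one (by positivity)
  have hMp1 : M₀ ≤ M * p := by
    rwa [div_le_iff₀ hU0] at hM1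
  have hMp2 : ((M : ℝ) + 1) * p ≤ M₀ + 2 := by
    have e1 : ((M : ℝ) + 1) * p ≤ (M₀ / p + 2) * p :=
      mul_le_mul_of_nonneg_right (by linarith) hU0.le
    have e2 : (M₀ / p + 2) * p = M₀ + 2 * p := by field_simp
    linarith
  have hav : ρ.real (avoid R (oD U.1 U.2) g (M + 1)) ≤ ε / 4 := by
    refine (mass_avoid h hG (hJpos U hUJ) hg (M + 1)).trans ?_
    have e1 : 1 - p / 2 ≤ Real.exp (-(p / 2)) := Real.one_sub_le_exp_neg _
    have e2 : (1 - p / 2) ^ (M + 1) ≤ Real.exp (-(p / 2)) ^ (M + 1) :=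
      pow_le_pow_left₀ (by linarith) e1 _
    rw [← Real.exp_nat_mul] at e2
    refine e2.trans (le_trans (Real.exp_le_exp.2 ?_) hexp)
    push_cast
    nlinarith
  set F := (Finset.range (M + 1)).biUnion (fun i => T U (i * g)) with hF
  obtain ⟨G, hGF, hGd, hGc⟩ := exists_max F
  have hGF' : ∀ V ∈ G, ∃ i, V ∈ T U (i * g) := by
    intro V hV
    have h1 := hGF hV
    rw [hF, Finset.mem_biUnion] at h1
    obtain ⟨i, -, h1⟩ := h1
    exact ⟨i, h1⟩
  have hcover : (Set.univ : Set (P1 K)) ⊆ (avoid R (oD U.1 U.2) g (M + 1) ∪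
      (⋃ i ∈ Finset.range (M + 1), ((R.iter (i * g)).act ⁻¹' (oD U.1 U.2) \
        ⋃ V ∈ T U (i * g), oD V.1 V.2))) ∪ ⋃ V ∈ G, DD V := by
    intro x _
    by_cases h1 : x ∈ ⋃ V ∈ G, (DD V : Set (P1 K))
    · exact Or.inr h1
    left
    by_cases h2 : ∃ i < M + 1, (R.iter (i * g)).act x ∈ oD U.1 U.2
    · obtain ⟨i, hi, hx⟩ := h2
      right
      rw [Set.mem_iUnion₂]
      refine ⟨i, Finset.mem_range.2 hi, hx, fun h3 => h1 (hGc ?_)⟩
      rw [Set.mem_iUnion₂] at h3 ⊢
      obtain ⟨V, hV, hxV⟩ := h3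
      exact ⟨V, Finset.mem_biUnion.2 ⟨i, Finset.mem_range.2 hi, hV⟩, hxV⟩
    · left
      push Not at h2
      exact mem_avoid _ _ _ h2
  have hmass : 1 ≤ ε / 4 + ε / 4 + ∑ V ∈ G, ρ.real (DD V) := by
    have e1 : (1 : ℝ) = ρ.real Set.univ := by simp
    rw [e1]
    refine (measureReal_mono hcover).trans ((measureReal_union_le _ _).trans ?_)
    refine add_le_add ((measureReal_union_le _ _).trans (add_le_add hav ?_)) ?_
    · refine (measureReal_biUnion_finset_le _ _).trans ?_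
      have e2 : ∀ i ∈ Finset.range (M + 1), ρ.real ((R.iter (i * g)).act ⁻¹' (oD U.1 U.2) \
        ⋃ V ∈ T U (i * g), oD V.1 V.2) ≤ D * p * τ := fun i _ =>
        (uncovered h hG hU2 hU0 hU1 hUT (i * g)).trans
          (sum_loss_start h hG hU2 hU0 hU1 hUT hUl (i * g))
      refine (Finset.sum_le_card_nsmul _ _ _ e2).trans ?_
      rw [Finset.card_range, nsmul_eq_mul]
      push_cast
      have e3 : ((M : ℝ) + 1) * (D * p * τ) = (((M : ℝ) + 1) * p) * (D * τ) := by ring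
      have e4 : (((M : ℝ) + 1) * p) * (D * τ) ≤ (M₀ + 2) * (D * τ) :=
        mul_le_mul_of_nonneg_right hMp2 (by positivity)
      linarith
    · rw [measureReal_biUnion_finset]
      · intro V hV V' hV' hne
        exact hGd V hV V' hV' hne
      · exact fun V _ => meas_DD V
  have hGg : ∀ V ∈ G, ∃ n, (R.iter n).GoodPull V.1 V.2 U.1 U.2 := by
    intro V hV
    obtain ⟨i, hi⟩ := hGF' V hV
    exact ⟨i * g, hUT.good _ V hi⟩
  have hGpos : ∀ V ∈ G, 0 < V.2 := by
    intro V hV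
    obtain ⟨n, hn⟩ := hGg V hV
    exact hn.rpos
  have hG2 : ∀ V ∈ G, ∃ π : K, π ≠ 0 ∧ V.2 = ‖π‖ := by
    intro V hV
    obtain ⟨n, hn⟩ := hGg V hV
    exact hn.exists_norm (one_le_deg_iter h n) hU2
  have hG0 : ∀ V ∈ G, 0 < ρ.real (DD V) := by
    intro V hV
    obtain ⟨i, hi⟩ := hGF' V hV
    exact mass_pos h hU0 hUT _ hi
  have hGm : ∀ V ∈ G, ρ.real (DD V) ≤ p := by
    intro V hV
    obtain ⟨i, hi⟩ := hGF' V hV
    exact mass_le' h hUT _ hi
  have hG1 : ∀ V ∈ G, ρ.real (DD V) < 1 := fun V hV => (hGm V hV).trans_lt hU1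
  have hGT : ∀ V ∈ G, R.IsTree V.1 V.2 (T V) := fun V hV => hT V (hGpos V hV)
  have hls : ∀ V ∈ G, Summable (loss R ρ (T V)) := by
    intro V hV
    obtain ⟨π, hπ, hr⟩ := hG2 V hV
    have h0 := hG0 V hV
    have h1 := hG1 V hV
    have hTV := hGT V hV
    simp only [DD, hr] at h0 h1 hTV
    refine Summable.of_nonneg_of_le (fun l => loss_nonneg _ l)
      (fun l => h.loss_le hG hπ h0 h1 hTV l) ?_
    exact (h.summable_bet.mul_left _).mul_right _
  have htot : ∑ V ∈ G, ∑' l, loss R ρ (T V) l ≤ ε / 4 := by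
    rw [← Summable.tsum_finsetSum hls]
    calc ∑' l, ∑ V ∈ G, loss R ρ (T V) l ≤ ∑' l, D * RatMap.bet R.deg l * p := by
          refine Summable.tsum_le_tsum (fun l => ?_) (summable_sum hls)
            ((h.summable_bet.mul_left _).mul_right _)
          exact sum_loss_le h hG G hGd T hGT hG2 hG0 hG1 hGm hU0.le l
      _ = D * B * p := by rw [tsum_mul_right, tsum_mul_left]
      _ ≤ D * B * δ := mul_le_mul_of_nonneg_left hpδ (by positivity)
      _ ≤ ε / 4 := hδB
  have hfix : ∀ V ∈ G, HasFix R (DD V) (ρ.real (DD V) - ∑' l, loss R ρ (T V) l) := by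
    intro V hV
    obtain ⟨π, hπ, hr⟩ := hG2 V hV
    have h0 := hG0 V hV
    have h1 := hG1 V hV
    have hTV := hGT V hV
    simp only [DD, hr] at h0 h1 hTV ⊢
    exact h.hasFix_disc hG hπ h0 h1 hTV
  let e := G.equivFin
  refine ⟨G.card, fun i => DD (e.symm i : K × ℝ), fun i => ρ.real (DD (e.symm i : K × ℝ)) -
    ∑' l, loss R ρ (T (e.symm i : K × ℝ)) l, ?_, ?_, ?_⟩
  · intro i j hij
    exact hGd _ (e.symm i).2 _ (e.symm j).2
      (fun h => hij (e.symm.injective (Subtype.ext h)))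
  · intro i
    have hV : (e.symm i : K × ℝ) ∈ G := (e.symm i).2
    refine ⟨meas_DD _, discLike_oD _ (hGpos _ hV), (hGm _ hV).trans (hpδ.trans hδε),
      hfix _ hV, ?_⟩
    have : 0 ≤ ∑' l, loss R ρ (T (e.symm i : K × ℝ)) l := tsum_nonneg fun l => loss_nonneg _ l
    linarith
  · rw [Equiv.sum_comp e.symm
      (fun V : G => ρ.real (DD V.1) - ∑' l, loss R ρ (T V.1) l),
      Finset.sum_coe_sort G (fun V => ρ.real (DD V) - ∑' l, loss R ρ (T V) l),
      Finset.sum_sub_distrib]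
    linarith

end Pool.Agent.Helper32.CaseE
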