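import Mathlib
import Pool.Agent.Helper26.Maz.Defs

/-!
# Charts: general lemmas
-/

set_option autoImplicit false

namespace Pool.Agent.Helper26.Maz.H32

open Topology

section general

variable {E E' : Type*} [TopologicalSpace E] [TopologicalSpace E'] {Y Y' : Type*}
  [TopologicalSpace Y] [TopologicalSpace Y']

/-- `y` has a parametrised neighbourhood by an open part of the subset `M` of the space `E`, in which
`D` corresponds to `B`. -/
def Par (M B : Set E) (D : Set Y) (y : Y) : Prop :=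
  ∃ (U : Set E) (c : (U ∩ M : Set E) → Y), IsOpen U ∧ IsOpenEmbedding c ∧ y ∈ Set.range c ∧
    ∀ x, c x ∈ D ↔ (x : E) ∈ B

theorem Par.toHomeo {M B : Set E} {D : Set Y} {y : Y} (h : Par M B D y) :
    ∃ (N : Set Y) (U : Set E) (e : N ≃ₜ (U ∩ M : Set E)), IsOpen N ∧ y ∈ N ∧
    IsOpen U ∧ ∀ v : N, (v : Y) ∈ D ↔ (e v : E) ∈ B := by
  obtain ⟨U, c, hU, hc, hy, hD⟩ := h
  refine ⟨Set.range c, U, hc.isEmbedding.toHomeomorph.symm, hc.isOpen_range, hy, hU, ?_⟩
  intro v
  rw [← hD]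
  have : c (hc.isEmbedding.toHomeomorph.symm v) = v := by
    have h1 := hc.isEmbedding.toHomeomorph.apply_symm_apply v
    exact congrArg Subtype.val h1
  rw [this]

theorem Par.restrict {M B : Set E} {D : Set Y} {y : Y} (h : Par M B D y) {P : Set Y}
    (hP : IsOpen P) (hy : y ∈ P) :
    ∃ (U : Set E) (c : (U ∩ M : Set E) → Y), IsOpen U ∧ IsOpenEmbedding c ∧ y ∈ Set.range c ∧
    (∀ x, c x ∈ D ↔ (x : E) ∈ B) ∧ Set.range c ⊆ P := by
  obtain ⟨U, c, hU, hc, ⟨x₀, hx₀⟩, hD⟩ := h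
  have h1 : IsOpen (c ⁻¹' P) := hP.preimage hc.continuous
  obtain ⟨V, hV, hVe⟩ := isOpen_induced_iff.mp h1
  have hsub : (V ∩ U ∩ M : Set E) ⊆ (U ∩ M : Set E) := fun x hx => ⟨hx.1.2, hx.2⟩
  refine ⟨V ∩ U, c ∘ Set.inclusion hsub, hV.inter hU, ?_, ?_, ?_, ?_⟩
  · refine hc.comp ?_
    refine ⟨Topology.IsEmbedding.inclusion hsub, ?_⟩
    rw [Set.range_inclusion]
    have : {x : (U ∩ M : Set E) | (x : E) ∈ V ∩ U ∩ M} = Subtype.val ⁻¹' V := by
      ext x
      have := x.2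
      simp only [Set.mem_ofPred_eq, Set.mem_inter_iff, Set.mem_preimage]
      simp only [Set.mem_inter_iff] at this
      tauto
    rw [this]
    exact hV.preimage continuous_subtype_val
  · have hx : x₀ ∈ c ⁻¹' P := by simp [hx₀, hy]
    rw [← hVe] at hx
    exact ⟨⟨x₀, ⟨hx, x₀.2.1⟩, x₀.2.2⟩, by simpa using hx₀⟩
  · intro x
    exact hD _
  · rintro _ ⟨x, rfl⟩
    have hx : Set.inclusion hsub x ∈ Subtype.val ⁻¹' V := x.2.1.1
    rw [hVe] at hx
    exact hx

theorem Par.push {M B : Set E} (f : Y → Y') (hf : IsEmbedding f) {P : Set Y} (hP : IsOpen P)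
    (hfP : IsOpen (f '' P)) {D : Set Y} {D' : Set Y'} {y : Y} (hy : y ∈ P) (h : Par M B D y)
    (hD : ∀ y ∈ P, f y ∈ D' ↔ y ∈ D) : Par M B D' (f y) := by
  obtain ⟨U, c, hU, hc, ⟨x₀, hx₀⟩, hcD, hcP⟩ := h.restrict hP hy
  refine ⟨U, f ∘ c, hU, ⟨hf.comp hc.isEmbedding, ?_⟩, ⟨x₀, by simp [hx₀]⟩, ?_⟩
  · rw [Set.range_comp]
    obtain ⟨V, hV, hVe⟩ := hf.isInducing.isOpen_iff.mp hc.isOpen_range
    have : f '' Set.range c = f '' P ∩ V := by
      apply Set.Subset.antisymm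
      · rintro _ ⟨z, hz, rfl⟩
        refine ⟨⟨z, hcP hz, rfl⟩, ?_⟩
        rw [← hVe] at hz
        exact hz
      · rintro _ ⟨⟨z, hz, rfl⟩, hzV⟩
        refine ⟨z, ?_, rfl⟩
        rw [← hVe]
        exact hzV
    rw [this]
    exact hfP.inter hV
  · intro x
    rw [← hcD]
    exact hD _ (hcP ⟨x, rfl⟩)

theorem Par.prod {M B : Set E} {D : Set Y} {y : Y} {M' B' : Set E'} {D' : Set Y'} {y' : Y'}
    (h : Par M B D y) (h' : Par M' B' D' y') :
    Par (M ×ˢ M') (Set.univ ×ˢ B') (Set.univ ×ˢ D') (y, y') := by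
  obtain ⟨U, c, hU, hc, ⟨x₀, hx₀⟩, hD⟩ := h
  obtain ⟨U', c', hU', hc', ⟨x₀', hx₀'⟩, hD'⟩ := h'
  have he : (U ×ˢ U') ∩ (M ×ˢ M') = (U ∩ M) ×ˢ (U' ∩ M') := Set.prod_inter_prod
  let T : ((U ×ˢ U') ∩ (M ×ˢ M') : Set (E × E')) ≃ₜ (U ∩ M : Set E) × (U' ∩ M' : Set E') :=
    (Homeomorph.setCongr he).trans (Homeomorph.Set.prod _ _)
  refine ⟨U ×ˢ U', Prod.map c c' ∘ T, hU.prod hU', (hc.prodMap hc').comp T.isOpenEmbedding,
    ⟨T.symm (x₀, x₀'), by simp [hx₀, hx₀']⟩, ?_⟩
  intro x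
  have h2 : ((T x).2 : E') = (x : E × E').2 := rfl
  simp only [Function.comp_apply, Prod.map, Set.mem_prod, Set.mem_univ, true_and]
  rw [hD', h2]

theorem Par.transfer {M B : Set E} {D : Set Y} {y : Y} {M' B' : Set E'} (T : E ≃ₜ E')
    (hM : ∀ x, T x ∈ M' ↔ x ∈ M) (hB : ∀ x, T x ∈ B' ↔ x ∈ B) (h : Par M B D y) :
    Par M' B' D y := by
  obtain ⟨U, c, hU, hc, ⟨x₀, hx₀⟩, hD⟩ := h
  have he : T '' (U ∩ M) = (T '' U) ∩ M' := by
    ext z
    constructor
    · rintro ⟨x, hx, rfl⟩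
      exact ⟨⟨x, hx.1, rfl⟩, (hM x).mpr hx.2⟩
    · rintro ⟨⟨x, hx, rfl⟩, hz⟩
      exact ⟨x, ⟨hx, (hM x).mp hz⟩, rfl⟩
  let S : ((T '' U) ∩ M' : Set E') ≃ₜ (U ∩ M : Set E) :=
    ((T.image (U ∩ M)).trans (Homeomorph.setCongr he)).symm
  refine ⟨T '' U, c ∘ S, T.isOpenMap U hU, hc.comp S.isOpenEmbedding,
    ⟨S.symm x₀, by simp [hx₀]⟩, ?_⟩
  intro x
  obtain ⟨z, rfl⟩ := S.symm.surjective x
  rw [Function.comp_apply, Homeomorph.apply_symm_apply, hD, ← hB]
  rfl

/-- A parametrisation by an open set. -/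
theorem Par.of_open {U : Set E} (hU : IsOpen U) (c : U → Y) (hc : IsOpenEmbedding c) {y : Y}
    (hy : y ∈ Set.range c) : Par (Set.univ : Set E) ∅ (∅ : Set Y) y := by
  have he : U ∩ Set.univ = U := by simp
  refine ⟨U, c ∘ Homeomorph.setCongr he, hU, hc.comp (Homeomorph.isOpenEmbedding _), ?_, ?_⟩
  · obtain ⟨x, rfl⟩ := hy
    exact ⟨(Homeomorph.setCongr he).symm x, by simp⟩
  · simp

theorem Par.prodInt {y : Y} {y' : Y'} (h : Par (Set.univ : Set E) ∅ (∅ : Set Y) y)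
    (h' : Par (Set.univ : Set E') ∅ (∅ : Set Y') y') :
    Par (Set.univ : Set (E × E')) ∅ (∅ : Set (Y × Y')) (y, y') := by
  have := h.prod h'
  rwa [Set.univ_prod_univ, Set.prod_empty, Set.prod_empty] at this

theorem Par.pushInt (f : Y → Y') (hf : IsEmbedding f) {P : Set Y} (hP : IsOpen P)
    (hfP : IsOpen (f '' P)) {y : Y} (hy : y ∈ P) (h : Par (Set.univ : Set E) ∅ (∅ : Set Y) y) :
    Par (Set.univ : Set E) ∅ (∅ : Set Y') (f y) :=
  h.push f hf hP hfP hy (fun _ _ => Iff.rfl)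

theorem Par.transferInt (T : E ≃ₜ E') {y : Y} (h : Par (Set.univ : Set E) ∅ (∅ : Set Y) y) :
    Par (Set.univ : Set E') ∅ (∅ : Set Y) y :=
  h.transfer T (fun _ => Iff.rfl) (fun _ => Iff.rfl)

end general

section local'

theorem par_addCircle (p : ℝ) [hp : Fact (0 < p)] (y : AddCircle p) :
    Par (Set.univ : Set ℝ) ∅ (∅ : Set (AddCircle p)) y := by
  obtain ⟨r, rfl⟩ := QuotientAddGroup.mk_surjective y
  have hp' := hp.out
  let e := AddCircle.openPartialHomeomorphCoe p (r - p / 2)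
  refine Par.of_open (U := e.source) e.open_source _ e.isOpenEmbedding_restrict ?_
  refine ⟨⟨r, ?_⟩, rfl⟩
  simp only [e, AddCircle.openPartialHomeomorphCoe_source, Set.mem_Ioo]
  constructor <;> linarith

theorem par_ball_int {E : Type*} [NormedAddCommGroup E] (y : Metric.closedBall (0 : E) 1)
    (hy : ‖(y : E)‖ < 1) :
    Par (Set.univ : Set E) ∅ (∅ : Set (Metric.closedBall (0 : E) 1)) y := by
  refine Par.of_open (U := Metric.ball (0 : E) 1) Metric.isOpen_ball
    (Set.inclusion Metric.ball_subset_closedBall) ?_ ?_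
  · refine ⟨Topology.IsEmbedding.inclusion _, ?_⟩
    rw [Set.range_inclusion]
    exact Metric.isOpen_ball.preimage continuous_subtype_val
  · exact ⟨⟨y, by simpa using hy⟩, rfl⟩

theorem par_Icc_int (a b : ℝ) (y : Set.Icc a b) (hy : (y : ℝ) ∈ Set.Ioo a b) :
    Par (Set.univ : Set ℝ) ∅ (∅ : Set (Set.Icc a b)) y := by
  refine Par.of_open (U := Set.Ioo a b) isOpen_Ioo
    (Set.inclusion Set.Ioo_subset_Icc_self) ?_ ?_
  · refine ⟨Topology.IsEmbedding.inclusion _, ?_⟩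
    rw [Set.range_inclusion]
    exact isOpen_Ioo.preimage continuous_subtype_val
  · exact ⟨⟨y, hy⟩, rfl⟩

/-- The closed ball without a point `v` of the sphere is a half space. -/
theorem par_ball_half {E : Type*} [NormedAddCommGroup E] [InnerProductSpace ℝ E]
    (v : E) (hv : ‖v‖ = 1) (y : Metric.closedBall (0 : E) 1) (hy : (y : E) ≠ v) :
    Par {x : E | inner ℝ v x ≤ 0} {x : E | inner ℝ v x = 0}
      {z : Metric.closedBall (0 : E) 1 | ‖(z : E)‖ = 1} y := by
  have hv2 : inner ℝ v v = (1 : ℝ) := by rw [real_inner_self_eq_norm_sq, hv]; norm_num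
  -- the norm of the inverted point
  have key : ∀ x : E, x ≠ v → ‖v + (2 / ‖x - v‖ ^ 2) • (x - v)‖ ^ 2 =
      1 + 4 * inner ℝ v x / ‖x - v‖ ^ 2 := by
    intro x hx
    have h0 : ‖x - v‖ ≠ 0 := by rw [norm_ne_zero_iff, sub_ne_zero]; exact hx
    rw [norm_add_sq_real, inner_smul_right, norm_smul, inner_sub_right, hv2, hv]
    rw [Real.norm_of_nonneg (by positivity)]
    field_simp
    ring
  have key2 : ∀ x : E, x ≠ v → v + (2 / ‖x - v‖ ^ 2) • (x - v) ≠ v := by
    intro x hx h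
    have h0 : ‖x - v‖ ≠ 0 := by rw [norm_ne_zero_iff, sub_ne_zero]; exact hx
    have h1 : (2 / ‖x - v‖ ^ 2) • (x - v) = 0 := by simpa using h
    rw [smul_eq_zero] at h1
    rcases h1 with h1 | h1
    · have : (2 : ℝ) / ‖x - v‖ ^ 2 ≠ 0 := by positivity
      exact this h1
    · exact hx (sub_eq_zero.mp h1)
  have key3 : ∀ x : E, x ≠ v → v + (2 / ‖(v + (2 / ‖x - v‖ ^ 2) • (x - v)) - v‖ ^ 2) •
      ((v + (2 / ‖x - v‖ ^ 2) • (x - v)) - v) = x := by
    intro x hx
    have h0 : ‖x - v‖ ≠ 0 := by rw [norm_ne_zero_iff, sub_ne_zero]; exact hx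
    rw [add_sub_cancel_left, norm_smul, Real.norm_of_nonneg (by positivity), smul_smul]
    have : 2 / (2 / ‖x - v‖ ^ 2 * ‖x - v‖) ^ 2 * (2 / ‖x - v‖ ^ 2) = 1 := by
      field_simp
    rw [this, one_smul, add_sub_cancel]
  have hne : ∀ x : E, inner ℝ v x ≤ 0 → x ≠ v := by
    rintro x hx rfl
    rw [hv2] at hx
    norm_num at hx
  have hcont : ContinuousOn (fun x : E => v + (2 / ‖x - v‖ ^ 2) • (x - v)) {x | x ≠ v} := by
    refine continuousOn_const.add (ContinuousOn.smul (ContinuousOn.div continuousOn_const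
      (by fun_prop) ?_) (by fun_prop))
    intro x hx
    have h0 : ‖x - v‖ ≠ 0 := by rw [norm_ne_zero_iff, sub_ne_zero]; exact hx
    positivity
  let P : Set (Metric.closedBall (0 : E) 1) := {z | (z : E) ≠ v}
  have hP : IsOpen P := isOpen_ne.preimage continuous_subtype_val
  let T : {x : E | inner ℝ v x ≤ 0} ≃ₜ P :=
    { toFun := fun x => ⟨⟨v + (2 / ‖(x : E) - v‖ ^ 2) • ((x : E) - v), by
          have hx := x.2
          have h1 := key x (hne x hx)
          have h2 : 4 * inner ℝ v (x : E) / ‖(x : E) - v‖ ^ 2 ≤ 0 := by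
            apply div_nonpos_of_nonpos_of_nonneg _ (by positivity)
            have : inner ℝ v (x : E) ≤ 0 := hx
            linarith
          rw [mem_closedBall_zero_iff]
          have h3 : ‖v + (2 / ‖(x : E) - v‖ ^ 2) • ((x : E) - v)‖ ^ 2 ≤ 1 := by linarith
          exact (sq_le_one_iff₀ (norm_nonneg _)).mp h3⟩, key2 x (hne x x.2)⟩
      invFun := fun z => ⟨v + (2 / ‖((z : Metric.closedBall (0 : E) 1) : E) - v‖ ^ 2) •
          (((z : Metric.closedBall (0 : E) 1) : E) - v), by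
          set x := ((z : Metric.closedBall (0 : E) 1) : E) with hx
          have hxv : x ≠ v := z.2
          have hx1 : ‖x‖ ≤ 1 := mem_closedBall_zero_iff.mp z.1.2
          have h0 : ‖x - v‖ ≠ 0 := by rw [norm_ne_zero_iff, sub_ne_zero]; exact hxv
          have h4 : ‖x - v‖ ^ 2 = ‖x‖ ^ 2 - 2 * inner ℝ v x + 1 := by
            rw [norm_sub_sq_real, hv, real_inner_comm]
            ring
          show inner ℝ v (v + (2 / ‖x - v‖ ^ 2) • (x - v)) ≤ 0
          rw [inner_add_right, inner_smul_right, inner_sub_right, hv2]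
          have h5 : 1 + 2 / ‖x - v‖ ^ 2 * (inner ℝ v x - 1) = (‖x‖ ^ 2 - 1) / ‖x - v‖ ^ 2 := by
            field_simp
            rw [h4]
            ring
          rw [h5]
          apply div_nonpos_of_nonpos_of_nonneg _ (by positivity)
          have : ‖x‖ ^ 2 ≤ 1 := (sq_le_one_iff₀ (norm_nonneg _)).mpr hx1
          linarith⟩
      left_inv := fun x => by
        apply Subtype.ext
        exact key3 x (hne x x.2)
      right_inv := fun z => by
        apply Subtype.ext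
        apply Subtype.ext
        exact key3 _ z.2
      continuous_toFun := by
        refine Continuous.subtype_mk (Continuous.subtype_mk ?_ _) _
        exact hcont.comp_continuous continuous_subtype_val (fun x => hne x x.2)
      continuous_invFun := by
        refine Continuous.subtype_mk ?_ _
        exact hcont.comp_continuous (continuous_subtype_val.comp continuous_subtype_val)
          (fun x => x.2) }
  have he : Set.univ ∩ {x : E | inner ℝ v x ≤ 0} = {x : E | inner ℝ v x ≤ 0} := by simp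
  refine ⟨Set.univ, Subtype.val ∘ T ∘ Homeomorph.setCongr he, isOpen_univ,
    hP.isOpenEmbedding_subtypeVal.comp
      (T.isOpenEmbedding.comp (Homeomorph.isOpenEmbedding _)), ?_, ?_⟩
  · refine ⟨(Homeomorph.setCongr he).symm (T.symm ⟨y, hy⟩), ?_⟩
    simp
  · intro x
    have hx : inner ℝ v (x : E) ≤ 0 := x.2.2
    show ‖v + (2 / ‖(x : E) - v‖ ^ 2) • ((x : E) - v)‖ = 1 ↔ inner ℝ v (x : E) = 0
    have h1 := key x (hne x hx)
    have h0 : ‖(x : E) - v‖ ≠ 0 := by
      rw [norm_ne_zero_iff, sub_ne_zero]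
      exact hne x hx
    constructor
    · intro h
      rw [h] at h1
      have h2 : 4 * inner ℝ v (x : E) / ‖(x : E) - v‖ ^ 2 = 0 := by linarith
      rw [div_eq_zero_iff] at h2
      rcases h2 with h2 | h2
      · linarith
      · exact absurd h2 (by positivity)
    · intro h
      rw [h] at h1
      have h2 : ‖v + (2 / ‖(x : E) - v‖ ^ 2) • ((x : E) - v)‖ ^ 2 = 1 := by
        rw [h1]; simp
      rcases sq_eq_sq_iff_eq_or_eq_neg.mp (h2.trans (one_pow 2).symm) with h3 | h3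
      · exact h3
      · have := norm_nonneg (v + (2 / ‖(x : E) - v‖ ^ 2) • ((x : E) - v))
        linarith

end local'

end Pool.Agent.Helper26.Maz.H32
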