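import Mathlib
import Pool.Agent.Helper26.Maz.Defs
import Pool.Agent.Helper32.MazChart

/-!
# Charts of the handlebody
-/

set_option autoImplicit false

namespace Pool.Agent.Helper26.Maz.H32

open Topology

instance : CompactSpace B3 := isCompact_iff_compactSpace.mp (isCompact_closedBall 0 1)

instance : CompactSpace D2 := isCompact_iff_compactSpace.mp (isCompact_closedBall 0 1)

/-- Coordinates of `ℝ⁴`. -/
def T1 (σ : ℝ) (hσ : σ * σ = 1) : (ℝ × EuclideanSpace ℝ (Fin 3)) ≃ₜ EuclideanSpace ℝ (Fin 4) where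
  toFun p := !₂[-σ * p.2 0, p.1, p.2 1, p.2 2]
  invFun x := (x 1, !₂[-σ * x 0, x 2, x 3])
  left_inv p := by
    refine Prod.ext ?_ ?_
    · simp
    · ext i
      fin_cases i
      · have : -σ * (-σ * p.2 0) = (σ * σ) * p.2 0 := by ring
        simp [← mul_assoc, hσ]
      · simp
      · simp
  right_inv x := by
    ext i
    fin_cases i
    · simp [← mul_assoc, hσ]
    · simp
    · simp
    · simp
  continuous_toFun := by fun_prop
  continuous_invFun := by fun_prop

/-- Coordinates of `ℝ⁴`. -/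
def T2 (σ : ℝ) (hσ : σ * σ = 1) : (ℂ × ℂ) ≃ₜ EuclideanSpace ℝ (Fin 4) where
  toFun p := !₂[-σ * p.2.re, p.1.re, p.1.im, p.2.im]
  invFun x := (⟨x 1, x 2⟩, ⟨-σ * x 0, x 3⟩)
  left_inv p := by
    refine Prod.ext ?_ ?_
    · apply Complex.ext <;> simp
    · apply Complex.ext <;> simp [← mul_assoc, hσ]
  right_inv x := by
    ext i
    fin_cases i
    · simp [← mul_assoc, hσ]
    · simp
    · simp
    · simp
  continuous_toFun := by fun_prop
  continuous_invFun := by
    refine Continuous.prodMk ?_ ?_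
    · exact (Complex.equivRealProdCLM.symm.continuous.comp
        (f := fun x : EuclideanSpace ℝ (Fin 4) => ((x 1, x 2) : ℝ × ℝ)) (by fun_prop))
    · exact (Complex.equivRealProdCLM.symm.continuous.comp
        (f := fun x : EuclideanSpace ℝ (Fin 4) => ((-σ * x 0, x 3) : ℝ × ℝ)) (by fun_prop))

/-- Coordinates of `ℝ⁴`. -/
def T3 : (ℝ × (ℂ × ℝ)) ≃ₜ EuclideanSpace ℝ (Fin 4) where
  toFun p := !₂[p.1, p.2.1.re, p.2.1.im, p.2.2]
  invFun x := (x 0, ⟨x 1, x 2⟩, x 3)
  left_inv p := by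
    refine Prod.ext ?_ (Prod.ext ?_ ?_)
    · simp
    · apply Complex.ext <;> simp
    · simp
  right_inv x := by
    ext i
    fin_cases i <;> simp
  continuous_toFun := by fun_prop
  continuous_invFun := by
    refine Continuous.prodMk (by fun_prop) (Continuous.prodMk ?_ (by fun_prop))
    exact (Complex.equivRealProdCLM.symm.continuous.comp
        (f := fun x : EuclideanSpace ℝ (Fin 4) => ((x 1, x 2) : ℝ × ℝ)) (by fun_prop))

section W

variable {W : Type*} [TopologicalSpace W] [T2Space W] {φ : C26 × D2 → C4 × S2}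
  {iA : C4 × B3 → W} {iH : D2 × D2 → W}

theorem isOpen_of (hW : IsAttached W φ iA iH) {N : Set W}
    (h1 : IsOpen (iA ⁻¹' N)) (h2 : IsOpen (iH ⁻¹' N)) : IsOpen N := by
  obtain ⟨hA, -, hH, -, hcov, -⟩ := hW
  rw [← isClosed_compl_iff]
  have : Nᶜ = iA '' (iA ⁻¹' N)ᶜ ∪ iH '' (iH ⁻¹' N)ᶜ := by
    ext w
    constructor
    · intro hw
      rcases hcov w with ⟨a, rfl⟩ | ⟨a, rfl⟩
      · exact Or.inl ⟨a, hw, rfl⟩
      · exact Or.inr ⟨a, hw, rfl⟩
    · rintro (⟨a, ha, rfl⟩ | ⟨a, ha, rfl⟩)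
      · exact ha
      · exact ha
  rw [this]
  exact ((h1.isClosed_compl.isCompact.image hA).union
    (h2.isClosed_compl.isCompact.image hH)).isClosed

theorem abs_one_of_mul_self {σ : ℝ} (h : σ * σ = 1) : |σ| = 1 := by
  rcases mul_self_eq_one_iff.mp h with h | h <;> simp [h]

theorem continuous_toB : Continuous toB := by
  unfold toB
  fun_prop

theorem norm_toB (p : C4 × S2) : ‖((toB p).2 : EuclideanSpace ℝ (Fin 3))‖ = 1 := by
  simp [toB]

theorem norm_bz (t : C26) : ‖(bz t : ℂ)‖ = 1 := by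
  simp [bz, Circle.norm_coe]

theorem continuous_bz : Continuous bz := by
  unfold bz
  refine Continuous.subtype_mk ?_ _
  exact continuous_subtype_val.comp (AddCircle.continuous_toCircle)

theorem bz_injective : Function.Injective bz := by
  intro t t' h
  have h1 : (bz t : ℂ) = bz t' := by rw [h]
  have h2 : AddCircle.toCircle t = AddCircle.toCircle t' := Circle.ext h1
  exact AddCircle.injective_toCircle (by norm_num) h2

theorem bz_surj (z : ℂ) (hz : ‖z‖ = 1) : ∃ t, (bz t : ℂ) = z := by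
  have hz' : z ∈ Submonoid.unitSphere ℂ := by
    simpa [Submonoid.unitSphere] using hz
  obtain ⟨t, ht⟩ := (AddCircle.homeomorphCircle (T := 26) (by norm_num)).surjective ⟨z, hz'⟩
  refine ⟨t, ?_⟩
  rw [AddCircle.homeomorphCircle_apply] at ht
  simp [bz, ht]

theorem toB_injective : Function.Injective toB := by
  rintro ⟨a, b⟩ ⟨a', b'⟩ h
  simp only [toB, Prod.mk.injEq, Subtype.mk.injEq] at h
  exact Prod.ext h.1 (Subtype.ext h.2)

/-- the image under `iA` of a set of points not in the attaching region -/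
theorem isOpen_A (hW : IsAttached W φ iA iH) {P : Set (C4 × B3)} (hP : IsOpen P)
    (h : ∀ p, toB (φ p) ∉ P) : IsOpen (iA '' P) := by
  have hW' := hW
  obtain ⟨hA, hAi, hH, hHi, hcov, hatt⟩ := hW
  refine isOpen_of hW' ?_ ?_
  · rwa [Set.preimage_image_eq _ hAi]
  · have : iH ⁻¹' (iA '' P) = ∅ := by
      ext x
      simp only [Set.mem_preimage, Set.mem_image, Set.mem_empty_iff_false, iff_false]
      rintro ⟨a, ha, he⟩
      obtain ⟨t, s, h1, -⟩ := (hatt a x).mp he
      exact h (t, s) (h1 ▸ ha)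
    rw [this]
    exact isOpen_empty

/-- the image under `iH` of a set of points not in the attaching region -/
theorem isOpen_H (hW : IsAttached W φ iA iH) {P : Set (D2 × D2)} (hP : IsOpen P)
    (h : ∀ p ∈ P, ‖(p.1 : ℂ)‖ < 1) : IsOpen (iH '' P) := by
  have hW' := hW
  obtain ⟨hA, hAi, hH, hHi, hcov, hatt⟩ := hW
  refine isOpen_of hW' ?_ ?_
  · have : iA ⁻¹' (iH '' P) = ∅ := by
      ext x
      simp only [Set.mem_preimage, Set.mem_image, Set.mem_empty_iff_false, iff_false]
      rintro ⟨a, ha, he⟩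
      obtain ⟨t, s, -, h2⟩ := (hatt x a).mp he.symm
      have := h a ha
      rw [h2, norm_bz] at this
      exact lt_irrefl _ this
    rw [this]
    exact isOpen_empty
  · rwa [Set.preimage_image_eq _ hHi]

theorem isClosed_bdW' (hφ : IsTube φ) (hW : IsAttached W φ iA iH) : IsClosed (bdW φ iA iH) := by
  obtain ⟨hA, hAi, hH, hHi, hcov, hatt⟩ := hW
  obtain ⟨hφc, hφi, hφo, -, -⟩ := hφ
  refine IsClosed.union ?_ ?_
  · exact (hφo.isClosed_compl.isCompact.image (hA.comp continuous_toB)).isClosed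
  · have h1 : IsClosed {q : D2 × D2 | ‖(q.2 : ℂ)‖ = 1} :=
      isClosed_eq (by fun_prop) continuous_const
    exact (h1.isCompact.image hH).isClosed

/-! ### the collar of the attaching region -/

/-- scaling of a point of the sphere -/
noncomputable def scS (l : ℝ) (v : S2) : B3 :=
  ⟨(max 0 (min l 1)) • (v : EuclideanSpace ℝ (Fin 3)), by
    rw [mem_closedBall_zero_iff, norm_smul, norm_eq_of_mem_sphere v, mul_one,
      Real.norm_of_nonneg (le_max_left _ _)]
    exact max_le (by norm_num) (min_le_right _ _)⟩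

theorem continuous_scS : Continuous (fun p : ℝ × S2 => scS p.1 p.2) := by
  unfold scS
  refine Continuous.subtype_mk ?_ _
  fun_prop

theorem norm_scS {l : ℝ} (hl : 0 ≤ l) (hl1 : l ≤ 1) (v : S2) :
    ‖(scS l v : EuclideanSpace ℝ (Fin 3))‖ = l := by
  show ‖(max 0 (min l 1)) • (v : EuclideanSpace ℝ (Fin 3))‖ = l
  rw [norm_smul, norm_eq_of_mem_sphere v, mul_one, Real.norm_of_nonneg (le_max_left _ _),
    min_eq_left hl1, max_eq_right hl]

theorem coe_scS {l : ℝ} (hl : 0 ≤ l) (hl1 : l ≤ 1) (v : S2) :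
    (scS l v : EuclideanSpace ℝ (Fin 3)) = l • (v : EuclideanSpace ℝ (Fin 3)) := by
  show (max 0 (min l 1)) • (v : EuclideanSpace ℝ (Fin 3)) = _
  rw [min_eq_left hl1, max_eq_right hl]

theorem scS_inj {l l' : ℝ} (hl : 0 < l) (hl1 : l ≤ 1) (hl' : 0 < l') (hl1' : l' ≤ 1) {v v' : S2}
    (h : scS l v = scS l' v') : l = l' ∧ v = v' := by
  have h1 : l = l' := by
    rw [← norm_scS hl.le hl1 v, h, norm_scS hl'.le hl1' v']
  refine ⟨h1, ?_⟩
  subst h1
  have h2 : (scS l v : EuclideanSpace ℝ (Fin 3)) = scS l v' := by rw [h]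
  rw [coe_scS hl.le hl1, coe_scS hl.le hl1] at h2
  exact Subtype.ext (smul_right_injective _ hl.ne' h2)

/-- scaling of a point of the circle -/
noncomputable def scD (l : ℝ) (v : D2) : D2 :=
  ⟨((max 0 (min l 1) : ℝ) : ℂ) * (v : ℂ), by
    rw [mem_closedBall_zero_iff, norm_mul, Complex.norm_real,
      Real.norm_of_nonneg (le_max_left _ _)]
    have h1 : ‖(v : ℂ)‖ ≤ 1 := mem_closedBall_zero_iff.mp v.2
    have h2 : max 0 (min l 1) ≤ 1 := max_le (by norm_num) (min_le_right _ _)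
    exact mul_le_one₀ h2 (norm_nonneg _) h1⟩

theorem continuous_scD : Continuous (fun p : ℝ × D2 => scD p.1 p.2) := by
  unfold scD
  refine Continuous.subtype_mk ?_ _
  fun_prop

theorem coe_scD {l : ℝ} (hl : 0 ≤ l) (hl1 : l ≤ 1) (v : D2) :
    (scD l v : ℂ) = (l : ℂ) * v := by
  show ((max 0 (min l 1) : ℝ) : ℂ) * (v : ℂ) = _
  rw [min_eq_left hl1, max_eq_right hl]

theorem norm_scD {l : ℝ} (hl : 0 ≤ l) (hl1 : l ≤ 1) (v : D2) :
    ‖(scD l v : ℂ)‖ = l * ‖(v : ℂ)‖ := by
  rw [coe_scD hl hl1, norm_mul, Complex.norm_real, Real.norm_of_nonneg hl]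

/-- The collar. -/
noncomputable def gcol (φ : C26 × D2 → C4 × S2) (iA : C4 × B3 → W) (iH : D2 × D2 → W)
    (p : C26 × (D2 × Set.Icc (1 / 2 : ℝ) (3 / 2))) : W :=
  if (p.2.2 : ℝ) ≤ 1 then iA ((φ (p.1, p.2.1)).1, scS p.2.2 (φ (p.1, p.2.1)).2)
  else iH (scD (2 - p.2.2) (bz p.1), p.2.1)

omit [TopologicalSpace W] [T2Space W] in
theorem gcol_one (t : C26) (s : D2) (h) :
    gcol φ iA iH (t, s, ⟨1, h⟩) = iA (toB (φ (t, s))) := by
  simp only [gcol, le_refl, if_true]
  congr 1
  refine Prod.ext rfl (Subtype.ext ?_)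
  rw [coe_scS zero_le_one le_rfl, one_smul]
  rfl

omit [TopologicalSpace W] [T2Space W] in
theorem gcol_le (p : C26 × (D2 × Set.Icc (1 / 2 : ℝ) (3 / 2))) (h : (p.2.2 : ℝ) ≤ 1) :
    gcol φ iA iH p = iA ((φ (p.1, p.2.1)).1, scS p.2.2 (φ (p.1, p.2.1)).2) := by
  simp [gcol, h]

omit [TopologicalSpace W] [T2Space W] in
theorem gcol_gt (p : C26 × (D2 × Set.Icc (1 / 2 : ℝ) (3 / 2))) (h : 1 < (p.2.2 : ℝ)) :
    gcol φ iA iH p = iH (scD (2 - p.2.2) (bz p.1), p.2.1) := by
  simp [gcol, not_le.mpr h]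

omit [T2Space W] in
theorem gcol_continuous (hφ : Continuous φ) (hW : IsAttached W φ iA iH) :
    Continuous (gcol φ iA iH) := by
  obtain ⟨hA, hAi, hH, hHi, hcov, hatt⟩ := hW
  unfold gcol
  refine Continuous.if_le ?_ ?_ (by fun_prop) continuous_const ?_
  · refine hA.comp (Continuous.prodMk ?_ ?_)
    · exact continuous_fst.comp (hφ.comp (by fun_prop))
    · refine continuous_scS.comp (f := fun p : C26 × (D2 × Set.Icc (1 / 2 : ℝ) (3 / 2)) =>
        ((p.2.2 : ℝ), (φ (p.1, p.2.1)).2)) (Continuous.prodMk (by fun_prop) ?_)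
      exact continuous_snd.comp (hφ.comp (by fun_prop))
  · refine hH.comp (Continuous.prodMk ?_ (by fun_prop))
    exact continuous_scD.comp (f := fun p : C26 × (D2 × Set.Icc (1 / 2 : ℝ) (3 / 2)) =>
        (2 - (p.2.2 : ℝ), bz p.1)) (Continuous.prodMk (by fun_prop) (continuous_bz.comp (by fun_prop)))
  · intro p hp
    rw [hatt]
    refine ⟨p.1, p.2.1, ?_, ?_⟩
    · refine Prod.ext rfl (Subtype.ext ?_)
      rw [hp]
      show (scS 1 (φ (p.1, p.2.1)).2 : EuclideanSpace ℝ (Fin 3)) = _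
      rw [coe_scS zero_le_one le_rfl, one_smul]
      rfl
    · rw [hp]
      refine Prod.ext (Subtype.ext ?_) rfl
      show (scD (2 - 1) (bz p.1) : ℂ) = _
      rw [coe_scD (by norm_num) (by norm_num)]
      norm_num

omit [T2Space W] in
theorem gcol_injective (hφ : Function.Injective φ) (hW : IsAttached W φ iA iH) :
    Function.Injective (gcol φ iA iH) := by
  obtain ⟨hA, hAi, hH, hHi, hcov, hatt⟩ := hW
  -- the mixed case is impossible
  have mixed : ∀ p q : C26 × (D2 × Set.Icc (1 / 2 : ℝ) (3 / 2)), (p.2.2 : ℝ) ≤ 1 →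
      1 < (q.2.2 : ℝ) → gcol φ iA iH p ≠ gcol φ iA iH q := by
    intro p q hp hq h
    rw [gcol_le p hp, gcol_gt q hq, hatt] at h
    obtain ⟨t, s, -, h2⟩ := h
    have h3 := congrArg (fun x : D2 × D2 => ‖(x.1 : ℂ)‖) h2
    have h4 := q.2.2.2.2
    simp only [norm_bz] at h3
    rw [norm_scD (by linarith) (by linarith), norm_bz] at h3
    linarith
  intro p q h
  rcases le_or_gt (p.2.2 : ℝ) 1 with hp | hp <;> rcases le_or_gt (q.2.2 : ℝ) 1 with hq | hq
  · rw [gcol_le p hp, gcol_le q hq] at h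
    have h1 := hAi h
    simp only [Prod.mk.injEq] at h1
    have hp0 := p.2.2.2.1
    have hq0 := q.2.2.2.1
    obtain ⟨h2, h3⟩ := scS_inj (by linarith) hp (by linarith) hq h1.2
    have h4 : φ (p.1, p.2.1) = φ (q.1, q.2.1) := Prod.ext h1.1 h3
    have h5 := hφ h4
    simp only [Prod.mk.injEq] at h5
    exact Prod.ext h5.1 (Prod.ext h5.2 (Subtype.ext h2))
  · exact absurd h (mixed p q hp hq)
  · exact absurd h.symm (mixed q p hq hp)
  · rw [gcol_gt p hp, gcol_gt q hq] at h
    have h1 := hHi h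
    simp only [Prod.mk.injEq] at h1
    have hp0 := p.2.2.2.2
    have hq0 := q.2.2.2.2
    have h2 : (2 - (p.2.2 : ℝ)) = 2 - q.2.2 := by
      have h3 := congrArg (fun x : D2 => ‖(x : ℂ)‖) h1.1
      rw [norm_scD (by linarith) (by linarith), norm_scD (by linarith) (by linarith), norm_bz,
        norm_bz] at h3
      linarith
    have h3 : (p.2.2 : ℝ) = q.2.2 := by linarith
    have h4 := congrArg (fun x : D2 => (x : ℂ)) h1.1
    rw [coe_scD (by linarith) (by linarith), coe_scD (by linarith) (by linarith), h3] at h4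
    have h5 : ((2 - (q.2.2 : ℝ) : ℝ) : ℂ) ≠ 0 := by
      rw [Ne, Complex.ofReal_eq_zero]
      linarith
    have h6 : bz p.1 = bz q.1 := Subtype.ext (mul_left_cancel₀ h5 h4)
    exact Prod.ext (bz_injective h6) (Prod.ext h1.2 (Subtype.ext h3))

/-- The open part of the collar. -/
def Pcol : Set (C26 × (D2 × Set.Icc (1 / 2 : ℝ) (3 / 2))) :=
  {p | ‖(p.2.1 : ℂ)‖ < 1 ∧ 1 / 2 < (p.2.2 : ℝ) ∧ (p.2.2 : ℝ) < 3 / 2}

theorem isOpen_Pcol : IsOpen Pcol := by
  have h1 : Continuous (fun p : C26 × (D2 × Set.Icc (1 / 2 : ℝ) (3 / 2)) => ‖(p.2.1 : ℂ)‖) := by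
    fun_prop
  have h2 : Continuous (fun p : C26 × (D2 × Set.Icc (1 / 2 : ℝ) (3 / 2)) => (p.2.2 : ℝ)) := by
    fun_prop
  exact (isOpen_lt h1 continuous_const).inter
    ((isOpen_lt continuous_const h2).inter (isOpen_lt h2 continuous_const))

theorem isOpen_image_Pcol (hφ : IsTube φ) (hW : IsAttached W φ iA iH) :
    IsOpen (gcol φ iA iH '' Pcol) := by
  have hW' := hW
  obtain ⟨hA, hAi, hH, hHi, hcov, hatt⟩ := hW
  obtain ⟨hφc, hφi, hφo, -, -⟩ := hφ
  refine isOpen_of hW' ?_ ?_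
  · -- the complement is compact
    have hm : Continuous (fun x : Set.Icc (1 / 2 : ℝ) 1 × (C4 × S2) =>
        ((x.2.1, scS x.1 x.2.2) : C4 × B3)) := by
      refine Continuous.prodMk (by fun_prop) ?_
      exact continuous_scS.comp (f := fun x : Set.Icc (1 / 2 : ℝ) 1 × (C4 × S2) =>
        ((x.1 : ℝ), x.2.2)) (by fun_prop)
    have he : (iA ⁻¹' (gcol φ iA iH '' Pcol))ᶜ =
        {a : C4 × B3 | ‖(a.2 : EuclideanSpace ℝ (Fin 3))‖ ≤ 1 / 2} ∪
        (fun x : Set.Icc (1 / 2 : ℝ) 1 × (C4 × S2) => ((x.2.1, scS x.1 x.2.2) : C4 × B3)) ''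
          (Set.univ ×ˢ (φ '' {p | ‖(p.2 : ℂ)‖ < 1})ᶜ) := by
      ext a
      constructor
      · intro ha
        by_cases hn : ‖(a.2 : EuclideanSpace ℝ (Fin 3))‖ ≤ 1 / 2
        · exact Or.inl hn
        · right
          push Not at hn
          have hb1 : ‖(a.2 : EuclideanSpace ℝ (Fin 3))‖ ≤ 1 := mem_closedBall_zero_iff.mp a.2.2
          set n := ‖(a.2 : EuclideanSpace ℝ (Fin 3))‖ with hndef
          have hn0 : n ≠ 0 := by linarith
          have hv : ‖n⁻¹ • (a.2 : EuclideanSpace ℝ (Fin 3))‖ = 1 := by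
            rw [norm_smul, Real.norm_of_nonneg (by positivity), ← hndef, inv_mul_cancel₀ hn0]
          let v : S2 := ⟨n⁻¹ • (a.2 : EuclideanSpace ℝ (Fin 3)), by
            rw [mem_sphere_zero_iff_norm]; exact hv⟩
          have hsc : scS n v = a.2 := by
            apply Subtype.ext
            rw [coe_scS (by linarith) hb1]
            show n • (n⁻¹ • (a.2 : EuclideanSpace ℝ (Fin 3))) = _
            rw [smul_smul, mul_inv_cancel₀ hn0, one_smul]
          refine ⟨(⟨n, hn.le, hb1⟩, (a.1, v)), ⟨Set.mem_univ _, ?_⟩, Prod.ext rfl hsc⟩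
          rintro ⟨⟨t, s⟩, hs, hts⟩
          apply ha
          refine ⟨(t, s, ⟨n, hn.le, by linarith⟩), ⟨hs, hn, by
            show n < 3 / 2
            linarith⟩, ?_⟩
          rw [gcol_le _ (by exact hb1)]
          show iA ((φ (t, s)).1, scS n (φ (t, s)).2) = iA a
          rw [hts, hsc]
      · rintro (ha | ⟨⟨l, p⟩, ⟨-, hp⟩, rfl⟩) ⟨q, ⟨hq1, hq2, hq3⟩, hq⟩
        · rcases le_or_gt (q.2.2 : ℝ) 1 with h | h
          · rw [gcol_le q h] at hq
            have h1 := hAi hq
            have h2 : ‖(a.2 : EuclideanSpace ℝ (Fin 3))‖ = q.2.2 := by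
              rw [← h1]
              exact norm_scS (by linarith) h _
            have ha' : ‖(a.2 : EuclideanSpace ℝ (Fin 3))‖ ≤ 1 / 2 := ha
            linarith
          · rw [gcol_gt q h] at hq
            obtain ⟨t, s, -, h2⟩ := (hatt _ _).mp hq.symm
            have h3 := congrArg (fun x : D2 × D2 => ‖(x.1 : ℂ)‖) h2
            simp only [norm_bz] at h3
            rw [norm_scD (by linarith) (by linarith), norm_bz] at h3
            linarith
        · rcases le_or_gt (q.2.2 : ℝ) 1 with h | h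
          · rw [gcol_le q h] at hq
            have h1 := hAi hq
            simp only [Prod.mk.injEq] at h1
            have hl := l.2
            obtain ⟨-, h3⟩ := scS_inj (by linarith) h (by linarith [hl.1]) hl.2 h1.2
            apply hp
            exact ⟨(q.1, q.2.1), hq1, Prod.ext h1.1 h3⟩
          · rw [gcol_gt q h] at hq
            obtain ⟨t, s, -, h2⟩ := (hatt _ _).mp hq.symm
            have h3 := congrArg (fun x : D2 × D2 => ‖(x.1 : ℂ)‖) h2
            simp only [norm_bz] at h3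
            rw [norm_scD (by linarith) (by linarith), norm_bz] at h3
            linarith
    rw [← isClosed_compl_iff, he]
    refine (isClosed_le (by fun_prop) continuous_const).union ?_
    exact ((isClosed_univ.prod hφo.isClosed_compl).isCompact.image hm).isClosed
  · have he : iH ⁻¹' (gcol φ iA iH '' Pcol) =
        {q : D2 × D2 | 1 / 2 < ‖(q.1 : ℂ)‖ ∧ ‖(q.2 : ℂ)‖ < 1} := by
      ext ⟨z, s⟩
      constructor
      · rintro ⟨q, ⟨hq1, hq2, hq3⟩, hq⟩
        rcases le_or_gt (q.2.2 : ℝ) 1 with h | h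
        · rw [gcol_le q h] at hq
          obtain ⟨t, s', h1, h2⟩ := (hatt _ _).mp hq
          simp only [Prod.mk.injEq] at h2
          obtain ⟨rfl, rfl⟩ := h2
          refine ⟨by rw [norm_bz]; norm_num, ?_⟩
          have h3 : ‖(scS q.2.2 (φ (q.1, q.2.1)).2 : EuclideanSpace ℝ (Fin 3))‖ = 1 := by
            have := norm_toB (φ (t, s))
            rw [← h1] at this
            exact this
          rw [norm_scS (by linarith) h] at h3
          have h4 : toB (φ (q.1, q.2.1)) = toB (φ (t, s)) := by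
            rw [← h1, h3]
            refine Prod.ext rfl (Subtype.ext ?_)
            show _ = (scS 1 (φ (q.1, q.2.1)).2 : EuclideanSpace ℝ (Fin 3))
            rw [coe_scS zero_le_one le_rfl, one_smul]
            rfl
          have h5 := hφi (toB_injective h4)
          simp only [Prod.mk.injEq] at h5
          rw [← h5.2]
          exact hq1
        · rw [gcol_gt q h] at hq
          have h1 := hHi hq
          simp only [Prod.mk.injEq] at h1
          obtain ⟨rfl, rfl⟩ := h1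
          refine ⟨?_, hq1⟩
          show 1 / 2 < ‖(scD (2 - q.2.2) (bz q.1) : ℂ)‖
          rw [norm_scD (by linarith) (by linarith), norm_bz]
          linarith
      · rintro ⟨hz, hs⟩
        have hz' : 1 / 2 < ‖(z : ℂ)‖ := hz
        have hz1 : ‖(z : ℂ)‖ ≤ 1 := mem_closedBall_zero_iff.mp z.2
        have hz0 : (‖(z : ℂ)‖ : ℂ) ≠ 0 := by
          rw [Ne, Complex.ofReal_eq_zero]
          linarith
        obtain ⟨t, ht⟩ := bz_surj ((z : ℂ) / ‖(z : ℂ)‖) (by
          rw [norm_div, Complex.norm_real, norm_norm, div_self]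
          linarith)
        refine ⟨(t, s, ⟨2 - ‖(z : ℂ)‖, by linarith, by linarith⟩), ⟨hs, by
          show 1 / 2 < 2 - ‖(z : ℂ)‖
          linarith, by
          show 2 - ‖(z : ℂ)‖ < 3 / 2
          linarith⟩, ?_⟩
        rcases hz1.lt_or_eq with h | h
        · rw [gcol_gt _ (by show 1 < 2 - ‖(z : ℂ)‖; linarith)]
          congr 1
          refine Prod.ext (Subtype.ext ?_) rfl
          show (scD (2 - (2 - ‖(z : ℂ)‖)) (bz t) : ℂ) = z
          rw [coe_scD (by linarith) (by linarith), ht, sub_sub_cancel]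
          field_simp
        · rw [gcol_le _ (by show 2 - ‖(z : ℂ)‖ ≤ 1; linarith)]
          rw [hatt]
          refine ⟨t, s, ?_, ?_⟩
          · refine Prod.ext rfl (Subtype.ext ?_)
            show (scS (2 - ‖(z : ℂ)‖) (φ (t, s)).2 : EuclideanSpace ℝ (Fin 3)) = _
            rw [coe_scS (by linarith) (by linarith), h]
            norm_num
            rfl
          · refine Prod.ext (Subtype.ext ?_) rfl
            show (z : ℂ) = bz t
            rw [ht, h]
            simp
    rw [he]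
    have h1 : Continuous (fun q : D2 × D2 => ‖(q.1 : ℂ)‖) := by fun_prop
    have h2 : Continuous (fun q : D2 × D2 => ‖(q.2 : ℂ)‖) := by fun_prop
    exact (isOpen_lt continuous_const h1).inter (isOpen_lt h2 continuous_const)

/-- All the points of the open collar have charts. -/
theorem par_collar (hφ : IsTube φ) (hW : IsAttached W φ iA iH) (t : C26) (s : D2)
    (hs : ‖(s : ℂ)‖ < 1) :
    Par (Set.univ : Set (EuclideanSpace ℝ (Fin 4))) ∅ (∅ : Set W) (iA (toB (φ (t, s)))) := by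
  have h1 : (1 : ℝ) ∈ Set.Icc (1 / 2 : ℝ) (3 / 2) := ⟨by norm_num, by norm_num⟩
  rw [← gcol_one (φ := φ) (iA := iA) (iH := iH) t s h1]
  have hemb : IsEmbedding (gcol φ iA iH) :=
    ((gcol_continuous hφ.1 hW).isClosedEmbedding (gcol_injective hφ.2.1 hW)).isEmbedding
  have hpar := (par_addCircle 26 t).prodInt ((par_ball_int s hs).prodInt
    (par_Icc_int (1 / 2) (3 / 2) ⟨1, h1⟩ ⟨by norm_num, by norm_num⟩))
  exact (hpar.pushInt (gcol φ iA iH) hemb isOpen_Pcol (isOpen_image_Pcol hφ hW)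
    ⟨hs, by norm_num, by norm_num⟩).transferInt T3

theorem interior_chart' (hφ : IsTube φ) (hW : IsAttached W φ iA iH) (w : W)
    (hw : w ∉ bdW φ iA iH) : ∃ (N : Set W) (U : Set (EuclideanSpace ℝ (Fin 4))), IsOpen N ∧
      w ∈ N ∧ IsOpen U ∧ Nonempty (N ≃ₜ U) := by
  suffices h : Par (Set.univ : Set (EuclideanSpace ℝ (Fin 4))) ∅ (∅ : Set W) w by
    obtain ⟨N, U, e, hN, hwN, hU, -⟩ := h.toHomeo
    exact ⟨N, U, hN, hwN, hU, ⟨e.trans (Homeomorph.setCongr (by simp))⟩⟩
  have hW' := hW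
  obtain ⟨hA, hAi, hH, hHi, hcov, hatt⟩ := hW
  rcases hcov w with ⟨⟨θ, b⟩, rfl⟩ | ⟨⟨z, s⟩, rfl⟩
  · have hb1 : ‖(b : EuclideanSpace ℝ (Fin 3))‖ ≤ 1 := mem_closedBall_zero_iff.mp b.2
    rcases hb1.lt_or_eq with hb | hb
    · have hpar := (par_addCircle 4 θ).prodInt (par_ball_int b hb)
      have hc : Continuous (fun a : C4 × B3 => ‖(a.2 : EuclideanSpace ℝ (Fin 3))‖) := by fun_prop
      have hP : IsOpen {a : C4 × B3 | ‖(a.2 : EuclideanSpace ℝ (Fin 3))‖ < 1} :=
        isOpen_lt hc continuous_const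
      have hnot : ∀ p, toB (φ p) ∉ {a : C4 × B3 | ‖(a.2 : EuclideanSpace ℝ (Fin 3))‖ < 1} := by
        intro p hp
        rw [Set.mem_ofPred_eq, norm_toB] at hp
        exact lt_irrefl _ hp
      have hmem : (θ, b) ∈ {a : C4 × B3 | ‖(a.2 : EuclideanSpace ℝ (Fin 3))‖ < 1} := hb
      have hop := isOpen_A hW' hP hnot
      have h5 := hpar.pushInt iA (hA.isClosedEmbedding hAi).isEmbedding hP hop hmem
      exact h5.transferInt (T1 1 (by norm_num))
    · let v : S2 := ⟨b, mem_sphere_zero_iff_norm.mpr hb⟩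
      have hbv : (θ, b) = toB (θ, v) := rfl
      by_cases hv : (θ, v) ∈ φ '' {p | ‖(p.2 : ℂ)‖ < 1}
      · obtain ⟨⟨t, s⟩, hs, hts⟩ := hv
        rw [hbv, ← hts]
        exact par_collar hφ hW' t s hs
      · exact absurd (Or.inl ⟨(θ, v), hv, rfl⟩) hw
  · have hs1 : ‖(s : ℂ)‖ ≤ 1 := mem_closedBall_zero_iff.mp s.2
    rcases hs1.lt_or_eq with hs | hs
    · have hz1 : ‖(z : ℂ)‖ ≤ 1 := mem_closedBall_zero_iff.mp z.2
      rcases hz1.lt_or_eq with hz | hz
      · have hpar := (par_ball_int z hz).prodInt (par_ball_int s hs)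
        have hc : Continuous (fun a : D2 × D2 => ‖(a.1 : ℂ)‖) := by fun_prop
        have hP : IsOpen {a : D2 × D2 | ‖(a.1 : ℂ)‖ < 1} := isOpen_lt hc continuous_const
        exact (hpar.pushInt iH (hH.isClosedEmbedding hHi).isEmbedding hP
          (isOpen_H hW' hP (fun p hp => hp)) hz).transferInt (T2 1 (by norm_num))
      · obtain ⟨t, ht⟩ := bz_surj z hz
        have h1 : iA (toB (φ (t, s))) = iH (z, s) := by
          rw [hatt]
          exact ⟨t, s, rfl, Prod.ext (Subtype.ext ht.symm) rfl⟩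
        rw [← h1]
        exact par_collar hφ hW' t s hs
    · exact absurd (Or.inr ⟨(z, s), hs, rfl⟩) hw

theorem boundary_charts' (hφ : IsTube φ) (hW : IsAttached W φ iA iH) :
    ∃ D₀ : Set W, D₀ ⊆ bdW φ iA iH ∧ bdW φ iA iH ⊆ closure D₀ ∧
      ∀ w ∈ D₀, HalfPt (bdW φ iA iH) w := by
  have hW' := hW
  obtain ⟨hA, hAi, hH, hHi, hcov, hatt⟩ := hW
  have hφ' := hφ
  obtain ⟨hφc, hφi, hφo, -, -⟩ := hφ
  refine ⟨(iA ∘ toB) '' (Set.range φ)ᶜ ∪ iH '' {q | ‖(q.1 : ℂ)‖ < 1 ∧ ‖(q.2 : ℂ)‖ = 1},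
    ?_, ?_, ?_⟩
  · rintro _ (⟨p, hp, rfl⟩ | ⟨q, hq, rfl⟩)
    · exact Or.inl ⟨p, fun ⟨x, _, hx⟩ => hp ⟨x, hx⟩, rfl⟩
    · exact Or.inr ⟨q, hq.2, rfl⟩
  · -- the points of the handle
    have key : ∀ z s : D2, ‖(s : ℂ)‖ = 1 → iH (z, s) ∈
        closure (iH '' {q : D2 × D2 | ‖(q.1 : ℂ)‖ < 1 ∧ ‖(q.2 : ℂ)‖ = 1}) := by
      intro z s hs
      have hcl : (1 : ℝ) ∈ closure (Set.Ico (0 : ℝ) 1) := by
        rw [closure_Ico (by norm_num)]
        exact ⟨by norm_num, le_rfl⟩
      have hcont : Continuous (fun u : ℝ => iH (scD u z, s)) := by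
        refine hH.comp (Continuous.prodMk ?_ continuous_const)
        exact continuous_scD.comp (f := fun u : ℝ => (u, z)) (by fun_prop)
      have h1 := image_closure_subset_closure_image hcont (s := Set.Ico (0 : ℝ) 1)
      have h2 : iH (z, s) = (fun u : ℝ => iH (scD u z, s)) 1 := by
        have : scD 1 z = z := Subtype.ext (by
          rw [coe_scD (by norm_num) (by norm_num)]; simp)
        simp [this]
      rw [h2]
      refine closure_mono ?_ (h1 ⟨1, hcl, rfl⟩)
      rintro _ ⟨u, hu, rfl⟩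
      refine ⟨(scD u z, s), ⟨?_, hs⟩, rfl⟩
      show ‖(scD u z : ℂ)‖ < 1
      rw [norm_scD hu.1 hu.2.le]
      have hz1 : ‖(z : ℂ)‖ ≤ 1 := mem_closedBall_zero_iff.mp z.2
      calc u * ‖(z : ℂ)‖ ≤ u * 1 := mul_le_mul_of_nonneg_left hz1 hu.1
        _ < 1 := by linarith [hu.2]
    rintro _ (⟨p, hp, rfl⟩ | ⟨⟨z, s⟩, hq, rfl⟩)
    · by_cases hr : p ∈ Set.range φ
      · obtain ⟨⟨t, s⟩, rfl⟩ := hr
        have hs1 : ‖(s : ℂ)‖ ≤ 1 := mem_closedBall_zero_iff.mp s.2
        have hs : ‖(s : ℂ)‖ = 1 := by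
          rcases hs1.lt_or_eq with h | h
          · exact absurd ⟨(t, s), h, rfl⟩ hp
          · exact h
        have h1 : (iA ∘ toB) (φ (t, s)) = iH (bz t, s) := by
          show iA (toB (φ (t, s))) = _
          rw [hatt]
          exact ⟨t, s, rfl, rfl⟩
        rw [h1]
        exact closure_mono Set.subset_union_right (key (bz t) s hs)
      · exact subset_closure (Or.inl ⟨p, hr, rfl⟩)
    · exact closure_mono Set.subset_union_right (key z s hq)
  · rintro _ (⟨⟨θ, b⟩, hp, rfl⟩ | ⟨⟨z, s⟩, ⟨hz, hs⟩, rfl⟩)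
    · -- a point of the sphere off the tube
      have hPc : IsClosed (toB '' Set.range φ) :=
        ((isCompact_range hφc).image continuous_toB).isClosed
      have hPa : toB (θ, b) ∈ (toB '' Set.range φ)ᶜ := by
        rintro ⟨q, hq, hqe⟩
        exact hp (toB_injective hqe ▸ hq)
      have hbdA : ∀ a ∈ (toB '' Set.range φ)ᶜ, iA a ∈ bdW φ iA iH ↔
          a ∈ (Set.univ : Set C4) ×ˢ {z : B3 | ‖(z : EuclideanSpace ℝ (Fin 3))‖ = 1} := by
        intro a ha
        constructor
        · rintro (⟨p, -, hpe⟩ | ⟨q, -, hq⟩)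
          · rw [← hAi hpe]
            exact ⟨Set.mem_univ _, norm_toB p⟩
          · obtain ⟨t, s, h1, -⟩ := (hatt a q).mp hq.symm
            rw [h1]
            exact ⟨Set.mem_univ _, norm_toB _⟩
        · rintro ⟨-, h1⟩
          have h2 : a = toB (a.1, ⟨a.2, mem_sphere_zero_iff_norm.mpr h1⟩) := rfl
          rw [h2]
          refine Or.inl ⟨_, ?_, rfl⟩
          rintro ⟨x, -, hx⟩
          apply ha
          rw [h2, ← hx]
          exact ⟨φ x, ⟨x, rfl⟩, rfl⟩
      have main : ∀ σ : ℝ, σ * σ = 1 →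
          (b : EuclideanSpace ℝ (Fin 3)) ≠ EuclideanSpace.single (0 : Fin 3) σ →
          HalfPt (bdW φ iA iH) (iA (toB (θ, b))) := by
        intro σ hσ hne
        have hn : ‖EuclideanSpace.single (0 : Fin 3) σ‖ = 1 := by
          rw [PiLp.norm_single, Real.norm_eq_abs]
          exact abs_one_of_mul_self hσ
        have hhalf := par_ball_half (EuclideanSpace.single (0 : Fin 3) σ) hn (toB (θ, b)).2 hne
        have hpar := ((par_addCircle 4 θ).prod hhalf).push iA
          (hA.isClosedEmbedding hAi).isEmbedding hPc.isOpen_compl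
          (isOpen_A hW' hPc.isOpen_compl (fun p hp => hp ⟨φ p, ⟨p, rfl⟩, rfl⟩)) hPa hbdA
        have hpar2 := hpar.transfer (M' := {x : EuclideanSpace ℝ (Fin 4) | 0 ≤ x 0})
          (B' := {x : EuclideanSpace ℝ (Fin 4) | x 0 = 0}) (T1 σ hσ) (by
            rintro ⟨r, x⟩
            show 0 ≤ -σ * x 0 ↔ _
            simp only [Set.mem_prod, Set.mem_univ, true_and]
            show 0 ≤ -σ * x 0 ↔ inner ℝ (EuclideanSpace.single (0 : Fin 3) σ) x ≤ 0
            rw [EuclideanSpace.inner_single_left]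
            simp) (by
            rintro ⟨r, x⟩
            show -σ * x 0 = 0 ↔ _
            simp only [Set.mem_prod, Set.mem_univ, true_and]
            show -σ * x 0 = 0 ↔ inner ℝ (EuclideanSpace.single (0 : Fin 3) σ) x = 0
            rw [EuclideanSpace.inner_single_left]
            simp)
        exact hpar2.toHomeo
      by_cases h1 : (b : EuclideanSpace ℝ (Fin 3)) = EuclideanSpace.single (0 : Fin 3) 1
      · refine main (-1) (by norm_num) ?_
        rw [h1]
        intro h2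
        have h3 := congrArg (fun x : EuclideanSpace ℝ (Fin 3) => x 0) h2
        simp at h3
        norm_num at h3
      · exact main 1 (by norm_num) h1
    · have hbdH : ∀ q ∈ {q : D2 × D2 | ‖(q.1 : ℂ)‖ < 1}, iH q ∈ bdW φ iA iH ↔
          q ∈ (Set.univ : Set D2) ×ˢ {z : D2 | ‖(z : ℂ)‖ = 1} := by
        intro q hq
        constructor
        · rintro (⟨p, -, hpe⟩ | ⟨q', hq', hqe⟩)
          · obtain ⟨t, s, -, h2⟩ := (hatt _ q).mp hpe
            have h3 : ‖(q.1 : ℂ)‖ < 1 := hq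
            rw [h2, norm_bz] at h3
            exact absurd h3 (lt_irrefl _)
          · rw [← hHi hqe]
            exact ⟨Set.mem_univ _, hq'⟩
        · rintro ⟨-, h1⟩
          exact Or.inr ⟨q, h1, rfl⟩
      have main : ∀ σ : ℝ, σ * σ = 1 → (s : ℂ) ≠ (σ : ℂ) →
          HalfPt (bdW φ iA iH) (iH (z, s)) := by
        intro σ hσ hne
        have hn : ‖(σ : ℂ)‖ = 1 := by
          rw [Complex.norm_real, Real.norm_eq_abs]
          exact abs_one_of_mul_self hσ
        have hhalf := par_ball_half (σ : ℂ) hn s hne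
        have hc : Continuous (fun a : D2 × D2 => ‖(a.1 : ℂ)‖) := by fun_prop
        have hP : IsOpen {a : D2 × D2 | ‖(a.1 : ℂ)‖ < 1} := isOpen_lt hc continuous_const
        have hpar := ((par_ball_int z hz).prod hhalf).push iH
          (hH.isClosedEmbedding hHi).isEmbedding hP
          (isOpen_H hW' hP (fun p hp => hp)) hz hbdH
        have hin : ∀ x : ℂ, inner ℝ (σ : ℂ) x = σ * x.re := by
          intro x
          rw [Complex.inner]
          simp [mul_comm]
        have hpar2 := hpar.transfer (M' := {x : EuclideanSpace ℝ (Fin 4) | 0 ≤ x 0})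
          (B' := {x : EuclideanSpace ℝ (Fin 4) | x 0 = 0}) (T2 σ hσ) (by
            rintro ⟨r, x⟩
            show 0 ≤ -σ * x.re ↔ _
            simp only [Set.mem_prod, Set.mem_univ, true_and]
            show 0 ≤ -σ * x.re ↔ inner ℝ (σ : ℂ) x ≤ 0
            rw [hin]
            simp) (by
            rintro ⟨r, x⟩
            show -σ * x.re = 0 ↔ _
            simp only [Set.mem_prod, Set.mem_univ, true_and]
            show -σ * x.re = 0 ↔ inner ℝ (σ : ℂ) x = 0
            rw [hin]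
            simp)
        exact hpar2.toHomeo
      by_cases h1 : (s : ℂ) = ((1 : ℝ) : ℂ)
      · refine main (-1) (by norm_num) ?_
        rw [h1]
        intro h2
        rw [Complex.ofReal_inj] at h2
        norm_num at h2
      · exact main 1 (by norm_num) h1

end W

end Pool.Agent.Helper26.Maz.H32

namespace Pool.Agent.Helper26.Maz

open H32

/-- The boundary of the handlebody is closed. -/
theorem isClosed_bdW {W : Type*} [TopologicalSpace W] [T2Space W] {φ : C26 × D2 → C4 × S2}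
    {iA : C4 × B3 → W} {iH : D2 × D2 → W} (hφ : IsTube φ) (hW : IsAttached W φ iA iH) :
    IsClosed (bdW φ iA iH) := isClosed_bdW' hφ hW

/-- The points off the boundary have Euclidean neighbourhoods. -/
theorem interior_chart {W : Type*} [TopologicalSpace W] [T2Space W] {φ : C26 × D2 → C4 × S2}
    {iA : C4 × B3 → W} {iH : D2 × D2 → W} (hφ : IsTube φ) (hW : IsAttached W φ iA iH) (w : W)
    (hw : w ∉ bdW φ iA iH) : ∃ (N : Set W) (U : Set (EuclideanSpace ℝ (Fin 4))), IsOpen N ∧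
      w ∈ N ∧ IsOpen U ∧ Nonempty (N ≃ₜ U) := interior_chart' hφ hW w hw

/-- A dense set of points of the boundary have half space charts. -/
theorem boundary_charts {W : Type*} [TopologicalSpace W] [T2Space W] {φ : C26 × D2 → C4 × S2}
    {iA : C4 × B3 → W} {iH : D2 × D2 → W} (hφ : IsTube φ) (hW : IsAttached W φ iA iH) :
    ∃ D₀ : Set W, D₀ ⊆ bdW φ iA iH ∧ bdW φ iA iH ⊆ closure D₀ ∧
      ∀ w ∈ D₀, HalfPt (bdW φ iA iH) w := boundary_charts' hφ hW

end Pool.Agent.Helper26.Maz
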