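import Mathlib

/-! A path between two distinct points of a metric space contains an injective path. -/

namespace Pool.Agent.Helper32.Arc

open Set Filter Topology Metric

variable {X : Type*} [MetricSpace X]

/-! ### Step 1: a monotone reparametrisation -/

section param

variable (h : ℝ → X)

/-- running maximum of `dist (h q) (h u)` for `u ∈ [q, t]` -/
noncomputable def R (q t : ℝ) : ℝ :=
  sSup ((fun l : ℝ => dist (h q) (h (q + l * (max q t - q)))) '' Icc 0 1)

variable {h} (hc : Continuous h)

include hc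

lemma R_cont (q : ℝ) : Continuous (R h q) := by
  unfold R
  exact isCompact_Icc.continuous_sSup (f := fun t l : ℝ => dist (h q) (h (q + l * (max q t - q))))
    (by
      simp only [Function.HasUncurry.uncurry]
      fun_prop)

lemma R_bdd (q t : ℝ) :
    BddAbove ((fun l : ℝ => dist (h q) (h (q + l * (max q t - q)))) '' Icc 0 1) :=
  (isCompact_Icc.image (by fun_prop)).bddAbove

lemma le_R {q t u : ℝ} (hu : u ∈ Icc q (max q t)) : dist (h q) (h u) ≤ R h q t := by
  rcases eq_or_lt_of_le (le_max_left q t) with h0 | h0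
  · have hq : u = q := le_antisymm (hu.2.trans h0.symm.le) hu.1
    refine le_csSup (R_bdd hc q t) ⟨0, by simp, ?_⟩
    rw [hq]; simp
  · refine le_csSup (R_bdd hc q t) ⟨(u - q) / (max q t - q), ?_, ?_⟩
    · have h1 : 0 < max q t - q := by linarith
      constructor
      · exact div_nonneg (by linarith [hu.1]) h1.le
      · rw [div_le_one h1]; linarith [hu.2]
    · have h1 : max q t - q ≠ 0 := ne_of_gt (by linarith)
      simp only
      congr 2
      field_simp
      ring

omit hc in
lemma R_le {q t c : ℝ} (H : ∀ u ∈ Icc q (max q t), dist (h q) (h u) ≤ c) : R h q t ≤ c := by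
  refine csSup_le ⟨_, 0, by simp, rfl⟩ ?_
  rintro _ ⟨l, hl, rfl⟩
  have h1 : 0 ≤ max q t - q := by linarith [le_max_left q t]
  exact H _ ⟨by nlinarith [hl.1], by nlinarith [hl.2]⟩

lemma R_nonneg (q t : ℝ) : 0 ≤ R h q t := by
  have := le_R hc (q := q) (t := t) (u := q) ⟨le_rfl, le_max_left _ _⟩
  rwa [dist_self] at this

lemma R_mono (q : ℝ) : Monotone (R h q) := by
  intro s t hst
  exact R_le fun u hu => le_R hc ⟨hu.1, hu.2.trans (max_le_max le_rfl hst)⟩

lemma R_zero {q t : ℝ} (htq : t ≤ q) : R h q t = 0 := by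
  refine le_antisymm (R_le fun u hu => ?_) (R_nonneg hc q t)
  rw [max_eq_left htq] at hu
  rw [le_antisymm hu.2 hu.1, dist_self]

/-- if `h` is constant on `[s, t]` then the running maxima agree -/
lemma R_eq {q s t : ℝ} (hst : s ≤ t) (hconst : ∀ u ∈ Icc s t, h u = h s) :
    R h q t = R h q s := by
  refine le_antisymm (R_le fun u hu => ?_) (R_mono hc q hst)
  rcases le_total q s with hqs | hqs
  · rcases le_total u s with hus | hus
    · exact le_R hc ⟨hu.1, hus.trans (le_max_right _ _)⟩
    · have h1 : u ≤ t := by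
        have := hu.2
        rwa [max_eq_right (hqs.trans hst)] at this
      rw [hconst u ⟨hus, h1⟩]
      exact le_R hc ⟨hqs, le_max_right _ _⟩
  · rcases le_total q t with hqt | hqt
    · have h1 : u ≤ t := by
        have := hu.2
        rwa [max_eq_right hqt] at this
      rw [hconst u ⟨hqs.trans hu.1, h1⟩, hconst q ⟨hqs, hqt⟩, dist_self]
      exact R_nonneg hc q s
    · rw [max_eq_left hqt] at hu
      rw [le_antisymm hu.2 hu.1, dist_self]
      exact R_nonneg hc q s

end param

/-- the parameter -/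
noncomputable def phi (h : ℝ → X) (t : ℝ) : ℝ :=
  ∑' k : ℕ, (1 / 2 : ℝ) ^ k * min 1 (R h (TopologicalSpace.denseSeq ℝ k) t)

section phi

variable {h : ℝ → X} (hc : Continuous h)

include hc

lemma phi_term_nonneg (k : ℕ) (t : ℝ) :
    0 ≤ (1 / 2 : ℝ) ^ k * min 1 (R h (TopologicalSpace.denseSeq ℝ k) t) :=
  mul_nonneg (by positivity) (le_min zero_le_one (R_nonneg hc _ _))

omit hc in
lemma phi_term_le (k : ℕ) (t : ℝ) :
    (1 / 2 : ℝ) ^ k * min 1 (R h (TopologicalSpace.denseSeq ℝ k) t) ≤ (1 / 2 : ℝ) ^ k :=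
  mul_le_of_le_one_right (by positivity) (min_le_left _ _)

lemma phi_summable (t : ℝ) :
    Summable fun k : ℕ => (1 / 2 : ℝ) ^ k * min 1 (R h (TopologicalSpace.denseSeq ℝ k) t) :=
  Summable.of_nonneg_of_le (fun k => phi_term_nonneg hc k t) (fun k => phi_term_le k t)
    (summable_geometric_of_lt_one (by norm_num) (by norm_num))

lemma phi_cont : Continuous (phi h) := by
  unfold phi
  refine continuous_tsum (u := fun k => (1 / 2 : ℝ) ^ k) (fun k => ?_)
    (summable_geometric_of_lt_one (by norm_num) (by norm_num)) (fun k t => ?_)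
  · exact continuous_const.mul (continuous_const.min (R_cont hc _))
  · rw [Real.norm_of_nonneg (phi_term_nonneg hc k t)]
    exact phi_term_le k t

lemma phi_mono : Monotone (phi h) := by
  intro s t hst
  refine (phi_summable hc s).tsum_le_tsum (fun k => ?_) (phi_summable hc t)
  have := R_mono hc (TopologicalSpace.denseSeq ℝ k) hst
  gcongr

lemma phi_lt {s t u v : ℝ} (hsu : s ≤ u) (huv : u < v) (hvt : v ≤ t) (hne : h u ≠ h v) :
    phi h s < phi h t := by
  -- a dense point `q` with `s < q < v` and `h q ≠ h v`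
  have hopen : IsOpen {q : ℝ | h q ≠ h v} := isOpen_ne_fun hc continuous_const
  have h1 : ∃ ε > 0, ball u ε ⊆ {q : ℝ | h q ≠ h v} := Metric.isOpen_iff.1 hopen u hne
  obtain ⟨ε, hε, hball⟩ := h1
  have h2 : (Ioo u (min v (u + ε))).Nonempty := nonempty_Ioo.2 (lt_min huv (by linarith))
  obtain ⟨k, hk⟩ := (TopologicalSpace.denseRange_denseSeq ℝ).exists_mem_open isOpen_Ioo h2
  set q := TopologicalSpace.denseSeq ℝ k with hq
  have hqv : q < v := hk.2.trans_le (min_le_left _ _)
  have hqe : q < u + ε := hk.2.trans_le (min_le_right _ _)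
  have hqne : h q ≠ h v := hball (by rw [mem_ball, Real.dist_eq, abs_lt]; constructor <;> linarith [hk.1])
  refine (phi_summable hc s).tsum_lt_tsum (i := k) (fun j => ?_) ?_ (phi_summable hc t)
  · have := R_mono hc (TopologicalSpace.denseSeq ℝ j) (show s ≤ t by linarith)
    gcongr
  · rw [← hq, R_zero hc (show s ≤ q by linarith [hk.1])]
    have h3 : 0 < R h q t := by
      refine lt_of_lt_of_le (dist_pos.2 hqne) (le_R hc ⟨hqv.le, hvt.trans (le_max_right _ _)⟩)
    have h4 : 0 < min 1 (R h q t) := lt_min one_pos h3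
    simp only [zero_le_one, min_eq_right, mul_zero]
    positivity

lemma phi_eq {s t : ℝ} (hst : s ≤ t) (hconst : ∀ u ∈ Icc s t, h u = h s) :
    phi h t = phi h s := by
  unfold phi
  refine tsum_congr fun k => ?_
  rw [R_eq hc hst hconst]

end phi

/-- Step 1: a path with interval fibres can be reparametrised to an injective one. -/
theorem exists_inj {h : ℝ → X} (hc : Continuous h) (h01 : h 0 ≠ h 1)
    (hfib : ∀ s ∈ Icc (0:ℝ) 1, ∀ t ∈ Icc (0:ℝ) 1, s ≤ t → h s = h t → ∀ u ∈ Icc s t, h u = h s) :
    ∃ δ : Path (h 0) (h 1), Function.Injective δ ∧ range δ ⊆ h '' Icc 0 1 := by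
  have hL : phi h 0 < phi h 1 := phi_lt hc le_rfl one_pos le_rfl h01
  set L := phi h 1 - phi h 0 with hLdef
  have hLpos : 0 < L := by rw [hLdef]; linarith
  have hmono := phi_mono hc
  have hcont := phi_cont hc
  have hmem : ∀ t : unitInterval, (phi h t - phi h 0) / L ∈ unitInterval := by
    intro t
    constructor
    · exact div_nonneg (sub_nonneg.2 (hmono t.2.1)) hLpos.le
    · rw [div_le_one hLpos, hLdef]
      exact sub_le_sub_right (hmono t.2.2) _
  let ψ : unitInterval → unitInterval := fun t => ⟨(phi h t - phi h 0) / L, hmem t⟩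
  have hψc : Continuous ψ := by
    refine Continuous.subtype_mk ?_ _
    fun_prop
  have hψ0 : ψ 0 = 0 := by
    apply Subtype.ext
    show (phi h ((0 : unitInterval) : ℝ) - phi h 0) / L = 0
    simp
  have hψ1 : ψ 1 = 1 := by
    apply Subtype.ext
    show (phi h ((1 : unitInterval) : ℝ) - phi h 0) / L = 1
    simp only [Set.Icc.coe_one]
    rw [← hLdef]; exact div_self hLpos.ne'
  have hψs : Function.Surjective ψ := by
    intro y
    have h1 : y ∈ Icc (ψ 0) (ψ 1) := by
      rw [hψ0, hψ1]; exact ⟨unitInterval.nonneg', unitInterval.le_one'⟩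
    obtain ⟨x, -, hx⟩ := intermediate_value_Icc (zero_le_one' unitInterval) hψc.continuousOn h1
    exact ⟨x, hx⟩
  have hq : IsQuotientMap ψ := hψc.isClosedMap.isQuotientMap hψc hψs
  have heq : ∀ s t : unitInterval, ψ s = ψ t → phi h s = phi h t := by
    intro s t hst
    have h1 : (phi h s - phi h 0) / L = (phi h t - phi h 0) / L := congrArg Subtype.val hst
    have h2 := (div_left_inj' hLpos.ne').1 h1
    linarith
  have hwd : ∀ s t : unitInterval, ψ s = ψ t → h s = h t := by
    have key : ∀ s t : unitInterval, (s:ℝ) ≤ t → ψ s = ψ t → h s = h t := by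
      intro s t hle hst
      by_contra hne
      rcases eq_or_lt_of_le hle with h1 | h1
      · exact hne (by rw [h1])
      · exact (phi_lt hc le_rfl h1 le_rfl hne).ne (heq s t hst)
    intro s t hst
    rcases le_total (s:ℝ) t with h1 | h1
    · exact key s t h1 hst
    · exact (key t s h1 hst.symm).symm
  let H : C(unitInterval, X) := ⟨fun t => h t, by fun_prop⟩
  let Δ : C(unitInterval, X) := IsQuotientMap.lift (f := ⟨ψ, hψc⟩) hq H (fun a b hab => hwd a b hab)
  have hΔ : ∀ t, Δ (ψ t) = h t := fun t => by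
    have := IsQuotientMap.lift_comp (f := ⟨ψ, hψc⟩) hq H (fun a b hab => hwd a b hab)
    exact DFunLike.congr_fun this t
  refine ⟨⟨Δ, ?_, ?_⟩, ?_, ?_⟩
  · show Δ 0 = h 0
    rw [← hψ0, hΔ]; simp
  · show Δ 1 = h 1
    rw [← hψ1, hΔ]; simp
  · intro x y hxy
    obtain ⟨s, rfl⟩ := hψs x
    obtain ⟨t, rfl⟩ := hψs y
    have hxy' : Δ (ψ s) = Δ (ψ t) := hxy
    rw [hΔ, hΔ] at hxy'
    apply Subtype.ext
    show (phi h s - phi h 0) / L = (phi h t - phi h 0) / L
    rcases le_total (s:ℝ) t with h1 | h1
    · rw [phi_eq hc h1 (hfib s s.2 t t.2 h1 hxy')]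
    · rw [phi_eq hc h1 (hfib t t.2 s s.2 h1 hxy'.symm)]
  · rintro _ ⟨x, rfl⟩
    obtain ⟨s, rfl⟩ := hψs x
    exact ⟨s, s.2, (hΔ s).symm⟩

/-! ### Step 2: a minimal closed set without loops -/

/-- closed subsets of `[0,1]` containing the end points such that the two end points of every gap
have the same image -/
def FF (g : ℝ → X) : Set (Set ℝ) :=
  {F | IsClosed F ∧ F ⊆ Icc 0 1 ∧ (0:ℝ) ∈ F ∧ (1:ℝ) ∈ F ∧
    ∀ s ∈ F, ∀ t ∈ F, s < t → Disjoint (Ioo s t) F → g s = g t}

lemma exists_pred {F : Set ℝ} (hF : IsClosed F) (h0 : (0:ℝ) ∈ F) {x : ℝ} (hx : 0 ≤ x) :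
    ∃ s ∈ F, s ≤ x ∧ ∀ y ∈ F, y ≤ x → y ≤ s := by
  have hc : IsCompact (F ∩ Icc 0 x) := isCompact_Icc.inter_left hF
  obtain ⟨s, hs, hmax⟩ := hc.exists_isGreatest ⟨0, h0, le_rfl, hx⟩
  refine ⟨s, hs.1, hs.2.2, fun y hy hyx => ?_⟩
  rcases le_total 0 y with h | h
  · exact hmax ⟨hy, h, hyx⟩
  · exact h.trans hs.2.1

lemma exists_succ {F : Set ℝ} (hF : IsClosed F) (h1 : (1:ℝ) ∈ F) {x : ℝ} (hx : x ≤ 1) :
    ∃ t ∈ F, x ≤ t ∧ ∀ y ∈ F, x ≤ y → t ≤ y := by
  have hc : IsCompact (F ∩ Icc x 1) := isCompact_Icc.inter_left hF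
  obtain ⟨t, ht, hmin⟩ := hc.exists_isLeast ⟨1, h1, hx, le_rfl⟩
  refine ⟨t, ht.1, ht.2.1, fun y hy hyx => ?_⟩
  rcases le_total y 1 with h | h
  · exact hmin ⟨hy, hyx, h⟩
  · exact ht.2.2.trans h

lemma exists_minimal {g : ℝ → X} (hg : Continuous g) : ∃ F, Minimal (· ∈ FF g) F := by
  refine zorn_superset (FF g) fun c hcS hchain => ?_
  rcases c.eq_empty_or_nonempty with hempty | ⟨F₀, hF₀⟩
  · subst hempty
    refine ⟨Icc 0 1, ⟨isClosed_Icc, Subset.rfl, by simp, by simp, ?_⟩, by simp⟩
    intro s hs t ht hst hd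
    exfalso
    have : (s + t) / 2 ∈ Ioo s t := ⟨by linarith, by linarith⟩
    exact Set.disjoint_left.1 hd this ⟨by linarith [hs.1, ht.1], by linarith [hs.2, ht.2]⟩
  · refine ⟨⋂₀ c, ⟨isClosed_sInter fun F hF => (hcS hF).1, ?_, ?_, ?_, ?_⟩,
      fun F hF => sInter_subset_of_mem hF⟩
    · exact (sInter_subset_of_mem hF₀).trans (hcS hF₀).2.1
    · exact mem_sInter.2 fun F hF => (hcS hF).2.2.1
    · exact mem_sInter.2 fun F hF => (hcS hF).2.2.2.1
    · intro s hs t ht hst hd
      by_contra hne
      obtain ⟨U, V, hU, hV, hsU, htV, hUV⟩ := t2_separation hne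
      obtain ⟨ε, hε, hεU⟩ := Metric.isOpen_iff.1 (hU.preimage hg) s hsU
      obtain ⟨ε', hε', hεV⟩ := Metric.isOpen_iff.1 (hV.preimage hg) t htV
      set η := min (min ε ε') ((t - s) / 2) / 2 with hη
      have hη0 : 0 < η := by
        rw [hη]; have : 0 < (t - s) / 2 := by linarith
        positivity
      have hη1 : η < ε := by
        have h1 : min (min ε ε') ((t - s) / 2) ≤ ε := (min_le_left _ _).trans (min_le_left _ _)
        rw [hη]; linarith
      have hη2 : η < ε' := by
        have h1 : min (min ε ε') ((t - s) / 2) ≤ ε' := (min_le_left _ _).trans (min_le_right _ _)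
        rw [hη]; linarith
      have hη3 : η ≤ (t - s) / 4 := by
        have h1 : min (min ε ε') ((t - s) / 2) ≤ (t - s) / 2 := min_le_right _ _
        rw [hη]; linarith
      -- some member of the chain misses `[s + η, t - η]`
      have hK : IsCompact (Icc (s + η) (t - η)) := isCompact_Icc
      have hdisj : Icc (s + η) (t - η) ∩ ⋂ F : c, (F : Set ℝ) = ∅ := by
        rw [← sInter_eq_iInter]
        ext x
        simp only [mem_inter_iff, mem_empty_iff_false, iff_false, not_and]
        intro hx hxc
        exact Set.disjoint_left.1 hd ⟨by linarith [hx.1], by linarith [hx.2]⟩ hxc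
      have hdir : Directed (· ⊇ ·) (fun F : c => (F : Set ℝ)) := by
        intro A B
        rcases hchain.total A.2 B.2 with h | h
        · exact ⟨A, Subset.rfl, h⟩
        · exact ⟨B, h, Subset.rfl⟩
      haveI : Nonempty c := ⟨⟨F₀, hF₀⟩⟩
      obtain ⟨⟨F, hF⟩, hFK⟩ := hK.elim_directed_family_closed
        (fun F : c => (F : Set ℝ)) (fun F => (hcS F.2).1) hdisj hdir
      have hFf := hcS hF
      have hsF : s ∈ F := mem_sInter.1 hs F hF
      have htF : t ∈ F := mem_sInter.1 ht F hF
      have hs01 := hFf.2.1 hsF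
      have ht01 := hFf.2.1 htF
      obtain ⟨a, haF, has, hamax⟩ := exists_pred hFf.1 hFf.2.2.1
        (x := s + η) (by linarith [hs01.1])
      obtain ⟨b, hbF, hbt, hbmin⟩ := exists_succ hFf.1 hFf.2.2.2.1
        (x := t - η) (by linarith [ht01.2])
      have hsa : s ≤ a := hamax s hsF (by linarith)
      have hbt' : b ≤ t := hbmin t htF (by linarith)
      have hab : a < b := by linarith
      have hgab : g a = g b := by
        refine hFf.2.2.2.2 a haF b hbF hab (Set.disjoint_left.2 fun x hx hxF => ?_)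
        rcases le_or_gt x (s + η) with h1 | h1
        · exact absurd (hamax x hxF h1) (not_le.2 hx.1)
        · rcases le_or_gt (t - η) x with h2 | h2
          · exact absurd (hbmin x hxF h2) (not_le.2 hx.2)
          · have h3 : x ∈ Icc (s + η) (t - η) ∩ F := ⟨⟨h1.le, h2.le⟩, hxF⟩
            rw [hFK] at h3
            exact h3
      have haU : g a ∈ U := hεU (by
        rw [mem_ball, Real.dist_eq, abs_lt]; constructor <;> linarith)
      have hbV : g b ∈ V := hεV (by
        rw [mem_ball, Real.dist_eq, abs_lt]; constructor <;> linarith)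
      rw [hgab] at haU
      exact Set.disjoint_left.1 hUV haU hbV

lemma minimal_gap {g : ℝ → X} {F : Set ℝ} (hF : Minimal (· ∈ FF g) F) {s t : ℝ} (hs : s ∈ F)
    (ht : t ∈ F) (hst : s < t) (hgst : g s = g t) : Disjoint (Ioo s t) F := by
  obtain ⟨hcl, h01, h0, h1, hgap⟩ := hF.prop
  have hmem : F \ Ioo s t ∈ FF g := by
    refine ⟨hcl.sdiff isOpen_Ioo, sdiff_subset.trans h01, ⟨h0, fun h => ?_⟩, ⟨h1, fun h => ?_⟩, ?_⟩
    · exact absurd (h01 hs).1 (not_le.2 h.1)
    · exact absurd (h01 ht).2 (not_le.2 h.2)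
    · intro u hu v hv huv hd
      have hs' : s ∈ F \ Ioo s t := ⟨hs, fun h => lt_irrefl _ h.1⟩
      have ht' : t ∈ F \ Ioo s t := ⟨ht, fun h => lt_irrefl _ h.2⟩
      have hsuv : s ∉ Ioo u v := fun h => Set.disjoint_left.1 hd h hs'
      have htuv : t ∉ Ioo u v := fun h => Set.disjoint_left.1 hd h ht'
      by_cases hcase : u = s ∧ v = t
      · rw [hcase.1, hcase.2]; exact hgst
      · refine hgap u hu.1 v hv.1 huv (Set.disjoint_left.2 fun x hx hxF => ?_)
        by_cases hxs : x ∈ Ioo s t
        · apply hcase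
          have hus : u ≤ s := by
            by_contra hlt
            push Not at hlt
            exact hu.2 ⟨hlt, by linarith [hx.1, hxs.2]⟩
          have htv : t ≤ v := by
            by_contra hlt
            push Not at hlt
            exact hv.2 ⟨by linarith [hx.2, hxs.1], hlt⟩
          constructor
          · by_contra hne
            exact hsuv ⟨lt_of_le_of_ne hus hne, by linarith [hx.2, hxs.1]⟩
          · by_contra hne
            exact htuv ⟨by linarith [hx.1, hxs.2], lt_of_le_of_ne htv (fun h => hne h.symm)⟩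
        · exact Set.disjoint_left.1 hd hx ⟨hxF, hxs⟩
  have heq := hF.le_of_le hmem sdiff_subset
  rw [Set.disjoint_left]
  intro x hx hxF
  exact (heq hxF).2 hx

/-- A path between distinct points contains an injective path. -/
theorem exists_arc {a b : X} (hab : a ≠ b) (γ : Path a b) :
    ∃ δ : Path a b, Function.Injective δ ∧ range δ ⊆ range γ := by
  set g : ℝ → X := fun t => γ.extend t with hg
  have hgc : Continuous g := γ.extend.continuous
  have hg0 : g 0 = a := γ.extend_zero
  have hg1 : g 1 = b := γ.extend_one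
  obtain ⟨F, hF⟩ := exists_minimal hgc
  obtain ⟨hcl, h01, h0, h1, hgap⟩ := hF.prop
  have hex : ∀ x : ℝ, ∃ s ∈ F, s ≤ max x 0 ∧ ∀ y ∈ F, y ≤ max x 0 → y ≤ s := fun x =>
    exists_pred hcl h0 (le_max_right _ _)
  choose p hpF hpx hpmax using hex
  have hex2 : ∀ x : ℝ, ∃ t ∈ F, min x 1 ≤ t ∧ ∀ y ∈ F, min x 1 ≤ y → t ≤ y := fun x =>
    exists_succ hcl h1 (min_le_right _ _)
  choose q hqF hqx hqmin using hex2
  set h : ℝ → X := fun x => g (p x) with hh
  have hp01 : ∀ x, p x ∈ Icc (0:ℝ) 1 := fun x => h01 (hpF x)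
  have hq01 : ∀ x, q x ∈ Icc (0:ℝ) 1 := fun x => h01 (hqF x)
  -- the two neighbours have the same image
  have hpq : ∀ x, g (p x) = g (q x) := by
    intro x
    rcases lt_trichotomy (p x) (q x) with hlt | heq | hgt
    · refine hgap _ (hpF x) _ (hqF x) hlt (Set.disjoint_left.2 fun y hy hyF => ?_)
      have hy01 := h01 hyF
      rcases le_total y x with hyx | hyx
      · exact absurd (hpmax x y hyF (hyx.trans (le_max_left _ _))) (not_le.2 hy.1)
      · exact absurd (hqmin x y hyF ((min_le_left _ _).trans hyx)) (not_le.2 hy.2)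
    · rw [heq]
    · -- then `x` is outside `[0,1]`, impossible unless `p x = q x`
      exfalso
      rcases le_total x 0 with hx0 | hx0
      · have h3 : p x ≤ 0 := by have := hpx x; rwa [max_eq_right hx0] at this
        linarith [(hq01 x).1]
      · rcases le_total x 1 with hx1 | hx1
        · have h3 := hpx x
          have h4 := hqx x
          rw [max_eq_left hx0] at h3
          rw [min_eq_left hx1] at h4
          linarith
        · have h4 := hqx x
          rw [min_eq_right hx1] at h4
          linarith [(hp01 x).2]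
  have hFp : ∀ x ∈ F, p x = x := by
    intro x hx
    have hx01 := h01 hx
    refine le_antisymm ?_ (hpmax x x hx (le_max_left _ _))
    have := hpx x
    rwa [max_eq_left hx01.1] at this
  -- continuity
  have hhc : Continuous h := by
    rw [continuous_iff_continuousAt]
    intro x
    rw [ContinuousAt, Metric.tendsto_nhds]
    intro ε hε
    by_cases hxF : x ∈ F
    · have hx01 := h01 hxF
      have h2 := Metric.continuousAt_iff.1 (hgc.continuousAt (x := x)) ε hε
      obtain ⟨η, hη, hball⟩ := h2
      have hhx : h x = g x := by rw [hh]; simp only; rw [hFp x hxF]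
      filter_upwards [Metric.ball_mem_nhds x hη] with y hy
      rw [hhx]
      rw [mem_ball, Real.dist_eq, abs_lt] at hy
      rcases le_total x y with hxy | hxy
      · -- `p y ∈ [x, y]`
        have h3 : x ≤ p y := hpmax y x hxF (hxy.trans (le_max_left _ _))
        have h4 : p y ≤ y := by
          have := hpx y
          rwa [max_eq_left (hx01.1.trans hxy)] at this
        exact hball (by rw [Real.dist_eq, abs_lt]; constructor <;> linarith)
      · have h3 : q y ≤ x := hqmin y x hxF ((min_le_left _ _).trans hxy)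
        have h4 : y ≤ q y := by
          have := hqx y
          rwa [min_eq_left (hxy.trans hx01.2)] at this
        show dist (g (p y)) (g x) < ε
        rw [hpq y]
        exact hball (by rw [Real.dist_eq, abs_lt]; constructor <;> linarith)
    · -- locally constant
      have hopen : Fᶜ ∈ 𝓝 x := hcl.isOpen_compl.mem_nhds hxF
      obtain ⟨η, hη, hball⟩ := Metric.mem_nhds_iff.1 hopen
      filter_upwards [Metric.ball_mem_nhds x hη] with y hy
      have hpe : p y = p x := by
        have hno : ∀ z, z ∈ F → ¬ (z ∈ ball x η) := fun z hz hzb => hball hzb hz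
        have hy' := hy
        rw [mem_ball, Real.dist_eq, abs_lt] at hy'
        have aux : ∀ u v, |u - x| < η → |v - x| < η → p u ≤ p v := by
          intro u v hu hv
          refine hpmax v (p u) (hpF u) ?_
          rw [abs_lt] at hu hv
          by_contra hlt
          push Not at hlt
          have h3 := hpx u
          have h4 : v < p u := (le_max_left _ _).trans_lt hlt
          have h5 : 0 < p u := (le_max_right _ _).trans_lt hlt
          have h6 : p u ≤ u := by
            rcases le_total u 0 with h | h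
            · rw [max_eq_right h] at h3; linarith
            · rwa [max_eq_left h] at h3
          exact hno (p u) (hpF u) (by
            rw [mem_ball, Real.dist_eq, abs_lt]; constructor <;> linarith)
        have h3 : |y - x| < η := by rw [abs_lt]; exact hy'
        have h4 : |x - x| < η := by simpa using hη
        exact le_antisymm (aux y x h3 h4) (aux x y h4 h3)
      show dist (g (p y)) (g (p x)) < ε
      rw [hpe, dist_self]; exact hε
  have hh0 : h 0 = a := by rw [hh]; simp only; rw [hFp 0 h0, hg0]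
  have hh1 : h 1 = b := by rw [hh]; simp only; rw [hFp 1 h1, hg1]
  -- fibres are intervals
  have hpmono : ∀ x y, x ≤ y → p x ≤ p y := fun x y hxy =>
    hpmax y (p x) (hpF x) ((hpx x).trans (max_le_max hxy le_rfl))
  have hqmono : ∀ x y, x ≤ y → q x ≤ q y := fun x y hxy =>
    hqmin x (q y) (hqF y) ((min_le_min hxy le_rfl).trans (hqx y))
  have hfib : ∀ s ∈ Icc (0:ℝ) 1, ∀ t ∈ Icc (0:ℝ) 1, s ≤ t → h s = h t →
      ∀ u ∈ Icc s t, h u = h s := by
    intro s hs t ht hst heq u hu
    have hsq : h s = g (q s) := hpq s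
    have htp : h t = g (p t) := rfl
    have hpu := hpmono s u hu.1
    have hpu2 := hpmono u t hu.2
    have hqu := hqmono s u hu.1
    -- values at `p u` : either `p u = p s`, or `q s ≤ p u`
    have hpu_cases : p u = p s ∨ q s ≤ p u := by
      rcases le_or_gt (p u) s with h3 | h3
      · left
        exact le_antisymm (hpmax s (p u) (hpF u) (h3.trans (le_max_left _ _))) hpu
      · right
        exact hqmin s (p u) (hpF u) ((min_le_left _ _).trans h3.le)
    rcases hpu_cases with h3 | h3
    · show g (p u) = g (p s)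
      rw [h3]
    · -- `q s ≤ p u ≤ p t`
      rcases eq_or_lt_of_le (h3.trans hpu2) with h4 | h4
      · have h5 : p u = q s := le_antisymm (hpu2.trans h4.symm.le) h3
        show g (p u) = g (p s)
        rw [h5, ← hpq s]
      · have h5 : g (q s) = g (p t) := by rw [← hsq, heq]
        have h6 := minimal_gap hF (hqF s) (hpF t) h4 h5
        have h7 : p u = q s ∨ p u = p t := by
          by_contra hno
          push Not at hno
          exact Set.disjoint_left.1 h6
            ⟨lt_of_le_of_ne h3 (Ne.symm hno.1), lt_of_le_of_ne hpu2 hno.2⟩ (hpF u)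
        show g (p u) = g (p s)
        rcases h7 with h7 | h7
        · rw [h7, ← hpq s]
        · rw [h7]
          exact heq.symm
  obtain ⟨δ, hδ, hr⟩ := exists_inj hhc (by rw [hh0, hh1]; exact hab) hfib
  refine ⟨δ.cast hh0.symm hh1.symm, ?_, ?_⟩
  · exact hδ
  · have h3 : range (δ.cast hh0.symm hh1.symm) = range δ := rfl
    rw [h3]
    refine hr.trans ?_
    rintro _ ⟨x, -, rfl⟩
    exact ⟨⟨p x, hp01 x⟩, by
      rw [hh, hg]; simp only
      rw [γ.extend_apply (hp01 x)]⟩

end Pool.Agent.Helper32.Arc
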