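import Mathlib

/-!
# Simple quotients of separable Banach algebras: the definitions used in the statement

A Banach algebra is a type `P` with instances `NonUnitalNormedRing P`, `NormedSpace ℂ P` and
`IsBanachAlgebra P`, that is, a complex associative, not necessarily unital, algebra with a complete
submultiplicative norm.
-/

set_option autoImplicit false

open Topology

namespace Pool.Agent.Helper32.Banach

/-- The (not necessarily unital) normed ring and complex normed space `P` is a Banach algebra:
`(c • x) * y = c • (x * y)`, `c • (x * y) = x * (c • y)`, and `P` is complete. -/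
class IsBanachAlgebra (P : Type*) [NonUnitalNormedRing P] [NormedSpace ℂ P] : Prop extends
  IsScalarTower ℂ P P, SMulCommClass ℂ P P, CompleteSpace P

/-- A closed two-sided ideal of a complex normed algebra `P`: a norm-closed linear subspace which is
stable under left and right multiplication by elements of `P` (it may be `{0}` or `P`). -/
@[ext]
structure ClosedIdeal (P : Type*) [NonUnitalNormedRing P] [NormedSpace ℂ P] where
  /-- The underlying linear subspace. -/
  carrier : Submodule ℂ P
  isClosed : IsClosed (carrier : Set P)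
  mul_mem_left : ∀ a x : P, x ∈ carrier → a * x ∈ carrier
  mul_mem_right : ∀ a x : P, x ∈ carrier → x * a ∈ carrier

/-- The Wijsman topology on the set of closed two-sided ideals: the weakest topology for which
`K ↦ dist (x, K)` is continuous for every `x : P`. -/
noncomputable instance ClosedIdeal.wijsman (P : Type*) [NonUnitalNormedRing P] [NormedSpace ℂ P] :
    TopologicalSpace (ClosedIdeal P) :=
  ⨅ x : P, TopologicalSpace.induced
    (fun K : ClosedIdeal P => Metric.infDist x (K.carrier : Set P)) inferInstance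

section Quotient

variable {P : Type*} [NonUnitalNormedRing P] [NormedSpace ℂ P]

instance ClosedIdeal.instIsClosed (K : ClosedIdeal P) : IsClosed (K.carrier : Set P) := K.isClosed

/-- The quotient `P / K` by a closed two-sided ideal. It carries Mathlib's quotient vector space
structure and quotient norm. -/
abbrev ClosedIdeal.Quot (K : ClosedIdeal P) : Type _ := P ⧸ K.carrier

namespace ClosedIdeal

variable (K : ClosedIdeal P)

/-- The quotient map `P → P / K`. -/
abbrev toQuot : P →ₗ[ℂ] K.Quot := K.carrier.mkQ

theorem toQuot_surjective : Function.Surjective K.toQuot := K.carrier.mkQ_surjective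

theorem toQuot_eq_iff (x y : P) : K.toQuot x = K.toQuot y ↔ x - y ∈ K.carrier :=
  Submodule.Quotient.eq K.carrier

theorem toQuot_eq_zero_iff (x : P) : K.toQuot x = 0 ↔ x ∈ K.carrier :=
  Submodule.Quotient.mk_eq_zero K.carrier

/-- Multiplication on `P / K`, `[x] * [y] = [x * y]`. -/
instance instMulQuot : Mul K.Quot where
  mul a b := Quotient.liftOn₂' a b (fun x y => Submodule.Quotient.mk (x * y)) (by
    intro x y x' y' hx hy
    have hx' : x - x' ∈ K.carrier := (Submodule.quotientRel_def _).1 hx
    have hy' : y - y' ∈ K.carrier := (Submodule.quotientRel_def _).1 hy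
    refine (Submodule.Quotient.eq K.carrier).2 ?_
    have : x * y - x' * y' = (x - x') * y + x' * (y - y') := by
      simp only [sub_mul, mul_sub]; abel
    rw [this]
    exact K.carrier.add_mem (K.mul_mem_right _ _ hx') (K.mul_mem_left _ _ hy'))

theorem toQuot_mul (x y : P) : K.toQuot (x * y) = K.toQuot x * K.toQuot y := rfl

theorem norm_toQuot_le (x : P) : ‖K.toQuot x‖ ≤ ‖x‖ :=
  Submodule.Quotient.norm_mk_le K.carrier x

theorem exists_norm_lt (a : K.Quot) {ε : ℝ} (hε : 0 < ε) :
    ∃ x : P, K.toQuot x = a ∧ ‖x‖ < ‖a‖ + ε :=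
  Submodule.Quotient.norm_mk_lt (S := K.carrier) a hε

theorem quot_left_distrib (a b c : K.Quot) : a * (b + c) = a * b + a * c := by
  obtain ⟨x, rfl⟩ := K.toQuot_surjective a
  obtain ⟨y, rfl⟩ := K.toQuot_surjective b
  obtain ⟨z, rfl⟩ := K.toQuot_surjective c
  rw [← map_add, ← toQuot_mul, ← toQuot_mul, ← toQuot_mul, ← map_add, mul_add]

theorem quot_right_distrib (a b c : K.Quot) : (a + b) * c = a * c + b * c := by
  obtain ⟨x, rfl⟩ := K.toQuot_surjective a
  obtain ⟨y, rfl⟩ := K.toQuot_surjective b
  obtain ⟨z, rfl⟩ := K.toQuot_surjective c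
  rw [← map_add, ← toQuot_mul, ← toQuot_mul, ← toQuot_mul, ← map_add, add_mul]

theorem quot_zero_mul (a : K.Quot) : 0 * a = 0 := by
  obtain ⟨x, rfl⟩ := K.toQuot_surjective a
  rw [← map_zero K.toQuot, ← toQuot_mul, zero_mul]

theorem quot_mul_zero (a : K.Quot) : a * 0 = 0 := by
  obtain ⟨x, rfl⟩ := K.toQuot_surjective a
  rw [← map_zero K.toQuot, ← toQuot_mul, mul_zero]

theorem quot_mul_assoc (a b c : K.Quot) : a * b * c = a * (b * c) := by
  obtain ⟨x, rfl⟩ := K.toQuot_surjective a
  obtain ⟨y, rfl⟩ := K.toQuot_surjective b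
  obtain ⟨z, rfl⟩ := K.toQuot_surjective c
  rw [← toQuot_mul, ← toQuot_mul, ← toQuot_mul, ← toQuot_mul, mul_assoc]

theorem quot_norm_mul_le (a b : K.Quot) : ‖a * b‖ ≤ ‖a‖ * ‖b‖ := by
  have key : ∀ ε : ℝ, 0 < ε → ‖a * b‖ ≤ (‖a‖ + ε) * (‖b‖ + ε) := by
    intro ε hε
    obtain ⟨x, rfl, hx⟩ := K.exists_norm_lt a hε
    obtain ⟨y, rfl, hy⟩ := K.exists_norm_lt b hε
    rw [← toQuot_mul]
    calc ‖K.toQuot (x * y)‖ ≤ ‖x * y‖ := K.norm_toQuot_le _
      _ ≤ ‖x‖ * ‖y‖ := norm_mul_le _ _
      _ ≤ _ := by gcongr
  have hlim : Filter.Tendsto (fun ε : ℝ => (‖a‖ + ε) * (‖b‖ + ε)) (𝓝[>] 0)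
      (𝓝 ((‖a‖ + 0) * (‖b‖ + 0))) := by
    refine (Continuous.tendsto ?_ 0).mono_left nhdsWithin_le_nhds
    fun_prop
  simp only [add_zero] at hlim
  refine ge_of_tendsto hlim ?_
  filter_upwards [self_mem_nhdsWithin] with ε hε using key ε hε

/-- `P / K` as a normed algebra, with the quotient norm and the product `[x] * [y] = [x * y]`. -/
noncomputable instance instNonUnitalNormedRingQuot : NonUnitalNormedRing K.Quot :=
  { Submodule.Quotient.normedAddCommGroup K.carrier, K.instMulQuot with
    left_distrib := K.quot_left_distrib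
    right_distrib := K.quot_right_distrib
    zero_mul := K.quot_zero_mul
    mul_zero := K.quot_mul_zero
    mul_assoc := K.quot_mul_assoc
    norm_mul_le := K.quot_norm_mul_le }

instance instIsScalarTowerQuot [IsScalarTower ℂ P P] : IsScalarTower ℂ K.Quot K.Quot where
  smul_assoc c a b := by
    obtain ⟨x, rfl⟩ := K.toQuot_surjective a
    obtain ⟨y, rfl⟩ := K.toQuot_surjective b
    change (c • K.toQuot x) * K.toQuot y = c • (K.toQuot x * K.toQuot y)
    rw [← map_smul, ← toQuot_mul, ← toQuot_mul, ← map_smul, smul_mul_assoc]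

instance instSMulCommClassQuot [SMulCommClass ℂ P P] : SMulCommClass ℂ K.Quot K.Quot where
  smul_comm c a b := by
    obtain ⟨x, rfl⟩ := K.toQuot_surjective a
    obtain ⟨y, rfl⟩ := K.toQuot_surjective b
    change c • (K.toQuot x * K.toQuot y) = K.toQuot x * (c • K.toQuot y)
    rw [← map_smul, ← toQuot_mul, ← toQuot_mul, ← map_smul, mul_smul_comm]

instance instIsBanachAlgebraQuot [IsBanachAlgebra P] : IsBanachAlgebra K.Quot where

end ClosedIdeal

end Quotient

section Simple

/-- The two-sided ideal of `B` generated by `b`: the smallest linear subspace of `B` which contains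
`b` and is stable under left and right multiplication by elements of `B`. -/
def idealGen {B : Type*} [NonUnitalNormedRing B] [NormedSpace ℂ B] (b : B) : Submodule ℂ B :=
  sInf {I : Submodule ℂ B | b ∈ I ∧ (∀ a x : B, x ∈ I → a * x ∈ I) ∧ ∀ a x : B, x ∈ I → x * a ∈ I}

/-- A Banach algebra `B` is simple if for every nonzero `b` the two-sided ideal generated by `b` is
dense in `B`. -/
def IsSimpleBanach (B : Type*) [NonUnitalNormedRing B] [NormedSpace ℂ B] : Prop :=
  ∀ b : B, b ≠ 0 → Dense (idealGen b : Set B)

/-- `Simple(P)`: the closed two-sided ideals `K` of `P` for which `P / K` is simple. The point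
`K = P` (zero quotient) is included. -/
def SimpleIdeals (P : Type*) [NonUnitalNormedRing P] [NormedSpace ℂ P] : Set (ClosedIdeal P) :=
  {K | IsSimpleBanach K.Quot}

/-- `e : A → B` is an isomorphism of Banach algebras: a linear and multiplicative homeomorphism. -/
structure IsBanachIso {A B : Type*} [NonUnitalNormedRing A] [NormedSpace ℂ A]
    [NonUnitalNormedRing B] [NormedSpace ℂ B] (e : A → B) : Prop where
  map_add : ∀ x y, e (x + y) = e x + e y
  map_smul : ∀ (c : ℂ) (x : A), e (c • x) = c • e x
  map_mul : ∀ x y, e (x * y) = e x * e y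
  homeo : IsHomeomorph e

/-- `P` has the quotient generator property: every separable Banach algebra is isomorphic to
`P / K` for some closed two-sided ideal `K`. -/
def IsQuotientGenerator.{u, v} (P : Type u) [NonUnitalNormedRing P] [NormedSpace ℂ P] : Prop :=
  ∀ (A : Type v) [NonUnitalNormedRing A] [NormedSpace ℂ A] [IsBanachAlgebra A]
    [TopologicalSpace.SeparableSpace A],
    ∃ (K : ClosedIdeal P) (e : K.Quot → A), IsBanachIso e

/-- `P` is (isometrically isomorphic to) the convolution algebra `ℓ¹(S)` of the free semigroup `S`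
on countably many generators: there are elements `ι s` of `P` with `ι (s * t) = ι s * ι t`, with
dense linear span, and with `‖∑ c s • ι s‖ = ∑ ‖c s‖` for all finitely supported `c`. -/
def IsEllOneFreeSemigroup (P : Type*) [NonUnitalNormedRing P] [NormedSpace ℂ P] : Prop :=
  ∃ ι : FreeSemigroup ℕ → P, (∀ s t, ι (s * t) = ι s * ι t) ∧
    (∀ (F : Finset (FreeSemigroup ℕ)) (c : FreeSemigroup ℕ → ℂ),
      ‖∑ s ∈ F, c s • ι s‖ = ∑ s ∈ F, ‖c s‖) ∧
    Dense (Submodule.span ℂ (Set.range ι) : Set P)

end Simple

end Pool.Agent.Helper32.Banach
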