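import Pool.Agent.Helper32.BanachDefs

/-!
# Criteria for simplicity of a quotient
-/

set_option autoImplicit false

open Topology Filter

namespace Pool.Agent.Helper32.Banach

section

variable {P : Type*} [NonUnitalNormedRing P] [NormedSpace ℂ P]
variable {D : Type*} [NonUnitalNormedRing D] [NormedSpace ℂ D]

/-- The kernel of a continuous homomorphism, as a closed ideal. -/
noncomputable def kerIdeal (ψ : P →L[ℂ] D) (hψ : ∀ x y, ψ (x * y) = ψ x * ψ y) : ClosedIdeal P where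
  carrier := LinearMap.ker (ψ : P →ₗ[ℂ] D)
  isClosed := ψ.isClosed_ker
  mul_mem_left a x hx := by
    change ψ (a * x) = 0
    have hx' : ψ x = 0 := hx
    rw [hψ, hx', mul_zero]
  mul_mem_right a x hx := by
    change ψ (x * a) = 0
    have hx' : ψ x = 0 := hx
    rw [hψ, hx', zero_mul]

theorem mem_kerIdeal (ψ : P →L[ℂ] D) (hψ : ∀ x y, ψ (x * y) = ψ x * ψ y) (x : P) :
    x ∈ (kerIdeal ψ hψ).carrier ↔ ψ x = 0 := Iff.rfl

theorem mem_idealGen {B : Type*} [NonUnitalNormedRing B] [NormedSpace ℂ B] (b : B) :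
    b ∈ idealGen b := by
  rw [idealGen, Submodule.mem_sInf]
  exact fun I hI => hI.1

theorem mul_mem_idealGen {B : Type*} [NonUnitalNormedRing B] [NormedSpace ℂ B] (b a x : B)
    (hx : x ∈ idealGen b) : a * x ∈ idealGen b := by
  rw [idealGen, Submodule.mem_sInf] at *
  exact fun I hI => hI.2.1 a x (hx I hI)

theorem mul_mem_idealGen' {B : Type*} [NonUnitalNormedRing B] [NormedSpace ℂ B] (b a x : B)
    (hx : x ∈ idealGen b) : x * a ∈ idealGen b := by
  rw [idealGen, Submodule.mem_sInf] at *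
  exact fun I hI => hI.2.2 a x (hx I hI)

theorem idealGen_le {B : Type*} [NonUnitalNormedRing B] [NormedSpace ℂ B] (b : B)
    (I : Submodule ℂ B) (hb : b ∈ I) (h1 : ∀ a x : B, x ∈ I → a * x ∈ I)
    (h2 : ∀ a x : B, x ∈ I → x * a ∈ I) : idealGen b ≤ I :=
  sInf_le ⟨hb, h1, h2⟩

theorem simple_of [IsScalarTower ℂ P P] [SMulCommClass ℂ P P] {J : Type*} (ψ : P →L[ℂ] D)
    (hψ : ∀ x y, ψ (x * y) = ψ x * ψ y)
    (E : J → J → D) (hE : ∀ i j, ∃ p, ψ p = E i j)
    (happrox : ∀ p, ∀ ε : ℝ, 0 < ε →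
      ∃ m ∈ Submodule.span ℂ (Set.range fun q : J × J => E q.1 q.2), ∃ p', ψ p' = ψ p - m ∧ ‖p'‖ < ε)
    (hsand : ∀ p, ψ p ≠ 0 → ∃ i j, ∃ c : ℂ, c ≠ 0 ∧ ∀ k l, E k i * ψ p * E j l = c • E k l) :
    IsSimpleBanach (kerIdeal ψ hψ).Quot := by
  set K := kerIdeal ψ hψ with hK
  intro b hb
  obtain ⟨q, rfl⟩ := K.toQuot_surjective b
  have hq : ψ q ≠ 0 := by
    intro h
    apply hb
    exact (K.toQuot_eq_zero_iff q).2 h
  obtain ⟨i, j, c, hc, hs⟩ := hsand q hq
  -- the span of the matrix units lies in the generated ideal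
  have hspan : ∀ m ∈ Submodule.span ℂ (Set.range fun q : J × J => E q.1 q.2),
      ∃ p, ψ p = m ∧ K.toQuot p ∈ idealGen (K.toQuot q) := by
    intro m hm
    induction hm using Submodule.span_induction with
    | mem m hm =>
      obtain ⟨⟨k, l⟩, rfl⟩ := hm
      obtain ⟨a, ha⟩ := hE k i
      obtain ⟨a', ha'⟩ := hE j l
      refine ⟨c⁻¹ • (a * q * a'), ?_, ?_⟩
      · rw [map_smul, hψ, hψ, ha, ha', hs, smul_smul, inv_mul_cancel₀ hc, one_smul]
      · rw [map_smul, K.toQuot_mul, K.toQuot_mul]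
        refine (idealGen (K.toQuot q)).smul_mem _ ?_
        exact mul_mem_idealGen' _ _ _ (mul_mem_idealGen _ _ _ (mem_idealGen _))
    | zero => exact ⟨0, map_zero _, by rw [map_zero]; exact (idealGen (K.toQuot q)).zero_mem⟩
    | add x y _ _ hx hy =>
      obtain ⟨p1, h1, h1'⟩ := hx
      obtain ⟨p2, h2, h2'⟩ := hy
      exact ⟨p1 + p2, by rw [map_add, h1, h2],
        by rw [map_add]; exact (idealGen (K.toQuot q)).add_mem h1' h2'⟩
    | smul a x _ hx =>
      obtain ⟨p1, h1, h1'⟩ := hx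
      exact ⟨a • p1, by rw [map_smul, h1],
        by rw [map_smul]; exact (idealGen (K.toQuot q)).smul_mem _ h1'⟩
  rw [Metric.dense_iff]
  intro z ε hε
  obtain ⟨p, rfl⟩ := K.toQuot_surjective z
  obtain ⟨m, hm, p', hp', hnorm⟩ := happrox p ε hε
  obtain ⟨p2, hp2, hmem⟩ := hspan m hm
  refine ⟨K.toQuot p2, ?_, hmem⟩
  have heq : K.toQuot p2 = K.toQuot (p - p') := by
    rw [K.toQuot_eq_iff]
    change ψ (p2 - (p - p')) = 0
    rw [map_sub, map_sub, hp2, hp']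
    abel
  rw [heq, Metric.mem_ball, dist_eq_norm, ← map_sub]
  have : p - p' - p = -p' := by abel
  rw [this]
  calc ‖K.toQuot (-p')‖ ≤ ‖-p'‖ := K.norm_toQuot_le _
    _ = ‖p'‖ := norm_neg _
    _ < ε := hnorm

theorem not_simple_of [IsScalarTower ℂ P P] [SMulCommClass ℂ P P] (ψ : P →L[ℂ] D)
    (hψ : ∀ x y, ψ (x * y) = ψ x * ψ y) (x : P)
    (hx : ψ x ≠ 0) (hann : ∀ p, ψ (p * x) = 0 ∧ ψ (x * p) = 0) (z : P)
    (hz : ∀ c : ℂ, ψ z ≠ c • ψ x) : ¬ IsSimpleBanach (kerIdeal ψ hψ).Quot := by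
  set K := kerIdeal ψ hψ with hK
  intro hs
  have hb : K.toQuot x ≠ 0 := by
    intro h
    exact hx ((K.toQuot_eq_zero_iff x).1 h)
  have hd := hs (K.toQuot x) hb
  have hle : idealGen (K.toQuot x) ≤ Submodule.span ℂ {K.toQuot x} := by
    refine idealGen_le _ _ (Submodule.mem_span_singleton_self _) ?_ ?_
    · intro a y hy
      obtain ⟨p, rfl⟩ := K.toQuot_surjective a
      obtain ⟨c, rfl⟩ := Submodule.mem_span_singleton.1 hy
      rw [mul_smul_comm, ← K.toQuot_mul, (K.toQuot_eq_zero_iff _).2 (hann p).1, smul_zero]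
      exact Submodule.zero_mem _
    · intro a y hy
      obtain ⟨p, rfl⟩ := K.toQuot_surjective a
      obtain ⟨c, rfl⟩ := Submodule.mem_span_singleton.1 hy
      rw [smul_mul_assoc, ← K.toQuot_mul, (K.toQuot_eq_zero_iff _).2 (hann p).2, smul_zero]
      exact Submodule.zero_mem _
  have hcl : IsClosed ((Submodule.span ℂ {K.toQuot x} : Submodule ℂ K.Quot) : Set K.Quot) :=
    Submodule.closed_of_finiteDimensional _
  have hd2 : Dense ((Submodule.span ℂ {K.toQuot x} : Submodule ℂ K.Quot) : Set K.Quot) :=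
    hd.mono hle
  have huniv := hcl.closure_eq ▸ hd2.closure_eq
  have hmem : K.toQuot z ∈ ((Submodule.span ℂ {K.toQuot x} : Submodule ℂ K.Quot) : Set K.Quot) := by
    rw [huniv]; trivial
  obtain ⟨c, hc⟩ := Submodule.mem_span_singleton.1 hmem
  rw [← map_smul, K.toQuot_eq_iff] at hc
  have h0 : ψ (c • x - z) = 0 := hc
  rw [map_sub, map_smul, sub_eq_zero] at h0
  exact hz c h0.symm

/-- A surjective continuous homomorphism between Banach algebras induces an isomorphism of Banach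
algebras from the quotient by its kernel. -/
theorem exists_quot_iso [CompleteSpace P] [CompleteSpace D] (ψ : P →L[ℂ] D)
    (hψ : ∀ x y, ψ (x * y) = ψ x * ψ y) (hsurj : Function.Surjective ψ) :
    ∃ e : (kerIdeal ψ hψ).Quot → D, IsBanachIso e := by
  set K := kerIdeal ψ hψ with hK
  let e0 : K.Quot →ₗ[ℂ] D := K.carrier.liftQ (ψ : P →ₗ[ℂ] D) (le_refl _)
  have he0 : ∀ p, e0 (K.toQuot p) = ψ p := fun p => rfl
  let e1 : K.Quot →L[ℂ] D := e0.mkContinuous ‖ψ‖ (by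
    intro a
    refine le_of_forall_pos_le_add fun ε hε => ?_
    obtain ⟨δ, hδ, hδε⟩ : ∃ δ : ℝ, 0 < δ ∧ ‖ψ‖ * δ ≤ ε := by
      refine ⟨ε / (‖ψ‖ + 1), by positivity, ?_⟩
      rw [mul_div_assoc', div_le_iff₀ (by positivity)]
      nlinarith [norm_nonneg ψ]
    obtain ⟨p, rfl, hp⟩ := K.exists_norm_lt a hδ
    rw [he0]
    calc ‖ψ p‖ ≤ ‖ψ‖ * ‖p‖ := ψ.le_opNorm p
      _ ≤ ‖ψ‖ * (‖K.toQuot p‖ + δ) := by gcongr
      _ = ‖ψ‖ * ‖K.toQuot p‖ + ‖ψ‖ * δ := by ring
      _ ≤ _ := by gcongr)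
  have he1 : ∀ p, e1 (K.toQuot p) = ψ p := fun p => rfl
  have hker : LinearMap.ker (e1 : K.Quot →ₗ[ℂ] D) = ⊥ := by
    rw [LinearMap.ker_eq_bot']
    intro a ha
    obtain ⟨p, rfl⟩ := K.toQuot_surjective a
    exact (K.toQuot_eq_zero_iff p).2 ha
  have hrange : LinearMap.range (e1 : K.Quot →ₗ[ℂ] D) = ⊤ := by
    rw [LinearMap.range_eq_top]
    intro d
    obtain ⟨p, hp⟩ := hsurj d
    exact ⟨K.toQuot p, hp⟩
  let e2 := ContinuousLinearEquiv.ofBijective e1 hker hrange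
  refine ⟨e2, ⟨fun x y => e2.map_add x y, fun c x => e2.map_smul c x, ?_,
    e2.toHomeomorph.isHomeomorph⟩⟩
  intro x y
  obtain ⟨p, rfl⟩ := K.toQuot_surjective x
  obtain ⟨q, rfl⟩ := K.toQuot_surjective y
  rw [← K.toQuot_mul]
  change e1 _ = e1 _ * e1 _
  rw [he1, he1, he1, hψ]

end

end Pool.Agent.Helper32.Banach
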