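import Pool.Agent.Helper32.Family2
import Pool.Agent.Helper32.Simple

/-!
# `Simple(P)` is not Borel
-/

set_option autoImplicit false

open Topology Filter

namespace Pool.Agent.Helper32.Banach

/-! ### `ℓ¹` of the free semigroup is a quotient generator -/

theorem separable_L1S_nat : TopologicalSpace.SeparableSpace (L1S (FreeSemigroup ℕ)) := by
  have := countable_freeSemigroup ℕ
  exact separable_L1 (FreeSemigroup ℕ)

theorem separable_CC : TopologicalSpace.SeparableSpace CC := by
  have := countable_freeSemigroup Gam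
  exact separable_L1 (FreeSemigroup Gam)

instance instIsBanachAlgebra_L1Alg {G : Type*} [DecidableEq G] (t : Table G) :
    IsBanachAlgebra (L1Alg t) where

theorem isQuotientGenerator_L1S.{v} : IsQuotientGenerator.{0, v} (L1S (FreeSemigroup ℕ)) := by
  intro A _ _ _ _
  let d : ℕ → A := TopologicalSpace.denseSeq A
  let ι : (ℕ →₀ ℤ) →+ A := Finsupp.liftAddHom fun n => zmultiplesHom A (d n)
  have hι : ∀ n, ι (Finsupp.single n 1) = d n := by
    intro n
    rw [Finsupp.liftAddHom_apply_single]
    simp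
  obtain ⟨e, he⟩ := exists_surjective_nat (ℕ →₀ ℤ)
  let g : ℕ → A := fun n => unitize ι (e n)
  have hg : ∀ n, ‖g n‖ ≤ 1 := fun n => norm_unitize_le _ _
  have hcl : ∀ a : A, a ∈ ι.range.topologicalClosure := by
    intro a
    have h1 : Set.range d ⊆ (ι.range : Set A) := by
      rintro _ ⟨n, rfl⟩
      exact ⟨Finsupp.single n 1, hι n⟩
    have h2 := closure_mono h1
    have h3 : closure (Set.range d) = Set.univ := (TopologicalSpace.denseRange_denseSeq A).closure_range
    rw [h3] at h2
    exact h2 (Set.mem_univ a)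
  have hsurj : Function.Surjective (homOf g hg) := by
    intro a
    obtain ⟨c, hc, -⟩ := homOf_surj g hg ι.range (by
      rintro _ ⟨γ, rfl⟩ h
      obtain ⟨n, rfl⟩ := he γ
      exact ⟨n, unitize_of_one_le _ _ h⟩) a (hcl a)
    exact ⟨c, hc⟩
  obtain ⟨e', he'⟩ := exists_quot_iso (homOf g hg) (homOf_mul g hg) hsurj
  exact ⟨_, e', he'⟩

theorem isEllOne_L1S : IsEllOneFreeSemigroup (L1S (FreeSemigroup ℕ)) := by
  refine ⟨dl, ?_, ?_, ?_⟩
  · intro s t
    exact (bilin_delta (semigroupTable (FreeSemigroup ℕ)).m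
      (semigroupTable (FreeSemigroup ℕ)).norm_le s t).symm
  · intro F c
    have h1 : (∑ s ∈ F, c s • (dl s : L1S (FreeSemigroup ℕ))) =
        (∑ s ∈ F, lp.single 1 s (c s) : L1 (FreeSemigroup ℕ)) := by
      refine Finset.sum_congr rfl fun s _ => ?_
      change c s • (delta s : L1 (FreeSemigroup ℕ)) = _
      rw [delta, ← lp.single_smul, smul_eq_mul, mul_one]
    have h2 := lp.norm_sum_single (p := 1) (by simp) c F
    rw [h1]
    have h3 : ‖(∑ s ∈ F, lp.single 1 s (c s) : L1 (FreeSemigroup ℕ))‖ = ∑ s ∈ F, ‖c s‖ := by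
      simpa using h2
    exact h3
  · intro x
    have hx := L1.hasSum_delta (x : L1 (FreeSemigroup ℕ))
    refine mem_closure_of_tendsto hx (Eventually.of_forall fun s => ?_)
    exact Submodule.sum_mem (Submodule.span ℂ (Set.range (dl : _ → L1S (FreeSemigroup ℕ))))
      fun g _ => Submodule.smul_mem _ _ (Submodule.subset_span ⟨g, rfl⟩)

/-! ### The Wijsman topology -/

section Wijsman

variable {P : Type*} [NonUnitalNormedRing P] [NormedSpace ℂ P]

theorem continuous_infDist' (x : P) :
    Continuous (fun K : ClosedIdeal P => Metric.infDist x (K.carrier : Set P)) := by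
  rw [continuous_iff_le_induced]
  exact iInf_le _ x

/-- The distances to the points of a dense sequence. -/
noncomputable def distMap (d : ℕ → P) (K : ClosedIdeal P) : ℕ → ℝ :=
  fun n => Metric.infDist (d n) (K.carrier : Set P)

theorem wijsman_eq_induced (d : ℕ → P) (hd : DenseRange d) :
    ClosedIdeal.wijsman P = TopologicalSpace.induced (distMap d) inferInstance := by
  apply le_antisymm
  · rw [← continuous_iff_le_induced]
    exact continuous_pi fun n => continuous_infDist' (d n)
  · refine le_iInf fun x => ?_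
    rw [← continuous_iff_le_induced]
    let : TopologicalSpace (ClosedIdeal P) := TopologicalSpace.induced (distMap d) inferInstance
    refine continuous_of_uniform_approx_of_continuous fun u hu => ?_
    obtain ⟨ε, hε, hu'⟩ := Metric.mem_uniformity_dist.1 hu
    obtain ⟨n, hn⟩ := hd.exists_dist_lt x hε
    refine ⟨fun K => Metric.infDist (d n) (K.carrier : Set P), ?_, ?_⟩
    · have h1 : Continuous (distMap d) := continuous_induced_dom
      exact (continuous_apply n).comp h1
    · intro K
      apply hu'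
      rw [Real.dist_eq, abs_lt]
      have h1 := Metric.infDist_le_infDist_add_dist (s := (K.carrier : Set P)) (x := x) (y := d n)
      have h2 := Metric.infDist_le_infDist_add_dist (s := (K.carrier : Set P)) (x := d n) (y := x)
      rw [dist_comm] at h2
      constructor <;> linarith

theorem measurable_of_infDist [TopologicalSpace.SeparableSpace P] {X : Type*} [MeasurableSpace X]
    (κ : X → ClosedIdeal P)
    (hκ : ∀ x : P, Measurable (fun t => Metric.infDist x ((κ t).carrier : Set P)))
    (S : Set (ClosedIdeal P)) (hS : @MeasurableSet (ClosedIdeal P) (borel (ClosedIdeal P)) S) :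
    MeasurableSet (κ ⁻¹' S) := by
  let d : ℕ → P := TopologicalSpace.denseSeq P
  have hd : DenseRange d := TopologicalSpace.denseRange_denseSeq P
  have h1 : borel (ClosedIdeal P) = MeasurableSpace.comap (distMap d) (borel (ℕ → ℝ)) := by
    rw [← borel_comap, ← wijsman_eq_induced d hd]
  rw [h1] at hS
  obtain ⟨S', hS', rfl⟩ := hS
  rw [← Set.preimage_comp]
  have h2 : Measurable (distMap d ∘ κ) := measurable_pi_iff.2 fun n => hκ (d n)
  rw [← BorelSpace.measurable_eq (α := ℕ → ℝ)] at hS'
  exact h2 hS'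

end Wijsman

/-! ### The reduction -/

section Reduction

variable {P : Type*} [NonUnitalNormedRing P] [NormedSpace ℂ P] [IsScalarTower ℂ P P]
  [SMulCommClass ℂ P P]

/-- The homomorphism from a generator. -/
noncomputable def psi (θ : P →L[ℂ] CC) (T : Nd → Bool) : P →L[ℂ] DD T := (pii T).comp θ

omit [IsScalarTower ℂ P P] [SMulCommClass ℂ P P] in
theorem psi_mul (θ : P →L[ℂ] CC) (hθ : ∀ x y, θ (x * y) = θ x * θ y) (T : Nd → Bool) (x y : P) :
    psi θ T (x * y) = psi θ T x * psi θ T y := by
  change pii T (θ (x * y)) = pii T (θ x) * pii T (θ y)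
  rw [hθ, pii_mul]

/-- The reduction map. -/
noncomputable def kap (θ : P →L[ℂ] CC) (hθ : ∀ x y, θ (x * y) = θ x * θ y) (T : Nd → Bool) :
    ClosedIdeal P :=
  kerIdeal (psi θ T) (psi_mul θ hθ T)

omit [IsScalarTower ℂ P P] [SMulCommClass ℂ P P] in
theorem measurable_infDist_kap (θ : P →L[ℂ] CC) (hθ : ∀ x y, θ (x * y) = θ x * θ y) (M : ℝ)
    (hM : 0 < M) (hlift : ∀ c, ∃ p, θ p = c ∧ ‖p‖ ≤ M * ‖c‖) (x : P) :
    Measurable (fun T : Nd → Bool => Metric.infDist x ((kap θ hθ T).carrier : Set P)) := by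
  refine measurable_of_Iio fun r => ?_
  refine IsOpen.measurableSet ?_
  rw [isOpen_iff_mem_nhds]
  intro T₀ hT₀
  have hne : ∀ T : Nd → Bool, ((kap θ hθ T).carrier : Set P).Nonempty :=
    fun T => ⟨0, (kap θ hθ T).carrier.zero_mem⟩
  obtain ⟨y, hy, hxy⟩ := (Metric.infDist_lt_iff (hne T₀)).1 hT₀
  set δ := r - dist x y with hδ
  have hδ0 : 0 < δ := by rw [hδ]; linarith
  have hy0 : pii T₀ (θ y) = 0 := hy
  have hcont := (continuous_norm_pii (θ y)).tendsto T₀
  rw [hy0, norm_zero] at hcont
  have hev : ∀ᶠ T in 𝓝 T₀, ‖pii T (θ y)‖ < δ / (2 * M) :=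
    hcont.eventually_lt_const (by positivity)
  filter_upwards [hev] with T hT
  obtain ⟨c, hc1, hc2⟩ := pii_surj T (pii T (θ y)) (pii_mem_BB T _)
  obtain ⟨p, hp1, hp2⟩ := hlift c
  have hmem : y - p ∈ ((kap θ hθ T).carrier : Set P) := by
    change pii T (θ (y - p)) = 0
    rw [map_sub, map_sub, hp1, hc1, sub_self]
  change Metric.infDist x ((kap θ hθ T).carrier : Set P) < r
  have hpn : ‖p‖ < δ := by
    calc ‖p‖ ≤ M * ‖c‖ := hp2
      _ ≤ M * (2 * ‖pii T (θ y)‖) := by gcongr
      _ = (2 * M) * ‖pii T (θ y)‖ := by ring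
      _ < (2 * M) * (δ / (2 * M)) := by gcongr
      _ = δ := by field_simp
  calc Metric.infDist x ((kap θ hθ T).carrier : Set P) ≤ dist x (y - p) :=
        Metric.infDist_le_dist_of_mem hmem
    _ ≤ dist x y + dist y (y - p) := dist_triangle _ _ _
    _ = dist x y + ‖p‖ := by rw [dist_eq_norm y]; congr 2; abel
    _ < r := by linarith

/-- The reduction: the quotient is simple if and only if `T` contains no infinite branch. -/
theorem kap_mem_iff (θ : P →L[ℂ] CC) (hθ : ∀ x y, θ (x * y) = θ x * θ y) (M : ℝ)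
    (hM : 0 < M) (hlift : ∀ c, ∃ p, θ p = c ∧ ‖p‖ ≤ M * ‖c‖) (T : Nd → Bool) :
    kap θ hθ T ∈ SimpleIdeals P ↔ T ∉ IF := by
  have hpre : ∀ d : DD T, (d : L1 Ix) ∈ BB T → ∃ p, psi θ T p = d ∧ ‖p‖ ≤ M * (2 * ‖d‖) := by
    intro d hd
    obtain ⟨c, hc1, hc2⟩ := pii_surj T d hd
    obtain ⟨p, hp1, hp2⟩ := hlift c
    refine ⟨p, ?_, hp2.trans (by gcongr)⟩
    change pii T (θ p) = d
    rw [hp1, hc1]
  have hBB : ∀ p, (psi θ T p : L1 Ix) ∈ BB T := fun p => pii_mem_BB T (θ p)
  constructor
  · intro hs hT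
    obtain ⟨x, hxB, hx0, hxne⟩ := mem_of_branch T hT
    obtain ⟨p, hp, -⟩ := hpre x hxB
    obtain ⟨z, hz, -⟩ := hpre (Eh T [] []) (Eh_mem_BB T _ _)
    refine not_simple_of (psi θ T) (psi_mul θ hθ T) p ?_ ?_ z ?_ hs
    · rw [hp]; exact hxne
    · intro q
      rw [psi_mul θ hθ, psi_mul θ hθ, hp]
      exact ⟨mulT_eq_zero_right T _ _ hx0, mulT_eq_zero_left T _ _ hx0⟩
    · intro c h
      rw [hz, hp] at h
      have h1 : coord (Sum.inl ([], [])) (Eh T [] []) = coord (Sum.inl ([], [])) (c • x) :=
        congrArg (fun w : L1 Ix => coord (Sum.inl ([], [])) w) h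
      rw [map_smul, coord_apply, coord_apply, hx0, smul_zero, Eh, lp.coeFn_add, Pi.add_apply,
        if_pos rfl, uu_inl, add_zero, lp.coeFn_smul, Pi.smul_apply, L1.delta_apply, if_pos rfl,
        smul_eq_mul, mul_one, Complex.ofReal_eq_zero] at h1
      exact (inv_pos.2 (eps_pos [] [])).ne' h1
  · intro hT
    refine simple_of (psi θ T) (psi_mul θ hθ T) (fun i j : Nd => (Eh T i j : DD T)) ?_ ?_ ?_
    · intro i j
      obtain ⟨p, hp, -⟩ := hpre (Eh T i j) (Eh_mem_BB T _ _)
      exact ⟨p, hp⟩
    · intro p ε hε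
      have h1 : (psi θ T p : L1 Ix) ∈ closure
          ((Submodule.span ℂ (Set.range fun p : Nd × Nd => Eh T p.1 p.2) : Submodule ℂ (L1 Ix)) :
            Set (L1 Ix)) := hBB p
      obtain ⟨m, hm, hdist⟩ := Metric.mem_closure_iff.1 h1 (ε / (2 * M)) (by positivity)
      refine ⟨m, hm, ?_⟩
      have hmem : ((psi θ T p : L1 Ix) - m : L1 Ix) ∈ BB T :=
        (BB T).sub_mem (hBB p) (Submodule.le_topologicalClosure _ hm)
      obtain ⟨p', hp', hn⟩ := hpre ((psi θ T p : L1 Ix) - m : L1 Ix) hmem
      refine ⟨p', hp', ?_⟩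
      rw [dist_eq_norm] at hdist
      calc ‖p'‖ ≤ M * (2 * ‖((psi θ T p : L1 Ix) - m : L1 Ix)‖) := hn
        _ = (2 * M) * ‖((psi θ T p : L1 Ix) - m : L1 Ix)‖ := by ring
        _ < (2 * M) * (ε / (2 * M)) := by gcongr
        _ = ε := by field_simp
    · intro p hp
      obtain ⟨w, hw⟩ : ∃ w : L1 Ix, w = psi θ T p := ⟨_, rfl⟩
      have hwB : w ∈ BB T := by rw [hw]; exact hBB p
      have hw0 : w ≠ 0 := by rw [hw]; exact hp
      have h1 : ∃ q, w (Sum.inl q) ≠ 0 := by
        by_contra h
        push Not at h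
        exact hT (branch_of_mem T w hwB h hw0)
      obtain ⟨⟨i, j⟩, hij⟩ := h1
      refine ⟨i, j, w (Sum.inl (i, j)) * ((eps i j : ℝ) : ℂ), ?_, ?_⟩
      · refine mul_ne_zero hij ?_
        rw [Ne, Complex.ofReal_eq_zero]
        exact (eps_pos i j).ne'
      · intro k l
        have := sandwich T i j k l w
        rw [hw] at this ⊢
        exact this

end Reduction

/-- For every separable Banach algebra with the quotient generator property, the set of closed
two-sided ideals with simple quotient is not Borel. -/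
theorem not_borel_simple.{u} (P : Type u) [NonUnitalNormedRing P] [NormedSpace ℂ P]
    [IsBanachAlgebra P] [TopologicalSpace.SeparableSpace P] (hP : IsQuotientGenerator.{u, 0} P) :
    ¬ @MeasurableSet (ClosedIdeal P) (borel (ClosedIdeal P)) (SimpleIdeals P) := by
  intro hS
  have := separable_CC
  obtain ⟨K, e, he⟩ := hP CC
  let mk : P →L[ℂ] K.Quot := K.toQuot.mkContinuous 1 (fun x => by
    rw [one_mul]; exact K.norm_toQuot_le x)
  let θ : P →L[ℂ] CC :=
    { toFun := fun p => e (mk p)
      map_add' := fun x y => by rw [map_add, he.map_add]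
      map_smul' := fun c x => by rw [map_smul, he.map_smul]; rfl
      cont := he.homeo.continuous.comp mk.continuous }
  have hθ : ∀ x y, θ (x * y) = θ x * θ y := fun x y => he.map_mul (K.toQuot x) (K.toQuot y)
  have hsurj : Function.Surjective θ := he.homeo.surjective.comp K.toQuot_surjective
  obtain ⟨M, hM, hlift⟩ := θ.exists_preimage_norm_le hsurj
  have h1 := measurable_of_infDist (kap θ hθ) (measurable_infDist_kap θ hθ M hM hlift)
    (SimpleIdeals P) hS
  have h2 : kap θ hθ ⁻¹' (SimpleIdeals P) = IFᶜ := by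
    ext T
    exact kap_mem_iff θ hθ M hM hlift T
  rw [h2] at h1
  exact not_measurableSet_IF h1.of_compl

/-- The one-point set `{P}` is closed in the Wijsman topology. -/
theorem isClosed_top (P : Type*) [NonUnitalNormedRing P] [NormedSpace ℂ P] :
    IsClosed {K : ClosedIdeal P | K.carrier = ⊤} := by
  have h : {K : ClosedIdeal P | K.carrier = ⊤} =
      ⋂ x : P, {K : ClosedIdeal P | Metric.infDist x (K.carrier : Set P) = 0} := by
    ext K
    rw [Set.mem_iInter]
    constructor
    · intro hK x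
      change K.carrier = ⊤ at hK
      change Metric.infDist x (K.carrier : Set P) = 0
      rw [hK]
      exact Metric.infDist_zero_of_mem trivial
    · intro hK
      change K.carrier = ⊤
      rw [eq_top_iff]
      intro x _
      have h1 : Metric.infDist x (K.carrier : Set P) = 0 := hK x
      exact (K.isClosed.mem_iff_infDist_zero ⟨0, K.carrier.zero_mem⟩).2 h1
  rw [h]
  exact isClosed_iInter fun x => isClosed_eq (continuous_infDist' x) continuous_const

theorem top_mem_simple (P : Type*) [NonUnitalNormedRing P] [NormedSpace ℂ P] (K : ClosedIdeal P)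
    (hK : K.carrier = ⊤) : K ∈ SimpleIdeals P := by
  intro b hb
  obtain ⟨x, rfl⟩ := K.toQuot_surjective b
  exact absurd ((K.toQuot_eq_zero_iff x).2 (hK ▸ trivial)) hb

/-- The same with the point `K = P` removed. -/
theorem not_borel_simple'.{u} (P : Type u) [NonUnitalNormedRing P] [NormedSpace ℂ P]
    [IsBanachAlgebra P] [TopologicalSpace.SeparableSpace P] (hP : IsQuotientGenerator.{u, 0} P) :
    ¬ @MeasurableSet (ClosedIdeal P) (borel (ClosedIdeal P))
      (SimpleIdeals P \ {K | K.carrier = ⊤}) := by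
  intro h
  apply not_borel_simple P hP
  borelize (ClosedIdeal P)
  have h1 : MeasurableSet {K : ClosedIdeal P | K.carrier = ⊤} := (isClosed_top P).measurableSet
  have h2 : SimpleIdeals P = (SimpleIdeals P \ {K | K.carrier = ⊤}) ∪ {K | K.carrier = ⊤} := by
    ext K
    constructor
    · intro hK
      by_cases hT : K.carrier = ⊤
      · exact Or.inr hT
      · exact Or.inl ⟨hK, hT⟩
    · rintro (hK | hK)
      · exact hK.1
      · exact top_mem_simple P K hK
  rw [h2]
  exact h.union h1

theorem not_isGδ_of_not_borel {X : Type*} [TopologicalSpace X] (S : Set X)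
    (h : ¬ @MeasurableSet X (borel X) S) : ¬ IsGδ S := by
  intro hS
  apply h
  borelize X
  exact hS.measurableSet

end Pool.Agent.Helper32.Banach
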