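import Mathlib

/-! Definitions: Dirichlet space of the bidisk, cyclic vectors, outer functions, logarithmic
capacity zero. -/

namespace Pool.Agent.Helper32.Bd

open MeasureTheory Filter Topology Set

/-- `a` is the family of Taylor coefficients at the origin of the function `f`, which is
holomorphic on the open bidisk: `f z = ∑ a (k, l) z₁ ^ k z₂ ^ l` for all `z` in the bidisk. -/
def HasCoeffs (f : ℂ × ℂ → ℂ) (a : ℕ × ℕ → ℂ) : Prop :=
  ∀ z : ℂ × ℂ, ‖z.1‖ < 1 → ‖z.2‖ < 1 →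
    HasSum (fun n : ℕ × ℕ => a n * z.1 ^ n.1 * z.2 ^ n.2) (f z)

/-- `∑ (k+1)(l+1)|a (k,l)|² < ∞`. -/
def FiniteNorm (a : ℕ × ℕ → ℂ) : Prop :=
  Summable fun n : ℕ × ℕ => ((n.1 : ℝ) + 1) * ((n.2 : ℝ) + 1) * ‖a n‖ ^ 2

/-- The squared Dirichlet norm `∑ (k+1)(l+1)|a (k,l)|²` of a coefficient family. -/
noncomputable def normSq (a : ℕ × ℕ → ℂ) : ℝ :=
  ∑' n : ℕ × ℕ, ((n.1 : ℝ) + 1) * ((n.2 : ℝ) + 1) * ‖a n‖ ^ 2

/-- `f` (restricted to the open bidisk) belongs to the Dirichlet space of the bidisk. -/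
def InDirichlet (f : ℂ × ℂ → ℂ) : Prop := ∃ a, HasCoeffs f a ∧ FiniteNorm a

/-- `f` is cyclic: every `g` in the Dirichlet space is a limit, in the Dirichlet norm, of
functions `p * f` with `p` a polynomial in `z₁, z₂`. -/
def Cyclic (f : ℂ × ℂ → ℂ) : Prop :=
  ∀ g : ℂ × ℂ → ℂ, InDirichlet g → ∀ ε : ℝ, 0 < ε →
    ∃ (p : MvPolynomial (Fin 2) ℂ) (c : ℕ × ℕ → ℂ),
      HasCoeffs (fun z => MvPolynomial.eval ![z.1, z.2] p * f z - g z) c ∧
      FiniteNorm c ∧ normSq c < ε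

/-- The point `(e^{iθ₁}, e^{iθ₂})` of the torus. -/
noncomputable def torusPt (θ : ℝ × ℝ) : ℂ × ℂ :=
  (Complex.exp (θ.1 * Complex.I), Complex.exp (θ.2 * Complex.I))

/-- Lebesgue measure on the square `(0, 2π] × (0, 2π]`. -/
noncomputable def squareMeasure : Measure (ℝ × ℝ) :=
  (volume : Measure (ℝ × ℝ)).restrict (Ioc 0 (2 * Real.pi) ×ˢ Ioc 0 (2 * Real.pi))

/-- `f` has radial limit `v` at the point `ζ` of the torus. -/
def HasRadialLimit (f : ℂ × ℂ → ℂ) (ζ : ℂ × ℂ) (v : ℂ) : Prop :=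
  Tendsto (fun r : ℝ => f ((r : ℂ) * ζ.1, (r : ℂ) * ζ.2)) (𝓝[<] 1) (𝓝 v)

/-- `f` is outer on the bidisk: with `fs` the almost everywhere radial boundary values of `f`,
`log |fs|` is integrable and
`log |f z| = (2π)⁻² ∫∫ log |fs(θ)| P(z₁, e^{iθ₁}) P(z₂, e^{iθ₂}) dθ₁ dθ₂` for every `z` in the
bidisk (in particular `f` has no zero there), where `P` is the Poisson kernel of the disc. -/
def IsOuter (f : ℂ × ℂ → ℂ) : Prop :=
  ∃ fs : ℝ × ℝ → ℂ,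
    (∀ᵐ θ ∂squareMeasure, HasRadialLimit f (torusPt θ) (fs θ)) ∧
    (∀ᵐ θ ∂squareMeasure, fs θ ≠ 0) ∧
    Integrable (fun θ => Real.log ‖fs θ‖) squareMeasure ∧
    ∀ z : ℂ × ℂ, ‖z.1‖ < 1 → ‖z.2‖ < 1 →
      f z ≠ 0 ∧
      Real.log ‖f z‖ = ((2 * Real.pi) ^ 2)⁻¹ *
        ∫ θ, Real.log ‖fs θ‖ * (poissonKernel 0 z.1 (torusPt θ).1 *
          poissonKernel 0 z.2 (torusPt θ).2) ∂squareMeasure

/-- The torus `|ζ₁| = |ζ₂| = 1`. -/
def torus : Set (ℂ × ℂ) := {ζ | ‖ζ.1‖ = 1 ∧ ‖ζ.2‖ = 1}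

/-- The set of points of the torus where the radial limit of `f` exists and equals `0`. -/
def zeroSet (f : ℂ × ℂ → ℂ) : Set (ℂ × ℂ) := {ζ | ζ ∈ torus ∧ HasRadialLimit f ζ 0}

/-- The kernel `log (e / |a - b|)`, with value `∞` on the diagonal. -/
noncomputable def logKer (a b : ℂ) : ENNReal :=
  if a = b then ⊤ else ENNReal.ofReal (Real.log (Real.exp 1 / ‖a - b‖))

/-- The logarithmic energy of a measure on the torus. -/
noncomputable def energy (μ : Measure (ℂ × ℂ)) : ENNReal :=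
  ∫⁻ ζ, ∫⁻ η, logKer ζ.1 η.1 * logKer ζ.2 η.2 ∂μ ∂μ

/-- `E ⊆ T²` has logarithmic capacity zero: every probability measure supported in `E` has
infinite energy. -/
def LogCapZero (E : Set (ℂ × ℂ)) : Prop :=
  ∀ μ : Measure (ℂ × ℂ), IsProbabilityMeasure μ → μ Eᶜ = 0 → energy μ = ⊤

end Pool.Agent.Helper32.Bd
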