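import Mathlib

/-! Integrability of `1 / |2 - e^{iθ} - e^{iφ}|` on the torus. -/

namespace Pool.Agent.Helper32.Bd

open MeasureTheory Filter Topology Set Complex

noncomputable def e (θ : ℝ) : ℂ := Complex.exp (θ * Complex.I)

lemma e_norm (θ : ℝ) : ‖e θ‖ = 1 := by
  simp [e, Complex.norm_exp_ofReal_mul_I]

lemma e_cont : Continuous e := by unfold e; fun_prop

lemma e_periodic : Function.Periodic e (2 * Real.pi) := by
  intro θ
  unfold e
  push_cast
  rw [add_mul, Complex.exp_add, Complex.exp_two_pi_mul_I, mul_one]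

lemma e_add (a b : ℝ) : e (a + b) = e a * e b := by
  unfold e; push_cast; rw [add_mul, Complex.exp_add]

lemma e_sub_lower {θ : ℝ} (h : |θ| ≤ Real.pi) : 2 / Real.pi * |θ| ≤ ‖1 - e θ‖ := by
  have h1 : ‖1 - e θ‖ = 2 * |Real.sin (θ / 2)| := by
    have h2 : ‖1 - e θ‖ ^ 2 = (2 * |Real.sin (θ / 2)|) ^ 2 := by
      rw [← Complex.normSq_eq_norm_sq, mul_pow, sq_abs]
      unfold e
      rw [Complex.normSq_apply]
      simp only [Complex.sub_re, Complex.one_re, Complex.exp_ofReal_mul_I_re, Complex.sub_im,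
        Complex.one_im, Complex.exp_ofReal_mul_I_im]
      have h3 : Real.cos θ = 1 - 2 * Real.sin (θ/2)^2 := by
        have := Real.cos_two_mul (θ/2)
        have h4 := Real.sin_sq_add_cos_sq (θ/2)
        rw [show 2 * (θ/2) = θ by ring] at this
        nlinarith
      have h5 := Real.sin_sq_add_cos_sq θ
      nlinarith
    have := abs_eq_abs.2 (Or.inl (rfl : ‖1 - e θ‖ = ‖1 - e θ‖))
    exact (pow_left_inj₀ (norm_nonneg _) (by positivity) two_ne_zero).1 h2
  rw [h1]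
  have h2 : |θ / 2| ≤ Real.pi / 2 := by
    rw [abs_div, abs_of_pos (two_pos : (0:ℝ) < 2)]; linarith
  have h3 := Real.mul_abs_le_abs_sin h2
  rw [abs_div, abs_of_pos (two_pos : (0:ℝ) < 2)] at h3
  calc 2 / Real.pi * |θ| = 2 * (2 / Real.pi * (|θ| / 2)) := by ring
    _ ≤ _ := by linarith

/-- the kernel `‖1 - e^{iθ}‖^{-2/3}` -/
noncomputable def k (θ : ℝ) : ℝ := ‖1 - e θ‖ ^ (-(2/3) : ℝ)

lemma k_nonneg (θ : ℝ) : 0 ≤ k θ := by unfold k; positivity

lemma k_meas : Measurable k := by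
  unfold k
  exact (by have := e_cont; fun_prop : Measurable fun θ => ‖1 - e θ‖).pow_const _

lemma k_periodic : Function.Periodic k (2 * Real.pi) := by
  intro θ; unfold k; rw [e_periodic θ]

lemma abs_rpow_intervalIntegrable (a b : ℝ) :
    IntervalIntegrable (fun x : ℝ => |x| ^ (-(2/3) : ℝ)) volume a b := by
  have hpos : ∀ b : ℝ, 0 ≤ b → IntervalIntegrable (fun x : ℝ => |x| ^ (-(2/3) : ℝ)) volume 0 b := by
    intro b hb
    refine (intervalIntegral.intervalIntegrable_rpow' (a := 0) (b := b)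
      (r := -(2/3)) (by norm_num)).congr ?_
    intro x hx
    rw [uIoc_of_le hb] at hx
    simp only
    rw [abs_of_pos hx.1]
  have hall : ∀ b : ℝ, IntervalIntegrable (fun x : ℝ => |x| ^ (-(2/3) : ℝ)) volume 0 b := by
    intro b
    rcases le_total 0 b with hb | hb
    · exact hpos b hb
    · have := (hpos (-b) (by linarith)).comp_sub_left 0
      simpa using this
  exact (hall a).symm.trans (hall b)

lemma k_intervalIntegrable (a b : ℝ) : IntervalIntegrable k volume a b := by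
  have h1 : IntervalIntegrable k volume (-Real.pi) (-Real.pi + 2 * Real.pi) := by
    have h2 : (-Real.pi + 2 * Real.pi) = Real.pi := by ring
    rw [h2]
    have h3 := (abs_rpow_intervalIntegrable (-Real.pi) Real.pi).const_mul
      ((2 / Real.pi) ^ (-(2/3) : ℝ))
    refine h3.mono_fun k_meas.aestronglyMeasurable ?_
    rw [Filter.EventuallyLE, ae_restrict_iff' measurableSet_uIoc]
    have h0 : ∀ᵐ x : ℝ ∂volume, x ≠ 0 := by
      exact (measure_eq_zero_iff_ae_notMem.1 (by simp : volume ({0} : Set ℝ) = 0)).mono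
        (fun x hx => by simpa using hx)
    filter_upwards [h0] with x hx0 hx
    rw [uIoc_of_le (by linarith [Real.pi_pos])] at hx
    have hxa : |x| ≤ Real.pi := abs_le.2 ⟨by linarith [hx.1], hx.2⟩
    have h4 := e_sub_lower hxa
    have h5 : 0 < |x| := abs_pos.2 hx0
    rw [Real.norm_of_nonneg (k_nonneg _), Real.norm_of_nonneg (by positivity)]
    unfold k
    rw [← Real.mul_rpow (by positivity) (abs_nonneg _)]
    exact Real.rpow_le_rpow_of_nonpos (by positivity) h4 (by norm_num)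
  exact k_periodic.intervalIntegrable (by positivity) h1 a b

/-- `C0 = ∫_0^{2π} k`. -/
noncomputable def C0 : ℝ := ∫ θ in (0:ℝ)..(2 * Real.pi), k θ

lemma k_shift (ψ : ℝ) : ∫ θ in (0:ℝ)..(2 * Real.pi), k (θ - ψ) = C0 := by
  rw [intervalIntegral.integral_comp_sub_right]
  have := k_periodic.intervalIntegral_add_eq (0 - ψ) 0
  unfold C0
  rw [show 2 * Real.pi - ψ = 0 - ψ + 2 * Real.pi by ring, this]
  simp

lemma k_shift_int (ψ : ℝ) : IntervalIntegrable (fun θ => k (θ - ψ)) volume 0 (2 * Real.pi) := by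
  have := (k_intervalIntegrable (0 - ψ) (2 * Real.pi - ψ)).comp_sub_right ψ
  simpa using this

/-- the key pointwise bound -/
lemma key_bound (ζ η : ℂ) (hζ : ‖ζ‖ = 1) (hη : ‖η‖ = 1) :
    ‖1 - ζ‖ ^ 2 * ‖(2 - ζ) / (‖2 - ζ‖ : ℂ) - η‖ ^ 2 ≤ 8 * ‖2 - ζ - η‖ ^ 3 := by
  set a : ℂ := 2 - ζ with ha
  have h1 : ‖a‖ ^ 2 = 1 + 2 * ‖1 - ζ‖ ^ 2 := by
    rw [← Complex.normSq_eq_norm_sq, ← Complex.normSq_eq_norm_sq]
    have h2 : Complex.normSq ζ = 1 := by rw [Complex.normSq_eq_norm_sq, hζ]; norm_num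
    rw [Complex.normSq_apply] at h2
    rw [ha, Complex.normSq_apply, Complex.normSq_apply]
    simp only [Complex.sub_re, Complex.one_re, Complex.sub_im, Complex.one_im]
    have h3 : (2 : ℂ).re = 2 := by norm_num
    have h4 : (2 : ℂ).im = 0 := by norm_num
    rw [h3, h4]
    nlinarith
  have hge : 1 ≤ ‖a‖ := by nlinarith [sq_nonneg ‖1 - ζ‖, norm_nonneg a]
  have hle : ‖a‖ ≤ 3 := by
    calc ‖a‖ ≤ ‖(2:ℂ)‖ + ‖ζ‖ := norm_sub_le _ _
      _ = 3 := by rw [hζ]; norm_num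
  have hp : ‖1 - ζ‖ ^ 2 / 2 ≤ ‖a - η‖ := by
    have h5 : ‖a‖ - 1 ≤ ‖a - η‖ := by
      have := norm_sub_norm_le a η
      rwa [hη] at this
    nlinarith
  have hq : ‖a / (‖a‖ : ℂ) - η‖ / 2 ≤ ‖a - η‖ := by
    have h5 : ‖a‖ - 1 ≤ ‖a - η‖ := by
      have := norm_sub_norm_le a η
      rwa [hη] at this
    have h6 : ‖a / (‖a‖ : ℂ) - a‖ = ‖a‖ - 1 := by
      have h7 : (‖a‖ : ℂ) ≠ 0 := by
        have : (0:ℝ) < ‖a‖ := by linarith
        exact_mod_cast this.ne'
      have h8 : a / (‖a‖ : ℂ) - a = -((a / (‖a‖:ℂ)) * ((‖a‖ - 1 : ℝ) : ℂ)) := by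
        push_cast; field_simp; ring
      rw [h8, norm_neg, norm_mul, norm_div, Complex.norm_real, Complex.norm_real, norm_norm,
        div_self (by linarith : ‖a‖ ≠ 0), one_mul, Real.norm_of_nonneg (by linarith)]
    have h9 : ‖a / (‖a‖ : ℂ) - η‖ ≤ ‖a / (‖a‖ : ℂ) - a‖ + ‖a - η‖ := by
      have := norm_add_le (a / (‖a‖ : ℂ) - a) (a - η)
      simpa using this
    linarith
  have h10 : 0 ≤ ‖1 - ζ‖ ^ 2 / 2 := by positivity
  have h11 : 0 ≤ ‖a / (‖a‖ : ℂ) - η‖ / 2 := by positivity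
  have h12 : (‖a / (‖a‖ : ℂ) - η‖ / 2) ^ 2 ≤ ‖a - η‖ ^ 2 := by gcongr
  have h13 : ‖1 - ζ‖ ^ 2 / 2 * (‖a / (‖a‖ : ℂ) - η‖ / 2) ^ 2 ≤ ‖a - η‖ * ‖a - η‖ ^ 2 := by
    gcongr
  nlinarith


lemma e_ne_one_ae (ψ : ℝ) : ∀ᵐ φ : ℝ ∂volume, e (φ - ψ) ≠ 1 := by
  have hc : ({φ : ℝ | e (φ - ψ) = 1}).Countable := by
    have : {φ : ℝ | e (φ - ψ) = 1} ⊆ Set.range (fun n : ℤ => n * (2 * Real.pi) + ψ) := by
      intro φ hφ
      have h1 : Complex.exp (((φ - ψ : ℝ) : ℂ) * Complex.I) = 1 := hφ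
      obtain ⟨n, hn⟩ := Complex.exp_eq_one_iff.1 h1
      refine ⟨n, ?_⟩
      have h2 : ((φ - ψ : ℝ) : ℂ) = ((n * (2 * Real.pi) : ℝ) : ℂ) := by
        have h3 : ((φ - ψ : ℝ) : ℂ) * Complex.I = ((n * (2 * Real.pi) : ℝ) : ℂ) * Complex.I := by
          rw [hn]; push_cast; ring
        exact mul_right_cancel₀ Complex.I_ne_zero h3
      have h4 : φ - ψ = n * (2 * Real.pi) := by exact_mod_cast h2
      simp only
      linarith
    exact (Set.countable_range _).mono this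
  have := hc.measure_zero volume
  rw [ae_iff]
  simpa using this

/-- the function to be dominated -/
noncomputable def G (p : ℝ × ℝ) : ℝ := ‖2 - e p.1 - e p.2‖⁻¹

lemma G_nonneg (p : ℝ × ℝ) : 0 ≤ G p := by unfold G; positivity

lemma G_meas : Measurable G := by
  unfold G
  have := e_cont
  exact (by fun_prop : Measurable fun p : ℝ × ℝ => ‖2 - e p.1 - e p.2‖).inv

lemma G_bound (θ φ : ℝ) (h1 : e θ ≠ 1) (h2 : e (φ - (2 - e θ).arg) ≠ 1) :
    G (θ, φ) ≤ 2 * k θ * k (φ - (2 - e θ).arg) := by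
  set ψ := (2 - e θ).arg with hψ
  have hE : ‖1 - e (φ - ψ)‖ = ‖(2 - e θ) / (‖2 - e θ‖ : ℂ) - e φ‖ := by
    have ha : (2 - e θ) / (‖2 - e θ‖ : ℂ) = e ψ := by
      have h3 : (‖2 - e θ‖ : ℂ) ≠ 0 := by
        have h4 : (0:ℝ) < ‖2 - e θ‖ := by
          have := norm_sub_norm_le (2:ℂ) (e θ)
          rw [e_norm] at this
          have h5 : ‖(2:ℂ)‖ = 2 := by norm_num
          rw [h5] at this
          linarith
        exact_mod_cast h4.ne'
      rw [div_eq_iff h3]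
      have := Complex.norm_mul_exp_arg_mul_I (2 - e θ)
      rw [← hψ] at this
      have h6 : (‖2 - e θ‖ : ℂ) * e ψ = 2 - e θ := this
      rw [← h6, mul_comm]
      simp [e_norm]
    rw [ha]
    have h3 : e φ = e ψ * e (φ - ψ) := by rw [← e_add]; congr 1; ring
    rw [h3, show e ψ - e ψ * e (φ - ψ) = e ψ * (1 - e (φ - ψ)) by ring, norm_mul, e_norm, one_mul]
  have hkey := key_bound (e θ) (e φ) (e_norm θ) (e_norm φ)
  rw [← hE] at hkey
  have hp : 0 < ‖1 - e θ‖ := norm_pos_iff.2 (sub_ne_zero.2 (Ne.symm h1))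
  have hq : 0 < ‖1 - e (φ - ψ)‖ := norm_pos_iff.2 (sub_ne_zero.2 (Ne.symm h2))
  set x := ‖2 - e θ - e φ‖ with hx
  have hx0 : 0 ≤ x := norm_nonneg _
  set y := ‖1 - e θ‖ * ‖1 - e (φ - ψ)‖ with hy
  have hy0 : 0 < y := by positivity
  have hyx : y ^ 2 ≤ 8 * x ^ 3 := by rw [hy, mul_pow]; exact hkey
  have hyx2 : y ^ (2/3 : ℝ) ≤ 2 * x := by
    have h5 : (y ^ (2/3 : ℝ)) ^ 3 ≤ (2 * x) ^ 3 := by
      rw [← Real.rpow_natCast, ← Real.rpow_mul hy0.le]
      norm_num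
      rw [mul_pow]; norm_num; linarith
    exact le_of_pow_le_pow_left₀ (by norm_num) (by positivity) h5
  have hyp : 0 < y ^ (2/3 : ℝ) := by positivity
  have hxp : 0 < x := by linarith
  unfold G k
  rw [mul_assoc, ← Real.mul_rpow hp.le hq.le, ← hy]
  rw [show (2 : ℂ) - e (θ, φ).1 - e (θ, φ).2 = 2 - e θ - e φ from rfl, ← hx]
  rw [Real.rpow_neg hy0.le, ← div_eq_mul_inv, inv_eq_one_div, div_le_div_iff₀ hxp hyp]
  linarith

/-- the square -/
noncomputable def μ1 : Measure ℝ := volume.restrict (Ioc 0 (2 * Real.pi))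

noncomputable def μ2 : Measure (ℝ × ℝ) := μ1.prod μ1

instance : IsFiniteMeasure μ1 := by unfold μ1; infer_instance
instance : IsFiniteMeasure μ2 := by unfold μ2; infer_instance

lemma ae_μ1 {P : ℝ → Prop} (h : ∀ᵐ x ∂(volume : Measure ℝ), P x) : ∀ᵐ x ∂μ1, P x :=
  ae_restrict_of_ae h

lemma G_slice (θ : ℝ) (h1 : e θ ≠ 1) :
    Integrable (fun φ => G (θ, φ)) μ1 ∧ ∫ φ, G (θ, φ) ∂μ1 ≤ 2 * C0 * k θ := by
  have hint : Integrable (fun φ => 2 * k θ * k (φ - (2 - e θ).arg)) μ1 := by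
    have := (k_shift_int (2 - e θ).arg).const_mul (2 * k θ)
    rw [intervalIntegrable_iff_integrableOn_Ioc_of_le (by positivity)] at this
    exact this
  have hb : ∀ᵐ φ ∂μ1, G (θ, φ) ≤ 2 * k θ * k (φ - (2 - e θ).arg) := by
    filter_upwards [ae_μ1 (e_ne_one_ae (2 - e θ).arg)] with φ hφ
    exact G_bound θ φ h1 hφ
  have hi : Integrable (fun φ => G (θ, φ)) μ1 := by
    refine hint.mono' (G_meas.comp (measurable_const.prodMk measurable_id)).aestronglyMeasurable ?_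
    filter_upwards [hb] with φ hφ
    rw [Real.norm_of_nonneg (G_nonneg _)]
    exact hφ
  refine ⟨hi, ?_⟩
  calc ∫ φ, G (θ, φ) ∂μ1 ≤ ∫ φ, 2 * k θ * k (φ - (2 - e θ).arg) ∂μ1 := integral_mono_ae hi hint hb
    _ = 2 * k θ * ∫ φ in (0:ℝ)..(2 * Real.pi), k (φ - (2 - e θ).arg) := by
        rw [integral_const_mul, intervalIntegral.integral_of_le (by positivity)]; rfl
    _ = 2 * C0 * k θ := by rw [k_shift]; ring

theorem G_integrable : Integrable G μ2 := by
  unfold μ2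
  rw [integrable_prod_iff G_meas.aestronglyMeasurable]
  have h0 : ∀ᵐ θ ∂μ1, e θ ≠ 1 := by simpa using ae_μ1 (e_ne_one_ae 0)
  refine ⟨?_, ?_⟩
  · filter_upwards [h0] with θ hθ
    exact (G_slice θ hθ).1
  · have hk : Integrable (fun θ => 2 * C0 * k θ) μ1 := by
      have := (k_intervalIntegrable 0 (2 * Real.pi)).const_mul (2 * C0)
      rw [intervalIntegrable_iff_integrableOn_Ioc_of_le (by positivity)] at this
      exact this
    refine hk.mono' ?_ ?_
    · exact (G_meas.norm.stronglyMeasurable.integral_prod_right'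
        (ν := μ1)).aestronglyMeasurable
    · filter_upwards [h0] with θ hθ
      have h1 : ∀ φ, ‖G (θ, φ)‖ = G (θ, φ) := fun φ => Real.norm_of_nonneg (G_nonneg _)
      simp only [h1]
      rw [Real.norm_of_nonneg (integral_nonneg fun φ => G_nonneg _)]
      exact (G_slice θ hθ).2

end Pool.Agent.Helper32.Bd
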