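import Pool.Agent.Helper32.BdInt

/-! Two-variable Poisson formula and its limiting version for `4 log(2-z-w) - 1/(2-z-w)`. -/

namespace Pool.Agent.Helper32.Bd

open MeasureTheory Filter Topology Set Complex Metric

lemma circleAverage_eq_mu1 {E : Type*} [NormedAddCommGroup E] [NormedSpace ℝ E] (g : ℂ → E) :
    Real.circleAverage g 0 1 = (2 * Real.pi)⁻¹ • ∫ θ, g (e θ) ∂μ1 := by
  rw [Real.circleAverage_def, intervalIntegral.integral_of_le (by positivity)]
  unfold μ1 e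
  simp [circleMap]

lemma poisson_cont (z : ℂ) (hz : ‖z‖ < 1) : Continuous fun θ => poissonKernel 0 z (e θ) := by
  unfold poissonKernel
  have := e_cont
  refine Continuous.div (by fun_prop) (by fun_prop) fun θ => ?_
  have h : ‖e θ - 0 - (z - 0)‖ ≠ 0 := by
    rw [sub_zero, sub_zero]
    intro h
    have := norm_sub_norm_le (e θ) z
    rw [e_norm, h] at this
    linarith
  positivity

/-- Poisson formula on the bidisk. -/
theorem poisson2 (F : ℂ × ℂ → ℂ) (hF : ContinuousOn F (closedBall 0 1 ×ˢ closedBall 0 1))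
    (h1 : ∀ w ∈ closedBall (0:ℂ) 1, DiffContOnCl ℂ (fun z => F (z, w)) (ball 0 1))
    (h2 : ∀ z ∈ closedBall (0:ℂ) 1, DiffContOnCl ℂ (fun w => F (z, w)) (ball 0 1))
    (z w : ℂ) (hz : ‖z‖ < 1) (hw : ‖w‖ < 1) :
    F (z, w) = (((2 * Real.pi) ^ 2)⁻¹ : ℝ) •
      ∫ p, (poissonKernel 0 z (e p.1) * poissonKernel 0 w (e p.2)) • F (e p.1, e p.2) ∂μ2 := by
  have hz' : z ∈ ball (0:ℂ) 1 := by simpa using hz
  have hw' : w ∈ ball (0:ℂ) 1 := by simpa using hw
  have hein : ∀ θ, e θ ∈ closedBall (0:ℂ) 1 := fun θ => by simp [e_norm]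
  have hcont : Continuous fun p : ℝ × ℝ =>
      (poissonKernel 0 z (e p.1) * poissonKernel 0 w (e p.2)) • F (e p.1, e p.2) := by
    have ha := (poisson_cont z hz).comp (continuous_fst (X := ℝ) (Y := ℝ))
    have hb := (poisson_cont w hw).comp (continuous_snd (X := ℝ) (Y := ℝ))
    have hc : Continuous fun p : ℝ × ℝ => F (e p.1, e p.2) := by
      refine hF.comp_continuous (by have := e_cont; fun_prop) fun p => ?_
      exact ⟨hein _, hein _⟩
    exact (ha.mul hb).smul hc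
  have hint : Integrable (fun p : ℝ × ℝ =>
      (poissonKernel 0 z (e p.1) * poissonKernel 0 w (e p.2)) • F (e p.1, e p.2)) μ2 := by
    have h3 : μ2 = (volume : Measure (ℝ × ℝ)).restrict
        (Ioc 0 (2 * Real.pi) ×ˢ Ioc 0 (2 * Real.pi)) := by
      unfold μ2 μ1; rw [Measure.prod_restrict]; rfl
    rw [h3]
    have h4 : IntegrableOn (fun p : ℝ × ℝ =>
      (poissonKernel 0 z (e p.1) * poissonKernel 0 w (e p.2)) • F (e p.1, e p.2))
        (Icc 0 (2 * Real.pi) ×ˢ Icc 0 (2 * Real.pi)) volume :=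
      hcont.continuousOn.integrableOn_compact (isCompact_Icc.prod isCompact_Icc)
    exact h4.mono_set (Set.prod_mono Ioc_subset_Icc_self Ioc_subset_Icc_self)
  have hw0 : w ∈ closedBall (0:ℂ) 1 := ball_subset_closedBall hw'
  have e1 : F (z, w) = (2 * Real.pi)⁻¹ • ∫ θ, poissonKernel 0 z (e θ) • F (e θ, w) ∂μ1 := by
    have := (h1 w hw0).circleAverage_poissonKernel_smul hz'
    rw [circleAverage_eq_mu1] at this
    exact this.symm
  have e2 : ∀ θ, F (e θ, w) =
      (2 * Real.pi)⁻¹ • ∫ φ, poissonKernel 0 w (e φ) • F (e θ, e φ) ∂μ1 := by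
    intro θ
    have := (h2 (e θ) (hein θ)).circleAverage_poissonKernel_smul hw'
    rw [circleAverage_eq_mu1] at this
    exact this.symm
  rw [e1]
  unfold μ2
  rw [integral_prod _ hint]
  simp_rw [e2]
  have e3 : ∀ θ, poissonKernel 0 z (e θ) •
      ((2 * Real.pi)⁻¹ • ∫ φ, poissonKernel 0 w (e φ) • F (e θ, e φ) ∂μ1) =
      (2 * Real.pi)⁻¹ • ∫ φ, (poissonKernel 0 z (e θ) * poissonKernel 0 w (e φ)) •
        F (e θ, e φ) ∂μ1 := by
    intro θ
    rw [smul_comm, ← integral_smul]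
    simp_rw [smul_smul]
  simp_rw [e3]
  rw [integral_smul, smul_smul]
  congr 1
  ring

/-- `4 log (2 - z - w) - 1/(2 - z - w)` -/
noncomputable def H (z : ℂ × ℂ) : ℂ := 4 * Complex.log (2 - z.1 - z.2) - (2 - z.1 - z.2)⁻¹

lemma two_sub_re_pos {z w : ℂ} (hz : ‖z‖ < 1) (hw : ‖w‖ ≤ 1) : 0 < (2 - z - w).re := by
  have h1 := Complex.re_le_norm z
  have h2 := Complex.re_le_norm w
  have h3 : (2 - z - w).re = 2 - z.re - w.re := by simp
  rw [h3]; linarith

lemma H_diff {g h : ℂ → ℂ} {z : ℂ} (hg : DifferentiableAt ℂ g z) (hh : DifferentiableAt ℂ h z)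
    (hpos : 0 < (2 - g z - h z).re) : DifferentiableAt ℂ (fun z => H (g z, h z)) z := by
  unfold H
  have h1 : DifferentiableAt ℂ (fun z => 2 - g z - h z) z := (hg.const_sub 2).sub hh
  have h2 : (2 - g z - h z) ≠ 0 := by
    intro h0; rw [h0] at hpos; simp at hpos
  exact ((h1.clog (Or.inl hpos)).const_mul 4).sub (h1.inv h2)

lemma H_cont : ContinuousOn H {z : ℂ × ℂ | 0 < (2 - z.1 - z.2).re} := by
  intro z hz
  have hz' : 0 < (2 - z.1 - z.2).re := hz
  unfold H
  have h1 : ContinuousAt (fun z : ℂ × ℂ => 2 - z.1 - z.2) z := by fun_prop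
  have h2 : (2 - z.1 - z.2) ≠ 0 := by
    intro h0; rw [h0] at hz'; simp at hz'
  exact (((h1.clog (Or.inl hz')).const_mul 4).sub (h1.inv₀ h2)).continuousWithinAt

/-- Poisson formula for the dilates of `H`. -/
theorem H_poisson_r (r : ℝ) (hr0 : 0 < r) (hr1 : r < 1) (z w : ℂ) (hz : ‖z‖ < 1) (hw : ‖w‖ < 1) :
    H (r * z, r * w) = (((2 * Real.pi) ^ 2)⁻¹ : ℝ) •
      ∫ p, (poissonKernel 0 z (e p.1) * poissonKernel 0 w (e p.2)) •
        H (r * e p.1, r * e p.2) ∂μ2 := by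
  have hn : ∀ u : ℂ, ‖u‖ ≤ 1 → ‖(r : ℂ) * u‖ < 1 := by
    intro u hu
    rw [norm_mul, Complex.norm_real, Real.norm_of_nonneg hr0.le]
    nlinarith [norm_nonneg u]
  refine poisson2 (fun p => H (r * p.1, r * p.2)) ?_ ?_ ?_ z w hz hw
  · refine H_cont.comp (by fun_prop) ?_
    rintro ⟨u, v⟩ ⟨hu, hv⟩
    simp only [mem_closedBall, dist_zero_right] at hu hv
    exact two_sub_re_pos (hn u hu) (hn v hv).le
  · intro w hw
    simp only [mem_closedBall, dist_zero_right] at hw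
    refine DifferentiableOn.diffContOnCl ?_
    rw [closure_ball (0:ℂ) one_ne_zero]
    intro u hu
    simp only [mem_closedBall, dist_zero_right] at hu
    exact (H_diff (g := fun u => r * u) (h := fun _ => r * w) (by fun_prop) (by fun_prop)
      (two_sub_re_pos (hn u hu) (hn w hw).le)).differentiableWithinAt
  · intro w hw
    simp only [mem_closedBall, dist_zero_right] at hw
    refine DifferentiableOn.diffContOnCl ?_
    rw [closure_ball (0:ℂ) one_ne_zero]
    intro u hu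
    simp only [mem_closedBall, dist_zero_right] at hu
    exact (H_diff (g := fun _ => r * w) (h := fun u => r * u) (by fun_prop) (by fun_prop)
      (two_sub_re_pos (hn w hw) (hn u hu).le)).differentiableWithinAt

lemma dilate_lower {r : ℝ} (hr0 : 0 ≤ r) (hr1 : r ≤ 1) {ζ η : ℂ} (hζ : ‖ζ‖ = 1) (hη : ‖η‖ = 1) :
    ‖2 - ζ - η‖ ≤ 2 * ‖2 - r * ζ - r * η‖ := by
  have h1 : 2 * (1 - r) ≤ ‖2 - r * ζ - r * η‖ := by
    have h2 : ‖(2:ℂ)‖ - ‖r * ζ + r * η‖ ≤ ‖2 - (r * ζ + r * η)‖ := norm_sub_norm_le _ _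
    have h3 : ‖(r:ℂ) * ζ + r * η‖ ≤ 2 * r := by
      calc ‖(r:ℂ) * ζ + r * η‖ ≤ ‖(r:ℂ) * ζ‖ + ‖(r:ℂ) * η‖ := norm_add_le _ _
        _ = 2 * r := by
          rw [norm_mul, norm_mul, hζ, hη, Complex.norm_real, Real.norm_of_nonneg hr0]; ring
    have h4 : ‖(2:ℂ)‖ = 2 := by norm_num
    rw [h4] at h2
    rw [show (2:ℂ) - r * ζ - r * η = 2 - (r * ζ + r * η) by ring]
    linarith
  have h5 : ‖2 - ζ - η‖ ≤ ‖2 - r * ζ - r * η‖ + 2 * (1 - r) := by
    have h6 : (2:ℂ) - ζ - η = (2 - r * ζ - r * η) - ((1 - r : ℝ) : ℂ) * (ζ + η) := by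
      push_cast; ring
    rw [h6]
    refine (norm_sub_le _ _).trans ?_
    have h7 : ‖((1 - r : ℝ) : ℂ) * (ζ + η)‖ ≤ 2 * (1 - r) := by
      rw [norm_mul, Complex.norm_real, Real.norm_of_nonneg (by linarith)]
      have h8 : ‖ζ + η‖ ≤ 2 := by
        calc ‖ζ + η‖ ≤ ‖ζ‖ + ‖η‖ := norm_add_le _ _
          _ = 2 := by rw [hζ, hη]; norm_num
      nlinarith
    linarith
  linarith

lemma norm_log_le {u : ℂ} (hu : u ≠ 0) : ‖Complex.log u‖ ≤ ‖u‖ + ‖u‖⁻¹ + Real.pi := by
  have h1 : ‖Complex.log u‖ ≤ |(Complex.log u).re| + |(Complex.log u).im| :=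
    Complex.norm_le_abs_re_add_abs_im _
  rw [Complex.log_re, Complex.log_im] at h1
  have h2 := Complex.abs_arg_le_pi u
  have hp : 0 < ‖u‖ := norm_pos_iff.2 hu
  have h3 : |Real.log ‖u‖| ≤ ‖u‖ + ‖u‖⁻¹ := by
    rw [abs_le]
    have h4 := Real.log_le_sub_one_of_pos hp
    have h5 := Real.log_le_sub_one_of_pos (inv_pos.2 hp)
    rw [Real.log_inv] at h5
    have h6 := inv_pos.2 hp
    constructor <;> linarith
  linarith

lemma H_bound {r : ℝ} (hr0 : 0 ≤ r) (hr1 : r ≤ 1) (p : ℝ × ℝ) (hp : 2 - e p.1 - e p.2 ≠ 0) :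
    ‖H (r * e p.1, r * e p.2)‖ ≤ 4 * (4 + Real.pi) + 10 * G p := by
  have hx : 0 < ‖2 - e p.1 - e p.2‖ := norm_pos_iff.2 hp
  have h1 := dilate_lower hr0 hr1 (e_norm p.1) (e_norm p.2)
  set u : ℂ := 2 - r * e p.1 - r * e p.2 with hu
  have hup : 0 < ‖u‖ := by linarith
  have hu0 : u ≠ 0 := norm_pos_iff.1 hup
  have hui : ‖u‖⁻¹ ≤ 2 * G p := by
    unfold G
    rw [inv_eq_one_div, inv_eq_one_div, ← mul_div_assoc, mul_one, div_le_div_iff₀ hup hx]
    linarith
  have hu4 : ‖u‖ ≤ 4 := by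
    have h2 : ‖u‖ ≤ ‖(2:ℂ)‖ + ‖(r:ℂ) * e p.1‖ + ‖(r:ℂ) * e p.2‖ :=
      (norm_sub_le _ _).trans (by gcongr; exact norm_sub_le _ _)
    rw [norm_mul, norm_mul, e_norm, e_norm, Complex.norm_real, Real.norm_of_nonneg hr0] at h2
    have h4 : ‖(2:ℂ)‖ = 2 := by norm_num
    rw [h4] at h2
    linarith
  have hlog := norm_log_le hu0
  have hH : H (r * e p.1, r * e p.2) = 4 * Complex.log u - u⁻¹ := rfl
  rw [hH]
  have h5 : ‖4 * Complex.log u - u⁻¹‖ ≤ 4 * ‖Complex.log u‖ + ‖u‖⁻¹ := by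
    refine (norm_sub_le _ _).trans ?_
    rw [norm_mul, norm_inv]
    have : ‖(4:ℂ)‖ = 4 := by norm_num
    rw [this]
  linarith

lemma boundary_ne : ∀ᵐ p ∂μ2, 2 - e p.1 - e p.2 ≠ 0 := by
  have h0 : ∀ᵐ θ ∂μ1, e θ ≠ 1 := by simpa using ae_μ1 (e_ne_one_ae 0)
  have h1 : ∀ᵐ p ∂μ2, e p.1 ≠ 1 := by
    unfold μ2
    exact Measure.quasiMeasurePreserving_fst.ae h0
  filter_upwards [h1] with p hp h
  apply hp
  -- |2 - ζ| = 1 forces ζ = 1
  have h2 : ‖2 - e p.1‖ = 1 := by
    rw [show 2 - e p.1 = e p.2 by linear_combination h, e_norm]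
  have hn := e_norm p.1
  have h3 : Complex.normSq (2 - e p.1) = 1 := by rw [Complex.normSq_eq_norm_sq, h2]; norm_num
  have h4 : Complex.normSq (e p.1) = 1 := by rw [Complex.normSq_eq_norm_sq, hn]; norm_num
  rw [Complex.normSq_apply] at h3 h4
  simp only [Complex.sub_re, Complex.sub_im] at h3
  have h5 : (2:ℂ).re = 2 := by norm_num
  have h6 : (2:ℂ).im = 0 := by norm_num
  rw [h5, h6] at h3
  have h7 : (e p.1).re = 1 := by nlinarith
  have h8 : (e p.1).im = 0 := by nlinarith [sq_nonneg (e p.1).im]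
  exact Complex.ext (by simpa using h7) (by simpa using h8)

lemma boundary_re {p : ℝ × ℝ} (hp : 2 - e p.1 - e p.2 ≠ 0) : 0 < (2 - e p.1 - e p.2).re := by
  have h1 := Complex.re_le_norm (e p.1)
  have h2 := Complex.re_le_norm (e p.2)
  rw [e_norm] at h1 h2
  have h3 : (2 - e p.1 - e p.2).re = 2 - (e p.1).re - (e p.2).re := by simp
  rcases (show 0 ≤ (2 - e p.1 - e p.2).re by rw [h3]; linarith).lt_or_eq with h | h
  · exact h
  · exfalso
    apply hp
    rw [h3] at h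
    have ha : (e p.1).re = 1 := by linarith
    have hb : (e p.2).re = 1 := by linarith
    have hone : ∀ θ, (e θ).re = 1 → e θ = 1 := by
      intro θ hθ
      have h4 : Complex.normSq (e θ) = 1 := by rw [Complex.normSq_eq_norm_sq, e_norm]; norm_num
      rw [Complex.normSq_apply, hθ] at h4
      have h5 : (e θ).im = 0 := by nlinarith [sq_nonneg (e θ).im]
      exact Complex.ext (by simpa using hθ) (by simpa using h5)
    rw [hone _ ha, hone _ hb]; norm_num

lemma poisson_bounded (z : ℂ) (hz : ‖z‖ < 1) : ∃ C : ℝ, 0 ≤ C ∧ ∀ θ, |poissonKernel 0 z (e θ)| ≤ C := by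
  have hp : Function.Periodic (fun θ => poissonKernel 0 z (e θ)) (2 * Real.pi) := by
    intro θ; simp only; rw [e_periodic θ]
  obtain ⟨C, hC⟩ := (isCompact_Icc (a := (0:ℝ)) (b := 2 * Real.pi)).exists_bound_of_continuousOn
    (poisson_cont z hz).continuousOn
  refine ⟨|C|, abs_nonneg _, fun θ => ?_⟩
  obtain ⟨y, hy, hy2⟩ := hp.exists_mem_Ico₀ (by positivity) θ
  rw [hy2]
  exact (hC y (Ico_subset_Icc_self hy)).trans (le_abs_self C)

/-- Poisson formula for `H`. -/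
theorem H_poisson (z w : ℂ) (hz : ‖z‖ < 1) (hw : ‖w‖ < 1) :
    Integrable (fun p : ℝ × ℝ => H (e p.1, e p.2)) μ2 ∧
    H (z, w) = (((2 * Real.pi) ^ 2)⁻¹ : ℝ) •
      ∫ p, (poissonKernel 0 z (e p.1) * poissonKernel 0 w (e p.2)) •
        H (e p.1, e p.2) ∂μ2 := by
  obtain ⟨A, hA0, hA⟩ := poisson_bounded z hz
  obtain ⟨B, hB0, hB⟩ := poisson_bounded w hw
  have hconst : Integrable (fun p : ℝ × ℝ => 4 * (4 + Real.pi) + 10 * G p) μ2 :=
    (integrable_const _).add (G_integrable.const_mul 10)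
  have hmeas : ∀ r : ℝ, Measurable fun p : ℝ × ℝ => H (r * e p.1, r * e p.2) := by
    intro r
    unfold H
    have := e_cont
    have h1 : Measurable fun p : ℝ × ℝ => 2 - (r:ℂ) * e p.1 - r * e p.2 := by fun_prop
    exact ((Complex.measurable_log.comp h1).const_mul 4).sub h1.inv
  have hker : Continuous fun p : ℝ × ℝ => poissonKernel 0 z (e p.1) * poissonKernel 0 w (e p.2) := by
    have ha := (poisson_cont z hz).comp (continuous_fst (X := ℝ) (Y := ℝ))
    have hb := (poisson_cont w hw).comp (continuous_snd (X := ℝ) (Y := ℝ))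
    exact ha.mul hb
  refine ⟨?_, ?_⟩
  · refine hconst.mono' ?_ ?_
    · have := hmeas 1
      simpa using this.aestronglyMeasurable
    · filter_upwards [boundary_ne] with p hp
      have := H_bound zero_le_one le_rfl p hp
      simpa using this
  have hlim : Tendsto (fun r : ℝ => ∫ p, (poissonKernel 0 z (e p.1) * poissonKernel 0 w (e p.2)) •
        H (r * e p.1, r * e p.2) ∂μ2) (𝓝[<] 1)
      (𝓝 (∫ p, (poissonKernel 0 z (e p.1) * poissonKernel 0 w (e p.2)) •
        H (e p.1, e p.2) ∂μ2)) := by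
    refine tendsto_integral_filter_of_dominated_convergence
      (fun p => (A * B) * (4 * (4 + Real.pi) + 10 * G p)) ?_ ?_ (hconst.const_mul _) ?_
    · filter_upwards with r
      exact (hker.measurable.smul (hmeas r)).aestronglyMeasurable
    · have : ∀ᶠ r : ℝ in 𝓝[<] 1, 0 < r ∧ r < 1 := by
        filter_upwards [Ioo_mem_nhdsLT (zero_lt_one' ℝ)] with r hr using hr
      filter_upwards [this] with r hr
      filter_upwards [boundary_ne] with p hp
      rw [norm_smul, Real.norm_eq_abs, abs_mul]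
      have := H_bound hr.1.le hr.2.le p hp
      have hG := G_nonneg p
      have hpi := Real.pi_pos
      gcongr
      · exact hA _
      · exact hB _
    · filter_upwards [boundary_ne] with p hp
      have h1 : ContinuousAt H (e p.1, e p.2) := by
        refine H_cont.continuousAt ?_
        have h2 : IsOpen {z : ℂ × ℂ | 0 < (2 - z.1 - z.2).re} :=
          isOpen_lt continuous_const (by fun_prop)
        exact h2.mem_nhds (boundary_re hp)
      have h3 : Tendsto (fun r : ℝ => ((r:ℂ) * e p.1, (r:ℂ) * e p.2)) (𝓝[<] 1)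
          (𝓝 (e p.1, e p.2)) := by
        have h4 : Continuous fun r : ℝ => ((r:ℂ) * e p.1, (r:ℂ) * e p.2) := by fun_prop
        have h5 := h4.tendsto 1
        simp only [Complex.ofReal_one, one_mul] at h5
        exact h5.mono_left nhdsWithin_le_nhds
      exact (h1.tendsto.comp h3).const_smul _
  have hL : Tendsto (fun r : ℝ => H (r * z, r * w)) (𝓝[<] 1) (𝓝 (H (z, w))) := by
    have h1 : ContinuousAt H (z, w) := by
      refine H_cont.continuousAt ?_
      have h2 : IsOpen {z : ℂ × ℂ | 0 < (2 - z.1 - z.2).re} :=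
        isOpen_lt continuous_const (by fun_prop)
      exact h2.mem_nhds (two_sub_re_pos hz hw.le)
    have h3 : Tendsto (fun r : ℝ => ((r:ℂ) * z, (r:ℂ) * w)) (𝓝[<] 1) (𝓝 (z, w)) := by
      have h4 : Continuous fun r : ℝ => ((r:ℂ) * z, (r:ℂ) * w) := by fun_prop
      have h5 := h4.tendsto 1
      simp only [Complex.ofReal_one, one_mul] at h5
      exact h5.mono_left nhdsWithin_le_nhds
    exact h1.tendsto.comp h3
  refine tendsto_nhds_unique hL ?_
  refine (hlim.const_smul (((2 * Real.pi) ^ 2)⁻¹ : ℝ)).congr' ?_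
  have : ∀ᶠ r : ℝ in 𝓝[<] 1, 0 < r ∧ r < 1 := by
    filter_upwards [Ioo_mem_nhdsLT (zero_lt_one' ℝ)] with r hr using hr
  filter_upwards [this] with r hr
  exact (H_poisson_r r hr.1 hr.2 z w hz hw).symm

end Pool.Agent.Helper32.Bd
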