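import Pool.Agent.Helper32.BdSeries
import Pool.Agent.Helper32.BdPoisson

/-! Non-cyclicity. -/

namespace Pool.Agent.Helper32.Bd

open MeasureTheory Filter Topology Set Complex Metric Finset

lemma μ1_int {E : Type*} [NormedAddCommGroup E] [NormedSpace ℝ E] (g : ℝ → E) :
    ∫ θ, g θ ∂μ1 = ∫ θ in (0:ℝ)..(2 * Real.pi), g θ := by
  rw [intervalIntegral.integral_of_le (by positivity)]; rfl

lemma poisson_le (t : ℂ) (ht : ‖t‖ < 1) (θ : ℝ) :
    0 ≤ poissonKernel 0 t (e θ) ∧ poissonKernel 0 t (e θ) ≤ (1 + ‖t‖) / (1 - ‖t‖) := by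
  rw [poissonKernel_def, sub_zero, sub_zero, e_norm]
  have h1 : 1 - ‖t‖ ≤ ‖e θ - t‖ := by
    have := norm_sub_norm_le (e θ) t
    rwa [e_norm] at this
  have h2 : 0 < 1 - ‖t‖ := by linarith
  have h3 : 0 < ‖e θ - t‖ := by linarith
  have h4 : 0 ≤ ‖t‖ := norm_nonneg t
  constructor
  · apply div_nonneg _ (by positivity)
    nlinarith
  · rw [div_le_div_iff₀ (by positivity) h2]
    have h5 : (1 - ‖t‖) ^ 2 ≤ ‖e θ - t‖ ^ 2 := by gcongr
    nlinarith [mul_le_mul_of_nonneg_left h5 (by linarith : 0 ≤ 1 + ‖t‖)]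

lemma point_bound (g : ℂ → ℂ) (hg : DiffContOnCl ℂ g (ball 0 1)) (t : ℂ) (ht : ‖t‖ < 1) :
    ‖g t‖ ^ 2 ≤ (1 + ‖t‖) / (1 - ‖t‖) * ((2 * Real.pi)⁻¹ * ∫ θ, ‖g (e θ)‖ ^ 2 ∂μ1) := by
  have ht' : t ∈ ball (0:ℂ) 1 := by simpa using ht
  have hg2 : DiffContOnCl ℂ (fun z => g z ^ 2) (ball 0 1) := by
    simp_rw [sq]
    exact hg.smul hg
  have h1 := hg2.circleAverage_poissonKernel_smul ht'
  rw [circleAverage_eq_mu1] at h1
  simp only [Pi.smul_apply'] at h1
  rw [← norm_pow, ← h1, norm_smul, Real.norm_of_nonneg (by positivity), ← mul_assoc,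
    mul_comm ((1 + ‖t‖) / (1 - ‖t‖)), mul_assoc]
  refine mul_le_mul_of_nonneg_left ?_ (by positivity)
  refine (norm_integral_le_integral_norm _).trans ?_
  rw [← integral_const_mul]
  have hgc : Continuous fun θ => g (e θ) := by
    refine hg.continuousOn.comp_continuous e_cont fun θ => ?_
    rw [closure_ball (0:ℂ) one_ne_zero]
    simp [e_norm]
  have hint : ∀ {F : ℝ → ℝ}, Continuous F → Integrable F μ1 := by
    intro F hF
    have := hF.intervalIntegrable (μ := volume) 0 (2 * Real.pi)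
    rw [intervalIntegrable_iff_integrableOn_Ioc_of_le (by positivity)] at this
    exact this
  refine integral_mono (hint ?_) (hint ?_) fun θ => ?_
  · exact ((poisson_cont t ht).smul (hgc.pow 2)).norm
  · exact (hgc.norm.pow 2).const_mul _
  · simp only
    have h2 := poisson_le t ht θ
    rw [norm_smul, Real.norm_of_nonneg h2.1, norm_pow]
    gcongr
    exact h2.2

lemma orth (m n : ℕ) : ∫ θ, (e θ) ^ m * (starRingEnd ℂ (e θ)) ^ n ∂μ1 =
    if m = n then (2 * Real.pi : ℂ) else 0 := by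
  have h1 : ∀ θ : ℝ, (e θ) ^ m * (starRingEnd ℂ (e θ)) ^ n =
      Complex.exp ((((m : ℂ) - n) * Complex.I) * θ) := by
    intro θ
    have h2 : starRingEnd ℂ (e θ) = Complex.exp (-(θ * Complex.I)) := by
      unfold e
      rw [← Complex.exp_conj]
      simp
    rw [h2]
    unfold e
    rw [← Complex.exp_nat_mul, ← Complex.exp_nat_mul, ← Complex.exp_add]
    congr 1; ring
  rw [μ1_int]
  simp_rw [h1]
  split_ifs with h
  · subst h
    simp
  · rw [integral_exp_mul_complex]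
    · have h3 : ((m : ℂ) - n) * Complex.I * ((2 * Real.pi : ℝ) : ℂ) =
          (((m : ℤ) - n : ℤ) : ℂ) * (2 * Real.pi * Complex.I) := by push_cast; ring
      rw [h3, Complex.exp_int_mul_two_pi_mul_I]
      simp
    · apply mul_ne_zero _ Complex.I_ne_zero
      rw [sub_ne_zero]
      exact_mod_cast h

lemma parseval_fin (c : ℕ → ℂ) (N : ℕ) :
    ∫ θ, ‖∑ n ∈ range N, c n * (e θ) ^ n‖ ^ 2 ∂μ1 = 2 * Real.pi * ∑ n ∈ range N, ‖c n‖ ^ 2 := by
  have h1 : ((∫ θ, ‖∑ n ∈ range N, c n * (e θ) ^ n‖ ^ 2 ∂μ1 : ℝ) : ℂ) =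
      ((2 * Real.pi * ∑ n ∈ range N, ‖c n‖ ^ 2 : ℝ) : ℂ) := by
    rw [← integral_complex_ofReal]
    have h2 : ∀ θ, ((‖∑ n ∈ range N, c n * (e θ) ^ n‖ ^ 2 : ℝ) : ℂ) =
        ∑ m ∈ range N, ∑ n ∈ range N, (c m * starRingEnd ℂ (c n)) *
          ((e θ) ^ m * (starRingEnd ℂ (e θ)) ^ n) := by
      intro θ
      rw [← Complex.normSq_eq_norm_sq, ← Complex.mul_conj, map_sum, Finset.sum_mul_sum]
      refine Finset.sum_congr rfl fun m _ => Finset.sum_congr rfl fun n _ => ?_
      rw [map_mul, map_pow]; ring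
    simp_rw [h2]
    have hcont : ∀ m n : ℕ, Continuous fun θ => (c m * starRingEnd ℂ (c n)) *
          ((e θ) ^ m * (starRingEnd ℂ (e θ)) ^ n) := by
      intro m n
      have := e_cont
      fun_prop
    have hint : ∀ m n : ℕ, Integrable (fun θ => (c m * starRingEnd ℂ (c n)) *
          ((e θ) ^ m * (starRingEnd ℂ (e θ)) ^ n)) μ1 := by
      intro m n
      have := (hcont m n).intervalIntegrable (μ := volume) 0 (2 * Real.pi)
      rw [intervalIntegrable_iff_integrableOn_Ioc_of_le (by positivity)] at this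
      exact this
    rw [integral_finsetSum _ (fun m _ => integrable_finsetSum _ fun n _ => hint m n)]
    simp_rw [integral_finsetSum _ (fun n _ => hint _ n), integral_const_mul, orth]
    simp only [mul_ite, mul_zero, Finset.sum_ite_eq]
    push_cast
    rw [Finset.mul_sum]
    refine Finset.sum_congr rfl fun n hn => ?_
    rw [if_pos hn, Complex.mul_conj, Complex.normSq_eq_norm_sq]
    push_cast; ring
  exact_mod_cast h1

lemma parseval_le (b : ℕ → ℂ) (hb : Summable fun n => ‖b n‖ ^ 2) (g : ℂ → ℂ)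
    (hg : ∀ t : ℂ, ‖t‖ < 1 → HasSum (fun n => b n * t ^ n) (g t)) (r : ℝ) (hr0 : 0 ≤ r)
    (hr : r < 1) :
    (2 * Real.pi)⁻¹ * ∫ θ, ‖g (r * e θ)‖ ^ 2 ∂μ1 ≤ ∑' n, ‖b n‖ ^ 2 := by
  have hrn : ∀ θ, ‖(r : ℂ) * e θ‖ = r := by
    intro θ; rw [norm_mul, e_norm, Complex.norm_real, Real.norm_of_nonneg hr0, mul_one]
  have hs : Summable fun n => ‖b n‖ * r ^ n := by
    have := (hg (r * e 0) (by rw [hrn]; exact hr)).summable.norm
    refine this.congr fun n => ?_
    rw [norm_mul, norm_pow, hrn]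
  have h1 : Tendsto (fun N => ∫ θ, ‖∑ n ∈ range N, (b n * r ^ n) * (e θ) ^ n‖ ^ 2 ∂μ1) atTop
      (𝓝 (∫ θ, ‖g (r * e θ)‖ ^ 2 ∂μ1)) := by
    refine tendsto_integral_of_dominated_convergence (fun _ => (∑' n, ‖b n‖ * r ^ n) ^ 2) ?_
      (integrable_const _) ?_ ?_
    · intro N
      have : Continuous fun θ => ‖∑ n ∈ range N, (b n * r ^ n) * (e θ) ^ n‖ ^ 2 := by
        have := e_cont
        fun_prop
      exact this.aestronglyMeasurable
    · intro N
      filter_upwards with θ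
      rw [Real.norm_of_nonneg (by positivity)]
      gcongr
      refine (norm_sum_le _ _).trans ?_
      have h2 : ∀ n ∈ range N, ‖(b n * r ^ n) * (e θ) ^ n‖ = ‖b n‖ * r ^ n := by
        intro n _
        rw [norm_mul, norm_mul, norm_pow, norm_pow, e_norm, Complex.norm_real,
          Real.norm_of_nonneg hr0, one_pow, mul_one]
      rw [Finset.sum_congr rfl h2]
      exact hs.sum_le_tsum _ (fun n _ => by positivity)
    · filter_upwards with θ
      have h2 := (hg (r * e θ) (by rw [hrn]; exact hr)).tendsto_sum_nat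
      have h3 : ∀ N, ∑ n ∈ range N, b n * (r * e θ) ^ n = ∑ n ∈ range N, (b n * r ^ n) * (e θ) ^ n := by
        intro N
        refine Finset.sum_congr rfl fun n _ => ?_
        rw [mul_pow]; ring
      simp_rw [h3] at h2
      exact (h2.norm.pow 2)
  rw [inv_mul_le_iff₀ (by positivity)]
  refine le_of_tendsto h1 (Eventually.of_forall fun N => ?_)
  rw [parseval_fin (fun n => b n * r ^ n)]
  gcongr
  calc ∑ n ∈ range N, ‖b n * r ^ n‖ ^ 2 ≤ ∑ n ∈ range N, ‖b n‖ ^ 2 := by
        refine Finset.sum_le_sum fun n _ => ?_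
        gcongr
        rw [norm_mul, norm_pow, Complex.norm_real, Real.norm_of_nonneg hr0]
        exact mul_le_of_le_one_right (norm_nonneg _) (pow_le_one₀ hr0 hr.le)
    _ ≤ ∑' n, ‖b n‖ ^ 2 := hb.sum_le_tsum _ (fun n _ => by positivity)


lemma phi_re {t : ℂ} (ht : ‖t‖ ≤ 1) : 0 ≤ (2 - 2 * t).re := by
  have := Complex.re_le_norm t
  simp
  linarith

lemma phi_norm_le {t : ℂ} (ht : ‖t‖ ≤ 1) : ‖phi t‖ ≤ 256 := by
  unfold phi
  rw [norm_mul, norm_pow]
  have h2 := exp_le_one (phi_re ht)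
  have h3 : ‖(2 - 2 * t : ℂ)‖ ≤ 4 := by
    refine (norm_sub_le _ _).trans ?_
    rw [norm_mul]
    have : ‖(2:ℂ)‖ = 2 := by norm_num
    rw [this]; linarith
  calc ‖(2 - 2 * t : ℂ)‖ ^ 4 * ‖Complex.exp (-(2 - 2 * t)⁻¹)‖ ≤ 4 ^ 4 * 1 := by gcongr
    _ = 256 := by norm_num

lemma phi_contAt {t : ℂ} (ht : 2 - 2 * t ≠ 0) : ContinuousAt phi t := by
  unfold phi
  have h1 : ContinuousAt (fun t : ℂ => 2 - 2 * t) t := by fun_prop
  exact (h1.pow 4).mul (h1.inv₀ ht).neg.cexp

lemma phi_circle {θ : ℝ} (hθ : e θ ≠ 1) :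
    ‖phi (e θ)‖ = ‖(Real.exp (-1/4) : ℂ) * (2 - 2 * e θ) ^ 4‖ := by
  unfold phi
  rw [norm_mul, norm_mul, mul_comm, Complex.norm_exp]
  congr 1
  rw [Complex.norm_real, Real.norm_of_nonneg (Real.exp_pos _).le]
  congr 1
  rw [Complex.neg_re, Complex.inv_re]
  have hn : Complex.normSq (e θ) = 1 := by rw [Complex.normSq_eq_norm_sq, e_norm]; norm_num
  have h1 : Complex.normSq (2 - 2 * e θ) = 4 * (2 - 2 * e θ).re := by
    rw [Complex.normSq_apply] at hn ⊢
    simp
    nlinarith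
  have h2 : (2 - 2 * e θ).re ≠ 0 := by
    intro h3
    rw [h3, mul_zero, Complex.normSq_eq_zero] at h1
    apply hθ
    linear_combination (-1/2 : ℂ) * h1
  rw [h1]
  generalize (2 - 2 * e θ).re = u at h2
  field_simp

/-- The analytic core: no polynomial multiple of `phi` is close to `1` in `H²`. -/
theorem core (P : ℂ → ℂ) (hP : Differentiable ℂ P) (b : ℕ → ℂ) (hb : Summable fun n => ‖b n‖ ^ 2)
    (hg : ∀ t : ℂ, ‖t‖ < 1 → HasSum (fun n => b n * t ^ n) (P t * phi t - 1)) :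
    1 / 64 < ∑' n, ‖b n‖ ^ 2 := by
  by_contra hcon
  push Not at hcon
  have hpar : ∀ r : ℝ, 0 ≤ r → r < 1 →
      (2 * Real.pi)⁻¹ * ∫ θ, ‖P (r * e θ) * phi (r * e θ) - 1‖ ^ 2 ∂μ1 ≤ 1 / 64 := fun r hr0 hr1 =>
    (parseval_le b hb _ hg r hr0 hr1).trans hcon
  have hdiffD : DifferentiableOn ℂ (fun t => P t * phi t - 1) (ball 0 1) :=
    (hP.differentiableOn.mul phi_diffOn).sub_const 1
  -- value at 7/8
  have hA : ‖P (7/8) * phi (7/8) - 1‖ ^ 2 ≤ 15 / 64 := by
    have h1 : ∀ r : ℝ, 0 ≤ r → r < 1 →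
        ‖P (r * (7/8)) * phi (r * (7/8)) - 1‖ ^ 2 ≤ 15 / 64 := by
      intro r hr0 hr1
      have h2 : DiffContOnCl ℂ (fun t => P (r * t) * phi (r * t) - 1) (ball 0 1) := by
        refine DifferentiableOn.diffContOnCl ?_
        rw [closure_ball (0:ℂ) one_ne_zero]
        refine hdiffD.comp (f := fun t : ℂ => (r : ℂ) * t) (by fun_prop) ?_
        intro t ht
        simp only [mem_closedBall, dist_zero_right] at ht
        simp only [mem_ball, dist_zero_right, norm_mul, Complex.norm_real,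
          Real.norm_of_nonneg hr0]
        nlinarith [norm_nonneg t]
      have h3 := point_bound _ h2 (7/8) (by norm_num)
      have h4 := hpar r hr0 hr1
      have h5 : (1 + ‖(7/8 : ℂ)‖) / (1 - ‖(7/8 : ℂ)‖) = 15 := by
        have : ‖(7/8 : ℂ)‖ = 7/8 := by norm_num
        rw [this]; norm_num
      rw [h5] at h3
      linarith
    have h2 : Tendsto (fun r : ℝ => ‖P (r * (7/8)) * phi (r * (7/8)) - 1‖ ^ 2) (𝓝[<] 1)
        (𝓝 (‖P (7/8) * phi (7/8) - 1‖ ^ 2)) := by
      have h3 : Tendsto (fun r : ℝ => (r : ℂ) * (7/8)) (𝓝[<] 1) (𝓝 (7/8)) := by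
        have h4 : Continuous fun r : ℝ => (r : ℂ) * (7/8) := by fun_prop
        have h5 := h4.tendsto 1
        simp only [Complex.ofReal_one, one_mul] at h5
        exact h5.mono_left nhdsWithin_le_nhds
      have h4 : ContinuousAt (fun t => ‖P t * phi t - 1‖ ^ 2) (7/8) := by
        have h5 := phi_contAt (t := 7/8) (by norm_num)
        exact (((hP.continuous.continuousAt.mul h5).sub continuousAt_const).norm).pow 2
      exact h4.tendsto.comp h3
    refine le_of_tendsto h2 ?_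
    filter_upwards [Ioo_mem_nhdsLT (zero_lt_one' ℝ)] with r hr using h1 r hr.1.le hr.2
  -- the polynomial `h`
  set h : ℂ → ℂ := fun t => P t * ((Real.exp (-1/4) : ℂ) * (2 - 2 * t) ^ 4) with hh
  have hhd : Differentiable ℂ h := by
    rw [hh]; fun_prop
  have hB : (2 * Real.pi)⁻¹ * ∫ θ, ‖h (e θ)‖ ^ 2 ∂μ1 ≤ 3 := by
    obtain ⟨M, hM⟩ := (isCompact_closedBall (0:ℂ) 1).exists_bound_of_continuousOn
      hP.continuous.continuousOn
    have hM0 : 0 ≤ M := (norm_nonneg _).trans (hM 0 (by simp))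
    have hlim : Tendsto (fun r : ℝ => ∫ θ, ‖P (r * e θ) * phi (r * e θ)‖ ^ 2 ∂μ1) (𝓝[<] 1)
        (𝓝 (∫ θ, ‖h (e θ)‖ ^ 2 ∂μ1)) := by
      refine tendsto_integral_filter_of_dominated_convergence (fun _ => (M * 256) ^ 2) ?_ ?_
        (integrable_const _) ?_
      · filter_upwards with r
        have := e_cont
        have hm : Measurable fun θ => P (r * e θ) * phi (r * e θ) := by
          unfold phi
          have h1 := hP.continuous
          fun_prop
        exact (hm.norm.pow_const 2).aestronglyMeasurable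
      · filter_upwards [Ioo_mem_nhdsLT (zero_lt_one' ℝ)] with r hr
        filter_upwards with θ
        have h1 : ‖(r:ℂ) * e θ‖ ≤ 1 := by
          rw [norm_mul, e_norm, Complex.norm_real, Real.norm_of_nonneg hr.1.le, mul_one]
          exact hr.2.le
        rw [Real.norm_of_nonneg (by positivity), norm_mul]
        gcongr
        · exact hM _ (by simpa using h1)
        · exact phi_norm_le h1
      · have h0 : ∀ᵐ θ ∂μ1, e θ ≠ 1 := by simpa using ae_μ1 (e_ne_one_ae 0)
        filter_upwards [h0] with θ hθ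
        have h1 : ContinuousAt (fun t => ‖P t * phi t‖ ^ 2) (e θ) := by
          have h5 := phi_contAt (t := e θ) (fun h3 => hθ (by linear_combination (-1/2 : ℂ) * h3))
          exact (hP.continuous.continuousAt.mul h5).norm.pow 2
        have h3 : Tendsto (fun r : ℝ => (r : ℂ) * e θ) (𝓝[<] 1) (𝓝 (e θ)) := by
          have h4 : Continuous fun r : ℝ => (r : ℂ) * e θ := by fun_prop
          have h5 := h4.tendsto 1
          simp only [Complex.ofReal_one, one_mul] at h5
          exact h5.mono_left nhdsWithin_le_nhds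
        have h4 : ‖h (e θ)‖ = ‖P (e θ) * phi (e θ)‖ := by
          rw [hh]; simp only; rw [norm_mul, norm_mul (P (e θ)) (phi (e θ)), phi_circle hθ]
        rw [h4]
        exact h1.tendsto.comp h3
    refine le_of_tendsto (hlim.const_mul _) ?_
    filter_upwards [Ioo_mem_nhdsLT (zero_lt_one' ℝ)] with r hr
    have h1 := hpar r hr.1.le hr.2
    have hcont : Continuous fun θ => P (r * e θ) * phi (r * e θ) := by
      refine (hP.continuous.comp (by have := e_cont; fun_prop)).mul ?_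
      refine continuous_iff_continuousAt.2 fun θ => ?_
      have h2 : ‖(r:ℂ) * e θ‖ < 1 := by
        rw [norm_mul, e_norm, Complex.norm_real, Real.norm_of_nonneg hr.1.le, mul_one]
        exact hr.2
      exact ContinuousAt.comp (f := fun θ => (r:ℂ) * e θ) (phi_contAt (two_sub_ne h2))
        (by have := e_cont; fun_prop)
    have hint : ∀ {F : ℝ → ℝ}, Continuous F → Integrable F μ1 := by
      intro F hF
      have := hF.intervalIntegrable (μ := volume) 0 (2 * Real.pi)
      rw [intervalIntegrable_iff_integrableOn_Ioc_of_le (by positivity)] at this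
      exact this
    have h2 : ∫ θ, ‖P (r * e θ) * phi (r * e θ)‖ ^ 2 ∂μ1 ≤
        ∫ θ, (2 * ‖P (r * e θ) * phi (r * e θ) - 1‖ ^ 2 + 2) ∂μ1 := by
      refine integral_mono (hint (hcont.norm.pow 2))
        (hint ((((hcont.sub continuous_const).norm.pow 2).const_mul 2).add continuous_const))
        fun θ => ?_
      simp only
      have h3 : ‖P (r * e θ) * phi (r * e θ)‖ ≤ ‖P (r * e θ) * phi (r * e θ) - 1‖ + 1 := by
        have := norm_add_le (P (r * e θ) * phi (r * e θ) - 1) 1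
        simpa using this
      nlinarith [sq_nonneg (‖P (r * e θ) * phi (r * e θ) - 1‖ - 1),
        norm_nonneg (P (r * e θ) * phi (r * e θ))]
    have hi : Integrable (fun θ => 2 * ‖P (r * e θ) * phi (r * e θ) - 1‖ ^ 2) μ1 :=
      hint (((hcont.sub continuous_const).norm.pow 2).const_mul 2)
    rw [integral_add hi (integrable_const _), integral_const_mul] at h2
    have h4 : ∫ _ : ℝ, (2:ℝ) ∂μ1 = 2 * (2 * Real.pi) := by
      rw [μ1_int]; simp; ring
    rw [h4] at h2
    have hpi : (0:ℝ) < 2 * Real.pi := by positivity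
    calc (2 * Real.pi)⁻¹ * ∫ θ, ‖P (r * e θ) * phi (r * e θ)‖ ^ 2 ∂μ1
        ≤ (2 * Real.pi)⁻¹ * (2 * ∫ θ, ‖P (r * e θ) * phi (r * e θ) - 1‖ ^ 2 ∂μ1 +
            2 * (2 * Real.pi)) := by gcongr
      _ = 2 * ((2 * Real.pi)⁻¹ * ∫ θ, ‖P (r * e θ) * phi (r * e θ) - 1‖ ^ 2 ∂μ1) + 2 := by
          field_simp
      _ ≤ 3 := by linarith
  have hC := point_bound h (hhd.diffContOnCl) (7/8) (by norm_num)
  have h5 : (1 + ‖(7/8 : ℂ)‖) / (1 - ‖(7/8 : ℂ)‖) = 15 := by
    have : ‖(7/8 : ℂ)‖ = 7/8 := by norm_num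
    rw [this]; norm_num
  rw [h5] at hC
  have hD : P (7/8) * phi (7/8) = h (7/8) * (Real.exp (-15/4) : ℂ) := by
    rw [hh]
    unfold phi
    simp only
    have h6 : (-(2 - 2 * (7/8 : ℂ))⁻¹) = ((-4 : ℝ) : ℂ) := by norm_num
    rw [h6, ← Complex.ofReal_exp]
    have h7 : Real.exp (-4) = Real.exp (-1/4) * Real.exp (-15/4) := by
      rw [← Real.exp_add]; norm_num
    rw [h7]; push_cast; ring
  have hE : ‖P (7/8) * phi (7/8)‖ ^ 2 ≤ 45 / 1000 := by
    rw [hD, norm_mul, mul_pow, Complex.norm_real, Real.norm_of_nonneg (Real.exp_pos _).le]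
    have h6 : Real.exp (-15/4) ^ 2 ≤ 1 / 1000 := by
      rw [← Real.exp_nat_mul]
      have h7 : ((2:ℕ):ℝ) * (-15/4) = -(15/2) := by norm_num
      rw [h7, Real.exp_neg, inv_eq_one_div]
      apply one_div_le_one_div_of_le (by norm_num)
      have h8 : Real.exp 7 ≤ Real.exp (15/2) := Real.exp_le_exp.2 (by norm_num)
      have h9 : (1000:ℝ) ≤ Real.exp 7 := by
        have h10 : Real.exp 7 = (Real.exp 1) ^ 7 := by rw [← Real.exp_nat_mul]; norm_num
        rw [h10]
        have h11 := Real.exp_one_gt_d9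
        calc (1000:ℝ) ≤ 2.7 ^ 7 := by norm_num
          _ ≤ (Real.exp 1) ^ 7 := by gcongr; linarith
      linarith
    calc ‖h (7/8)‖ ^ 2 * Real.exp (-15/4) ^ 2 ≤ 45 * (1 / 1000) := by
          gcongr
          linarith
      _ = 45 / 1000 := by norm_num
  have hF : ‖P (7/8) * phi (7/8)‖ ≤ 1/4 := by
    by_contra h6
    push Not at h6
    nlinarith
  have hG : ‖P (7/8) * phi (7/8) - 1‖ ≤ 1/2 := by
    by_contra h6
    push Not at h6
    nlinarith
  have hH : (1:ℝ) ≤ ‖P (7/8) * phi (7/8)‖ + ‖P (7/8) * phi (7/8) - 1‖ := by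
    have := norm_sub_le (P (7/8) * phi (7/8)) (P (7/8) * phi (7/8) - 1)
    simpa using this
  linarith

lemma one_inDirichlet : InDirichlet (fun _ => 1) := by
  refine ⟨fun n => if n = (0, 0) then 1 else 0, ?_, ?_⟩
  · intro z _ _
    have := hasSum_ite_eq ((0, 0) : ℕ × ℕ) (1 : ℂ)
    refine this.congr_fun fun n => ?_
    by_cases h : n = (0, 0)
    · subst h; simp
    · simp [h]
  · refine (hasSum_ite_eq ((0, 0) : ℕ × ℕ) (1 : ℝ)).summable.congr fun n => ?_
    by_cases h : n = (0, 0)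
    · subst h; simp
    · simp [h]

theorem fB_not_cyclic : ¬ Cyclic fB := by
  intro hc
  obtain ⟨p, c, h1, h2, h3⟩ := hc _ one_inDirichlet (1/64) (by norm_num)
  obtain ⟨h4, h5⟩ := diag_bound h2
  have hP : Differentiable ℂ (fun t : ℂ => MvPolynomial.eval ![t, t] p) := by
    have h0 : ∀ t : ℂ, (![t, t] : Fin 2 → ℂ) = fun _ => t := by
      intro t; ext i; fin_cases i <;> rfl
    simp_rw [h0, MvPolynomial.eval_eq']
    fun_prop
  have := core (fun t => MvPolynomial.eval ![t, t] p) hP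
    (fun n => ∑ p ∈ antidiagonal n, c p) h4 ?_
  · linarith
  · intro t ht
    have h6 := antidiag_hasSum (h1 (t, t) ht ht)
    have h7 : fB (t, t) = phi t := by
      rw [fB_eq]; congr 1; ring
    simp only [h7] at h6
    refine h6.congr_fun fun n => ?_
    rw [Finset.sum_mul]
    refine Finset.sum_congr rfl fun q hq => ?_
    rw [HasAntidiagonal.mem_antidiagonal] at hq
    rw [← hq, pow_add]; ring

end Pool.Agent.Helper32.Bd
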