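import Pool.Agent.Helper32.BdDefs

namespace Pool.Agent.Helper32.Bd

open MeasureTheory Filter Topology Set

/-- Sanity check: the constant function `1` is cyclic, i.e. polynomials are dense. -/
theorem one_cyclic : Cyclic (fun _ => 1) := by
  rintro g ⟨a, ha, hfin⟩ ε hε
  have h0 := tendsto_tsum_compl_atTop_zero
    (fun n : ℕ × ℕ => ((n.1 : ℝ) + 1) * ((n.2 : ℝ) + 1) * ‖a n‖ ^ 2)
  obtain ⟨s, hs⟩ := ((tendsto_order.1 h0).2 ε hε).exists
  classical
  let c : ℕ × ℕ → ℂ := fun n => if n ∈ s then 0 else - a n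
  refine ⟨∑ n ∈ s, MvPolynomial.C (a n) * MvPolynomial.X 0 ^ n.1 * MvPolynomial.X 1 ^ n.2,
    c, ?_, ?_, ?_⟩
  · intro z hz hw
    have h1 := ha z hz hw
    have h2 : HasSum (fun n : ℕ × ℕ => if n ∈ s then a n * z.1 ^ n.1 * z.2 ^ n.2 else 0)
        (∑ n ∈ s, a n * z.1 ^ n.1 * z.2 ^ n.2) := by
      have : HasSum (fun n : ℕ × ℕ => if n ∈ s then a n * z.1 ^ n.1 * z.2 ^ n.2 else 0)
          (∑ n ∈ s, if n ∈ s then a n * z.1 ^ n.1 * z.2 ^ n.2 else 0) :=
        hasSum_sum_of_ne_finset_zero (fun n hn => if_neg hn)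
      rwa [Finset.sum_congr rfl (fun n hn => if_pos hn)] at this
    have h3 := h2.sub h1
    have h4 : MvPolynomial.eval ![z.1, z.2]
        (∑ n ∈ s, MvPolynomial.C (a n) * MvPolynomial.X 0 ^ n.1 * MvPolynomial.X 1 ^ n.2) * 1
          - g z = ∑ n ∈ s, a n * z.1 ^ n.1 * z.2 ^ n.2 - g z := by
      simp
    simp only
    rw [h4]
    refine h3.congr_fun fun n => ?_
    simp only [c]
    split_ifs <;> ring
  · refine Summable.of_nonneg_of_le (fun n => by positivity) (fun n => ?_) hfin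
    simp only [c]
    split_ifs
    · simp; positivity
    · rw [norm_neg]
  · have h5 : normSq c = ∑' n : ((↑s : Set (ℕ × ℕ))ᶜ : Set (ℕ × ℕ)),
        (((n : ℕ × ℕ).1 : ℝ) + 1) * (((n : ℕ × ℕ).2 : ℝ) + 1) * ‖a n‖ ^ 2 := by
      unfold normSq
      rw [tsum_subtype ((↑s : Set (ℕ × ℕ))ᶜ : Set (ℕ × ℕ))
        (fun n : ℕ × ℕ => ((n.1 : ℝ) + 1) * ((n.2 : ℝ) + 1) * ‖a n‖ ^ 2)]
      refine tsum_congr fun n => ?_
      simp only [c, Set.indicator]
      by_cases hn : n ∈ s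
      · simp [hn]
      · simp [hn]
    rw [h5]
    exact hs

end Pool.Agent.Helper32.Bd
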