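import Pool.Agent.Helper32.BdDefs

/-! Membership in the Dirichlet space. -/

namespace Pool.Agent.Helper32.Bd

open MeasureTheory Filter Topology Set Complex Metric Finset

lemma summable_antidiag {g : ℕ × ℕ → ℝ} (hg : ∀ p, 0 ≤ g p) {b : ℕ → ℝ} (hb : Summable b)
    (h : ∀ n, ∑ p ∈ antidiagonal n, g p ≤ b n) : Summable g := by
  rw [← Finset.HasAntidiagonal.sigmaAntidiagonalEquivProd.summable_iff]
  refine (summable_sigma_of_nonneg
    (f := g ∘ Finset.HasAntidiagonal.sigmaAntidiagonalEquivProd) (fun _ => hg _)).2 ⟨fun n => ?_, ?_⟩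
  · exact (hasSum_fintype _).summable
  · refine Summable.of_nonneg_of_le (fun n => tsum_nonneg fun _ => hg _) (fun n => ?_) hb
    rw [tsum_fintype]
    have := h n
    rw [← Finset.sum_coe_sort] at this
    exact this

lemma hasSum_antidiag {g : ℕ × ℕ → ℂ} (hs : Summable g) {x : ℂ}
    (h : HasSum (fun n => ∑ p ∈ antidiagonal n, g p) x) : HasSum g x := by
  have h1 := hs.hasSum
  have h2 := (Finset.HasAntidiagonal.sigmaAntidiagonalEquivProd.hasSum_iff).2 h1
  have h3 := h2.sigma (g := fun n => ∑ p ∈ antidiagonal n, g p) (fun n => by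
    have := hasSum_fintype (fun c : antidiagonal n =>
      (g ∘ Finset.HasAntidiagonal.sigmaAntidiagonalEquivProd) ⟨n, c⟩)
    rw [← Finset.sum_coe_sort]
    exact this)
  rw [h3.unique h] at h1
  exact h1

lemma antidiag_hasSum {g : ℕ × ℕ → ℂ} {x : ℂ} (h : HasSum g x) :
    HasSum (fun n => ∑ p ∈ antidiagonal n, g p) x := by
  have h2 := (Finset.HasAntidiagonal.sigmaAntidiagonalEquivProd.hasSum_iff).2 h
  exact h2.sigma (g := fun n => ∑ p ∈ antidiagonal n, g p) (fun n => by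
    have := hasSum_fintype (fun c : antidiagonal n =>
      (g ∘ Finset.HasAntidiagonal.sigmaAntidiagonalEquivProd) ⟨n, c⟩)
    rw [← Finset.sum_coe_sort]
    exact this)

/-- `(2 - 2t)^4 exp(-1/(2-2t))` -/
noncomputable def phi (t : ℂ) : ℂ := (2 - 2 * t) ^ 4 * Complex.exp (-(2 - 2 * t)⁻¹)

lemma two_sub_ne {t : ℂ} (ht : ‖t‖ < 1) : (2 - 2 * t) ≠ 0 := by
  intro h
  have : t = 1 := by linear_combination (-1/2 : ℂ) * h
  rw [this] at ht; simp at ht

lemma exp_le_one {u : ℂ} (hu : 0 ≤ u.re) : ‖Complex.exp (-u⁻¹)‖ ≤ 1 := by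
  rw [Complex.norm_exp]
  apply Real.exp_le_one_iff.2
  rw [Complex.neg_re, Complex.inv_re, neg_nonpos]
  exact div_nonneg hu (Complex.normSq_nonneg _)

lemma hasDeriv_aux (q : ℂ → ℂ) (q' : ℂ) {t : ℂ} (ht : ‖t‖ < 1) (hq : HasDerivAt q q' (2 - 2 * t)) :
    HasDerivAt (fun t => q (2 - 2 * t) * Complex.exp (-(2 - 2 * t)⁻¹))
      (-2 * (q' + q (2 - 2 * t) / (2 - 2 * t) ^ 2) * Complex.exp (-(2 - 2 * t)⁻¹)) t := by
  have hu : HasDerivAt (fun t : ℂ => 2 - 2 * t) (-2) t := by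
    have := ((hasDerivAt_id t).const_mul 2).const_sub 2
    simpa using this
  have h1 := hq.comp t hu
  have h2 := (hu.inv (two_sub_ne ht)).neg.cexp
  have h3 := h1.mul h2
  have h4 := two_sub_ne ht
  refine HasDerivAt.congr_deriv h3 ?_
  simp only [Function.comp, Pi.neg_apply, Pi.inv_apply]
  generalize q (2 - 2 * t) = Q
  generalize 2 - 2 * t = u at h4 ⊢
  field_simp
  ring

lemma phi_deriv {t : ℂ} (ht : ‖t‖ < 1) :
    HasDerivAt phi ((-2 * (4 * (2 - 2 * t) ^ 3 + (2 - 2 * t) ^ 2)) *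
      Complex.exp (-(2 - 2 * t)⁻¹)) t := by
  have h := hasDeriv_aux (fun u => u ^ 4) (4 * (2 - 2 * t) ^ 3) ht (by
    simpa using hasDerivAt_pow 4 (2 - 2 * t))
  have h4 := two_sub_ne ht
  refine HasDerivAt.congr_deriv h ?_
  generalize 2 - 2 * t = u at h4 ⊢
  field_simp

lemma phi_deriv2 {t : ℂ} (ht : ‖t‖ < 1) :
    HasDerivAt (deriv phi) ((4 * (12 * (2 - 2 * t) ^ 2 + 6 * (2 - 2 * t) + 1)) *
      Complex.exp (-(2 - 2 * t)⁻¹)) t := by
  have h := hasDeriv_aux (fun u => -2 * (4 * u ^ 3 + u ^ 2))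
    (-2 * (12 * (2 - 2 * t) ^ 2 + 2 * (2 - 2 * t))) ht (by
      have h1 := (((hasDerivAt_pow 3 (2 - 2 * t)).const_mul 4).add
        (hasDerivAt_pow 2 (2 - 2 * t))).const_mul (-2)
      refine HasDerivAt.congr_deriv h1 ?_
      norm_num
      ring)
  have h4 := two_sub_ne ht
  have h5 : deriv phi =ᶠ[𝓝 t] fun t => (-2 * (4 * (2 - 2 * t) ^ 3 + (2 - 2 * t) ^ 2)) *
      Complex.exp (-(2 - 2 * t)⁻¹) := by
    have : {t : ℂ | ‖t‖ < 1} ∈ 𝓝 t := (isOpen_lt continuous_norm continuous_const).mem_nhds ht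
    filter_upwards [this] with s hs using (phi_deriv hs).deriv
  refine (HasDerivAt.congr_of_eventuallyEq ?_ h5)
  refine HasDerivAt.congr_deriv h ?_
  generalize 2 - 2 * t = u at h4 ⊢
  field_simp
  ring

lemma phi_diffOn : DifferentiableOn ℂ phi (ball 0 1) := by
  intro t ht
  exact (phi_deriv (by simpa using ht)).differentiableAt.differentiableWithinAt

/-- Taylor coefficients of `phi` -/
noncomputable def cf (n : ℕ) : ℂ := (n.factorial : ℂ)⁻¹ * iteratedDeriv n phi 0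

lemma cf_hasSum {t : ℂ} (ht : ‖t‖ < 1) : HasSum (fun n => cf n * t ^ n) (phi t) := by
  have := Complex.hasSum_taylorSeries_on_ball phi_diffOn (z := t) (by simpa using ht)
  refine this.congr_fun ?_
  intro n
  simp only [cf, sub_zero, smul_eq_mul]
  ring

lemma cf_bound (n : ℕ) : ‖cf (n + 2)‖ ≤ 868 / ((n + 1) * (n + 2)) := by
  have hM : ‖iteratedDeriv (n + 2) phi 0‖ ≤ n.factorial * 868 := by
    have h1 : ∀ R : ℝ, 0 < R → R < 1 →
        ‖iteratedDeriv (n + 2) phi 0‖ ≤ n.factorial * 868 / R ^ n := by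
      intro R hR hR1
      rw [show n + 2 = n + 1 + 1 from rfl, iteratedDeriv_succ', iteratedDeriv_succ']
      have hnorm : ∀ t : ℂ, t ∈ closedBall (0:ℂ) R → ‖t‖ < 1 := by
        intro t ht
        simp only [mem_closedBall, dist_zero_right] at ht
        linarith
      refine Complex.norm_iteratedDeriv_le_of_forall_mem_sphere_norm_le n hR ?_ ?_
      · -- deriv (deriv phi) is differentiable on the closed ball
        have h2 : DifferentiableOn ℂ (deriv phi) (ball 0 1) := by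
          intro t ht
          exact (phi_deriv2 (by simpa using ht)).differentiableAt.differentiableWithinAt
        have h3 := h2.deriv isOpen_ball
        refine (h3.mono ?_).diffContOnCl
        rw [closure_ball (0:ℂ) hR.ne']
        intro t ht
        simpa using hnorm t ht
      · intro t ht
        have ht1 : ‖t‖ < 1 := hnorm t (sphere_subset_closedBall ht)
        rw [(phi_deriv2 ht1).deriv, norm_mul]
        have h2 : ‖Complex.exp (-(2 - 2 * t)⁻¹)‖ ≤ 1 := by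
          apply exp_le_one
          have := Complex.re_le_norm t
          simp
          linarith
        have h3 : ‖(2 - 2 * t : ℂ)‖ ≤ 4 := by
          refine (norm_sub_le _ _).trans ?_
          rw [norm_mul]
          have : ‖(2:ℂ)‖ = 2 := by norm_num
          rw [this]; linarith
        have h4 : ‖(4 * (12 * (2 - 2 * t) ^ 2 + 6 * (2 - 2 * t) + 1) : ℂ)‖ ≤ 868 := by
          rw [norm_mul]
          have h5 : ‖(12 * (2 - 2 * t) ^ 2 + 6 * (2 - 2 * t) + 1 : ℂ)‖ ≤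
              12 * ‖(2 - 2 * t : ℂ)‖ ^ 2 + 6 * ‖(2 - 2 * t : ℂ)‖ + 1 := by
            refine (norm_add_le _ _).trans ?_
            refine (add_le_add (norm_add_le _ _) le_rfl).trans ?_
            rw [norm_mul, norm_mul, norm_pow]
            norm_num
          have h6 : ‖(4:ℂ)‖ = 4 := by norm_num
          rw [h6]
          nlinarith [norm_nonneg (2 - 2 * t : ℂ)]
        calc _ ≤ (868:ℝ) * 1 := by gcongr
          _ = 868 := mul_one _
    have h2 : Tendsto (fun R : ℝ => n.factorial * 868 / R ^ n) (𝓝[<] 1)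
        (𝓝 ((n.factorial * 868 : ℝ) / 1 ^ n)) := by
      apply Tendsto.mono_left _ nhdsWithin_le_nhds
      apply Tendsto.div tendsto_const_nhds ((continuous_pow n).tendsto 1) (by simp)
    rw [one_pow, div_one] at h2
    refine ge_of_tendsto h2 ?_
    filter_upwards [Ioo_mem_nhdsLT (zero_lt_one' ℝ)] with R hR using h1 R hR.1 hR.2
  unfold cf
  rw [norm_mul, norm_inv, Complex.norm_natCast]
  have hf : ((n + 2).factorial : ℝ) = (n + 2) * (n + 1) * n.factorial := by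
    rw [Nat.factorial_succ, Nat.factorial_succ]; push_cast; ring
  have hpos : (0:ℝ) < n.factorial := by exact_mod_cast n.factorial_pos
  rw [hf, inv_mul_eq_div, div_le_div_iff₀ (by positivity) (by positivity)]
  nlinarith [mul_le_mul_of_nonneg_left hM (by positivity : (0:ℝ) ≤ (n + 1) * (n + 2))]


/-- the counterexample `(2-z-w)^4 exp(-1/(2-z-w))` -/
noncomputable def fB (z : ℂ × ℂ) : ℂ := (2 - z.1 - z.2) ^ 4 * Complex.exp (-(2 - z.1 - z.2)⁻¹)

lemma fB_eq (z : ℂ × ℂ) : fB z = phi ((z.1 + z.2) / 2) := by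
  unfold fB phi
  rw [show 2 - z.1 - z.2 = 2 - 2 * ((z.1 + z.2) / 2) by ring]

/-- Taylor coefficients of `fB` -/
noncomputable def aB (n : ℕ × ℕ) : ℂ :=
  cf (n.1 + n.2) * (1 / 2) ^ (n.1 + n.2) * ((n.1 + n.2).choose n.1 : ℂ)

lemma cf_norm_le : ∃ C : ℝ, ∀ n, ‖cf n‖ ≤ C := by
  refine ⟨max (max ‖cf 0‖ ‖cf 1‖) 868, fun n => ?_⟩
  rcases n with _ | _ | n
  · exact le_max_of_le_left (le_max_left _ _)
  · exact le_max_of_le_left (le_max_right _ _)
  · refine le_max_of_le_right ((cf_bound n).trans ?_)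
    rw [div_le_iff₀ (by positivity)]
    have : (0:ℝ) ≤ n := n.cast_nonneg
    nlinarith

lemma aB_hasCoeffs : HasCoeffs fB aB := by
  intro z hz hw
  obtain ⟨C, hC⟩ := cf_norm_le
  rw [fB_eq]
  have hs : ‖(z.1 + z.2) / 2‖ < 1 := by
    rw [norm_div]
    have h2 : ‖(2:ℂ)‖ = 2 := by norm_num
    rw [h2]
    have := norm_add_le z.1 z.2
    linarith
  have key : ∀ n, ∑ p ∈ antidiagonal n, aB p * z.1 ^ p.1 * z.2 ^ p.2 =
      cf n * ((z.1 + z.2) / 2) ^ n := by
    intro n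
    rw [div_pow, (Commute.all z.1 z.2).add_pow', Finset.sum_div, Finset.mul_sum]
    refine Finset.sum_congr rfl fun p hp => ?_
    rw [HasAntidiagonal.mem_antidiagonal] at hp
    unfold aB
    rw [hp, nsmul_eq_mul, one_div, inv_pow]
    ring
  refine hasSum_antidiag ?_ ?_
  · refine Summable.of_norm ?_
    have hgeo : Summable fun n : ℕ => C * ((‖z.1‖ + ‖z.2‖) / 2) ^ n := by
      refine (summable_geometric_of_lt_one (by positivity) (by linarith)).mul_left C
    refine summable_antidiag (fun p => norm_nonneg _) hgeo fun n => ?_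
    have h1 : ∑ p ∈ antidiagonal n, ‖aB p * z.1 ^ p.1 * z.2 ^ p.2‖ =
        ‖cf n‖ * ((‖z.1‖ + ‖z.2‖) / 2) ^ n := by
      rw [div_pow, (Commute.all ‖z.1‖ ‖z.2‖).add_pow', Finset.sum_div, Finset.mul_sum]
      refine Finset.sum_congr rfl fun p hp => ?_
      rw [HasAntidiagonal.mem_antidiagonal] at hp
      unfold aB
      rw [hp, nsmul_eq_mul, norm_mul, norm_mul, norm_mul, norm_mul, norm_pow, norm_pow, norm_pow,
        Complex.norm_natCast]
      have h2 : ‖(1 / 2 : ℂ)‖ = 1 / 2 := by norm_num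
      rw [h2, one_div, inv_pow]
      ring
    rw [h1]
    gcongr
    exact hC n
  · exact (cf_hasSum hs).congr_fun (fun n => (key n))

lemma aB_finiteNorm : FiniteNorm aB := by
  have hb : Summable fun n : ℕ => ((n : ℝ) + 1) ^ 2 * ‖cf n‖ ^ 2 := by
    rw [← summable_nat_add_iff 2]
    have h1 : Summable fun n : ℕ => 9 * 868 ^ 2 * (1 / ((n + 2 : ℕ) : ℝ) ^ 2) :=
      ((summable_nat_add_iff 2).2 (Real.summable_one_div_nat_pow.2 one_lt_two)).mul_left _
    refine Summable.of_nonneg_of_le (fun n => by positivity) (fun n => ?_) h1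
    have h2 := cf_bound n
    have h3 : ‖cf (n + 2)‖ ^ 2 ≤ (868 / ((n + 1) * (n + 2))) ^ 2 := by gcongr
    calc (((n + 2 : ℕ) : ℝ) + 1) ^ 2 * ‖cf (n + 2)‖ ^ 2
        ≤ (((n + 2 : ℕ) : ℝ) + 1) ^ 2 * (868 / ((n + 1) * (n + 2))) ^ 2 := by gcongr
      _ ≤ (3 * ((n : ℝ) + 1)) ^ 2 * (868 / ((n + 1) * (n + 2))) ^ 2 := by
          gcongr
          push_cast
          have : (0:ℝ) ≤ n := n.cast_nonneg
          linarith
      _ = 9 * 868 ^ 2 * (1 / ((n + 2 : ℕ) : ℝ) ^ 2) := by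
          push_cast
          field_simp
          ring
  refine summable_antidiag (fun p => by positivity) hb fun n => ?_
  have h1 : ∀ p ∈ antidiagonal n, ((p.1 : ℝ) + 1) * ((p.2 : ℝ) + 1) * ‖aB p‖ ^ 2 ≤
      ((n : ℝ) + 1) ^ 2 * ‖cf n‖ ^ 2 * (((1 / 2 : ℝ) ^ n * (n.choose p.1 : ℝ)) ^ 2) := by
    intro p hp
    rw [HasAntidiagonal.mem_antidiagonal] at hp
    unfold aB
    rw [hp, norm_mul, norm_mul, norm_pow, Complex.norm_natCast]
    have h2 : ‖(1 / 2 : ℂ)‖ = 1 / 2 := by norm_num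
    rw [h2, mul_assoc ‖cf n‖, mul_pow ‖cf n‖, ← mul_assoc]
    have h3 : (p.1 : ℝ) ≤ n := by exact_mod_cast (by omega : p.1 ≤ n)
    have h4 : (p.2 : ℝ) ≤ n := by exact_mod_cast (by omega : p.2 ≤ n)
    have h5 : ((p.1 : ℝ) + 1) * ((p.2 : ℝ) + 1) ≤ ((n : ℝ) + 1) ^ 2 := by
      rw [sq]; gcongr
    gcongr
  refine (Finset.sum_le_sum h1).trans ?_
  rw [← Finset.mul_sum]
  have h2 : ∑ p ∈ antidiagonal n, ((1 / 2 : ℝ) ^ n * (n.choose p.1 : ℝ)) ^ 2 ≤ 1 := by
    have h3 : ∑ p ∈ antidiagonal n, ((1 / 2 : ℝ) ^ n * (n.choose p.1 : ℝ)) = 1 := by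
      rw [← Finset.mul_sum]
      have h4 : ∑ p ∈ antidiagonal n, (n.choose p.1 : ℝ) = 2 ^ n := by
        have := (Commute.all (1:ℝ) 1).add_pow' n
        simp only [one_pow, mul_one, nsmul_eq_mul] at this
        rw [← this]; norm_num
      rw [h4, ← mul_pow]; norm_num
    calc ∑ p ∈ antidiagonal n, ((1 / 2 : ℝ) ^ n * (n.choose p.1 : ℝ)) ^ 2
        ≤ ∑ p ∈ antidiagonal n, ((1 / 2 : ℝ) ^ n * (n.choose p.1 : ℝ)) := by
          refine Finset.sum_le_sum fun p hp => ?_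
          have h5 : (1 / 2 : ℝ) ^ n * (n.choose p.1 : ℝ) ≤ 1 := by
            refine le_trans ?_ h3.le
            exact Finset.single_le_sum (f := fun p : ℕ × ℕ => (1 / 2 : ℝ) ^ n * (n.choose p.1 : ℝ))
              (fun p _ => by positivity) hp
          have h6 : 0 ≤ (1 / 2 : ℝ) ^ n * (n.choose p.1 : ℝ) := by positivity
          nlinarith
      _ = 1 := h3
  have h3 : 0 ≤ ((n : ℝ) + 1) ^ 2 * ‖cf n‖ ^ 2 := by positivity
  nlinarith

theorem fB_inDirichlet : InDirichlet fB := ⟨aB, aB_hasCoeffs, aB_finiteNorm⟩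

/-- Restriction to the diagonal. -/
lemma diag_bound {c : ℕ × ℕ → ℂ} (hc : FiniteNorm c) :
    Summable (fun n => ‖∑ p ∈ antidiagonal n, c p‖ ^ 2) ∧
      ∑' n, ‖∑ p ∈ antidiagonal n, c p‖ ^ 2 ≤ normSq c := by
  have h1 : ∀ n, ‖∑ p ∈ antidiagonal n, c p‖ ^ 2 ≤
      ∑ p ∈ antidiagonal n, ((p.1 : ℝ) + 1) * ((p.2 : ℝ) + 1) * ‖c p‖ ^ 2 := by
    intro n
    have h2 : ‖∑ p ∈ antidiagonal n, c p‖ ≤ ∑ p ∈ antidiagonal n, ‖c p‖ := norm_sum_le _ _
    have h3 : (∑ p ∈ antidiagonal n, ‖c p‖) ^ 2 ≤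
        (n + 1) * ∑ p ∈ antidiagonal n, ‖c p‖ ^ 2 := by
      have := sq_sum_le_card_mul_sum_sq (s := antidiagonal n) (f := fun p => ‖c p‖)
      rw [Finset.Nat.card_antidiagonal] at this
      push_cast at this
      exact this
    calc ‖∑ p ∈ antidiagonal n, c p‖ ^ 2 ≤ (∑ p ∈ antidiagonal n, ‖c p‖) ^ 2 := by gcongr
      _ ≤ (n + 1) * ∑ p ∈ antidiagonal n, ‖c p‖ ^ 2 := h3
      _ ≤ _ := by
        rw [Finset.mul_sum]
        refine Finset.sum_le_sum fun p hp => ?_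
        rw [HasAntidiagonal.mem_antidiagonal] at hp
        have h4 : (n : ℝ) + 1 ≤ ((p.1 : ℝ) + 1) * ((p.2 : ℝ) + 1) := by
          have : (n : ℝ) = p.1 + p.2 := by exact_mod_cast hp.symm
          rw [this]
          nlinarith [(p.1.cast_nonneg : (0:ℝ) ≤ p.1), (p.2.cast_nonneg : (0:ℝ) ≤ p.2),
            mul_nonneg (p.1.cast_nonneg : (0:ℝ) ≤ p.1) (p.2.cast_nonneg : (0:ℝ) ≤ p.2)]
        gcongr
  have h2 := (Finset.HasAntidiagonal.sigmaAntidiagonalEquivProd.hasSum_iff).2 hc.hasSum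
  have h3 := h2.sigma (g := fun n : ℕ => ∑ p ∈ antidiagonal n,
    ((p.1 : ℝ) + 1) * ((p.2 : ℝ) + 1) * ‖c p‖ ^ 2) (fun n => by
    have := hasSum_fintype (fun q : antidiagonal n =>
      ((fun p : ℕ × ℕ => ((p.1 : ℝ) + 1) * ((p.2 : ℝ) + 1) * ‖c p‖ ^ 2) ∘
        Finset.HasAntidiagonal.sigmaAntidiagonalEquivProd) ⟨n, q⟩)
    rw [← Finset.sum_coe_sort]
    exact this)
  have h4 : Summable (fun n => ‖∑ p ∈ antidiagonal n, c p‖ ^ 2) :=
    Summable.of_nonneg_of_le (fun n => by positivity) h1 h3.summable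
  refine ⟨h4, ?_⟩
  unfold normSq
  rw [← h3.tsum_eq]
  exact h4.tsum_le_tsum h1 h3.summable

end Pool.Agent.Helper32.Bd
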