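import Pool.Agent.Helper32.CfDefs

namespace Pool.Agent.Helper32.Cf

open MeasureTheory Filter Topology Set
open scoped ContDiff

variable {n : ℕ} {s : ℝ}

lemma ker_nonneg (p : E n × E n) : 0 ≤ ker n s p := by unfold ker; positivity

lemma ker_meas : Measurable (ker n s) := by
  unfold ker
  exact (by fun_prop : Measurable fun p : E n × E n => ‖p.1 - p.2‖).pow_const _

lemma ker_swap (x y : E n) : ker n s (x, y) = ker n s (y, x) := by
  unfold ker; simp only; rw [norm_sub_rev]

/-- the radial majorant is integrable -/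
lemma radial_int (hn : 0 < n) (hs0 : 0 < s) (hs1 : s < 1) {A C : ℝ} (hA : 0 ≤ A) (hC : 0 ≤ C) :
    Integrable (fun h : E n => min (A * ‖h‖ ^ 2) C * ‖h‖ ^ (-((n : ℝ) + 2 * s))) volume := by
  haveI : Nonempty (Fin n) := ⟨⟨0, hn⟩⟩
  have := integrable_fun_norm_addHaar (E := E n) volume
    (f := fun y : ℝ => min (A * y ^ 2) C * y ^ (-((n : ℝ) + 2 * s)))
  rw [this]
  have hfr : Module.finrank ℝ (E n) = n := by simp
  rw [hfr]
  have hmeas : Measurable fun y : ℝ => y ^ (n - 1) • (min (A * y ^ 2) C * y ^ (-((n : ℝ) + 2 * s))) := by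
    have h1 : Measurable fun y : ℝ => y ^ (-((n : ℝ) + 2 * s)) := measurable_id.pow_const _
    simp only [smul_eq_mul]
    fun_prop
  rw [← Ioc_union_Ioi_eq_Ioi (zero_le_one' ℝ)]
  refine IntegrableOn.union ?_ ?_
  · have h1 : IntegrableOn (fun y : ℝ => A * y ^ (1 - 2 * s)) (Ioc 0 1) volume := by
      have := (intervalIntegral.intervalIntegrable_rpow' (a := 0) (b := 1) (r := 1 - 2 * s)
        (by linarith)).const_mul A
      rwa [intervalIntegrable_iff_integrableOn_Ioc_of_le zero_le_one] at this
    refine Integrable.mono' h1 hmeas.aestronglyMeasurable ?_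
    rw [ae_restrict_iff' measurableSet_Ioc]
    refine Eventually.of_forall fun y hy => ?_
    have hy0 : 0 < y := hy.1
    rw [smul_eq_mul, Real.norm_of_nonneg (by positivity)]
    calc y ^ (n - 1) * (min (A * y ^ 2) C * y ^ (-((n : ℝ) + 2 * s)))
        ≤ y ^ (n - 1) * ((A * y ^ 2) * y ^ (-((n : ℝ) + 2 * s))) := by
          gcongr; exact min_le_left _ _
      _ = A * y ^ (1 - 2 * s) := by
          rw [show y ^ (n - 1) * ((A * y ^ 2) * y ^ (-((n : ℝ) + 2 * s))) =
            A * (y ^ (n - 1) * y ^ 2 * y ^ (-((n : ℝ) + 2 * s))) by ring, ← pow_add,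
            ← Real.rpow_natCast, ← Real.rpow_add hy0]
          congr 2
          have : ((n - 1 + 2 : ℕ) : ℝ) = n + 1 := by
            have : n - 1 + 2 = n + 1 := by omega
            rw [this]; push_cast; ring
          rw [this]; ring
  · have h1 : IntegrableOn (fun y : ℝ => C * y ^ (-1 - 2 * s)) (Ioi 1) volume :=
      (integrableOn_Ioi_rpow_of_lt (by linarith) zero_lt_one).const_mul C
    refine Integrable.mono' h1 hmeas.aestronglyMeasurable ?_
    rw [ae_restrict_iff' measurableSet_Ioi]
    refine Eventually.of_forall fun y hy => ?_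
    have hy0 : 0 < y := zero_lt_one.trans hy
    rw [smul_eq_mul, Real.norm_of_nonneg (by positivity)]
    calc y ^ (n - 1) * (min (A * y ^ 2) C * y ^ (-((n : ℝ) + 2 * s)))
        ≤ y ^ (n - 1) * (C * y ^ (-((n : ℝ) + 2 * s))) := by
          gcongr; exact min_le_right _ _
      _ = C * y ^ (-1 - 2 * s) := by
          rw [show y ^ (n - 1) * (C * y ^ (-((n : ℝ) + 2 * s))) =
            C * (y ^ (n - 1) * y ^ (-((n : ℝ) + 2 * s))) by ring,
            ← Real.rpow_natCast, ← Real.rpow_add hy0]
          congr 2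
          have : ((n - 1 : ℕ) : ℝ) = n - 1 := by
            rw [Nat.cast_sub hn]; simp
          rw [this]; ring

/-- compactly supported smooth functions have finite Gagliardo seminorm -/
lemma test_sq_int (hn : 0 < n) (hs0 : 0 < s) (hs1 : s < 1) {f : E n → ℝ} (hf : ContDiff ℝ ∞ f)
    (hfc : HasCompactSupport f) :
    Integrable (fun p : E n × E n => ker n s p * (f p.1 - f p.2) ^ 2) volume := by
  obtain ⟨L, hL⟩ := ContDiff.lipschitzWith_of_hasCompactSupport hfc hf (by simp)
  obtain ⟨M, hM⟩ := hfc.exists_bound_of_continuous hf.continuous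
  have hM0 : 0 ≤ M := (norm_nonneg _).trans (hM 0)
  set J : E n → ℝ := fun h => min ((L:ℝ) ^ 2 * ‖h‖ ^ 2) ((2 * M) ^ 2) * ‖h‖ ^ (-((n : ℝ) + 2 * s))
    with hJ
  have hJint : Integrable J volume := radial_int hn hs0 hs1 (by positivity) (by positivity)
  have hJ0 : ∀ h, 0 ≤ J h := fun h => by rw [hJ]; positivity
  set K : Set (E n) := tsupport f with hK
  have hKc : IsCompact K := hfc
  have hind : Integrable (K.indicator (fun _ => (1:ℝ))) volume := by
    rw [integrable_indicator_iff hKc.measurableSet]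
    exact integrableOn_const (hKc.measure_lt_top.ne)
  have h1 : Integrable (fun p : E n × E n => K.indicator (fun _ => (1:ℝ)) p.2 * J (p.1 - p.2))
      volume :=
    Integrable.convolution_integrand (ContinuousLinearMap.mul ℝ ℝ) hind hJint
  have h2 : Integrable (fun p : E n × E n => K.indicator (fun _ => (1:ℝ)) p.1 * J (p.1 - p.2))
      volume := by
    have h3 := h1.swap
    refine h3.congr (Eventually.of_forall fun p => ?_)
    simp only [Function.comp, Prod.fst_swap, Prod.snd_swap, hJ]
    rw [norm_sub_rev]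
  refine (h1.add h2).mono' ?_ ?_
  · have := hf.continuous
    exact ((ker_meas).mul (by fun_prop : Measurable fun p : E n × E n =>
      (f p.1 - f p.2) ^ 2)).aestronglyMeasurable
  · refine Eventually.of_forall fun p => ?_
    have hk := ker_nonneg (s := s) p
    rw [Real.norm_of_nonneg (by positivity)]
    simp only [Pi.add_apply]
    have hsq : (f p.1 - f p.2) ^ 2 ≤ min ((L:ℝ) ^ 2 * ‖p.1 - p.2‖ ^ 2) ((2 * M) ^ 2) := by
      have ha : |f p.1 - f p.2| ≤ L * ‖p.1 - p.2‖ := by
        have := hL.dist_le_mul p.1 p.2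
        rwa [Real.dist_eq, dist_eq_norm] at this
      have hb : |f p.1 - f p.2| ≤ 2 * M := by
        have h5 := hM p.1
        have h6 := hM p.2
        rw [Real.norm_eq_abs] at h5 h6
        have := abs_sub (f p.1) (f p.2)
        linarith
      refine le_min ?_ ?_
      · rw [← sq_abs, ← mul_pow]; gcongr
      · rw [← sq_abs]; gcongr
    by_cases hx : p.1 ∈ K
    · rw [Set.indicator_of_mem hx, one_mul]
      have h7 : 0 ≤ K.indicator (fun _ => (1:ℝ)) p.2 * J (p.1 - p.2) :=
        mul_nonneg (Set.indicator_nonneg (fun _ _ => zero_le_one) _) (hJ0 _)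
      have h8 : ker n s p * (f p.1 - f p.2) ^ 2 ≤ J (p.1 - p.2) := by
        rw [hJ]; simp only; rw [mul_comm]; unfold ker; gcongr
      linarith
    · by_cases hy : p.2 ∈ K
      · rw [Set.indicator_of_mem hy, one_mul]
        have h7 : 0 ≤ K.indicator (fun _ => (1:ℝ)) p.1 * J (p.1 - p.2) :=
          mul_nonneg (Set.indicator_nonneg (fun _ _ => zero_le_one) _) (hJ0 _)
        have h8 : ker n s p * (f p.1 - f p.2) ^ 2 ≤ J (p.1 - p.2) := by
          rw [hJ]; simp only; rw [mul_comm]; unfold ker; gcongr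
        linarith
      · rw [image_eq_zero_of_notMem_tsupport hx, image_eq_zero_of_notMem_tsupport hy]
        simp only [sub_self, ne_eq, OfNat.ofNat_ne_zero, not_false_eq_true, zero_pow, mul_zero]
        exact add_nonneg (mul_nonneg (Set.indicator_nonneg (fun _ _ => zero_le_one) _) (hJ0 _))
          (mul_nonneg (Set.indicator_nonneg (fun _ _ => zero_le_one) _) (hJ0 _))

lemma integrable_gag {F : E n × E n → ℝ} :
    Integrable F (gag n s) ↔ Integrable (fun p => ker n s p * F p) volume := by
  unfold gag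
  rw [integrable_withDensity_iff_integrable_smul' (ker_meas.ennreal_ofReal)
    (Eventually.of_forall fun _ => ENNReal.ofReal_lt_top)]
  refine integrable_congr (Eventually.of_forall fun p => ?_)
  simp only [smul_eq_mul]
  rw [ENNReal.toReal_ofReal (ker_nonneg p)]

lemma integral_gag (F : E n × E n → ℝ) :
    ∫ p, F p ∂(gag n s) = ∫ p, ker n s p * F p := by
  unfold gag
  rw [integral_withDensity_eq_integral_toReal_smul (ker_meas.ennreal_ofReal)
    (Eventually.of_forall fun _ => ENNReal.ofReal_lt_top)]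
  refine integral_congr_ae (Eventually.of_forall fun p => ?_)
  simp only [smul_eq_mul]
  rw [ENNReal.toReal_ofReal (ker_nonneg p)]

lemma gag_ac : gag n s ≪ (volume : Measure (E n × E n)) := withDensity_absolutelyContinuous _ _

lemma test_memHs (hn : 0 < n) (hs0 : 0 < s) (hs1 : s < 1) {f : E n → ℝ} (hf : ContDiff ℝ ∞ f)
    (hfc : HasCompactSupport f) : MemHs s f := by
  refine ⟨hf.continuous.memLp_of_hasCompactSupport hfc, ?_⟩
  have hc := hf.continuous
  have hm : AEStronglyMeasurable (fun p : E n × E n => f p.1 - f p.2) (gag n s) :=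
    (by fun_prop : Measurable fun p : E n × E n => f p.1 - f p.2).aestronglyMeasurable
  rw [memLp_two_iff_integrable_sq hm, integrable_gag]
  exact test_sq_int hn hs0 hs1 hf hfc

end Pool.Agent.Helper32.Cf
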