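import Pool.Agent.Helper32.CfEnergy

namespace Pool.Agent.Helper32.Cf

open MeasureTheory Filter Topology Set Metric
open scoped ContDiff ENNReal InnerProductSpace Pointwise

variable {n : ℕ} {s : ℝ}

/-- rescaled test function -/
noncomputable def resc (φ : E n → ℝ) (x₀ : E n) (t : ℝ) (x : E n) : ℝ := φ (t⁻¹ • (x - x₀))

lemma resc_contDiff {φ : E n → ℝ} (hφ : ContDiff ℝ ∞ φ) (x₀ : E n) (t : ℝ) :
    ContDiff ℝ ∞ (resc φ x₀ t) := by
  unfold resc
  exact hφ.comp (by fun_prop)

lemma resc_zero {φ : E n → ℝ} (hφ : ∀ x, x ∉ closedBall (0 : E n) 1 → φ x = 0) (x₀ : E n) {t : ℝ}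
    (ht : 0 < t) : ∀ x, x ∉ closedBall x₀ t → resc φ x₀ t x = 0 := by
  intro x hx
  unfold resc
  apply hφ
  rw [mem_closedBall, dist_eq_norm, not_le] at hx
  rw [mem_closedBall, dist_zero_right, not_le, norm_smul, norm_inv, Real.norm_of_nonneg ht.le,
    inv_mul_eq_div, lt_div_iff₀ ht, one_mul]
  exact hx

lemma resc_hcs {φ : E n → ℝ} (hφ : ∀ x, x ∉ closedBall (0 : E n) 1 → φ x = 0) (x₀ : E n) {t : ℝ}
    (ht : 0 < t) : HasCompactSupport (resc φ x₀ t) :=
  HasCompactSupport.of_support_subset_isCompact (isCompact_closedBall x₀ t) (fun x hx => by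
    by_contra h
    exact hx (resc_zero hφ x₀ ht x h))

lemma resc_int {φ : E n → ℝ} (x₀ : E n) {t : ℝ} (ht : 0 < t) :
    ∫ x, |resc φ x₀ t x| = t ^ n * ∫ x, |φ x| := by
  unfold resc
  have h1 : ∫ x, |φ (t⁻¹ • (x - x₀))| = ∫ x, |φ (t⁻¹ • x)| :=
    integral_sub_right_eq_self (fun x => |φ (t⁻¹ • x)|) x₀
  rw [h1]
  have h2 := Measure.integral_comp_inv_smul_of_nonneg (volume : Measure (E n))
    (fun x => |φ x|) ht.le
  rw [h2]; simp

/-- the scaling identity for the energy -/
lemma scaling (c : ℝ) {g : E n → ℝ} {a₀ a₁ : ℝ} (G : Good c g a₀ a₁) (φ : E n → ℝ) (x₀ : E n)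
    {t : ℝ} (ht : 0 < t) :
    ∫ p, D (resc φ x₀ t) p * D (resc φ x₀ t) p ∂(mg s c g) =
      t ^ ((n : ℝ) - 2 * s) * ∫ p : E n × E n, ker n s p *
        (c * (g (x₀ + t • p.1) * g (x₀ + t • p.2)) * (D φ p * D φ p)) := by
  haveI : (volume : Measure (E n × E n)).IsAddHaarMeasure := by
    rw [Measure.volume_eq_prod]; infer_instance
  rw [G.integral_mg]
  set Ψ : E n × E n → ℝ := fun p =>
    ker n s p * (wt c g p * (D (resc φ x₀ t) p * D (resc φ x₀ t) p)) with hΨ
  have h1 : ∫ p : E n × E n, Ψ ((x₀, x₀) + p) = ∫ p, Ψ p :=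
    integral_add_left_eq_self Ψ (x₀, x₀)
  have h2 := Measure.integral_comp_smul_of_nonneg (volume : Measure (E n × E n))
    (fun p => Ψ ((x₀, x₀) + p)) t (hR := ht.le)
  have hfr : Module.finrank ℝ (E n × E n) = n + n := by simp
  rw [hfr, h1] at h2
  have h3 : ∫ p, Ψ p = t ^ (n + n) * ∫ p : E n × E n, Ψ ((x₀, x₀) + t • p) := by
    rw [h2, smul_eq_mul, ← mul_assoc, mul_inv_cancel₀ (by positivity), one_mul]
  rw [h3]
  have h4 : ∀ p : E n × E n, Ψ ((x₀, x₀) + t • p) = t ^ (-((n : ℝ) + 2 * s)) *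
      (ker n s p * (c * (g (x₀ + t • p.1) * g (x₀ + t • p.2)) * (D φ p * D φ p))) := by
    intro p
    have h5 : ker n s ((x₀, x₀) + t • p) = t ^ (-((n : ℝ) + 2 * s)) * ker n s p := by
      unfold ker
      rw [← Real.mul_rpow ht.le (norm_nonneg _)]
      congr 1
      simp only [Prod.fst_add, Prod.snd_add, Prod.smul_fst, Prod.smul_snd]
      rw [add_sub_add_left_eq_sub, ← smul_sub, norm_smul, Real.norm_of_nonneg ht.le]
    have h6 : D (resc φ x₀ t) ((x₀, x₀) + t • p) = D φ p := by
      unfold D resc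
      simp only [Prod.fst_add, Prod.snd_add, Prod.smul_fst, Prod.smul_snd, add_sub_cancel_left]
      rw [smul_smul, smul_smul, inv_mul_cancel₀ ht.ne', one_smul, one_smul]
    rw [hΨ]
    simp only
    rw [h5, h6]
    unfold wt
    simp only [Prod.fst_add, Prod.snd_add, Prod.smul_fst, Prod.smul_snd]
    ring
  simp_rw [h4]
  rw [integral_const_mul, ← mul_assoc]
  congr 1
  rw [← Real.rpow_natCast, ← Real.rpow_add ht]
  congr 1
  push_cast; ring

/-- Lebesgue point in scaled form -/
lemma lebesgue_scaled {h : E n → ℝ} (x₀ : E n)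
    (hx : Tendsto (fun t : ℝ => ⨍ y in closedBall x₀ t, h y) (𝓝[>] 0) (𝓝 0)) (R : ℝ) (hR : 0 < R) :
    Tendsto (fun t : ℝ => ∫ x in closedBall (0 : E n) R, h (x₀ + t • x)) (𝓝[>] 0) (𝓝 0) := by
  have h1 : ∀ t : ℝ, 0 < t → ∫ x in closedBall (0 : E n) R, h (x₀ + t • x) =
      (R ^ n * (volume (ball (0 : E n) 1)).toReal) * ⨍ y in closedBall x₀ (R * t), h y := by
    intro t ht
    have h2 := Measure.setIntegral_comp_smul_of_pos (volume : Measure (E n))
      (fun z => h (x₀ + z)) (closedBall 0 R) ht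
    rw [h2]
    have h3 : t • closedBall (0 : E n) R = closedBall 0 (R * t) := by
      rw [smul_closedBall _ _ hR.le, smul_zero, Real.norm_of_nonneg ht.le, mul_comm]
    have h4 : ∫ z in closedBall (0 : E n) (R * t), h (x₀ + z) = ∫ y in closedBall x₀ (R * t), h y := by
      rw [← integral_indicator measurableSet_closedBall, ← integral_indicator measurableSet_closedBall]
      refine Eq.trans ?_ (integral_add_left_eq_self
        ((closedBall x₀ (R * t)).indicator h) x₀)
      refine integral_congr_ae (Eventually.of_forall fun z => ?_)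
      simp only [Set.indicator]
      congr 1
      simp [mem_closedBall, dist_eq_norm]
    rw [h3, h4, setAverage_eq]
    have h5 : volume.real (closedBall x₀ (R * t)) =
        (R * t) ^ n * (volume (ball (0 : E n) 1)).toReal := by
      rw [Measure.real, Measure.addHaar_closedBall _ _ (by positivity), ENNReal.toReal_mul,
        ENNReal.toReal_ofReal (by positivity)]
      simp
    have h6 : 0 < (volume (ball (0 : E n) 1)).toReal :=
      ENNReal.toReal_pos (measure_ball_pos volume _ one_pos).ne' measure_ball_lt_top.ne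
    rw [h5, smul_eq_mul, smul_eq_mul]
    have hfr : Module.finrank ℝ (E n) = n := by simp
    rw [hfr]
    field_simp
    ring
  have h2 : Tendsto (fun t : ℝ => R * t) (𝓝[>] 0) (𝓝[>] 0) := by
    rw [tendsto_nhdsWithin_iff]
    constructor
    · have : Continuous fun t : ℝ => R * t := by fun_prop
      have h3 := this.tendsto 0
      rw [mul_zero] at h3
      exact h3.mono_left nhdsWithin_le_nhds
    · filter_upwards [self_mem_nhdsWithin] with t ht
      exact mul_pos hR ht
  have h3 := (hx.comp h2).const_mul (R ^ n * (volume (ball (0 : E n) 1)).toReal)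
  rw [mul_zero] at h3
  refine h3.congr' ?_
  filter_upwards [self_mem_nhdsWithin] with t ht
  exact (h1 t ht).symm

/-- A sequence of scales along which the blow-ups converge a.e. -/
lemma exists_scales {h : E n → ℝ} (hm : Measurable h) (h0 : ∀ x, 0 ≤ h x) {b : ℝ}
    (hb : ∀ x, h x ≤ b) (x₀ : E n)
    (hx : Tendsto (fun t : ℝ => ⨍ y in closedBall x₀ t, h y) (𝓝[>] 0) (𝓝 0)) :
    ∃ t : ℕ → ℝ, (∀ k, 0 < t k) ∧ Tendsto t atTop (𝓝 0) ∧
      ∀ᵐ x ∂(volume : Measure (E n)), Tendsto (fun k => h (x₀ + t k • x)) atTop (𝓝 0) := by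
  have h1 : ∀ k : ℕ, ∃ t : ℝ, 0 < t ∧ t < 1 / ((k : ℝ) + 1) ∧
      ∫ x in closedBall (0 : E n) (k + 1), h (x₀ + t • x) < (1 / 2) ^ k := by
    intro k
    have h2 := lebesgue_scaled x₀ hx ((k : ℝ) + 1) (by positivity)
    have h3 := (tendsto_order.1 h2).2 ((1 / 2) ^ k) (by positivity)
    have h4 : ∀ᶠ t : ℝ in 𝓝[>] 0, t ∈ Ioo 0 (1 / ((k : ℝ) + 1)) :=
      Ioo_mem_nhdsGT (by positivity)
    obtain ⟨t, ht1, ht2⟩ := (h3.and h4).exists
    exact ⟨t, ht2.1, ht2.2, ht1⟩
  choose t ht0 ht1 ht2 using h1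
  refine ⟨t, ht0, ?_, ?_⟩
  · exact squeeze_zero (fun k => (ht0 k).le) (fun k => (ht1 k).le)
      tendsto_one_div_add_atTop_nhds_zero_nat
  · set A : ℕ → E n → ENNReal := fun k x =>
      (closedBall (0 : E n) (k + 1)).indicator (fun x => ENNReal.ofReal (h (x₀ + t k • x))) x with hA
    have hAm : ∀ k, Measurable (A k) := by
      intro k
      refine Measurable.indicator ?_ measurableSet_closedBall
      exact (hm.comp (by fun_prop)).ennreal_ofReal
    have hAi : ∀ k, ∫⁻ x, A k x ≤ ENNReal.ofReal ((1 / 2) ^ k) := by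
      intro k
      rw [hA]
      simp only
      rw [lintegral_indicator measurableSet_closedBall, ← ofReal_integral_eq_lintegral_ofReal]
      · exact ENNReal.ofReal_le_ofReal (ht2 k).le
      · refine Integrable.mono' (g := fun _ => b) (integrableOn_const
          (measure_closedBall_lt_top.ne)) (hm.comp (by fun_prop)).aestronglyMeasurable ?_
        refine Eventually.of_forall fun x => ?_
        rw [Real.norm_of_nonneg (h0 _)]
        exact hb _
      · exact Eventually.of_forall fun x => h0 _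
    have hsum : ∫⁻ x, ∑' k, A k x ≠ ⊤ := by
      rw [lintegral_tsum fun k => (hAm k).aemeasurable]
      refine ne_top_of_le_ne_top ?_ (ENNReal.tsum_le_tsum hAi)
      rw [← ENNReal.ofReal_tsum_of_nonneg (fun k => by positivity)
        (summable_geometric_of_lt_one (by norm_num) (by norm_num))]
      exact ENNReal.ofReal_ne_top
    have hfin := ae_lt_top (Measurable.ennreal_tsum hAm) hsum
    filter_upwards [hfin] with x hx
    have h3 := ENNReal.tendsto_atTop_zero_of_tsum_ne_top hx.ne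
    have h4 : Tendsto (fun k => ENNReal.ofReal (h (x₀ + t k • x))) atTop (𝓝 0) := by
      refine h3.congr' ?_
      obtain ⟨K, hK⟩ := exists_nat_ge ‖x‖
      filter_upwards [eventually_ge_atTop K] with k hk
      rw [hA]
      simp only
      rw [Set.indicator_of_mem]
      rw [mem_closedBall, dist_zero_right]
      have : (K : ℝ) ≤ k := by exact_mod_cast hk
      linarith
    have h5 := (ENNReal.tendsto_toReal ENNReal.zero_ne_top).comp h4
    simp only [ENNReal.toReal_zero] at h5
    refine h5.congr fun k => ?_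
    simp only [Function.comp]
    rw [ENNReal.toReal_ofReal (h0 _)]

end Pool.Agent.Helper32.Cf
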