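import Mathlib

/-! Definitions for the fractional conductivity equation with exterior data. -/

namespace Pool.Agent.Helper32.Cf

open MeasureTheory Filter Topology Set
open scoped ContDiff

/-- Euclidean space `ℝⁿ`. -/
abbrev E (n : ℕ) := EuclideanSpace ℝ (Fin n)

/-- The kernel `|x - y|^{-(n+2s)}`. -/
noncomputable def ker (n : ℕ) (s : ℝ) (p : E n × E n) : ℝ :=
  ‖p.1 - p.2‖ ^ (-((n : ℝ) + 2 * s))

/-- The measure `|x - y|^{-(n+2s)} dx dy` on `ℝⁿ × ℝⁿ`. -/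
noncomputable def gag (n : ℕ) (s : ℝ) : Measure (E n × E n) :=
  (volume : Measure (E n × E n)).withDensity (fun p => ENNReal.ofReal (ker n s p))

/-- `u ∈ H^s(ℝⁿ)`: `u ∈ L²` and the Gagliardo seminorm
`∬ |u x - u y|² |x - y|^{-(n+2s)} dx dy` is finite. -/
def MemHs {n : ℕ} (s : ℝ) (u : E n → ℝ) : Prop :=
  MemLp u 2 volume ∧ MemLp (fun p : E n × E n => u p.1 - u p.2) 2 (gag n s)

/-- `f ∈ C_c^∞(U)`. -/
def IsTest {n : ℕ} (U : Set (E n)) (f : E n → ℝ) : Prop :=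
  ContDiff ℝ ∞ f ∧ HasCompactSupport f ∧ tsupport f ⊆ U

/-- `u` lies in the closure of `C_c^∞(Ω)` in `H^s(ℝⁿ)`. -/
def MemHtilde {n : ℕ} (s : ℝ) (Ω : Set (E n)) (u : E n → ℝ) : Prop :=
  MemHs s u ∧ ∃ φ : ℕ → E n → ℝ, (∀ k, IsTest Ω (φ k)) ∧
    Tendsto (fun k => eLpNorm (fun x => u x - φ k x) 2 volume) atTop (𝓝 0) ∧
    Tendsto (fun k => eLpNorm (fun p : E n × E n => (u p.1 - φ k p.1) - (u p.2 - φ k p.2)) 2
      (gag n s)) atTop (𝓝 0)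

/-- The constant `C_{n,s} = 4^s Γ(n/2+s) / (π^{n/2} |Γ(-s)|)`. -/
noncomputable def cst (n : ℕ) (s : ℝ) : ℝ :=
  4 ^ s * Real.Gamma ((n : ℝ) / 2 + s) / (Real.pi ^ ((n : ℝ) / 2) * |Real.Gamma (-s)|)

/-- The bilinear form `B_γ`. -/
noncomputable def B {n : ℕ} (s : ℝ) (γ u φ : E n → ℝ) : ℝ :=
  cst n s / 2 * ∫ p : E n × E n,
    ker n s p * (Real.sqrt (γ p.1) * Real.sqrt (γ p.2)) * ((u p.1 - u p.2) * (φ p.1 - φ p.2))

/-- `γ ∈ L^∞` is uniformly elliptic. -/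
def UnifElliptic {n : ℕ} (γ : E n → ℝ) : Prop :=
  AEStronglyMeasurable γ volume ∧ ∃ c₀ c₁ : ℝ, 0 < c₀ ∧ ∀ᵐ x ∂volume, c₀ ≤ γ x ∧ γ x ≤ c₁

/-- `Ω` is bounded in one direction. -/
def BddInOneDirection {n : ℕ} (Ω : Set (E n)) : Prop :=
  ∃ e : E n, ‖e‖ = 1 ∧ ∃ a b : ℝ, ∀ x ∈ Ω, a < inner ℝ x e ∧ inner ℝ x e < b

/-- `u` is a weak solution with exterior value `f`: `u ∈ H^s`, `u - f ∈ H̃^s(Ω)` and
`B_γ(u, φ) = 0` for all `φ ∈ C_c^∞(Ω)`. -/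
def IsWeakSol {n : ℕ} (s : ℝ) (γ : E n → ℝ) (Ω : Set (E n)) (f u : E n → ℝ) : Prop :=
  MemHs s u ∧ MemHtilde s Ω (fun x => u x - f x) ∧ ∀ φ, IsTest Ω φ → B s γ u φ = 0

/-- The exterior Dirichlet-to-Neumann map `⟨Λ_γ f, g⟩ = B_γ(u_f, g)`, where `u_f` is the (a.e.
unique, see `result`) weak solution with exterior value `f`. -/
noncomputable def DN {n : ℕ} (s : ℝ) (γ : E n → ℝ) (Ω : Set (E n)) (f g : E n → ℝ) : ℝ :=
  B s γ (Classical.epsilon (IsWeakSol s γ Ω f)) g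

end Pool.Agent.Helper32.Cf
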