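import Pool.Agent.Helper32.CfFar

namespace Pool.Agent.Helper32.Cf

open MeasureTheory Filter Topology Set Metric
open scoped ContDiff ENNReal InnerProductSpace

variable {n : ℕ} {s : ℝ}

lemma MemHs.sub {u v : E n → ℝ} (hu : MemHs s u) (hv : MemHs s v) : MemHs s (u - v) := by
  refine ⟨hu.1.sub hv.1, ?_⟩
  have h := hu.2.sub hv.2
  have h1 : (fun p : E n × E n => (u - v) p.1 - (u - v) p.2) =
      (fun p : E n × E n => u p.1 - u p.2) - (fun p : E n × E n => v p.1 - v p.2) := by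
    funext p; simp only [Pi.sub_apply]; ring
  rw [h1]; exact h

lemma MemHs.add {u v : E n → ℝ} (hu : MemHs s u) (hv : MemHs s v) : MemHs s (u + v) := by
  refine ⟨hu.1.add hv.1, ?_⟩
  have h := hu.2.add hv.2
  have h1 : (fun p : E n × E n => (u + v) p.1 - (u + v) p.2) =
      (fun p : E n × E n => u p.1 - u p.2) + (fun p : E n × E n => v p.1 - v p.2) := by
    funext p; simp only [Pi.add_apply]; ring
  rw [h1]; exact h

lemma MemHtilde.sub {Ω : Set (E n)} {u v : E n → ℝ} (hu : MemHtilde s Ω u)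
    (hv : MemHtilde s Ω v) : MemHtilde s Ω (u - v) := by
  obtain ⟨hu0, φ, hφ, h1, h2⟩ := hu
  obtain ⟨hv0, ψ, hψ, h3, h4⟩ := hv
  refine ⟨hu0.sub hv0, fun k => φ k - ψ k, fun k => (hφ k).sub (hψ k), ?_, ?_⟩
  · have h5 := h1.add h3
    rw [add_zero] at h5
    refine tendsto_of_tendsto_of_tendsto_of_le_of_le tendsto_const_nhds h5 (fun _ => zero_le)
      fun k => ?_
    have h6 : (fun x => (u - v) x - (φ k - ψ k) x) = (fun x => u x - φ k x) -
        (fun x => v x - ψ k x) := by funext x; simp only [Pi.sub_apply]; ring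
    rw [h6]
    exact eLpNorm_sub_le (hu0.1.1.sub (hφ k).1.continuous.aestronglyMeasurable)
      (hv0.1.1.sub (hψ k).1.continuous.aestronglyMeasurable) (by norm_num)
  · have h5 := h2.add h4
    rw [add_zero] at h5
    refine tendsto_of_tendsto_of_tendsto_of_le_of_le tendsto_const_nhds h5 (fun _ => zero_le)
      fun k => ?_
    have h6 : (fun p : E n × E n => ((u - v) p.1 - (φ k - ψ k) p.1) -
        ((u - v) p.2 - (φ k - ψ k) p.2)) =
        (fun p : E n × E n => (u p.1 - φ k p.1) - (u p.2 - φ k p.2)) -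
        (fun p : E n × E n => (v p.1 - ψ k p.1) - (v p.2 - ψ k p.2)) := by
      funext p; simp only [Pi.sub_apply]; ring
    rw [h6]
    have hm : ∀ (w χ : E n → ℝ), MemHs s w → Continuous χ → AEStronglyMeasurable
        (fun p : E n × E n => (w p.1 - χ p.1) - (w p.2 - χ p.2)) (gag n s) := by
      intro w χ hw hχ
      have h7 : (fun p : E n × E n => (w p.1 - χ p.1) - (w p.2 - χ p.2)) =
          (fun p : E n × E n => w p.1 - w p.2) - D χ := by
        funext p; simp only [Pi.sub_apply, D]; ring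
      rw [h7]
      exact hw.2.1.sub (D_meas hχ.measurable).aestronglyMeasurable
    exact eLpNorm_sub_le (hm u _ hu0 (hφ k).1.continuous) (hm v _ hv0 (hψ k).1.continuous)
      (by norm_num)

section

variable (hn : 0 < n) (hs0 : 0 < s) (hs1 : s < 1) {Ω : Set (E n)}
  (hΩ : BddInOneDirection Ω) {c : ℝ} {g : E n → ℝ} {a₀ a₁ : ℝ} (G : Good c g a₀ a₁)

include hn hs0 hs1 G

/-- extension of orthogonality from test functions to the closure -/
lemma orth_ext {F : E n × E n → ℝ} (hF : MemLp F 2 (mg s c g))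
    (h : ∀ φ, IsTest Ω φ → ∫ p, F p * D φ p ∂(mg s c g) = 0) {v : E n → ℝ}
    (hv : MemHtilde s Ω v) : ∫ p, F p * D v p ∂(mg s c g) = 0 := by
  obtain ⟨hv0, φ, hφ, h1, h2⟩ := hv
  have h3 := (tendsto_pair G (G.memLp_iff.2 hv0.2) hφ
    (fun k => G.memLp_iff.2 (test_memHs hn hs0 hs1 (hφ k).1 (hφ k).2.1).2) h2 hF).1
  refine tendsto_nhds_unique h3 ?_
  simp only [h _ (hφ _)]
  exact tendsto_const_nhds

include hΩ

theorem uniqueness {F : E n × E n → ℝ} (_hF : MemLp F 2 (mg s c g)) {w : E n → ℝ}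
    (hw : MemHtilde s Ω w)
    (h : ∀ φ, IsTest Ω φ → ∫ p, D w p * D φ p ∂(mg s c g) = 0) : w =ᵐ[volume] 0 := by
  obtain ⟨Cp, hCp, -, hP⟩ := poincare hs0 hΩ
  obtain ⟨K, hK, hKe⟩ := G.norm_equiv (s := s)
  have hDw : MemLp (D w) 2 (mg s c g) := G.memLp_iff.2 hw.1.2
  have h1 := orth_ext hn hs0 hs1 G hDw h hw
  rw [sq_int hDw] at h1
  have h2 : (eLpNorm (D w) 2 (mg s c g)).toReal = 0 := by
    exact pow_eq_zero_iff (two_ne_zero) |>.1 h1
  have h3 : eLpNorm (D w) 2 (mg s c g) = 0 := by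
    rcases (ENNReal.toReal_eq_zero_iff _).1 h2 with h | h
    · exact h
    · exact absurd h hDw.2.ne
  have h4 : eLpNorm (D w) 2 (gag n s) = 0 := by
    have := (hKe (D w)).2
    rw [h3, mul_zero] at this
    exact le_antisymm this zero_le
  have h5 : eLpNorm w 2 volume = 0 := by
    have := hP w hw
    rw [h4, mul_zero] at this
    exact le_antisymm this zero_le
  exact (eLpNorm_eq_zero_iff hw.1.1.1 (by norm_num)).1 h5

theorem energy (x₀ : E n) (r : ℝ) (hr : 0 < r) (hΩr : Disjoint Ω (ball x₀ (2 * r))) :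
    ∃ M : ℝ, 0 ≤ M ∧ ∀ f : E n → ℝ, ContDiff ℝ ∞ f → HasCompactSupport f →
      (∀ x, x ∉ closedBall x₀ r → f x = 0) → ∀ v, MemHtilde s Ω v →
      (∀ φ, IsTest Ω φ → ∫ p, (D f p + D v p) * D φ p ∂(mg s c g) = 0) →
      |∫ p, (D f p + D v p) * D f p ∂(mg s c g) - ∫ p, D f p * D f p ∂(mg s c g)| ≤
        M * (∫ x, |f x|) ^ 2 := by
  obtain ⟨Cp, hCp, hPt, hP⟩ := poincare hs0 hΩ
  obtain ⟨K, hK, hKe⟩ := G.norm_equiv (s := s)
  obtain ⟨M, hM, hfar⟩ := far_test hn hs0 hs1 G x₀ r hr hΩr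
  set μ := mg s c g with hμ
  refine ⟨(M * (Cp * K).toReal) ^ 2, by positivity, ?_⟩
  intro f hf hfc hf0 v hv horth
  have hDf : MemLp (D f) 2 μ := G.memLp_iff.2 (test_memHs hn hs0 hs1 hf hfc).2
  have hDv : MemLp (D v) 2 μ := G.memLp_iff.2 hv.1.2
  have hI : 0 ≤ ∫ x, |f x| := integral_nonneg fun _ => abs_nonneg _
  have h1 : ∫ p, (D f p + D v p) * D v p ∂μ = 0 :=
    orth_ext hn hs0 hs1 G (hDf.add hDv) horth hv
  have i1 : Integrable (fun p => D f p * D v p) μ := hDf.integrable_mul hDv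
  have i2 : Integrable (fun p => D v p * D v p) μ := hDv.integrable_mul hDv
  have i3 : Integrable (fun p => D f p * D f p) μ := hDf.integrable_mul hDf
  have h2 : ∫ p, (D f p + D v p) * D v p ∂μ = ∫ p, D f p * D v p ∂μ + ∫ p, D v p * D v p ∂μ := by
    rw [← integral_add i1 i2]
    refine integral_congr_ae (Eventually.of_forall fun p => ?_)
    simp only; ring
  have h3 : ∫ p, (D f p + D v p) * D f p ∂μ = ∫ p, D f p * D f p ∂μ + ∫ p, D f p * D v p ∂μ := by
    rw [← integral_add i3 i1]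
    refine integral_congr_ae (Eventually.of_forall fun p => ?_)
    simp only; ring
  set N := (eLpNorm (D v) 2 μ).toReal with hN
  have hN0 : 0 ≤ N := ENNReal.toReal_nonneg
  have h4 : ∫ p, D v p * D v p ∂μ = N ^ 2 := sq_int hDv
  have h5 : ∫ p, D f p * D v p ∂μ = - N ^ 2 := by rw [h1, h4] at h2; linarith
  -- far estimate for v
  have h6 : |∫ p, D f p * D v p ∂μ| ≤ M * (Cp * K).toReal * (∫ x, |f x|) * N := by
    obtain ⟨hv0, φ, hφ, ha, hb⟩ := hv
    have hDφ : ∀ k, MemLp (D (φ k)) 2 μ := fun k =>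
      G.memLp_iff.2 (test_memHs hn hs0 hs1 (hφ k).1 (hφ k).2.1).2
    obtain ⟨ht1, ht2⟩ := tendsto_pair G hDv hφ hDφ hb hDf
    have h7 : ∀ k, |∫ p, D f p * D (φ k) p ∂μ| ≤
        M * (Cp * K).toReal * (∫ x, |f x|) * (eLpNorm (D (φ k)) 2 μ).toReal := by
      intro k
      have h8 := hfar f hf.continuous hfc hf0 (φ k) (hφ k)
      have h9 : eLpNorm (φ k) 2 volume ≤ (Cp * K) * eLpNorm (D (φ k)) 2 μ := by
        rw [mul_assoc]
        refine (hPt (φ k) (hφ k)).trans ?_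
        gcongr
        exact (hKe _).2
      have h10 : (eLpNorm (φ k) 2 volume).toReal ≤
          (Cp * K).toReal * (eLpNorm (D (φ k)) 2 μ).toReal := by
        rw [← ENNReal.toReal_mul]
        exact ENNReal.toReal_mono (ENNReal.mul_ne_top (ENNReal.mul_ne_top hCp hK) (hDφ k).2.ne) h9
      refine h8.trans ?_
      calc M * (∫ x, |f x|) * (eLpNorm (φ k) 2 volume).toReal
          ≤ M * (∫ x, |f x|) * ((Cp * K).toReal * (eLpNorm (D (φ k)) 2 μ).toReal) := by gcongr
        _ = _ := by ring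
    exact le_of_tendsto_of_tendsto ht1.abs (ht2.const_mul _) (Eventually.of_forall h7)
  rw [h3, h5]
  have h7 : N ^ 2 ≤ M * (Cp * K).toReal * (∫ x, |f x|) * N := by
    rw [h5, abs_neg, abs_of_nonneg (by positivity)] at h6
    exact h6
  have h8 : N ≤ M * (Cp * K).toReal * (∫ x, |f x|) := by
    rcases hN0.eq_or_lt with h | h
    · rw [← h]; positivity
    · rw [sq] at h7
      exact le_of_mul_le_mul_right h7 h
  have h9 : N ^ 2 ≤ (M * (Cp * K).toReal * (∫ x, |f x|)) ^ 2 := by gcongr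
  rw [show ∫ p, D f p * D f p ∂μ + -N ^ 2 - ∫ p, D f p * D f p ∂μ = -N ^ 2 by ring, abs_neg,
    abs_of_nonneg (by positivity)]
  calc N ^ 2 ≤ (M * (Cp * K).toReal * (∫ x, |f x|)) ^ 2 := h9
    _ = _ := by ring

end

end Pool.Agent.Helper32.Cf
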