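import Pool.Agent.Helper32.CfSol

namespace Pool.Agent.Helper32.Cf

open MeasureTheory Filter Topology Set Metric
open scoped ContDiff ENNReal InnerProductSpace

variable {n : ℕ} {s : ℝ}

lemma cs {α : Type*} [MeasurableSpace α] {μ : Measure α} {F H : α → ℝ} (hF : MemLp F 2 μ)
    (hH : MemLp H 2 μ) :
    |∫ a, F a * H a ∂μ| ≤ (eLpNorm F 2 μ).toReal * (eLpNorm H 2 μ).toReal := by
  have h1 := abs_real_inner_le_norm (hF.toLp F) (hH.toLp H)
  rw [L2.inner_def, Lp.norm_toLp, Lp.norm_toLp] at h1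
  refine le_trans (le_of_eq ?_) h1
  congr 1
  refine integral_congr_ae ?_
  filter_upwards [hF.coeFn_toLp, hH.coeFn_toLp] with a h2 h3
  rw [h2, h3]; simp [mul_comm]

lemma sq_int {α : Type*} [MeasurableSpace α] {μ : Measure α} {F : α → ℝ} (hF : MemLp F 2 μ) :
    ∫ a, F a * F a ∂μ = (eLpNorm F 2 μ).toReal ^ 2 := by
  have h1 := real_inner_self_eq_norm_sq (hF.toLp F)
  rw [L2.inner_def, Lp.norm_toLp] at h1
  rw [← h1]
  refine integral_congr_ae ?_
  filter_upwards [hF.coeFn_toLp] with a h2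
  rw [h2]; simp [sq]

/-- passing from test functions to the closure in a bilinear identity -/
lemma tendsto_pair {Ω : Set (E n)} {c : ℝ} {g : E n → ℝ} {a₀ a₁ : ℝ} (G : Good c g a₀ a₁)
    {v : E n → ℝ} (hDv : MemLp (D v) 2 (mg s c g)) {φ : ℕ → E n → ℝ}
    (hφ : ∀ k, IsTest Ω (φ k)) (hDφ : ∀ k, MemLp (D (φ k)) 2 (mg s c g))
    (hlim : Tendsto (fun k => eLpNorm (fun p : E n × E n =>
      (v p.1 - φ k p.1) - (v p.2 - φ k p.2)) 2 (gag n s)) atTop (𝓝 0))
    {F : E n × E n → ℝ} (hF : MemLp F 2 (mg s c g)) :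
    Tendsto (fun k => ∫ p, F p * D (φ k) p ∂(mg s c g)) atTop
      (𝓝 (∫ p, F p * D v p ∂(mg s c g))) ∧
    Tendsto (fun k => (eLpNorm (D (φ k)) 2 (mg s c g)).toReal) atTop
      (𝓝 ((eLpNorm (D v) 2 (mg s c g)).toReal)) := by
  obtain ⟨K, hK, hKe⟩ := G.norm_equiv (s := s)
  set μ := mg s c g with hμ
  have he : ∀ k, eLpNorm (D v - D (φ k)) 2 μ ≤ K * eLpNorm (fun p : E n × E n =>
      (v p.1 - φ k p.1) - (v p.2 - φ k p.2)) 2 (gag n s) := by
    intro k
    have h1 : D v - D (φ k) = (fun p : E n × E n =>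
      (v p.1 - φ k p.1) - (v p.2 - φ k p.2)) := by
      funext p; simp only [D, Pi.sub_apply]; ring
    rw [h1]
    exact (hKe _).1
  have h0 : Tendsto (fun k => eLpNorm (D v - D (φ k)) 2 μ) atTop (𝓝 0) := by
    have h2 := ENNReal.Tendsto.const_mul (a := K) hlim (Or.inr hK)
    rw [mul_zero] at h2
    exact tendsto_of_tendsto_of_tendsto_of_le_of_le tendsto_const_nhds h2 (fun _ => zero_le) he
  have h1 : Tendsto (fun k => (eLpNorm (D v - D (φ k)) 2 μ).toReal) atTop (𝓝 0) := by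
    have := (ENNReal.tendsto_toReal ENNReal.zero_ne_top).comp h0
    simpa [Function.comp_def] using this
  constructor
  · rw [tendsto_iff_norm_sub_tendsto_zero]
    have h2 : Tendsto (fun k => (eLpNorm F 2 μ).toReal * (eLpNorm (D v - D (φ k)) 2 μ).toReal)
        atTop (𝓝 0) := by
      have := h1.const_mul (eLpNorm F 2 μ).toReal
      simpa using this
    refine squeeze_zero (fun _ => norm_nonneg _) (fun k => ?_) h2
    have h3 : Integrable (fun p => F p * D v p) μ := hF.integrable_mul hDv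
    have h4 : Integrable (fun p => F p * D (φ k) p) μ := hF.integrable_mul (hDφ k)
    rw [← integral_sub h4 h3, Real.norm_eq_abs]
    have h5 := cs hF (hDv.sub (hDφ k))
    refine le_trans (le_of_eq ?_) h5
    rw [← abs_neg, ← integral_neg]
    congr 2
    funext p
    simp only [Pi.sub_apply]; ring
  · have h3 : ∀ k, |(eLpNorm (D (φ k)) 2 μ).toReal - (eLpNorm (D v) 2 μ).toReal| ≤
        (eLpNorm (D v - D (φ k)) 2 μ).toReal := by
      intro k
      have h4 := abs_norm_sub_norm_le ((hDφ k).toLp (D (φ k))) (hDv.toLp (D v))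
      rw [Lp.norm_toLp, Lp.norm_toLp, norm_sub_rev, ← MemLp.toLp_sub, Lp.norm_toLp] at h4
      exact h4
    rw [tendsto_iff_norm_sub_tendsto_zero]
    exact squeeze_zero (fun _ => norm_nonneg _) h3 h1

/-- the far kernel bound -/
lemma ker_far {x₀ x y : E n} {r : ℝ} (hs0 : 0 < s) (hr : 0 < r) (hx : x ∈ closedBall x₀ r)
    (hy : y ∉ ball x₀ (2 * r)) :
    ker n s (x, y) ≤ (r / (1 + 2 * r)) ^ (-((n : ℝ) + 2 * s)) *
      (1 + ‖y - x₀‖) ^ (-((n : ℝ) + 2 * s)) := by
  rw [mem_closedBall, dist_eq_norm] at hx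
  rw [mem_ball, dist_eq_norm, not_lt] at hy
  rw [← Real.mul_rpow (by positivity) (by positivity)]
  unfold ker
  have hn : (0:ℝ) ≤ n := n.cast_nonneg
  refine Real.rpow_le_rpow_of_nonpos (by positivity) ?_ (by linarith)
  have h1 : ‖y - x₀‖ - r ≤ ‖x - y‖ := by
    have := norm_sub_norm_le (y - x₀) (x - x₀)
    have h2 : y - x₀ - (x - x₀) = y - x := by abel
    rw [h2, norm_sub_rev y x] at this
    linarith
  have h3 : r / (1 + 2 * r) * (1 + ‖y - x₀‖) ≤ ‖y - x₀‖ / 2 := by
    rw [div_mul_eq_mul_div, div_le_div_iff₀ (by positivity) (by positivity)]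
    nlinarith
  simp only
  linarith

theorem far_test (hn : 0 < n) (hs0 : 0 < s) (hs1 : s < 1) {Ω : Set (E n)} {c : ℝ} {g : E n → ℝ}
    {a₀ a₁ : ℝ} (G : Good c g a₀ a₁) (x₀ : E n) (r : ℝ) (hr : 0 < r)
    (hΩr : Disjoint Ω (ball x₀ (2 * r))) :
    ∃ M : ℝ, 0 ≤ M ∧ ∀ f : E n → ℝ, Continuous f → HasCompactSupport f →
      (∀ x, x ∉ closedBall x₀ r → f x = 0) → ∀ φ, IsTest Ω φ →
      |∫ p, D f p * D φ p ∂(mg s c g)| ≤ M * (∫ x, |f x|) * (eLpNorm φ 2 volume).toReal := by
  set ρ : ℝ := (n : ℝ) + 2 * s with hρ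
  have hnn : (0:ℝ) ≤ n := n.cast_nonneg
  set q : E n → ℝ := fun y => (1 + ‖y - x₀‖) ^ (-ρ) with hq
  have hqm : Measurable q := by
    rw [hq]
    exact (by fun_prop : Measurable fun y : E n => 1 + ‖y - x₀‖).pow_const _
  have hqL : MemLp q 2 volume := by
    rw [memLp_two_iff_integrable_sq hqm.aestronglyMeasurable]
    have h1 : Integrable (fun x : E n => (1 + ‖x‖) ^ (-(2 * ρ))) volume :=
      integrable_one_add_norm (by simp; rw [hρ]; linarith)
    have h2 := h1.comp_sub_right x₀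
    refine h2.congr (Eventually.of_forall fun y => ?_)
    simp only [hq]
    rw [← Real.rpow_natCast, ← Real.rpow_mul (by positivity)]
    congr 1; push_cast; ring
  set θ : ℝ := (r / (1 + 2 * r)) ^ (-ρ) with hθ
  have hθ0 : 0 ≤ θ := by rw [hθ]; positivity
  have hc := G.c_pos
  have ha1 := G.a1_pos
  refine ⟨2 * (c * a₁ ^ 2) * θ * (eLpNorm q 2 volume).toReal, by positivity, ?_⟩
  intro f hf hfc hf0 φ hφ
  have hφc := hφ.1.continuous
  have hφL : MemLp φ 2 volume := hφc.memLp_of_hasCompactSupport hφ.2.1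
  have hφ0 : ∀ y, y ∈ ball x₀ (2 * r) → φ y = 0 := by
    intro y hy
    by_contra hne
    exact (Set.disjoint_left.1 hΩr) (hφ.2.2 (subset_tsupport _ hne)) hy
  have hfi : Integrable f volume := hf.integrable_of_hasCompactSupport hfc
  have hqφ : Integrable (fun y => q y * |φ y|) volume := hqL.integrable_mul hφL.abs
  -- the majorant
  set P : E n × E n → ℝ := fun p => |f p.1| * (q p.2 * |φ p.2|) with hP
  have hPi : Integrable P (volume : Measure (E n × E n)) := hfi.abs.mul_prod hqφ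
  have hPs : Integrable (fun p : E n × E n => P p.swap) (volume : Measure (E n × E n)) := hPi.swap
  have hPint : ∫ p, P p = (∫ x, |f x|) * ∫ y, q y * |φ y| := by
    rw [hP, Measure.volume_eq_prod]
    exact integral_prod_mul (fun x => |f x|) (fun y => q y * |φ y|)
  have hPsint : ∫ p : E n × E n, P p.swap = ∫ p, P p := by
    rw [Measure.volume_eq_prod]
    exact integral_prod_swap P
  have hpt : ∀ x y, ker n s (x, y) * (|f x| * |φ y|) ≤ θ * P (x, y) := by
    intro x y
    by_cases hx : x ∈ closedBall x₀ r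
    · by_cases hy : y ∈ ball x₀ (2 * r)
      · rw [hφ0 y hy, hP]; simp [hφ0 y hy]
      · have h1 := ker_far (n := n) hs0 hr hx hy
        rw [← hρ, ← hθ] at h1
        calc ker n s (x, y) * (|f x| * |φ y|) ≤ (θ * (1 + ‖y - x₀‖) ^ (-ρ)) * (|f x| * |φ y|) := by
              gcongr
          _ = θ * P (x, y) := by rw [hP, hq]; simp only; ring
    · rw [hf0 x hx, hP]; simp [hf0 x hx]
  have hff : ∀ x, f x * φ x = 0 := by
    intro x
    by_cases hx : x ∈ closedBall x₀ r
    · have : x ∈ ball x₀ (2 * r) := by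
        rw [mem_closedBall] at hx; rw [mem_ball]; linarith
      rw [hφ0 x this, mul_zero]
    · rw [hf0 x hx, zero_mul]
  rw [G.integral_mg]
  have hbound : ∀ p : E n × E n, ‖ker n s p * (wt c g p * (D f p * D φ p))‖ ≤
      (c * a₁ ^ 2) * θ * (P p + P p.swap) := by
    rintro ⟨x, y⟩
    have hk := ker_nonneg (s := s) (x, y)
    have hw := G.wt_pos (x, y)
    have hwh := G.wt_hi (x, y)
    have h1 : D f (x, y) * D φ (x, y) = -(f x * φ y + f y * φ x) := by
      simp only [D]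
      have h2 := hff x
      have h3 := hff y
      linear_combination h2 + h3
    rw [h1, norm_mul, norm_mul, norm_neg, Real.norm_of_nonneg hk, Real.norm_of_nonneg hw.le]
    have h2 : ‖f x * φ y + f y * φ x‖ ≤ |f x| * |φ y| + |f y| * |φ x| := by
      refine (norm_add_le _ _).trans ?_
      rw [norm_mul, norm_mul]; rfl
    have h3 := hpt x y
    have h4 := hpt y x
    rw [ker_swap y x] at h4
    calc ker n s (x, y) * (wt c g (x, y) * ‖f x * φ y + f y * φ x‖)
        ≤ ker n s (x, y) * ((c * a₁ ^ 2) * (|f x| * |φ y| + |f y| * |φ x|)) := by gcongr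
      _ = (c * a₁ ^ 2) * (ker n s (x, y) * (|f x| * |φ y|) + ker n s (x, y) * (|f y| * |φ x|)) := by
          ring
      _ ≤ (c * a₁ ^ 2) * (θ * P (x, y) + θ * P (y, x)) := by gcongr
      _ = (c * a₁ ^ 2) * θ * (P (x, y) + P (x, y).swap) := by simp only [Prod.swap_prod_mk]; ring
  have h1 : |∫ p, ker n s p * (wt c g p * (D f p * D φ p))| ≤
      ∫ p, (c * a₁ ^ 2) * θ * (P p + P p.swap) := by
    rw [← Real.norm_eq_abs]
    exact norm_integral_le_of_norm_le ((hPi.add hPs).const_mul _) (Eventually.of_forall hbound)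
  refine h1.trans ?_
  rw [integral_const_mul, integral_add hPi hPs, hPsint, hPint]
  have h2 : ∫ y, q y * |φ y| ≤ (eLpNorm q 2 volume).toReal * (eLpNorm φ 2 volume).toReal := by
    have habs : MemLp (fun y => |φ y|) 2 volume := hφL.abs
    have h3 := cs hqL habs
    have h4 : eLpNorm (fun y => |φ y|) 2 volume = eLpNorm φ 2 volume := eLpNorm_norm φ
    rw [h4] at h3
    exact (le_abs_self _).trans h3
  have h3 : 0 ≤ ∫ x, |f x| := integral_nonneg fun _ => abs_nonneg _
  generalize (∫ y, q y * |φ y|) = I at h2 ⊢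
  generalize (∫ x, |f x|) = J at h3 ⊢
  generalize (eLpNorm q 2 volume).toReal = A at h2 ⊢
  generalize (eLpNorm φ 2 volume).toReal = B' at h2 ⊢
  calc c * a₁ ^ 2 * θ * (J * I + J * I)
      = 2 * (c * a₁ ^ 2) * θ * J * I := by ring
    _ ≤ 2 * (c * a₁ ^ 2) * θ * J * (A * B') := by gcongr
    _ = _ := by ring

end Pool.Agent.Helper32.Cf
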