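import Pool.Agent.Helper32.CfConc

namespace Pool.Agent.Helper32.Cf

open MeasureTheory Filter Topology Set Metric
open scoped ContDiff ENNReal InnerProductSpace Pointwise

variable {n : ℕ} {s : ℝ}

lemma cst_pos (hs0 : 0 < s) (hs1 : s < 1) : 0 < cst n s := by
  unfold cst
  have hn : (0:ℝ) ≤ n := n.cast_nonneg
  have h1 : 0 < Real.Gamma ((n : ℝ) / 2 + s) := Real.Gamma_pos_of_pos (by positivity)
  have h2 : Real.Gamma (-s) ≠ 0 := by
    apply Real.Gamma_ne_zero
    intro m hm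
    have h3 : s = m := by linarith
    rcases m with _ | m
    · rw [h3] at hs0; simp at hs0
    · rw [h3] at hs1; push_cast at hs1
      have : (0:ℝ) ≤ m := m.cast_nonneg
      linarith
  have h3 : 0 < |Real.Gamma (-s)| := abs_pos.2 h2
  positivity

/-- a good weight representing `sqrt γ` -/
lemma exists_good (hs0 : 0 < s) (hs1 : s < 1) {γ : E n → ℝ} (hγ : UnifElliptic γ) :
    ∃ (g : E n → ℝ) (a₀ a₁ : ℝ), Good (cst n s / 2) g a₀ a₁ ∧
      (∀ᵐ x ∂volume, g x = Real.sqrt (γ x)) := by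
  obtain ⟨hm, c₀, c₁, hc, hb⟩ := hγ
  refine ⟨fun x => max (Real.sqrt c₀) (min (Real.sqrt c₁) (Real.sqrt (hm.mk γ x))),
    Real.sqrt c₀, max (Real.sqrt c₀) (Real.sqrt c₁), ⟨?_, ?_, ?_, ?_, ?_⟩, ?_⟩
  · have := cst_pos (n := n) hs0 hs1; linarith
  · have h1 : Measurable (hm.mk γ) := hm.stronglyMeasurable_mk.measurable
    exact measurable_const.max (measurable_const.min h1.sqrt)
  · exact Real.sqrt_pos.2 hc
  · intro x; exact le_max_left _ _
  · intro x; exact max_le_max le_rfl (min_le_left _ _)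
  · filter_upwards [hm.ae_eq_mk, hb] with x h1 h2
    rw [← h1]
    rw [min_eq_right (Real.sqrt_le_sqrt h2.2), max_eq_right (Real.sqrt_le_sqrt h2.1)]

lemma B_eq {γ g : E n → ℝ} {a₀ a₁ : ℝ} (G : Good (cst n s / 2) g a₀ a₁)
    (hg : ∀ᵐ x ∂volume, g x = Real.sqrt (γ x)) (u φ : E n → ℝ) :
    B s γ u φ = ∫ p, D u p * D φ p ∂(mg s (cst n s / 2) g) := by
  rw [G.integral_mg]
  unfold B
  rw [← integral_const_mul]
  refine integral_congr_ae ?_
  have h1 : ∀ᵐ p ∂(volume : Measure (E n × E n)), g p.1 = Real.sqrt (γ p.1) :=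
    Measure.quasiMeasurePreserving_fst.ae hg
  have h2 : ∀ᵐ p ∂(volume : Measure (E n × E n)), g p.2 = Real.sqrt (γ p.2) :=
    Measure.quasiMeasurePreserving_snd.ae hg
  filter_upwards [h1, h2] with p h3 h4
  simp only [wt, D, h3, h4]
  ring

/-- Well-posedness of the exterior value problem. -/
theorem wellposed (hn : 0 < n) (hs0 : 0 < s) (hs1 : s < 1) {Ω : Set (E n)}
    (hΩ : BddInOneDirection Ω) {γ : E n → ℝ} (hγ : UnifElliptic γ) {U : Set (E n)} {f : E n → ℝ}
    (hf : IsTest U f) :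
    ∃ u, IsWeakSol s γ Ω f u ∧ ∀ u', IsWeakSol s γ Ω f u' → u' =ᵐ[volume] u := by
  obtain ⟨g, a₀, a₁, G, hg⟩ := exists_good hs0 hs1 hγ
  have hfH := test_memHs (s := s) hn hs0 hs1 hf.1 hf.2.1
  have hDf : MemLp (D f) 2 (mg s (cst n s / 2) g) := G.memLp_iff.2 hfH.2
  obtain ⟨v, hv, hvo⟩ := exists_v hn hs0 hs1 hΩ G (D f) hDf
  have hex : IsWeakSol s γ Ω f (f + v) := by
    refine ⟨hfH.add hv.1, ?_, fun φ hφ => ?_⟩
    · have : (fun x => (f + v) x - f x) = v := by funext x; simp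
      rw [this]; exact hv
    · rw [B_eq G hg, D_add]
      exact hvo φ hφ
  refine ⟨f + v, hex, fun u' hu' => ?_⟩
  have hw : MemHtilde s Ω (u' - (f + v)) := by
    have := hu'.2.1.sub hex.2.1
    convert this using 1
    funext x; simp only [Pi.sub_apply]; ring
  have hDu' : MemLp (D u') 2 (mg s (cst n s / 2) g) := G.memLp_iff.2 hu'.1.2
  have hDu : MemLp (D (f + v)) 2 (mg s (cst n s / 2) g) := G.memLp_iff.2 hex.1.2
  have h0 : u' - (f + v) =ᵐ[volume] 0 := by
    refine uniqueness hn hs0 hs1 hΩ G hDf hw fun φ hφ => ?_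
    have hDφ : MemLp (D φ) 2 (mg s (cst n s / 2) g) :=
      G.memLp_iff.2 (test_memHs hn hs0 hs1 hφ.1 hφ.2.1).2
    have h1 := hu'.2.2 φ hφ
    have h2 := hex.2.2 φ hφ
    rw [B_eq G hg] at h1 h2
    have i1 : Integrable (fun p => D u' p * D φ p) (mg s (cst n s / 2) g) :=
      hDu'.integrable_mul hDφ
    have i2 : Integrable (fun p => D (f + v) p * D φ p) (mg s (cst n s / 2) g) :=
      hDu.integrable_mul hDφ
    have h3 : ∫ p, D (u' - (f + v)) p * D φ p ∂(mg s (cst n s / 2) g) =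
        ∫ p, D u' p * D φ p ∂(mg s (cst n s / 2) g) -
          ∫ p, D (f + v) p * D φ p ∂(mg s (cst n s / 2) g) := by
      rw [← integral_sub i1 i2]
      refine integral_congr_ae (Eventually.of_forall fun p => ?_)
      rw [D_sub]; simp only [Pi.sub_apply]; ring
    rw [h3, h1, h2, sub_zero]
  filter_upwards [h0] with x hx
  have : u' x - (f + v) x = 0 := hx
  linarith

/-- The key pointwise limit: the DN map at concentrating bumps recovers `g(x₀)²`. -/
theorem key_limit (hn : 0 < n) (hs0 : 0 < s) (hs1 : s < 1) {Ω : Set (E n)}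
    (hΩ : BddInOneDirection Ω) {γ : E n → ℝ} (hγ : UnifElliptic γ) {g : E n → ℝ} {a₀ a₁ : ℝ}
    (G : Good (cst n s / 2) g a₀ a₁) (hg : ∀ᵐ x ∂volume, g x = Real.sqrt (γ x))
    (x₀ : E n) (r : ℝ) (hr : 0 < r) (hΩr : Disjoint Ω (ball x₀ (2 * r)))
    {φ : E n → ℝ} (hφ : ContDiff ℝ ∞ φ) (hφ0 : ∀ x, x ∉ closedBall (0 : E n) 1 → φ x = 0)
    (t : ℕ → ℝ) (ht0 : ∀ k, 0 < t k) (htr : ∀ k, t k ≤ r) (ht : Tendsto t atTop (𝓝 0))
    (hlim : ∀ᵐ x ∂(volume : Measure (E n)), Tendsto (fun k => g (x₀ + t k • x)) atTop (𝓝 (g x₀))) :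
    Tendsto (fun k => (t k) ^ (-((n : ℝ) - 2 * s)) *
      DN s γ Ω (resc φ x₀ (t k)) (resc φ x₀ (t k))) atTop
      (𝓝 (cst n s / 2 * (g x₀) ^ 2 * ∫ p : E n × E n, ker n s p * (D φ p) ^ 2)) := by
  set c := cst n s / 2 with hc
  have hφc : HasCompactSupport φ :=
    HasCompactSupport.of_support_subset_isCompact (isCompact_closedBall (0 : E n) 1) (fun x hx => by
      by_contra h
      exact hx (hφ0 x h))
  obtain ⟨M, hM, hE⟩ := energy hn hs0 hs1 hΩ G x₀ r hr hΩr
  -- the unperturbed energies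
  set J : ℕ → ℝ := fun k => ∫ p : E n × E n, ker n s p *
        (c * (g (x₀ + t k • p.1) * g (x₀ + t k • p.2)) * (D φ p * D φ p)) with hJ
  have hJlim : Tendsto J atTop (𝓝 (∫ p : E n × E n, ker n s p *
        (c * (g x₀ * g x₀) * (D φ p * D φ p)))) := by
    have hgm := G.meas
    have hφm := hφ.continuous.measurable
    have hDm := D_meas hφm
    refine tendsto_integral_of_dominated_convergence
      (fun p => (c * a₁ ^ 2) * (ker n s p * (φ p.1 - φ p.2) ^ 2)) ?_
      ((test_sq_int hn hs0 hs1 hφ hφc).const_mul _) ?_ ?_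
    · intro k
      have h1 : Measurable fun p : E n × E n => g (x₀ + t k • p.1) := hgm.comp (by fun_prop)
      have h2 : Measurable fun p : E n × E n => g (x₀ + t k • p.2) := hgm.comp (by fun_prop)
      exact ((ker_meas).mul (((h1.mul h2).const_mul c).mul (hDm.mul hDm))).aestronglyMeasurable
    · intro k
      refine Eventually.of_forall fun p => ?_
      have h1 := G.lo (x₀ + t k • p.1)
      have h2 := G.lo (x₀ + t k • p.2)
      have h3 := G.hi (x₀ + t k • p.1)
      have h4 := G.hi (x₀ + t k • p.2)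
      have h5 := G.a_pos
      have h6 := G.c_pos
      have h7 := ker_nonneg (s := s) p
      have h8 : 0 ≤ D φ p * D φ p := mul_self_nonneg _
      have h9 := G.a1_pos
      have h10 : 0 ≤ g (x₀ + t k • p.1) := by linarith
      have h11 : 0 ≤ g (x₀ + t k • p.2) := by linarith
      rw [Real.norm_of_nonneg (by positivity)]
      calc ker n s p * (c * (g (x₀ + t k • p.1) * g (x₀ + t k • p.2)) * (D φ p * D φ p))
          ≤ ker n s p * (c * (a₁ * a₁) * (D φ p * D φ p)) := by gcongr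
        _ = (c * a₁ ^ 2) * (ker n s p * (φ p.1 - φ p.2) ^ 2) := by unfold D; ring
    · have h1 : ∀ᵐ p ∂(volume : Measure (E n × E n)),
          Tendsto (fun k => g (x₀ + t k • p.1)) atTop (𝓝 (g x₀)) :=
        Measure.quasiMeasurePreserving_fst.ae hlim
      have h2 : ∀ᵐ p ∂(volume : Measure (E n × E n)),
          Tendsto (fun k => g (x₀ + t k • p.2)) atTop (𝓝 (g x₀)) :=
        Measure.quasiMeasurePreserving_snd.ae hlim
      filter_upwards [h1, h2] with p hp1 hp2
      exact (((hp1.mul hp2).const_mul c).mul_const _).const_mul _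
  have hlimit : ∫ p : E n × E n, ker n s p * (c * (g x₀ * g x₀) * (D φ p * D φ p)) =
      c * (g x₀) ^ 2 * ∫ p : E n × E n, ker n s p * (D φ p) ^ 2 := by
    rw [← integral_const_mul]
    refine integral_congr_ae (Eventually.of_forall fun p => ?_)
    simp only; ring
  rw [hlimit] at hJlim
  -- comparison
  set I1 : ℝ := ∫ x, |φ x| with hI1
  have hdiff : ∀ k, |(t k) ^ (-((n : ℝ) - 2 * s)) *
      DN s γ Ω (resc φ x₀ (t k)) (resc φ x₀ (t k)) - J k| ≤
        M * I1 ^ 2 * (t k) ^ ((n : ℝ) + 2 * s) := by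
    intro k
    set f := resc φ x₀ (t k) with hf
    have hfs : ContDiff ℝ ∞ f := resc_contDiff hφ x₀ (t k)
    have hfc : HasCompactSupport f := resc_hcs hφ0 x₀ (ht0 k)
    have hf0 : ∀ x, x ∉ closedBall x₀ r → f x = 0 := fun x hx =>
      resc_zero hφ0 x₀ (ht0 k) x (fun h => hx (closedBall_subset_closedBall (htr k) h))
    have hfT : IsTest univ f := ⟨hfs, hfc, subset_univ _⟩
    obtain ⟨u₀, hu₀, -⟩ := wellposed hn hs0 hs1 hΩ hγ hfT
    have hspec : IsWeakSol s γ Ω f (Classical.epsilon (IsWeakSol s γ Ω f)) :=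
      Classical.epsilon_spec ⟨u₀, hu₀⟩
    set u := Classical.epsilon (IsWeakSol s γ Ω f) with hu
    have hDN : DN s γ Ω f f = ∫ p, D u p * D f p ∂(mg s c g) := by
      unfold DN; rw [← hu]; exact B_eq G hg u f
    set v : E n → ℝ := fun x => u x - f x with hv
    have hDu : ∀ p, D u p = D f p + D v p := by
      intro p; simp only [D, hv]; ring
    have h1 := hE f hfs hfc hf0 v hspec.2.1 (fun φ hφ => by
      have h2 := hspec.2.2 φ hφ
      rw [B_eq G hg] at h2
      rw [← h2]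
      refine integral_congr_ae (Eventually.of_forall fun p => ?_)
      simp only [hDu])
    have h2 : ∫ p, (D f p + D v p) * D f p ∂(mg s c g) = DN s γ Ω f f := by
      rw [hDN]
      refine integral_congr_ae (Eventually.of_forall fun p => ?_)
      simp only [hDu]
    rw [h2] at h1
    have h3 : ∫ p, D f p * D f p ∂(mg s c g) = (t k) ^ ((n : ℝ) - 2 * s) * J k :=
      scaling c G φ x₀ (ht0 k)
    rw [h3, resc_int x₀ (ht0 k), ← hI1] at h1
    have hpos : 0 < (t k) ^ (-((n : ℝ) - 2 * s)) := Real.rpow_pos_of_pos (ht0 k) _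
    have h4 : (t k) ^ (-((n : ℝ) - 2 * s)) * DN s γ Ω f f - J k =
        (t k) ^ (-((n : ℝ) - 2 * s)) * (DN s γ Ω f f - (t k) ^ ((n : ℝ) - 2 * s) * J k) := by
      have h5 : (t k) ^ (-((n : ℝ) - 2 * s)) * (t k) ^ ((n : ℝ) - 2 * s) = 1 := by
        rw [← Real.rpow_add (ht0 k)]; simp
      linear_combination (J k) * h5
    rw [h4, abs_mul, abs_of_pos hpos]
    calc (t k) ^ (-((n : ℝ) - 2 * s)) * |DN s γ Ω f f - (t k) ^ ((n : ℝ) - 2 * s) * J k|
        ≤ (t k) ^ (-((n : ℝ) - 2 * s)) * (M * ((t k) ^ n * I1) ^ 2) := by gcongr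
      _ = M * I1 ^ 2 * ((t k) ^ (-((n : ℝ) - 2 * s)) * (t k) ^ (n + n)) := by
          rw [pow_add]; ring
      _ = M * I1 ^ 2 * (t k) ^ ((n : ℝ) + 2 * s) := by
          rw [← Real.rpow_natCast (t k) (n + n), ← Real.rpow_add (ht0 k)]
          congr 2
          push_cast; ring
  have herr : Tendsto (fun k => M * I1 ^ 2 * (t k) ^ ((n : ℝ) + 2 * s)) atTop (𝓝 0) := by
    have hexp : 0 < (n : ℝ) + 2 * s := by
      have : (0:ℝ) ≤ n := n.cast_nonneg
      linarith
    have h1 : Tendsto (fun k => (t k) ^ ((n : ℝ) + 2 * s)) atTop (𝓝 (0 ^ ((n : ℝ) + 2 * s))) :=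
      ht.rpow_const (Or.inr hexp.le)
    rw [Real.zero_rpow hexp.ne'] at h1
    have h2 := h1.const_mul (M * I1 ^ 2)
    rwa [mul_zero] at h2
  have h1 : Tendsto (fun k => (t k) ^ (-((n : ℝ) - 2 * s)) *
      DN s γ Ω (resc φ x₀ (t k)) (resc φ x₀ (t k)) - J k) atTop (𝓝 0) := by
    rw [tendsto_zero_iff_norm_tendsto_zero]
    exact squeeze_zero (fun _ => norm_nonneg _) hdiff herr
  have h2 := h1.add hJlim
  rw [zero_add] at h2
  refine h2.congr fun k => ?_
  ring

end Pool.Agent.Helper32.Cf
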