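import Pool.Agent.Helper32.CfBasic

namespace Pool.Agent.Helper32.Cf

open MeasureTheory Filter Topology Set Metric
open scoped ContDiff ENNReal

variable {n : ℕ} {s : ℝ}

/-- The nonlocal difference `u(x) - u(y)`. -/
def D (u : E n → ℝ) (p : E n × E n) : ℝ := u p.1 - u p.2

lemma D_meas {u : E n → ℝ} (hu : Measurable u) : Measurable (D u) := by
  unfold D; fun_prop

/-- The slab Poincare inequality. -/
lemma slab_poincare (_hs0 : 0 < s) (e : E n) (he : ‖e‖ = 1) (a b : ℝ) (hab : a < b) :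
    ∃ C : ENNReal, C ≠ ⊤ ∧ ∀ φ : E n → ℝ, Measurable φ →
      (∀ x, ¬ (a < inner ℝ x e ∧ inner ℝ x e < b) → φ x = 0) →
      ∫⁻ x, ‖φ x‖ₑ ^ (2:ℝ) ≤ C * ∫⁻ p, ‖D φ p‖ₑ ^ (2:ℝ) ∂(gag n s) := by
  set l := b - a with hl
  have hl0 : 0 < l := by rw [hl]; linarith
  set κ : ENNReal := ENNReal.ofReal ((5 / 2 * l) ^ (-((n : ℝ) + 2 * s))) *
    volume (ball (0 : E n) (l / 2)) with hκ
  have hκ0 : κ ≠ 0 := by
    rw [hκ]
    refine mul_ne_zero ?_ ?_
    · rw [Ne, ENNReal.ofReal_eq_zero, not_le]; positivity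
    · exact (measure_ball_pos volume _ (by positivity)).ne'
  refine ⟨κ⁻¹, ENNReal.inv_ne_top.2 hκ0, fun φ hφ hzero => ?_⟩
  have hκt : κ ≠ ⊤ := by
    rw [hκ]
    exact ENNReal.mul_ne_top ENNReal.ofReal_ne_top measure_ball_lt_top.ne
  rw [← ENNReal.mul_le_iff_le_inv hκ0 hκt]
  have hmeas : Measurable fun p : E n × E n => ENNReal.ofReal (ker n s p) * ‖D φ p‖ₑ ^ (2:ℝ) := by
    exact (ker_meas.ennreal_ofReal).mul ((D_meas hφ).enorm.pow_const _)
  have h1 : ∫⁻ p, ‖D φ p‖ₑ ^ (2:ℝ) ∂(gag n s) =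
      ∫⁻ x, ∫⁻ y, ENNReal.ofReal (ker n s (x, y)) * ‖D φ (x, y)‖ₑ ^ (2:ℝ) := by
    unfold gag
    rw [lintegral_withDensity_eq_lintegral_mul _ ker_meas.ennreal_ofReal
      ((D_meas hφ).enorm.pow_const _), Measure.volume_eq_prod]
    exact lintegral_prod _ hmeas.aemeasurable
  rw [h1, ← lintegral_const_mul _ (hφ.enorm.pow_const _)]
  refine lintegral_mono fun x => ?_
  by_cases hx : a < inner ℝ x e ∧ inner ℝ x e < b
  · set c : E n := x + (2 * l) • e with hc
    have hball : volume (ball c (l / 2)) = volume (ball (0 : E n) (l / 2)) := by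
      exact Measure.addHaar_ball_center volume c _
    calc κ * ‖φ x‖ₑ ^ (2:ℝ)
        = ∫⁻ _ in ball c (l / 2), ENNReal.ofReal ((5 / 2 * l) ^ (-((n : ℝ) + 2 * s))) *
            ‖φ x‖ₑ ^ (2:ℝ) := by
          rw [setLIntegral_const, hball, hκ]; ring
      _ ≤ ∫⁻ y in ball c (l / 2), ENNReal.ofReal (ker n s (x, y)) * ‖D φ (x, y)‖ₑ ^ (2:ℝ) := by
          refine setLIntegral_mono (hmeas.comp measurable_prodMk_left) fun y hy => ?_
          rw [mem_ball, dist_eq_norm] at hy
          have hye : inner ℝ y e = inner ℝ x e + 2 * l + inner ℝ (y - c) e := by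
            rw [hc, inner_sub_left, inner_add_left, inner_smul_left, real_inner_self_eq_norm_sq, he]
            simp
          have hin : |inner ℝ (y - c) e| < l / 2 := by
            have := abs_real_inner_le_norm (y - c) e
            rw [he, mul_one] at this
            linarith
          have hyb : b < inner ℝ y e := by
            have := (abs_lt.1 hin).1
            rw [hye]; linarith [hx.1]
          have hφy : φ y = 0 := hzero y (fun h => by linarith [h.2])
          have hd : D φ (x, y) = φ x := by unfold D; simp [hφy]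
          rw [hd]
          have hxy : x ≠ y := by rintro rfl; linarith [hx.2]
          have hpos : 0 < ‖x - y‖ := norm_pos_iff.2 (sub_ne_zero.2 hxy)
          have hle : ‖x - y‖ ≤ 5 / 2 * l := by
            have h2 : x - y = -((2 * l) • e) - (y - c) := by rw [hc]; abel
            rw [h2]
            refine (norm_sub_le _ _).trans ?_
            rw [norm_neg, norm_smul, he, mul_one, Real.norm_of_nonneg (by positivity)]
            linarith
          gcongr
          unfold ker
          exact Real.rpow_le_rpow_of_nonpos hpos hle (by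
            have : (0:ℝ) ≤ n := n.cast_nonneg
            linarith)
      _ ≤ ∫⁻ y, ENNReal.ofReal (ker n s (x, y)) * ‖D φ (x, y)‖ₑ ^ (2:ℝ) :=
          setLIntegral_le_lintegral _ _
  · rw [hzero x hx]
    simp

theorem poincare_test (hs0 : 0 < s) {Ω : Set (E n)} (hΩ : BddInOneDirection Ω) :
    ∃ C : ENNReal, C ≠ ⊤ ∧ ∀ φ : E n → ℝ, IsTest Ω φ →
      eLpNorm φ 2 volume ≤ C * eLpNorm (D φ) 2 (gag n s) := by
  obtain ⟨e, he, a, b, hab⟩ := hΩ
  obtain ⟨C, hC, h⟩ := slab_poincare hs0 e he a (max b (a + 1)) (by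
    exact lt_max_of_lt_right (by linarith))
  refine ⟨C ^ (1 / 2 : ℝ), ENNReal.rpow_ne_top_of_nonneg (by norm_num) hC, fun φ hφ => ?_⟩
  have h1 := h φ hφ.1.continuous.measurable (fun x hx => by
    by_contra hne
    have hx' : x ∈ Ω := hφ.2.2 (subset_tsupport _ hne)
    exact hx ⟨(hab x hx').1, lt_max_of_lt_left (hab x hx').2⟩)
  rw [eLpNorm_eq_lintegral_rpow_enorm_toReal (by norm_num) (by norm_num),
    eLpNorm_eq_lintegral_rpow_enorm_toReal (by norm_num) (by norm_num)]
  simp only [ENNReal.toReal_ofNat]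
  rw [← ENNReal.mul_rpow_of_nonneg _ _ (by norm_num)]
  exact ENNReal.rpow_le_rpow h1 (by norm_num)

theorem poincare (hs0 : 0 < s) {Ω : Set (E n)} (hΩ : BddInOneDirection Ω) :
    ∃ C : ENNReal, C ≠ ⊤ ∧ (∀ φ : E n → ℝ, IsTest Ω φ →
      eLpNorm φ 2 volume ≤ C * eLpNorm (D φ) 2 (gag n s)) ∧
      ∀ v : E n → ℝ, MemHtilde s Ω v →
      eLpNorm v 2 volume ≤ C * eLpNorm (D v) 2 (gag n s) := by
  obtain ⟨C, hC, h⟩ := poincare_test hs0 hΩ
  refine ⟨C, hC, h, ?_⟩
  rintro v ⟨⟨hv, hDv⟩, φ, hφ, h1, h2⟩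
  have hc : ∀ k, Continuous (φ k) := fun k => (hφ k).1.continuous
  have hDφ : ∀ k, AEStronglyMeasurable (D (φ k)) (gag n s) := fun k =>
    (D_meas (hc k).measurable).aestronglyMeasurable
  have h3 : ∀ k, eLpNorm v 2 volume ≤ eLpNorm (fun x => v x - φ k x) 2 volume +
      C * (eLpNorm (D v) 2 (gag n s) +
        eLpNorm (fun p : E n × E n => (v p.1 - φ k p.1) - (v p.2 - φ k p.2)) 2 (gag n s)) := by
    intro k
    have h4 : v = (fun x => v x - φ k x) + φ k := by funext x; simp
    have h5 : eLpNorm v 2 volume ≤ eLpNorm (fun x => v x - φ k x) 2 volume +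
        eLpNorm (φ k) 2 volume := by
      conv_lhs => rw [h4]
      exact eLpNorm_add_le (hv.1.sub (hc k).aestronglyMeasurable) (hc k).aestronglyMeasurable
        (by norm_num)
    refine h5.trans ?_
    gcongr
    refine (h (φ k) (hφ k)).trans ?_
    gcongr
    have h6 : D (φ k) = D v - (fun p : E n × E n => (v p.1 - φ k p.1) - (v p.2 - φ k p.2)) := by
      funext p; simp only [D, Pi.sub_apply]; ring
    have h7 : AEStronglyMeasurable
        (fun p : E n × E n => (v p.1 - φ k p.1) - (v p.2 - φ k p.2)) (gag n s) := by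
      have : (fun p : E n × E n => (v p.1 - φ k p.1) - (v p.2 - φ k p.2)) = D v - D (φ k) := by
        funext p; simp only [D, Pi.sub_apply]; ring
      rw [this]
      exact hDv.1.sub (hDφ k)
    conv_lhs => rw [h6]
    exact eLpNorm_sub_le hDv.1 h7 (by norm_num)
  have h4 : Tendsto (fun k => eLpNorm (fun x => v x - φ k x) 2 volume +
      C * (eLpNorm (D v) 2 (gag n s) +
        eLpNorm (fun p : E n × E n => (v p.1 - φ k p.1) - (v p.2 - φ k p.2)) 2 (gag n s))) atTop
      (𝓝 (0 + C * (eLpNorm (D v) 2 (gag n s) + 0))) := by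
    refine h1.add (ENNReal.Tendsto.const_mul (tendsto_const_nhds.add h2) (Or.inr hC))
  rw [zero_add, add_zero] at h4
  exact ge_of_tendsto h4 (Eventually.of_forall h3)

end Pool.Agent.Helper32.Cf
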