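import Pool.Agent.Helper32.CfPoinc

namespace Pool.Agent.Helper32.Cf

open MeasureTheory Filter Topology Set Metric
open scoped ContDiff ENNReal InnerProductSpace

variable {n : ℕ} {s : ℝ}

/-- Weight data: `g` measurable with `a₀ ≤ g ≤ a₁`, `a₀ > 0`, and `c > 0`. -/
structure Good (c : ℝ) (g : E n → ℝ) (a₀ a₁ : ℝ) : Prop where
  c_pos : 0 < c
  meas : Measurable g
  a_pos : 0 < a₀
  lo : ∀ x, a₀ ≤ g x
  hi : ∀ x, g x ≤ a₁

/-- the weight -/
def wt (c : ℝ) (g : E n → ℝ) (p : E n × E n) : ℝ := c * (g p.1 * g p.2)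

/-- the weighted measure -/
noncomputable def mg (s c : ℝ) (g : E n → ℝ) : Measure (E n × E n) :=
  (gag n s).withDensity (fun p => ENNReal.ofReal (wt c g p))

section good

variable {c : ℝ} {g : E n → ℝ} {a₀ a₁ : ℝ} (G : Good c g a₀ a₁)

include G

lemma Good.wt_meas : Measurable (wt c g) := by
  have := G.meas
  unfold wt; fun_prop

lemma Good.a1_pos : 0 < a₁ := G.a_pos.trans_le ((G.lo 0).trans (G.hi 0))

lemma Good.wt_lo (p : E n × E n) : c * a₀ ^ 2 ≤ wt c g p := by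
  unfold wt
  have h1 := G.lo p.1
  have h2 := G.lo p.2
  have h3 := G.a_pos
  have h4 := G.c_pos
  rw [sq]; gcongr; exact h3.le.trans h1

lemma Good.wt_hi (p : E n × E n) : wt c g p ≤ c * a₁ ^ 2 := by
  unfold wt
  have h1 := G.hi p.1
  have h2 := G.hi p.2
  have h3 := G.a_pos
  have h4 := G.c_pos
  have h5 := G.lo p.2
  have h6 := G.a1_pos
  rw [sq]; gcongr; exact h3.le.trans h5

lemma Good.wt_pos (p : E n × E n) : 0 < wt c g p :=
  lt_of_lt_of_le (by have := G.c_pos; have := G.a_pos; positivity) (G.wt_lo p)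

lemma Good.mg_le : mg s c g ≤ ENNReal.ofReal (c * a₁ ^ 2) • gag n s := by
  unfold mg
  rw [← withDensity_const]
  exact withDensity_mono (Eventually.of_forall fun p => ENNReal.ofReal_le_ofReal (G.wt_hi p))

lemma Good.gag_le : ENNReal.ofReal (c * a₀ ^ 2) • gag n s ≤ mg s c g := by
  unfold mg
  rw [← withDensity_const]
  exact withDensity_mono (Eventually.of_forall fun p => ENNReal.ofReal_le_ofReal (G.wt_lo p))

lemma Good.norm_equiv : ∃ K : ENNReal, K ≠ ⊤ ∧ ∀ F : E n × E n → ℝ,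
    eLpNorm F 2 (mg s c g) ≤ K * eLpNorm F 2 (gag n s) ∧
    eLpNorm F 2 (gag n s) ≤ K * eLpNorm F 2 (mg s c g) := by
  have hc := G.c_pos
  have ha := G.a_pos
  set α : ENNReal := ENNReal.ofReal (c * a₁ ^ 2) with hα
  set β : ENNReal := ENNReal.ofReal (c * a₀ ^ 2) with hβ
  have hβ0 : β ≠ 0 := by rw [hβ, Ne, ENNReal.ofReal_eq_zero, not_le]; positivity
  have hβt : β ≠ ⊤ := ENNReal.ofReal_ne_top
  have hαt : α ≠ ⊤ := ENNReal.ofReal_ne_top
  refine ⟨max (α ^ (1 / 2 : ℝ)) ((β ^ (1 / 2 : ℝ))⁻¹), ?_, fun F => ⟨?_, ?_⟩⟩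
  · refine (max_lt (ENNReal.rpow_lt_top_of_nonneg (by norm_num) hαt) ?_).ne
    rw [ENNReal.inv_lt_top]
    exact ENNReal.rpow_pos (pos_iff_ne_zero.2 hβ0) hβt
  · calc eLpNorm F 2 (mg s c g) ≤ eLpNorm F 2 (α • gag n s) := eLpNorm_mono_measure _ G.mg_le
      _ = α ^ (1 / 2 : ℝ) * eLpNorm F 2 (gag n s) := by
          rw [eLpNorm_smul_measure_of_ne_top (by norm_num)]
          simp [smul_eq_mul]
      _ ≤ _ := by gcongr; exact le_max_left _ _
  · have h1 : β ^ (1 / 2 : ℝ) * eLpNorm F 2 (gag n s) ≤ eLpNorm F 2 (mg s c g) := by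
      calc β ^ (1 / 2 : ℝ) * eLpNorm F 2 (gag n s) = eLpNorm F 2 (β • gag n s) := by
            rw [eLpNorm_smul_measure_of_ne_top (by norm_num)]
            simp [smul_eq_mul]
        _ ≤ eLpNorm F 2 (mg s c g) := eLpNorm_mono_measure _ G.gag_le
    have h2 : β ^ (1 / 2 : ℝ) ≠ 0 := (ENNReal.rpow_pos (pos_iff_ne_zero.2 hβ0) hβt).ne'
    have h3 : β ^ (1 / 2 : ℝ) ≠ ⊤ := ENNReal.rpow_ne_top_of_nonneg (by norm_num) hβt
    calc eLpNorm F 2 (gag n s) = (β ^ (1 / 2 : ℝ))⁻¹ * (β ^ (1 / 2 : ℝ) * eLpNorm F 2 (gag n s)) := by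
          rw [← mul_assoc, ENNReal.inv_mul_cancel h2 h3, one_mul]
      _ ≤ (β ^ (1 / 2 : ℝ))⁻¹ * eLpNorm F 2 (mg s c g) := by gcongr
      _ ≤ _ := by gcongr; exact le_max_right _ _

lemma Good.mg_ac : mg s c g ≪ gag n s := withDensity_absolutelyContinuous _ _

lemma Good.gag_ac' : gag n s ≪ mg s c g := by
  have hc := G.c_pos
  have ha := G.a_pos
  intro t ht
  have h1 := G.gag_le (s := s) t
  rw [ht, nonpos_iff_eq_zero, Measure.smul_apply, smul_eq_mul, mul_eq_zero] at h1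
  rcases h1 with h1 | h1
  · rw [ENNReal.ofReal_eq_zero] at h1
    have : 0 < c * a₀ ^ 2 := by positivity
    linarith
  · exact h1

lemma Good.memLp_iff {F : E n × E n → ℝ} : MemLp F 2 (mg s c g) ↔ MemLp F 2 (gag n s) := by
  obtain ⟨K, hK, h⟩ := G.norm_equiv (s := s)
  constructor
  · rintro ⟨h1, h2⟩
    exact ⟨h1.mono_ac G.gag_ac', (h F).2.trans_lt (ENNReal.mul_lt_top hK.lt_top h2)⟩
  · rintro ⟨h1, h2⟩
    exact ⟨h1.mono_ac G.mg_ac, (h F).1.trans_lt (ENNReal.mul_lt_top hK.lt_top h2)⟩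

lemma Good.integral_mg (F : E n × E n → ℝ) :
    ∫ p, F p ∂(mg s c g) = ∫ p, ker n s p * (wt c g p * F p) := by
  unfold mg
  rw [integral_withDensity_eq_integral_toReal_smul (G.wt_meas.ennreal_ofReal)
    (Eventually.of_forall fun _ => ENNReal.ofReal_lt_top), integral_gag]
  refine integral_congr_ae (Eventually.of_forall fun p => ?_)
  simp only [smul_eq_mul]
  rw [ENNReal.toReal_ofReal (G.wt_pos p).le]

end good

lemma IsTest.add {Ω : Set (E n)} {φ ψ : E n → ℝ} (h1 : IsTest Ω φ) (h2 : IsTest Ω ψ) :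
    IsTest Ω (φ + ψ) :=
  ⟨h1.1.add h2.1, h1.2.1.add h2.2.1, (tsupport_add φ ψ).trans (union_subset h1.2.2 h2.2.2)⟩

lemma IsTest.smul {Ω : Set (E n)} {φ : E n → ℝ} (r : ℝ) (h1 : IsTest Ω φ) :
    IsTest Ω (r • φ) :=
  ⟨h1.1.const_smul r, h1.2.1.smul_left (f := fun _ => r),
    (tsupport_smul_subset_right (fun _ => r) φ).trans h1.2.2⟩

lemma IsTest.zero {Ω : Set (E n)} : IsTest Ω (0 : E n → ℝ) :=
  ⟨contDiff_const, HasCompactSupport.zero, by simp [tsupport]⟩

lemma IsTest.sub {Ω : Set (E n)} {φ ψ : E n → ℝ} (h1 : IsTest Ω φ) (h2 : IsTest Ω ψ) :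
    IsTest Ω (φ - ψ) := by
  have := h1.add (h2.smul (-1))
  convert this using 1
  funext x; simp; ring

lemma D_add (u v : E n → ℝ) : D (u + v) = D u + D v := by
  funext p; simp only [D, Pi.add_apply]; ring

lemma D_sub (u v : E n → ℝ) : D (u - v) = D u - D v := by
  funext p; simp only [D, Pi.sub_apply]; ring

lemma D_smul (r : ℝ) (v : E n → ℝ) : D (r • v) = r • D v := by
  funext p; simp only [D, Pi.smul_apply, smul_eq_mul]; ring

lemma D_congr {u v : E n → ℝ} (h : u =ᵐ[volume] v) : D u =ᵐ[gag n s] D v := by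
  have h1 : ∀ᵐ p ∂(volume : Measure (E n × E n)), u p.1 = v p.1 :=
    Measure.quasiMeasurePreserving_fst.ae h
  have h2 : ∀ᵐ p ∂(volume : Measure (E n × E n)), u p.2 = v p.2 :=
    Measure.quasiMeasurePreserving_snd.ae h
  have h3 : D u =ᵐ[volume] D v := by
    filter_upwards [h1, h2] with p hp1 hp2
    simp [D, hp1, hp2]
  exact gag_ac h3

/-- Existence of the correction. -/
theorem exists_v (hn : 0 < n) (hs0 : 0 < s) (hs1 : s < 1) {Ω : Set (E n)}
    (hΩ : BddInOneDirection Ω) {c : ℝ} {g : E n → ℝ} {a₀ a₁ : ℝ} (G : Good c g a₀ a₁)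
    (F : E n × E n → ℝ) (hF : MemLp F 2 (mg s c g)) :
    ∃ v, MemHtilde s Ω v ∧ ∀ φ, IsTest Ω φ → ∫ p, (F p + D v p) * D φ p ∂(mg s c g) = 0 := by
  obtain ⟨Cp, hCp, hP, -⟩ := poincare hs0 hΩ
  obtain ⟨K, hK, hKe⟩ := G.norm_equiv (s := s)
  set μ := mg s c g with hμ
  have hDtest : ∀ φ : E n → ℝ, IsTest Ω φ → MemLp (D φ) 2 μ := fun φ hφ =>
    G.memLp_iff.2 (test_memHs hn hs0 hs1 hφ.1 hφ.2.1).2
  let S : Submodule ℝ (Lp ℝ 2 μ) :=
    { carrier := {w | ∃ φ, IsTest Ω φ ∧ w =ᵐ[μ] D φ}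
      add_mem' := by
        rintro w1 w2 ⟨φ1, h1, e1⟩ ⟨φ2, h2, e2⟩
        refine ⟨φ1 + φ2, h1.add h2, ?_⟩
        rw [D_add]
        exact (Lp.coeFn_add w1 w2).trans (e1.add e2)
      zero_mem' := by
        refine ⟨0, IsTest.zero, ?_⟩
        have : D (0 : E n → ℝ) = 0 := by funext p; simp [D]
        rw [this]
        exact Lp.coeFn_zero _ _ _
      smul_mem' := by
        rintro r w1 ⟨φ1, h1, e1⟩
        refine ⟨r • φ1, h1.smul r, ?_⟩
        rw [D_smul]
        exact (Lp.coeFn_smul r w1).trans (e1.const_smul r) }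
  let V := S.topologicalClosure
  haveI : CompleteSpace V := S.isClosed_topologicalClosure.completeSpace_coe
  set w : Lp ℝ 2 μ := -(V.starProjection (hF.toLp F)) with hw
  have hwV : w ∈ V := V.neg_mem (V.starProjection_apply_mem _)
  have horth : ∀ z ∈ V, ⟪hF.toLp F + w, z⟫_ℝ = 0 := by
    intro z hz
    rw [hw, ← sub_eq_add_neg]
    exact V.starProjection_inner_eq_zero _ _ hz
  have hwc : w ∈ closure (S : Set (Lp ℝ 2 μ)) := by
    rw [← Submodule.topologicalClosure_coe]; exact hwV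
  obtain ⟨W, hWS, hWlim⟩ := mem_closure_iff_seq_limit.1 hwc
  choose φ hφ hφe using hWS
  have hWe : ∀ k l, eLpNorm (D (φ k) - D (φ l)) 2 μ = edist (W k) (W l) := by
    intro k l
    rw [Lp.edist_def]
    exact eLpNorm_congr_ae ((hφe k).symm.sub (hφe l).symm)
  have hφL : ∀ k, MemLp (φ k) 2 volume := fun k =>
    (test_memHs (s := s) hn hs0 hs1 (hφ k).1 (hφ k).2.1).1
  let Φ : ℕ → Lp ℝ 2 (volume : Measure (E n)) := fun k => (hφL k).toLp (φ k)
  have hΦe : ∀ k l, edist (Φ k) (Φ l) ≤ (Cp * K) * edist (W k) (W l) := by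
    intro k l
    have h1 : edist (Φ k) (Φ l) = eLpNorm (φ k - φ l) 2 volume := Lp.edist_toLp_toLp _ _ _ _
    rw [h1, ← hWe, ← D_sub, mul_assoc]
    refine (hP _ ((hφ k).sub (hφ l))).trans ?_
    gcongr
    exact (hKe _).2
  have hCK : Cp * K ≠ ⊤ := ENNReal.mul_ne_top hCp hK
  have hΦc : CauchySeq Φ := by
    rw [EMetric.cauchySeq_iff]
    have hWc := hWlim.cauchySeq
    rw [EMetric.cauchySeq_iff] at hWc
    intro ε hε
    have hpos : 0 < ε / (Cp * K + 1) := ENNReal.div_pos hε.ne' (by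
      exact ENNReal.add_ne_top.2 ⟨hCK, ENNReal.one_ne_top⟩)
    obtain ⟨N, hN⟩ := hWc _ hpos
    refine ⟨N, fun k hk l hl => ?_⟩
    have h1 := hN k hk l hl
    have h2 : (Cp * K + 1) ≠ 0 := by simp
    have h3 : (Cp * K + 1) ≠ ⊤ := ENNReal.add_ne_top.2 ⟨hCK, ENNReal.one_ne_top⟩
    calc edist (Φ k) (Φ l) ≤ (Cp * K) * edist (W k) (W l) := hΦe k l
      _ ≤ (Cp * K + 1) * edist (W k) (W l) := by gcongr; exact le_self_add
      _ < (Cp * K + 1) * (ε / (Cp * K + 1)) := (ENNReal.mul_lt_mul_iff_right h2 h3).2 h1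
      _ = ε := ENNReal.mul_div_cancel h2 h3
  obtain ⟨v, hv⟩ := cauchySeq_tendsto_of_complete hΦc
  -- convergence of `φ k` to `v`
  have hv2 : Tendsto (fun k => eLpNorm (fun x => v x - φ k x) 2 volume) atTop (𝓝 0) := by
    have h1 := (tendsto_iff_edist_tendsto_0.1 hv)
    refine h1.congr fun k => ?_
    rw [edist_comm, Lp.edist_def]
    refine eLpNorm_congr_ae ?_
    filter_upwards [(hφL k).coeFn_toLp] with x hx
    simp only [Pi.sub_apply]
    show v x - (Φ k) x = _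
    rw [hx]
  have hw2 : Tendsto (fun k => eLpNorm (fun p => w p - D (φ k) p) 2 μ) atTop (𝓝 0) := by
    have h1 := (tendsto_iff_edist_tendsto_0.1 hWlim)
    refine h1.congr fun k => ?_
    rw [edist_comm, Lp.edist_def]
    refine eLpNorm_congr_ae ?_
    filter_upwards [hφe k] with x hx
    simp only [Pi.sub_apply, hx]
  -- identification of the limits
  have hφc : ∀ k, Continuous (φ k) := fun k => (hφ k).1.continuous
  have hwv : w =ᵐ[μ] D v := by
    have h1 : TendstoInMeasure volume (fun k => φ k) atTop v := by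
      refine tendstoInMeasure_of_tendsto_eLpNorm (p := 2) (by norm_num)
        (fun k => (hφc k).aestronglyMeasurable) (Lp.aestronglyMeasurable v) ?_
      refine hv2.congr fun k => ?_
      rw [← eLpNorm_neg]
      congr 1; funext x; simp
    obtain ⟨ns1, hns1, hae1⟩ := h1.exists_seq_tendsto_ae
    have h2 : TendstoInMeasure μ (fun k => D (φ (ns1 k))) atTop w := by
      refine tendstoInMeasure_of_tendsto_eLpNorm (p := 2) (by norm_num)
        (fun k => (D_meas (hφc _).measurable).aestronglyMeasurable) (Lp.aestronglyMeasurable w) ?_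
      refine (hw2.comp hns1.tendsto_atTop).congr fun k => ?_
      simp only [Function.comp]
      rw [← eLpNorm_neg]
      congr 1; funext x; simp
    obtain ⟨ns2, hns2, hae2⟩ := h2.exists_seq_tendsto_ae
    have h3 : ∀ᵐ p ∂μ, Tendsto (fun i => φ (ns1 i) p.1) atTop (𝓝 (v p.1)) ∧
        Tendsto (fun i => φ (ns1 i) p.2) atTop (𝓝 (v p.2)) := by
      have h4 : ∀ᵐ p ∂(volume : Measure (E n × E n)),
          Tendsto (fun i => φ (ns1 i) p.1) atTop (𝓝 (v p.1)) :=
        Measure.quasiMeasurePreserving_fst.ae hae1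
      have h5 : ∀ᵐ p ∂(volume : Measure (E n × E n)),
          Tendsto (fun i => φ (ns1 i) p.2) atTop (𝓝 (v p.2)) :=
        Measure.quasiMeasurePreserving_snd.ae hae1
      exact (G.mg_ac.trans gag_ac) (h4.and h5)
    filter_upwards [h3, hae2] with p hp1 hp2
    have h6 : Tendsto (fun i => D (φ (ns1 (ns2 i))) p) atTop (𝓝 (D v p)) :=
      (hp1.1.comp hns2.tendsto_atTop).sub (hp1.2.comp hns2.tendsto_atTop)
    exact tendsto_nhds_unique hp2 h6
  have hDvμ : MemLp (D v) 2 μ := (memLp_congr_ae hwv).1 (Lp.memLp w)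
  refine ⟨v, ⟨⟨Lp.memLp v, G.memLp_iff.1 hDvμ⟩, φ, hφ, hv2, ?_⟩, ?_⟩
  · have h1 : ∀ k, eLpNorm (fun p : E n × E n => (v p.1 - φ k p.1) - (v p.2 - φ k p.2)) 2
        (gag n s) ≤ K * eLpNorm (fun p => w p - D (φ k) p) 2 μ := by
      intro k
      refine ((hKe _).2).trans ?_
      gcongr
      refine le_of_eq (eLpNorm_congr_ae ?_)
      filter_upwards [hwv] with p hp
      rw [hp]; simp only [D]; ring
    have h2 : Tendsto (fun k => K * eLpNorm (fun p => w p - D (φ k) p) 2 μ) atTop (𝓝 (K * 0)) :=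
      ENNReal.Tendsto.const_mul hw2 (Or.inr hK)
    rw [mul_zero] at h2
    exact tendsto_of_tendsto_of_tendsto_of_le_of_le tendsto_const_nhds h2 (fun _ => zero_le)
      h1
  · intro ψ hψ
    have hz : (hDtest ψ hψ).toLp (D ψ) ∈ V :=
      S.le_topologicalClosure ⟨ψ, hψ, (hDtest ψ hψ).coeFn_toLp⟩
    have h1 := horth _ hz
    rw [L2.inner_def] at h1
    rw [← h1]
    refine integral_congr_ae ?_
    filter_upwards [hwv, (hDtest ψ hψ).coeFn_toLp, hF.coeFn_toLp,
      Lp.coeFn_add (hF.toLp F) w] with p h2 h3 h4 h5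
    rw [h5, h3, Pi.add_apply, h4, h2]
    simp [mul_comm]

end Pool.Agent.Helper32.Cf
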