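import Mathlib

set_option autoImplicit false

namespace Pool.Agent.Helper32.E7

/-- The edges of `G` are partitioned into `m` forests, each of whose components has diameter at
most `d` (with `d = ⊤`: no condition on the diameters). -/
def Decomposes {V : Type} (d : ℕ∞) (G : SimpleGraph V) (m : ℕ) : Prop :=
  ∃ F : Fin m → SimpleGraph V,
    (∀ i, (F i).IsAcyclic) ∧
    (∀ i u v, (F i).Reachable u v → (F i).edist u v ≤ d) ∧
    (∀ i j, i ≠ j → Disjoint (F i) (F j)) ∧
    (⨆ i, F i) = G

/-- The diameter-bounded arboricity `a_d(G)`; `a_⊤(G)` is the arboricity. -/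
noncomputable def arb {V : Type} (d : ℕ∞) (G : SimpleGraph V) : ℕ :=
  sInf {m : ℕ | Decomposes d G m}

end Pool.Agent.Helper32.E7
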