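import Mathlib
import Pool.Agent.Helper32.E7Defs

set_option autoImplicit false

namespace Pool.Agent.Helper32.E7

variable {V : Type}

/-- Orientation of a forest with out-degrees at most one. -/
lemma exists_orient (F : SimpleGraph V) (hF : F.IsAcyclic) :
    ∃ P : V → V → Prop, (∀ v w w', P v w → P v w' → w = w') ∧ (∀ v w, P v w → F.Adj v w) ∧
      (∀ v w, F.Adj v w → (P v w ∨ P w v)) ∧ (∀ v w, P v w → ¬ P w v) := by
  classical
  set r : V → V := fun v => (F.connectedComponentMk v).out with hr
  have hreach : ∀ v, F.Reachable (r v) v := fun v => by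
    apply SimpleGraph.ConnectedComponent.exact
    simp only [hr]
    exact Quot.out_eq _
  have hadj : ∀ v w, F.Adj v w → r v = r w := fun v w h => by
    simp only [hr]
    rw [SimpleGraph.ConnectedComponent.sound h.reachable]
  refine ⟨fun v w => F.Adj v w ∧ F.dist (r v) w < F.dist (r v) v, ?_, fun v w h => h.1, ?_, ?_⟩
  · have key : ∀ v w, F.Adj v w → F.dist (r v) w < F.dist (r v) v →
        ∀ (q : F.Walk (r v) v), q.IsPath → w ∈ q.support := by
      intro v w h hlt q hq
      have hrw : F.Reachable (r v) w := (hreach v).trans h.reachable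
      obtain ⟨p, hp, hlen⟩ := hrw.exists_path_of_dist
      apply hF.mem_support_of_ne_mem_support_of_adj_of_isPath hq hp h
      intro hmem
      have h2 := hF.path_concat hq hp h hmem
      have h3 : p.length = q.length + 1 := by rw [h2]; simp
      have h4 := SimpleGraph.dist_le q
      omega
    intro v w w' h h'
    obtain ⟨q, hq, -⟩ := (hreach v).exists_path_of_dist
    rw [hF.eq_penultimate_of_adj_end hq h.1 (key v w h.1 h.2 q hq),
      hF.eq_penultimate_of_adj_end hq h'.1 (key v w' h'.1 h'.2 q hq)]
  · intro v w h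
    have hne := hF.dist_ne_of_adj h (hreach v)
    rcases lt_or_gt_of_ne hne with h1 | h1
    · right
      refine ⟨h.symm, ?_⟩
      rw [← hadj v w h]
      exact h1
    · left
      exact ⟨h, h1⟩
  · intro v w h h'
    have := h'.2
    rw [← hadj v w h.1] at this
    have := h.2
    omega

/-- The symmetrised graph of a relation. -/
def symG (P : V → V → Prop) (hP : ∀ v, ¬ P v v) : SimpleGraph V where
  Adj u v := P u v ∨ P v u
  symm := ⟨fun _ _ h => h.symm⟩
  loopless := ⟨fun v h => h.elim (hP v) (hP v)⟩

lemma symG_acyclic (P : V → V → Prop) (hP : ∀ v, ¬ P v v) (y : V → ℕ)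
    (hfun : ∀ v u u', P v u → P v u' → u = u') (hy : ∀ v u, P v u → y u < y v) :
    (symG P hP).IsAcyclic := by
  classical
  intro v c hc
  obtain ⟨w, hw, hmax⟩ := c.support.toFinset.exists_max_image y ⟨v, by simp⟩
  have hw' : w ∈ c.support := by simpa using hw
  set c' := c.rotate w hw' with hc'
  have hcyc : c'.IsCycle := (SimpleGraph.Walk.isCycle_rotate hw').mpr hc
  have hsupp : ∀ z, z ∈ c'.support → y z ≤ y w := by
    intro z hz
    apply hmax
    rw [List.mem_toFinset]
    exact (SimpleGraph.Walk.mem_support_rotate_iff c w hw').mp hz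
  have hnn : ¬ c'.Nil := hcyc.not_nil
  have h1 : P w c'.snd := by
    rcases c'.adj_snd hnn with h | h
    · exact h
    · have := hy _ _ h
      have h2 := hsupp c'.snd (by
        have := c'.getVert_mem_support 1
        exact this)
      omega
  have h2 : P w c'.penultimate := by
    rcases (c'.adj_penultimate hnn).symm with h | h
    · exact h
    · have := hy _ _ h
      have h2 := hsupp c'.penultimate (c'.getVert_mem_support _)
      omega
  exact hcyc.snd_ne_penultimate (hfun _ _ _ h1 h2)

lemma symG_edist (P : V → V → Prop) (hP : ∀ v, ¬ P v v) (y : V → ℕ) (hy2 : ∀ v, y v ≤ 2)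
    (hfun : ∀ v u u', P v u → P v u' → u = u') (hy : ∀ v u, P v u → y u < y v)
    (u v : V) (h : (symG P hP).Reachable u v) : (symG P hP).edist u v ≤ 4 := by
  classical
  set par : V → V := fun v => if h : ∃ u, P v u then h.choose else v with hpar
  have hpar1 : ∀ v u, P v u → par v = u := by
    intro v u hvu
    have hex : ∃ u, P v u := ⟨u, hvu⟩
    simp only [hpar]
    rw [dif_pos hex]
    exact hfun _ _ _ hex.choose_spec hvu
  have hpar2 : ∀ v, (∀ u, ¬ P v u) → par v = v := by
    intro v hv
    simp only [hpar]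
    rw [dif_neg (by push Not; exact hv)]
  have hroot : ∀ v u, P v u → par (par v) = par (par u) := by
    intro v u hvu
    rw [hpar1 v u hvu]
    have h1 := hy v u hvu
    have h2 := hy2 v
    by_cases hex : ∃ w, P u w
    · obtain ⟨w, hw⟩ := hex
      rw [hpar1 u w hw]
      have h3 := hy u w hw
      rw [hpar2 w]
      intro z hz
      have := hy w z hz
      omega
    · push Not at hex
      rw [hpar2 u hex, hpar2 u hex]
  have hconst : ∀ {u v : V}, (symG P hP).Reachable u v → par (par u) = par (par v) := by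
    intro u v huv
    obtain ⟨w⟩ := huv
    induction w with
    | nil => rfl
    | cons hadj _ ih =>
      rw [← ih]
      rcases hadj with h | h
      · exact hroot _ _ h
      · exact (hroot _ _ h).symm
  have hd1 : ∀ v, (symG P hP).edist v (par v) ≤ 1 := by
    intro v
    rw [SimpleGraph.edist_le_one_iff_adj_or_eq]
    by_cases hex : ∃ w, P v w
    · obtain ⟨w, hw⟩ := hex
      rw [hpar1 v w hw]
      exact Or.inl (Or.inl hw)
    · push Not at hex
      rw [hpar2 v hex]
      exact Or.inr rfl
  have hd2 : ∀ v, (symG P hP).edist v (par (par v)) ≤ 2 := by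
    intro v
    refine SimpleGraph.edist_triangle.trans ((add_le_add (hd1 v) (hd1 (par v))).trans ?_)
    norm_num
  refine (SimpleGraph.edist_triangle (v := par (par u))).trans ?_
  have h3 := hd2 u
  have h4 := hd2 v
  rw [← hconst h, SimpleGraph.edist_comm] at h4
  exact (add_le_add h3 h4).trans (by norm_num)

lemma decomposes_of_fintype {C : Type} [Fintype C] (d : ℕ∞) (G : SimpleGraph V)
    (F : C → SimpleGraph V) (h1 : ∀ i, (F i).IsAcyclic)
    (h2 : ∀ i u v, (F i).Reachable u v → (F i).edist u v ≤ d)
    (h3 : ∀ i j, i ≠ j → Disjoint (F i) (F j)) (h4 : (⨆ i, F i) = G) (m : ℕ)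
    (hm : Fintype.card C ≤ m) : Decomposes d G m := by
  classical
  obtain ⟨e⟩ : Nonempty (C ↪ Fin m) := by
    rw [Function.Embedding.nonempty_iff_card_le]
    simpa using hm
  set F' : Fin m → SimpleGraph V := Function.extend e F (fun _ => ⊥) with hF'
  have hon : ∀ c, F' (e c) = F c := fun c => e.injective.extend_apply _ _ c
  have hoff : ∀ i, (∀ c, e c ≠ i) → F' i = ⊥ := fun i hi => by
    rw [hF', Function.extend_apply']
    rintro ⟨a, ha⟩
    exact hi a ha
  refine ⟨F', ?_, ?_, ?_, ?_⟩
  · intro i
    by_cases hex : ∃ c, e c = i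
    · obtain ⟨c, rfl⟩ := hex
      rw [hon]; exact h1 c
    · push Not at hex
      rw [hoff i hex]; exact SimpleGraph.isAcyclic_bot
  · intro i u v
    by_cases hex : ∃ c, e c = i
    · obtain ⟨c, rfl⟩ := hex
      rw [hon]; exact h2 c u v
    · push Not at hex
      rw [hoff i hex]
      intro h
      rw [SimpleGraph.reachable_bot] at h
      rw [h, SimpleGraph.edist_self]
      exact bot_le
  · intro i j hij
    by_cases hex : ∃ c, e c = i
    · obtain ⟨c, rfl⟩ := hex
      by_cases hex' : ∃ c', e c' = j
      · obtain ⟨c', rfl⟩ := hex'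
        rw [hon, hon]
        exact h3 _ _ (fun h => hij (by rw [h]))
      · push Not at hex'
        rw [hoff j hex']; exact disjoint_bot_right
    · push Not at hex
      rw [hoff i hex]; exact disjoint_bot_left
  · rw [← h4]
    apply le_antisymm
    · refine iSup_le (fun i => ?_)
      by_cases hex : ∃ c, e c = i
      · obtain ⟨c, rfl⟩ := hex
        rw [hon]; exact le_iSup F c
      · push Not at hex
        rw [hoff i hex]; exact bot_le
    · refine iSup_le (fun c => ?_)
      rw [← hon c]
      exact le_iSup F' (e c)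

/-- The abstract finishing step. -/
lemma finish {C : Type} [Fintype C] (G : SimpleGraph V) (E : V → V → Prop)
    (hE1 : ∀ v u, G.Adj v u ↔ (E v u ∨ E u v)) (hE2 : ∀ v u, E v u → ¬ E u v)
    (col : V → V → C) (x : C → V → ℕ) (hx : ∀ c v, x c v ≤ 2)
    (hinj : ∀ v u u', E v u → E v u' → col v u = col v u' → u = u')
    (hdec : ∀ v u, E v u → x (col v u) u < x (col v u) v) (m : ℕ)
    (hm : Fintype.card C ≤ m) : Decomposes 4 G m := by
  classical
  have hirr : ∀ c v, ¬ (E v v ∧ col v v = c) := fun c v h => by
    have := hdec v v h.1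
    omega
  refine decomposes_of_fintype 4 G
    (fun c => symG (fun v u => E v u ∧ col v u = c) (hirr c)) ?_ ?_ ?_ ?_ m hm
  · intro c
    refine symG_acyclic _ _ (x c) ?_ ?_
    · rintro v u u' ⟨h, hc⟩ ⟨h', hc'⟩
      exact hinj v u u' h h' (hc.trans hc'.symm)
    · rintro v u ⟨h, hc⟩
      have := hdec v u h
      rwa [hc] at this
  · intro c u v h
    refine symG_edist _ _ (x c) (hx c) ?_ ?_ u v h
    · rintro v u u' ⟨h, hc⟩ ⟨h', hc'⟩
      exact hinj v u u' h h' (hc.trans hc'.symm)
    · rintro v u ⟨h, hc⟩
      have := hdec v u h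
      rwa [hc] at this
  · intro c c' hcc
    rw [SimpleGraph.disjoint_left]
    rintro u v h h'
    rcases h with ⟨h, hc⟩ | ⟨h, hc⟩ <;> rcases h' with ⟨h', hc'⟩ | ⟨h', hc'⟩
    · exact hcc (hc.symm.trans hc')
    · exact hE2 _ _ h h'
    · exact hE2 _ _ h h'
    · exact hcc (hc.symm.trans hc')
  · ext u v
    rw [SimpleGraph.iSup_adj, hE1]
    constructor
    · rintro ⟨c, h | h⟩
      · exact Or.inl h.1
      · exact Or.inr h.1
    · rintro (h | h)
      · exact ⟨_, Or.inl ⟨h, rfl⟩⟩
      · exact ⟨_, Or.inr ⟨h, rfl⟩⟩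

end Pool.Agent.Helper32.E7
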