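import Mathlib

set_option autoImplicit false

namespace Pool.Agent.Helper32.E7

open Finset

variable {V : Type} [Fintype V] [DecidableEq V]

/-- Levels. -/
lemma exists_levels (out : V → Finset V) (K : ℕ) (hout : ∀ v, (out v).card ≤ K) (n : ℕ) :
    ∀ S : Finset V, S.card = n → ∃ lev : V → ℕ, ∀ v ∈ S,
      (S.filter (fun w => v ∈ out w ∧ lev v ≤ lev w)).card ≤ K := by
  induction n using Nat.strong_induction_on with
  | _ n ih =>
    intro S hS
    rcases S.eq_empty_or_nonempty with rfl | hne
    · exact ⟨fun _ => 0, by simp⟩
    set H := S.filter (fun v => K + 1 ≤ (S.filter (fun w => v ∈ out w)).card) with hH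
    have h1 : (K + 1) * H.card ≤ K * S.card := by
      calc (K + 1) * H.card = ∑ v ∈ H, (K + 1) := by rw [sum_const, smul_eq_mul, mul_comm]
        _ ≤ ∑ v ∈ H, (S.filter (fun w => v ∈ out w)).card := by
            refine sum_le_sum (fun v hv => ?_)
            exact (mem_filter.mp hv).2
        _ ≤ ∑ v ∈ S, (S.filter (fun w => v ∈ out w)).card := by
            refine sum_le_sum_of_subset (filter_subset _ _)
        _ = ∑ w ∈ S, (S.filter (fun v => v ∈ out w)).card := by
            simp_rw [card_filter]
            exact sum_comm
        _ ≤ ∑ w ∈ S, K := by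
            refine sum_le_sum (fun w _ => ?_)
            refine (card_le_card ?_).trans (hout w)
            intro v hv
            exact (mem_filter.mp hv).2
        _ = K * S.card := by rw [sum_const, smul_eq_mul, mul_comm]
    have hpos : 0 < S.card := hne.card_pos
    have h2 : H.card < n := by
      rw [← hS]
      by_contra hcon
      push Not at hcon
      nlinarith
    obtain ⟨lev', hlev'⟩ := ih H.card h2 H rfl
    refine ⟨fun v => if v ∈ H then lev' v + 1 else 0, fun v hv => ?_⟩
    by_cases hvH : v ∈ H
    · refine (card_le_card ?_).trans (hlev' v hvH)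
      intro w hw
      rw [mem_filter] at hw
      obtain ⟨hwS, hvw, hle⟩ := hw
      dsimp only at hle
      rw [if_pos hvH] at hle
      by_cases hwH : w ∈ H
      · rw [if_pos hwH] at hle
        rw [mem_filter]
        exact ⟨hwH, hvw, by omega⟩
      · rw [if_neg hwH] at hle
        omega
    · have h3 : (S.filter (fun w => v ∈ out w)).card ≤ K := by
        by_contra hcon
        push Not at hcon
        exact hvH (mem_filter.mpr ⟨hv, hcon⟩)
      refine (card_le_card ?_).trans h3
      intro w hw
      rw [mem_filter] at hw ⊢
      exact ⟨hw.1, hw.2.1⟩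

/-- Independence of events depending on disjoint sets of coordinates. -/
lemma indep {α : Type} [Fintype α] [DecidableEq α] (B : Finset V) (P Q : (V → α) → Prop)
    [DecidablePred P] [DecidablePred Q]
    (hP : ∀ f g : V → α, (∀ u, u ∉ B → f u = g u) → P f → P g)
    (hQ : ∀ f g : V → α, (∀ u, u ∈ B → f u = g u) → Q f → Q g) :
    (univ.filter (fun f => P f ∧ Q f)).card * Fintype.card (V → α) =
      (univ.filter P).card * (univ.filter Q).card := by
  rw [← card_univ, ← card_product, ← card_product]
  refine Finset.card_nbij'
    (fun x => ((fun u => if u ∈ B then x.2 u else x.1 u), (fun u => if u ∈ B then x.1 u else x.2 u)))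
    (fun x => ((fun u => if u ∈ B then x.2 u else x.1 u), (fun u => if u ∈ B then x.1 u else x.2 u)))
    ?_ ?_ ?_ ?_
  · rintro ⟨f, g⟩ h
    simp only [coe_product, coe_filter, mem_univ, true_and, coe_univ, Set.mem_prod,
      Set.mem_ofPred_eq, Set.mem_univ, and_true] at h ⊢
    refine ⟨hP f _ (fun u hu => by simp [hu]) h.1, hQ f _ (fun u hu => by simp [hu]) h.2⟩
  · rintro ⟨f, g⟩ h
    simp only [coe_product, coe_filter, mem_univ, true_and, coe_univ, Set.mem_prod,
      Set.mem_ofPred_eq, Set.mem_univ, and_true] at h ⊢
    refine ⟨hP f _ (fun u hu => by simp [hu]) h.1, hQ g _ (fun u hu => by simp [hu]) h.2⟩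
  · rintro ⟨f, g⟩ _
    ext u <;> by_cases hu : u ∈ B <;> simp [hu]
  · rintro ⟨f, g⟩ _
    ext u <;> by_cases hu : u ∈ B <;> simp [hu]

/-- Symmetric local lemma by counting. -/
lemma lll {α : Type} [Fintype α] [DecidableEq α] [Nonempty α] (B : V → Finset V)
    (bad : V → (V → α) → Prop) [∀ v, DecidablePred (bad v)]
    (hdep : ∀ v (f g : V → α), (∀ u ∈ B v, f u = g u) → bad v f → bad v g)
    (D : ℕ) (hD1 : 1 ≤ D) (hD : ∀ v, (univ.filter (fun u => ¬ Disjoint (B u) (B v))).card ≤ D)
    (hbad : ∀ v, 4 * D * (univ.filter (bad v)).card ≤ Fintype.card (V → α)) :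
    ∃ f : V → α, ∀ v, ¬ bad v f := by
  set N : Finset V → ℕ := fun T => (univ.filter (fun f => ∀ v ∈ T, ¬ bad v f)).card with hN
  have hall : 0 < Fintype.card (V → α) := Fintype.card_pos
  have key : ∀ n : ℕ, ∀ T : Finset V, T.card = n → ∀ v, v ∉ T →
      2 * D * (univ.filter (fun f => (∀ u ∈ T, ¬ bad u f) ∧ bad v f)).card ≤ N T := by
    intro n
    induction n using Nat.strong_induction_on with
    | _ n ih =>
      intro T hT v hv
      set T1 := T.filter (fun u => ¬ Disjoint (B u) (B v)) with hT1
      set T2 := T.filter (fun u => Disjoint (B u) (B v)) with hT2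
      have hT1D : T1.card ≤ D := by
        refine (card_le_card ?_).trans (hD v)
        intro u hu
        rw [mem_filter] at hu ⊢
        exact ⟨mem_univ _, hu.2⟩
      -- independence
      have hind := indep (α := α) (B v) (fun f => ∀ u ∈ T2, ¬ bad u f) (bad v) (by
        intro f g hfg hf u hu hb
        have hdisj := (mem_filter.mp hu).2
        refine hf u hu (hdep u g f (fun w hw => ?_) hb)
        exact (hfg w (fun hw' => Finset.disjoint_left.mp hdisj hw hw')).symm) (hdep v)
      -- comparision
      have hsub : (univ.filter (fun f => (∀ u ∈ T, ¬ bad u f) ∧ bad v f)).card ≤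
          (univ.filter (fun f => (∀ u ∈ T2, ¬ bad u f) ∧ bad v f)).card := by
        refine card_le_card ?_
        intro f hf
        rw [mem_filter] at hf ⊢
        exact ⟨hf.1, fun u hu => hf.2.1 u (mem_filter.mp hu).1, hf.2.2⟩
      have hb2 : 4 * D * (univ.filter (fun f => (∀ u ∈ T2, ¬ bad u f) ∧ bad v f)).card ≤ N T2 := by
        have h1 := hbad v
        have h2 : (4 * D * (univ.filter (fun f => (∀ u ∈ T2, ¬ bad u f) ∧ bad v f)).card) *
            Fintype.card (V → α) ≤ N T2 * Fintype.card (V → α) := by
          calc (4 * D * (univ.filter (fun f => (∀ u ∈ T2, ¬ bad u f) ∧ bad v f)).card) *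
            Fintype.card (V → α) = 4 * D * ((univ.filter
              (fun f => (∀ u ∈ T2, ¬ bad u f) ∧ bad v f)).card * Fintype.card (V → α)) := by ring
            _ = 4 * D * (N T2 * (univ.filter (bad v)).card) := by rw [hind]
            _ = N T2 * (4 * D * (univ.filter (bad v)).card) := by ring
            _ ≤ N T2 * Fintype.card (V → α) := Nat.mul_le_mul_left _ h1
        exact Nat.le_of_mul_le_mul_right h2 hall
      -- N T2 ≤ 2 N T
      have hNT : N T2 ≤ 2 * N T := by
        rcases T1.eq_empty_or_nonempty with h0 | hne
        · have : T2 = T := by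
            apply (filter_subset _ _).antisymm
            intro u hu
            rw [mem_filter]
            refine ⟨hu, ?_⟩
            by_contra hcon
            have : u ∈ T1 := mem_filter.mpr ⟨hu, hcon⟩
            rw [h0] at this
            exact absurd this (notMem_empty u)
          rw [this]; omega
        · have hcard : T2.card < n := by
            rw [← hT, ← card_filter_add_card_filter_not (s := T) (fun u => Disjoint (B u) (B v))]
            have := hne.card_pos
            rw [hT1] at this
            rw [hT2]
            omega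
          have hcover : N T2 ≤ N T + ∑ u ∈ T1,
              (univ.filter (fun f => (∀ w ∈ T2, ¬ bad w f) ∧ bad u f)).card := by
            have : (univ.filter (fun f : V → α => ∀ v ∈ T2, ¬ bad v f)) ⊆
                (univ.filter (fun f => ∀ v ∈ T, ¬ bad v f)) ∪ T1.biUnion (fun u =>
                  univ.filter (fun f => (∀ w ∈ T2, ¬ bad w f) ∧ bad u f)) := by
              intro f hf
              rw [mem_filter] at hf
              rw [mem_union, mem_filter, mem_biUnion]
              by_cases hgood : ∀ v ∈ T, ¬ bad v f
              · exact Or.inl ⟨mem_univ _, hgood⟩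
              · right
                push Not at hgood
                obtain ⟨u, hu, hbu⟩ := hgood
                refine ⟨u, ?_, mem_filter.mpr ⟨mem_univ _, hf.2, hbu⟩⟩
                rw [mem_filter]
                refine ⟨hu, fun hdis => ?_⟩
                exact hf.2 u (mem_filter.mpr ⟨hu, hdis⟩) hbu
            refine (card_le_card this).trans ((card_union_le _ _).trans ?_)
            exact Nat.add_le_add_left card_biUnion_le _
          have hsum : 2 * D * ∑ u ∈ T1,
              (univ.filter (fun f => (∀ w ∈ T2, ¬ bad w f) ∧ bad u f)).card ≤ D * N T2 := by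
            rw [mul_sum]
            calc ∑ u ∈ T1, 2 * D * (univ.filter (fun f => (∀ w ∈ T2, ¬ bad w f) ∧ bad u f)).card
                ≤ ∑ u ∈ T1, N T2 := by
                  refine sum_le_sum (fun u hu => ih T2.card hcard T2 rfl u ?_)
                  intro hu2
                  exact (mem_filter.mp hu).2 (mem_filter.mp hu2).2
              _ = T1.card * N T2 := by rw [sum_const, smul_eq_mul]
              _ ≤ D * N T2 := Nat.mul_le_mul_right _ hT1D
          have h3 : 2 * D * N T2 ≤ 2 * D * N T + D * N T2 := by
            calc 2 * D * N T2 ≤ 2 * D * (N T + ∑ u ∈ T1,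
              (univ.filter (fun f => (∀ w ∈ T2, ¬ bad w f) ∧ bad u f)).card) :=
                  Nat.mul_le_mul_left _ hcover
              _ = 2 * D * N T + 2 * D * ∑ u ∈ T1,
              (univ.filter (fun f => (∀ w ∈ T2, ¬ bad w f) ∧ bad u f)).card := by ring
              _ ≤ _ := Nat.add_le_add_left hsum _
          have h4 : D * N T2 ≤ D * (2 * N T) := by nlinarith
          exact Nat.le_of_mul_le_mul_left h4 hD1
      have h5 : 4 * D * (univ.filter (fun f => (∀ u ∈ T, ¬ bad u f) ∧ bad v f)).card ≤ N T2 :=
        (Nat.mul_le_mul_left _ hsub).trans hb2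
      have h6 : 2 * (2 * D * (univ.filter (fun f => (∀ u ∈ T, ¬ bad u f) ∧ bad v f)).card) ≤
          2 * N T := by
        calc _ = 4 * D * (univ.filter (fun f => (∀ u ∈ T, ¬ bad u f) ∧ bad v f)).card := by ring
          _ ≤ _ := h5.trans hNT
      omega
  have hposN : ∀ T : Finset V, 0 < N T := by
    intro T
    induction T using Finset.induction_on with
    | empty =>
      have : N ∅ = Fintype.card (V → α) := by
        simp [hN]
      rw [this]; exact hall
    | insert v T hv ih =>
      have h1 := key _ T rfl v hv
      have h2 : N T ≤ N (insert v T) +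
          (univ.filter (fun f => (∀ u ∈ T, ¬ bad u f) ∧ bad v f)).card := by
        have : (univ.filter (fun f : V → α => ∀ v ∈ T, ¬ bad v f)) ⊆
            (univ.filter (fun f => ∀ w ∈ insert v T, ¬ bad w f)) ∪
              univ.filter (fun f => (∀ w ∈ T, ¬ bad w f) ∧ bad v f) := by
          intro f hf
          rw [mem_filter] at hf
          rw [mem_union, mem_filter, mem_filter]
          by_cases hb : bad v f
          · exact Or.inr ⟨mem_univ _, hf.2, hb⟩
          · left
            refine ⟨mem_univ _, fun w hw => ?_⟩
            rcases mem_insert.mp hw with rfl | hw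
            · exact hb
            · exact hf.2 w hw
        exact (card_le_card this).trans (card_union_le _ _)
      by_contra hcon
      have h0 : N (insert v T) = 0 := by omega
      rw [h0, zero_add] at h2
      have h3 : 2 * D * N T ≤ N T := (Nat.mul_le_mul_left _ h2).trans h1
      nlinarith
  have := hposN univ
  obtain ⟨f, hf⟩ := card_pos.mp this
  exact ⟨f, fun v => (mem_filter.mp hf).2 v (mem_univ _)⟩

/-- Three-colouring of a loopless functional relation. -/
lemma three_col (R : V → V → Prop) (hfun : ∀ v u u', R v u → R v u' → u = u')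
    (hirr : ∀ v, ¬ R v v) : ∃ φ : V → Fin 3, ∀ v u, R v u → φ v ≠ φ u := by
  classical
  have key : ∀ n : ℕ, ∀ S : Finset V, S.card = n →
      ∃ φ : V → Fin 3, ∀ v ∈ S, ∀ u ∈ S, R v u → φ v ≠ φ u := by
    intro n
    induction n with
    | zero =>
      intro S hS
      rw [card_eq_zero] at hS
      subst hS
      exact ⟨fun _ => 0, by simp⟩
    | succ n ih =>
      intro S hS
      have hne : S.Nonempty := by rw [← card_pos, hS]; omega
      have hex : ∃ u ∈ S, (S.filter (fun v => R v u)).card ≤ 1 := by
        by_contra hcon
        push Not at hcon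
        have h1 : 2 * S.card ≤ S.card := by
          calc 2 * S.card = ∑ u ∈ S, 2 := by rw [sum_const, smul_eq_mul, mul_comm]
            _ ≤ ∑ u ∈ S, (S.filter (fun v => R v u)).card :=
                sum_le_sum (fun u hu => hcon u hu)
            _ = ∑ v ∈ S, (S.filter (fun u => R v u)).card := by
                simp_rw [card_filter]
                exact sum_comm
            _ ≤ ∑ v ∈ S, 1 := by
                refine sum_le_sum (fun v _ => ?_)
                rw [card_le_one]
                intro a ha b hb
                exact hfun v a b (mem_filter.mp ha).2 (mem_filter.mp hb).2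
            _ = S.card := by simp
        omega
      obtain ⟨u, hu, hdeg⟩ := hex
      obtain ⟨φ, hφ⟩ := ih (S.erase u) (by rw [card_erase_of_mem hu, hS]; rfl)
      -- forbidden colours
      set Fb : Finset (Fin 3) := ((S.filter (fun v => R v u)).image φ) ∪
        ((S.filter (fun v => R u v)).image φ) with hFb
      have hFbc : Fb.card ≤ 2 := by
        refine (card_union_le _ _).trans ?_
        have h1 : ((S.filter (fun v => R v u)).image φ).card ≤ 1 := card_image_le.trans hdeg
        have h2 : ((S.filter (fun v => R u v)).image φ).card ≤ 1 := by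
          refine card_image_le.trans ?_
          rw [card_le_one]
          intro a ha b hb
          exact hfun u a b (mem_filter.mp ha).2 (mem_filter.mp hb).2
        omega
      obtain ⟨c, hc⟩ : ∃ c, c ∉ Fb := by
        by_contra hcon
        push Not at hcon
        have : (univ : Finset (Fin 3)) ⊆ Fb := fun c _ => hcon c
        have := card_le_card this
        simp at this
        omega
      refine ⟨Function.update φ u c, fun a ha b hb hab => ?_⟩
      by_cases hau : a = u
      · subst hau
        have hba : b ≠ a := fun h => hirr a (h ▸ hab)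
        rw [Function.update_self, Function.update_of_ne hba]
        intro h
        apply hc
        rw [hFb, mem_union]
        right
        exact mem_image.mpr ⟨b, mem_filter.mpr ⟨hb, hab⟩, h.symm⟩
      · by_cases hbu : b = u
        · subst hbu
          rw [Function.update_self, Function.update_of_ne hau]
          intro h
          apply hc
          rw [hFb, mem_union]
          left
          exact mem_image.mpr ⟨a, mem_filter.mpr ⟨ha, hab⟩, h⟩
        · rw [Function.update_of_ne hau, Function.update_of_ne hbu]
          exact hφ a (mem_erase.mpr ⟨hau, ha⟩) b (mem_erase.mpr ⟨hbu, hb⟩) hab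
  obtain ⟨φ, hφ⟩ := key _ univ rfl
  exact ⟨φ, fun v u h => hφ v (mem_univ _) u (mem_univ _) h⟩

omit [Fintype V] in
/-- An injection of a small set into `Fin p`. -/
lemma exists_injOn_fin (S : Finset V) (p : ℕ) (hp : 0 < p) (hS : S.card ≤ p) :
    ∃ g : V → Fin p, ∀ u ∈ S, ∀ u' ∈ S, g u = g u' → u = u' := by
  refine ⟨fun u => if h : u ∈ S then Fin.castLE hS (S.equivFin ⟨u, h⟩) else ⟨0, hp⟩, ?_⟩
  intro u hu u' hu' h
  simp only [hu, hu', dif_pos] at h
  have h2 := (Fin.castLE_injective hS) h
  have h3 := S.equivFin.injective h2
  exact congrArg Subtype.val h3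

end Pool.Agent.Helper32.E7
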