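import Mathlib

set_option autoImplicit false

namespace Pool.Agent.Helper32.E7

open Finset

/-- The greedy choice at one vertex. -/
lemma greedy {V P : Type} [DecidableEq V] [Fintype P] [DecidableEq P] (p : ℕ) (_hp : 0 < p)
    (hP : Fintype.card P = 16 * p) (N Blk : Finset P) (hBlk : Blk.card = p)
    (X : V → P → ℕ) (A : Finset V) (hAN : A.card + N.card ≤ 10 * p)
    (hX2 : ∀ u ∈ A, (univ.filter (fun c => 2 ≤ X u c)).card ≤ 5 * p)
    (hX1 : ∀ u ∈ A, (univ.filter (fun c => X u c ≠ 0)).card ≤ 10 * p) :
    ∃ g : V → P, (∀ u ∈ A, ∀ u' ∈ A, g u = g u' → u = u') ∧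
      (∀ u ∈ A, g u ∉ N ∧ g u ∉ Blk ∧ X u (g u) ≤ 1) ∧
      (A.filter (fun u => X u (g u) ≠ 0)).card ≤ (A.card + N.card) - 5 * p := by
  induction A using Finset.induction_on with
  | empty =>
    have hne : Nonempty P := by
      rw [← Fintype.card_pos_iff, hP]; omega
    exact ⟨fun _ => hne.some, by simp, by simp, by simp⟩
  | insert a A ha ih =>
    rw [card_insert_of_notMem ha] at hAN ⊢
    obtain ⟨g, hinj, hg, hcard⟩ := ih (by omega) (fun u hu => hX2 u (mem_insert_of_mem hu))
      (fun u hu => hX1 u (mem_insert_of_mem hu))
    set U := N ∪ A.image g with hU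
    have hUc : U.card ≤ A.card + N.card := by
      refine (card_union_le _ _).trans ?_
      have : (A.image g).card ≤ A.card := card_image_le
      omega
    have hchoose : ∃ c : P, c ∉ U ∧ c ∉ Blk ∧ X a c ≤ 1 ∧
        (X a c = 0 ∨ 5 * p ≤ A.card + N.card) := by
      by_cases hex : ∃ c : P, c ∉ U ∧ c ∉ Blk ∧ X a c = 0
      · obtain ⟨c, h1, h2, h3⟩ := hex
        exact ⟨c, h1, h2, by omega, Or.inl h3⟩
      · push Not at hex
        have h1 : 16 * p ≤ U.card + p + 10 * p := by
          have hsub : (univ : Finset P) ⊆ (U ∪ Blk) ∪ univ.filter (fun c => X a c ≠ 0) := by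
            intro c _
            by_cases hc1 : c ∈ U
            · simp [hc1]
            · by_cases hc2 : c ∈ Blk
              · simp [hc2]
              · have := hex c hc1 hc2
                simp [this]
          have h2 := card_le_card hsub
          rw [card_univ, hP] at h2
          have h3 := card_union_le (U ∪ Blk) (univ.filter (fun c => X a c ≠ 0))
          have h4 := card_union_le U Blk
          have h5 := hX1 a (mem_insert_self a A)
          omega
        have hex2 : ∃ c : P, c ∉ (U ∪ Blk) ∪ univ.filter (fun c => 2 ≤ X a c) := by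
          by_contra hcon
          push Not at hcon
          have hsub : (univ : Finset P) ⊆ (U ∪ Blk) ∪ univ.filter (fun c => 2 ≤ X a c) :=
            fun c _ => hcon c
          have h2 := card_le_card hsub
          rw [card_univ, hP] at h2
          have h3 := card_union_le (U ∪ Blk) (univ.filter (fun c => 2 ≤ X a c))
          have h4 := card_union_le U Blk
          have h5 := hX2 a (mem_insert_self a A)
          omega
        obtain ⟨c, hc⟩ := hex2
        simp only [mem_union, mem_filter, mem_univ, true_and, not_or, not_le] at hc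
        refine ⟨c, hc.1.1, hc.1.2, by omega, Or.inr (by omega)⟩
    obtain ⟨c, hcU, hcB, hc1, hc2⟩ := hchoose
    have hcN : c ∉ N := fun h => hcU (mem_union_left _ h)
    have hcA : ∀ u ∈ A, g u ≠ c := fun u hu h =>
      hcU (mem_union_right _ (mem_image.mpr ⟨u, hu, h⟩))
    have hupd : ∀ u ∈ A, Function.update g a c u = g u := fun u hu =>
      Function.update_of_ne (fun h => ha (by rw [← h]; exact hu)) _ _
    refine ⟨Function.update g a c, ?_, ?_, ?_⟩
    · intro u hu u' hu' h
      rcases mem_insert.mp hu with e | hu1 <;> rcases mem_insert.mp hu' with e' | hu1'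
      · rw [e, e']
      · rw [e, Function.update_self, hupd u' hu1'] at h
        exact absurd h.symm (hcA u' hu1')
      · rw [e', Function.update_self, hupd u hu1] at h
        exact absurd h (hcA u hu1)
      · rw [hupd u hu1, hupd u' hu1'] at h
        exact hinj u hu1 u' hu1' h
    · intro u hu
      rcases mem_insert.mp hu with rfl | hu
      · rw [Function.update_self]
        exact ⟨hcN, hcB, hc1⟩
      · rw [hupd u hu]
        exact hg u hu
    · rw [filter_insert, Function.update_self]
      have hsame : A.filter (fun u => X u (Function.update g a c u) ≠ 0) =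
          A.filter (fun u => X u (g u) ≠ 0) := by
        refine filter_congr (fun u hu => ?_)
        rw [hupd u hu]
      rw [hsame]
      split_ifs with h
      · have h2 : 5 * p ≤ A.card + N.card := by
          rcases hc2 with h0 | h0
          · exact absurd h0 h
          · exact h0
        refine (card_insert_le _ _).trans ?_
        omega
      · omega

/-- Recursion along decreasing levels. -/
lemma level_rec {V Y : Type} [Finite V] [Nonempty Y] (lev : V → ℕ) (R : V → Y → (V → Y) → Prop)
    (hdep : ∀ v y (X X' : V → Y), (∀ u, lev v < lev u → X u = X' u) → R v y X → R v y X')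
    (hex : ∀ v (X : V → Y), (∀ u, lev v < lev u → R u (X u) X) → ∃ y, R v y X) :
    ∃ X : V → Y, ∀ v, R v (X v) X := by
  classical
  obtain ⟨M, hM⟩ : ∃ M, ∀ v, lev v < M := by
    obtain ⟨M, hM⟩ := (Set.finite_range lev).bddAbove
    exact ⟨M + 1, fun v => Nat.lt_succ_of_le (hM ⟨v, rfl⟩)⟩
  have key : ∀ n, ∃ X : V → Y, ∀ v, M ≤ lev v + n → R v (X v) X := by
    intro n
    induction n with
    | zero =>
      exact ⟨fun _ => Classical.arbitrary Y, fun v hv => absurd (hM v) (by omega)⟩
    | succ n ih =>
      obtain ⟨X, hX⟩ := ih
      have hch : ∀ v, ∃ y, M = lev v + n + 1 → R v y X := by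
        intro v
        by_cases h : M = lev v + n + 1
        · obtain ⟨y, hy⟩ := hex v X (fun u hu => hX u (by omega))
          exact ⟨y, fun _ => hy⟩
        · exact ⟨Classical.arbitrary Y, fun h' => absurd h' h⟩
      choose Z hZ using hch
      set X' : V → Y := fun v => if M = lev v + n + 1 then Z v else X v with hX'
      have hagree : ∀ v, M ≤ lev v + n + 1 → ∀ u, lev v < lev u → X u = X' u := by
        intro v hv u hu
        simp only [hX']
        rw [if_neg (by omega)]
      refine ⟨X', fun v hv => ?_⟩
      by_cases h : M = lev v + n + 1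
      · refine hdep v _ X X' (hagree v (by omega)) ?_
        simp only [hX']
        rw [if_pos h]
        exact hZ v h
      · refine hdep v _ X X' (hagree v (by omega)) ?_
        simp only [hX']
        rw [if_neg h]
        exact hX v (by omega)
  obtain ⟨X, hX⟩ := key M
  exact ⟨X, fun v => hX v (by omega)⟩

end Pool.Agent.Helper32.E7
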