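import Mathlib
import Pool.Agent.Helper32.E7Comb

set_option autoImplicit false

namespace Pool.Agent.Helper32.E7

open Finset

variable {V : Type} [Fintype V] [DecidableEq V]

/-- Exponential moment of the number of elements of `B` with colour `i`. -/
lemma moment (B : Finset V) (i : Fin 16) (t : ℝ) :
    ∑ f : V → Fin 16, t ^ (B.filter (fun u => f u = i)).card =
      (16 : ℝ) ^ (Fintype.card V - B.card) * (15 + t) ^ B.card := by
  have h1 : ∀ f : V → Fin 16, t ^ (B.filter (fun u => f u = i)).card =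
      ∏ u : V, (if u ∈ B ∧ f u = i then t else 1) := by
    intro f
    rw [Finset.prod_ite, prod_const_one, mul_one, prod_const]
    congr 2
    ext u
    simp
  simp_rw [h1]
  have h2 := Finset.prod_univ_sum (fun _ : V => (univ : Finset (Fin 16)))
    (fun u a => if u ∈ B ∧ a = i then t else 1)
  rw [Fintype.piFinset_univ] at h2
  rw [← h2]
  have h3 : ∀ u : V, ∑ a : Fin 16, (if u ∈ B ∧ a = i then t else (1 : ℝ)) =
      if u ∈ B then 15 + t else 16 := by
    intro u
    by_cases hu : u ∈ B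
    · simp only [hu, true_and, if_true]
      rw [Finset.sum_ite, sum_const, sum_const, filter_eq' univ i]
      simp only [mem_univ, if_true, card_singleton, one_smul, nsmul_eq_mul, mul_one]
      have : (univ.filter (fun a : Fin 16 => ¬ a = i)).card = 15 := by
        rw [filter_not, filter_eq' univ i]
        simp [card_sdiff]
      rw [this]; norm_num; ring
    · simp [hu]
  simp_rw [h3]
  rw [Finset.prod_ite, prod_const, prod_const, mul_comm]
  congr 1
  · congr 1
    rw [filter_not, filter_mem_eq_inter, univ_inter, ← compl_eq_univ_sdiff, card_compl]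
  · congr 1
    rw [filter_mem_eq_inter, univ_inter]

lemma num1 : ((83 : ℝ) / 80) ^ 10 * (5 / 8) ≤ 10 / 11 := by norm_num

lemma tail (B : Finset V) (p : ℕ) (hB : B.card ≤ 10 * p) (i : Fin 16) :
    ((univ.filter (fun f : V → Fin 16 => p < (B.filter (fun u => f u = i)).card)).card : ℝ) ≤
      (16 : ℝ) ^ (Fintype.card V) * (10 / 11) ^ p := by
  set S := univ.filter (fun f : V → Fin 16 => p < (B.filter (fun u => f u = i)).card) with hS
  have hm := moment B i (8 / 5)
  have h1 : (S.card : ℝ) * (8 / 5) ^ p ≤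
      ∑ f : V → Fin 16, (8 / 5 : ℝ) ^ (B.filter (fun u => f u = i)).card := by
    calc (S.card : ℝ) * (8 / 5) ^ p = ∑ f ∈ S, (8 / 5 : ℝ) ^ p := by
          rw [sum_const, nsmul_eq_mul]
      _ ≤ ∑ f ∈ S, (8 / 5 : ℝ) ^ (B.filter (fun u => f u = i)).card := by
          refine sum_le_sum (fun f hf => ?_)
          exact pow_le_pow_right₀ (by norm_num) (mem_filter.mp hf).2.le
      _ ≤ _ := sum_le_sum_of_subset_of_nonneg (subset_univ _) (fun f _ _ => by positivity)
  rw [hm] at h1
  have hBV : B.card ≤ Fintype.card V := card_le_univ B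
  have h2 : (16 : ℝ) ^ (Fintype.card V - B.card) * (15 + 8 / 5) ^ B.card =
      16 ^ (Fintype.card V) * (83 / 80) ^ B.card := by
    have e : (16 : ℝ) ^ (Fintype.card V) = 16 ^ (Fintype.card V - B.card) * 16 ^ B.card := by
      rw [← pow_add]; congr 1; omega
    rw [e, mul_assoc, ← mul_pow]
    norm_num
  have h3 : ((83 : ℝ) / 80) ^ B.card ≤ (83 / 80) ^ (10 * p) :=
    pow_le_pow_right₀ (by norm_num) hB
  have h4 : (S.card : ℝ) * (8 / 5) ^ p ≤ 16 ^ (Fintype.card V) * (83 / 80) ^ (10 * p) := by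
    rw [h2] at h1
    exact h1.trans (mul_le_mul_of_nonneg_left h3 (by positivity))
  have h5 : (S.card : ℝ) = (S.card : ℝ) * (8 / 5) ^ p * (5 / 8) ^ p := by
    rw [mul_assoc, ← mul_pow]; norm_num
  rw [h5]
  calc (S.card : ℝ) * (8 / 5) ^ p * (5 / 8) ^ p ≤
      16 ^ (Fintype.card V) * (83 / 80) ^ (10 * p) * (5 / 8) ^ p :=
        mul_le_mul_of_nonneg_right h4 (by positivity)
    _ = 16 ^ (Fintype.card V) * (((83 : ℝ) / 80) ^ 10 * (5 / 8)) ^ p := by
        rw [mul_pow, ← pow_mul]; ring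
    _ ≤ 16 ^ (Fintype.card V) * (10 / 11) ^ p := by
        refine mul_le_mul_of_nonneg_left ?_ (by positivity)
        exact pow_le_pow_left₀ (by positivity) num1 p

lemma num2 (p : ℕ) (hp : 400 ≤ p) : 6400 * p ^ 2 * 10 ^ p ≤ 11 ^ p := by
  induction p, hp using Nat.le_induction with
  | base =>
    have e1 : (10 : ℕ) ^ 400 = 10 ^ 200 * 10 ^ 200 := by rw [← pow_add]
    have e2 : (11 : ℕ) ^ 400 = 11 ^ 200 * 11 ^ 200 := by rw [← pow_add]
    rw [e1, e2]
    norm_num
  | succ p hp ih =>
    have h1 : 10 * (p + 1) ^ 2 ≤ 11 * p ^ 2 := by nlinarith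
    calc 6400 * (p + 1) ^ 2 * 10 ^ (p + 1) = 6400 * 10 ^ p * (10 * (p + 1) ^ 2) := by ring
      _ ≤ 6400 * 10 ^ p * (11 * p ^ 2) := Nat.mul_le_mul_left _ h1
      _ = 11 * (6400 * p ^ 2 * 10 ^ p) := by ring
      _ ≤ 11 * 11 ^ p := Nat.mul_le_mul_left _ ih
      _ = 11 ^ (p + 1) := by ring

/-- The splitting lemma. -/
lemma splitting (p : ℕ) (hp : 400 ≤ p) (B : V → Finset V) (hB : ∀ v, (B v).card ≤ 10 * p)
    (hB' : ∀ u, (univ.filter (fun v => u ∈ B v)).card ≤ 10 * p) :
    ∃ s : V → Fin 16, ∀ v i, ((B v).filter (fun u => s u = i)).card ≤ p := by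
  classical
  have := lll (α := Fin 16) B
    (fun v f => ∃ i, p < ((B v).filter (fun u => f u = i)).card) ?_ (100 * p ^ 2) (by nlinarith)
    ?_ ?_
  · obtain ⟨s, hs⟩ := this
    refine ⟨s, fun v i => ?_⟩
    have := hs v
    push Not at this
    exact this i
  · rintro v f g hfg ⟨i, hi⟩
    refine ⟨i, hi.trans_le (le_of_eq ?_)⟩
    congr 1
    refine filter_congr (fun u hu => ?_)
    rw [hfg u hu]
  · intro v
    have h1 : (univ.filter (fun u => ¬ Disjoint (B u) (B v))) ⊆
        (B v).biUnion (fun w => univ.filter (fun u => w ∈ B u)) := by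
      intro u hu
      rw [mem_filter, Finset.not_disjoint_iff] at hu
      obtain ⟨-, w, hw1, hw2⟩ := hu
      rw [mem_biUnion]
      exact ⟨w, hw2, mem_filter.mpr ⟨mem_univ _, hw1⟩⟩
    calc (univ.filter (fun u => ¬ Disjoint (B u) (B v))).card ≤ _ := card_le_card h1
      _ ≤ ∑ w ∈ B v, (univ.filter (fun u => w ∈ B u)).card := card_biUnion_le
      _ ≤ ∑ w ∈ B v, 10 * p := sum_le_sum (fun w _ => hB' w)
      _ = (B v).card * (10 * p) := by rw [sum_const, smul_eq_mul]
      _ ≤ (10 * p) * (10 * p) := Nat.mul_le_mul_right _ (hB v)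
      _ = 100 * p ^ 2 := by ring
  · intro v
    have h1 : (univ.filter (fun f : V → Fin 16 =>
        ∃ i, p < ((B v).filter (fun u => f u = i)).card)).card ≤
        ∑ i : Fin 16, (univ.filter (fun f : V → Fin 16 =>
          p < ((B v).filter (fun u => f u = i)).card)).card := by
      refine (card_le_card ?_).trans card_biUnion_le
      intro f hf
      rw [mem_filter] at hf
      obtain ⟨-, i, hi⟩ := hf
      rw [mem_biUnion]
      exact ⟨i, mem_univ _, mem_filter.mpr ⟨mem_univ _, hi⟩⟩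
    have h2 : ((univ.filter (fun f : V → Fin 16 =>
        ∃ i, p < ((B v).filter (fun u => f u = i)).card)).card : ℝ) ≤
        16 * ((16 : ℝ) ^ (Fintype.card V) * (10 / 11) ^ p) := by
      calc _ ≤ ((∑ i : Fin 16, (univ.filter (fun f : V → Fin 16 =>
          p < ((B v).filter (fun u => f u = i)).card)).card : ℕ) : ℝ) := by exact_mod_cast h1
        _ = ∑ i : Fin 16, ((univ.filter (fun f : V → Fin 16 =>
          p < ((B v).filter (fun u => f u = i)).card)).card : ℝ) := by push_cast; rfl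
        _ ≤ ∑ i : Fin 16, (16 : ℝ) ^ (Fintype.card V) * (10 / 11) ^ p :=
            sum_le_sum (fun i _ => tail (B v) p (hB v) i)
        _ = _ := by rw [sum_const]; simp
    have h3 : (6400 : ℝ) * p ^ 2 * (10 / 11) ^ p ≤ 1 := by
      have h4 : (6400 : ℝ) * p ^ 2 * 10 ^ p ≤ 11 ^ p := by exact_mod_cast num2 p hp
      rw [div_pow, ← mul_div_assoc, div_le_one (by positivity)]
      exact h4
    have h5 : ((4 * (100 * p ^ 2) * (univ.filter (fun f : V → Fin 16 =>
        ∃ i, p < ((B v).filter (fun u => f u = i)).card)).card : ℕ) : ℝ) ≤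
        (Fintype.card (V → Fin 16) : ℝ) := by
      push_cast
      have e : (Fintype.card (V → Fin 16) : ℝ) = 16 ^ (Fintype.card V) := by
        rw [Fintype.card_fun]; simp
      rw [e]
      calc _ ≤ 4 * (100 * (p : ℝ) ^ 2) * (16 * ((16 : ℝ) ^ (Fintype.card V) * (10 / 11) ^ p)) :=
            mul_le_mul_of_nonneg_left h2 (by positivity)
        _ = 16 ^ (Fintype.card V) * (6400 * (p : ℝ) ^ 2 * (10 / 11) ^ p) := by ring
        _ ≤ 16 ^ (Fintype.card V) * 1 := mul_le_mul_of_nonneg_left h3 (by positivity)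
        _ = _ := mul_one _
    exact_mod_cast h5

end Pool.Agent.Helper32.E7
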