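import Mathlib
import Pool.Agent.Helper32.E7Basic
import Pool.Agent.Helper32.E7Split
import Pool.Agent.Helper32.E7Greedy

set_option autoImplicit false

namespace Pool.Agent.Helper32.E7

open Finset

/-- Potentials and colours of the edges going up, together with the colours `N v` of the normal
edges. -/
lemma vertex_step {V : Type} [DecidableEq V] (p : ℕ) (hp : 0 < p)
    (i : Fin 16) (N : Finset (Fin 16 × Fin p)) (hN : ∀ c ∈ N, c.1 ≠ i)
    (A : Finset V) (hAN : A.card + N.card ≤ 10 * p) (X : V → Fin 16 × Fin p → ℕ)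
    (hX2 : ∀ u ∈ A, (univ.filter (fun c => 2 ≤ X u c)).card ≤ 5 * p)
    (hX1 : ∀ u ∈ A, (univ.filter (fun c => X u c ≠ 0)).card ≤ 10 * p) :
    ∃ (x : Fin 16 × Fin p → ℕ) (g : V → Fin 16 × Fin p),
      (∀ c, x c ≤ 2) ∧ (univ.filter (fun c => 2 ≤ x c)).card ≤ 5 * p ∧
      (univ.filter (fun c => x c ≠ 0)).card ≤ 10 * p ∧ (∀ c, x c ≠ 0 → c.1 ≠ i) ∧
      (∀ c ∈ N, 1 ≤ x c) ∧ (∀ u ∈ A, ∀ u' ∈ A, g u = g u' → u = u') ∧ (∀ u ∈ A, g u ∉ N) ∧
      (∀ u ∈ A, X u (g u) < x (g u)) := by
  classical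
  have hcardP : Fintype.card (Fin 16 × Fin p) = 16 * p := by simp
  set Blk : Finset (Fin 16 × Fin p) := univ.filter (fun c => c.1 = i) with hBlk
  have hBlkc : Blk.card = p := by
    have : Blk = (univ : Finset (Fin p)).image (fun t => (i, t)) := by
      ext ⟨a, b⟩
      simp only [hBlk, mem_filter, mem_univ, true_and, mem_image, Prod.mk.injEq]
      constructor
      · intro h; exact ⟨b, h.symm, rfl⟩
      · rintro ⟨_, h, _⟩; exact h.symm
    rw [this, card_image_of_injective _ (fun a b h => (Prod.mk.inj h).2), card_univ,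
      Fintype.card_fin]
  obtain ⟨g, hinj, hg, hcard⟩ := greedy p hp hcardP N Blk hBlkc X A hAN hX2 hX1
  set x : Fin 16 × Fin p → ℕ := fun c =>
    if c ∈ N then 1 else if h : ∃ u ∈ A, g u = c then X h.choose c + 1 else 0 with hx
  have hxN : ∀ c ∈ N, x c = 1 := fun c hc => by simp only [hx]; rw [if_pos hc]
  have hxg : ∀ u ∈ A, x (g u) = X u (g u) + 1 := by
    intro u hu
    simp only [hx]
    have hex : ∃ u' ∈ A, g u' = g u := ⟨u, hu, rfl⟩
    rw [if_neg (hg u hu).1, dif_pos hex]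
    have h1 := hinj _ hex.choose_spec.1 u hu hex.choose_spec.2
    rw [h1]
  have hcase : ∀ c, c ∈ N ∨ (∃ u ∈ A, g u = c) ∨ x c = 0 := by
    intro c
    by_cases h1 : c ∈ N
    · exact Or.inl h1
    · by_cases h2 : ∃ u ∈ A, g u = c
      · exact Or.inr (Or.inl h2)
      · right; right
        simp only [hx]
        rw [if_neg h1, dif_neg h2]
  refine ⟨x, g, ?_, ?_, ?_, ?_, ?_, hinj, fun u hu => (hg u hu).1, ?_⟩
  · intro c
    rcases hcase c with h | ⟨u, hu, rfl⟩ | h
    · rw [hxN c h]; norm_num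
    · rw [hxg u hu]
      have := (hg u hu).2.2
      omega
    · omega
  · have hsub : univ.filter (fun c => 2 ≤ x c) ⊆
        (A.filter (fun u => X u (g u) ≠ 0)).image g := by
      intro c hc
      have hc2 := (mem_filter.mp hc).2
      rcases hcase c with h | ⟨u, hu, rfl⟩ | h
      · rw [hxN c h] at hc2; omega
      · rw [hxg u hu] at hc2
        exact mem_image.mpr ⟨u, mem_filter.mpr ⟨hu, by omega⟩, rfl⟩
      · omega
    refine (card_le_card hsub).trans (card_image_le.trans (hcard.trans ?_))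
    omega
  · have hsub : univ.filter (fun c => x c ≠ 0) ⊆ A.image g ∪ N := by
      intro c hc
      have hc2 := (mem_filter.mp hc).2
      rw [mem_union]
      rcases hcase c with h | ⟨u, hu, rfl⟩ | h
      · exact Or.inr h
      · exact Or.inl (mem_image.mpr ⟨u, hu, rfl⟩)
      · exact absurd h hc2
    refine (card_le_card hsub).trans ((card_union_le _ _).trans ?_)
    have : (A.image g).card ≤ A.card := card_image_le
    omega
  · intro c hc
    rcases hcase c with h | ⟨u, hu, rfl⟩ | h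
    · exact hN c h
    · intro hi
      exact (hg u hu).2.1 (mem_filter.mpr ⟨mem_univ _, hi⟩)
    · exact absurd h hc
  · intro c hc
    rw [hxN c hc]
  · intro u hu
    rw [hxg u hu]
    omega

/-- The core construction. -/
lemma core {V : Type} [Fintype V] [DecidableEq V] (G : SimpleGraph V) (E : V → V → Prop)
    (hE1 : ∀ v u, G.Adj v u ↔ (E v u ∨ E u v)) (hE2 : ∀ v u, E v u → ¬ E u v)
    (p : ℕ) (hp : 400 ≤ p) (out : V → Finset V) (hout : ∀ v u, u ∈ out v ↔ E v u)
    (houtc : ∀ v, (out v).card ≤ 10 * p) (m : ℕ) (hm : 19 * p ≤ m) : Decomposes 4 G m := by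
  classical
  obtain ⟨lev, hlev⟩ := exists_levels out (10 * p) houtc _ univ rfl
  set A : V → Finset V := fun v => (out v).filter (fun u => lev v < lev u) with hA
  set B : V → Finset V := fun v => (out v).filter (fun u => ¬ lev v < lev u) with hB
  have hAB : ∀ v, (A v).card + (B v).card ≤ 10 * p := by
    intro v
    rw [hA, hB, card_filter_add_card_filter_not]
    exact houtc v
  have hBE : ∀ v u, u ∈ B v → E v u := fun v u h => (hout v u).mp (mem_filter.mp h).1
  have hAE : ∀ v u, u ∈ A v → E v u := fun v u h => (hout v u).mp (mem_filter.mp h).1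
  obtain ⟨s, hs⟩ := splitting p hp B (fun v => by have := hAB v; omega) (by
    intro u
    refine (card_le_card ?_).trans (hlev u (mem_univ _))
    intro v hv
    have h2 := mem_filter.mp (mem_filter.mp hv).2
    exact mem_filter.mpr ⟨mem_univ _, h2.1, not_lt.mp h2.2⟩)
  have hj : ∀ v i, ∃ g : V → Fin p, ∀ u ∈ (B v).filter (fun u => s u = i),
      ∀ u' ∈ (B v).filter (fun u => s u = i), g u = g u' → u = u' :=
    fun v i => exists_injOn_fin _ p (by omega) (hs v i)
  choose jj hjj using hj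
  set j : V → V → Fin p := fun v u => jj v (s u) u with hjdef
  have hjinj : ∀ v u u', u ∈ B v → u' ∈ B v → s u = s u' → j v u = j v u' → u = u' := by
    intro v u u' hu hu' hss h
    refine hjj v (s u) u (mem_filter.mpr ⟨hu, rfl⟩) u' (mem_filter.mpr ⟨hu', hss.symm⟩) ?_
    simp only [hjdef] at h
    rw [h, hss]
  -- exceptional colours
  have hφ : ∀ t : Fin p, ∃ φ : V → Fin 3, ∀ v u, (u ∈ B v ∧ s u = s v ∧ j v u = t) →
      φ v ≠ φ u := by
    intro t
    refine three_col (fun v u => u ∈ B v ∧ s u = s v ∧ j v u = t) ?_ ?_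
    · rintro v u u' ⟨h1, h2, h3⟩ ⟨h1', h2', h3'⟩
      exact hjinj v u u' h1 h1' (h2.trans h2'.symm) (h3.trans h3'.symm)
    · rintro v ⟨h1, -, -⟩
      exact hE2 v v (hBE v v h1) (hBE v v h1)
  choose φ hφ using hφ
  -- normal colours
  set N : V → Finset (Fin 16 × Fin p) := fun v =>
    ((B v).filter (fun u => s u ≠ s v)).image (fun u => (s u, j v u)) with hNdef
  have hNc : ∀ v, (N v).card ≤ (B v).card := fun v =>
    card_image_le.trans (card_le_card (filter_subset _ _))
  have hNb : ∀ v, ∀ c ∈ N v, c.1 ≠ s v := by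
    intro v c hc
    obtain ⟨u, hu, rfl⟩ := mem_image.mp hc
    exact (mem_filter.mp hu).2
  -- potentials
  have hne : Nonempty ((Fin 16 × Fin p → ℕ) × (V → Fin 16 × Fin p)) := by
    refine ⟨⟨fun _ => 0, fun _ => (0, ⟨0, by omega⟩)⟩⟩
  obtain ⟨X, hX⟩ := level_rec (Y := (Fin 16 × Fin p → ℕ) × (V → Fin 16 × Fin p)) lev
    (fun v y X => (∀ c, y.1 c ≤ 2) ∧ (univ.filter (fun c => 2 ≤ y.1 c)).card ≤ 5 * p ∧
      (univ.filter (fun c => y.1 c ≠ 0)).card ≤ 10 * p ∧ (∀ c, y.1 c ≠ 0 → c.1 ≠ s v) ∧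
      (∀ c ∈ N v, 1 ≤ y.1 c) ∧ (∀ u ∈ A v, ∀ u' ∈ A v, y.2 u = y.2 u' → u = u') ∧
      (∀ u ∈ A v, y.2 u ∉ N v) ∧ (∀ u ∈ A v, (X u).1 (y.2 u) < y.1 (y.2 u)))
    (by
      rintro v y X X' hXX ⟨h1, h2, h3, h4, h5, h6, h7, h8⟩
      refine ⟨h1, h2, h3, h4, h5, h6, h7, fun u hu => ?_⟩
      rw [← hXX u (mem_filter.mp hu).2]
      exact h8 u hu)
    (by
      intro v X hXv
      obtain ⟨x, g, hxg⟩ := vertex_step p (by omega) (s v) (N v) (hNb v) (A v)
        (by have := hAB v; have := hNc v; omega) (fun u => (X u).1)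
        (fun u hu => (hXv u (mem_filter.mp hu).2).2.1)
        (fun u hu => (hXv u (mem_filter.mp hu).2).2.2.1)
      exact ⟨(x, g), hxg⟩)
  -- the colouring
  set col : V → V → (Fin 16 × Fin p) ⊕ (Fin p × Fin 3) := fun v u =>
    if lev v < lev u then Sum.inl ((X v).2 u)
    else if s u ≠ s v then Sum.inl (s u, j v u) else Sum.inr (j v u, φ (j v u) v) with hcol
  set x : (Fin 16 × Fin p) ⊕ (Fin p × Fin 3) → V → ℕ := fun c v =>
    Sum.elim (fun c => (X v).1 c) (fun c => if φ c.1 v = c.2 then 1 else 0) c with hxdef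
  have hcases : ∀ v u, E v u →
      (u ∈ A v ∧ col v u = Sum.inl ((X v).2 u)) ∨
      (u ∈ B v ∧ s u ≠ s v ∧ col v u = Sum.inl (s u, j v u) ∧ (s u, j v u) ∈ N v) ∨
      (u ∈ B v ∧ s u = s v ∧ col v u = Sum.inr (j v u, φ (j v u) v)) := by
    intro v u h
    have hmem : u ∈ out v := (hout v u).mpr h
    by_cases h1 : lev v < lev u
    · left
      refine ⟨mem_filter.mpr ⟨hmem, h1⟩, ?_⟩
      simp only [hcol]
      rw [if_pos h1]
    · have hBm : u ∈ B v := mem_filter.mpr ⟨hmem, h1⟩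
      by_cases h2 : s u ≠ s v
      · right; left
        refine ⟨hBm, h2, ?_, mem_image.mpr ⟨u, mem_filter.mpr ⟨hBm, h2⟩, rfl⟩⟩
        simp only [hcol]
        rw [if_neg h1, if_pos h2]
      · right; right
        refine ⟨hBm, not_not.mp h2, ?_⟩
        simp only [hcol]
        rw [if_neg h1, if_neg h2]
  refine finish G E hE1 hE2 col x ?_ ?_ ?_ m ?_
  · rintro (c | c) v
    · exact (hX v).1 c
    · simp only [hxdef, Sum.elim_inr]
      split_ifs <;> omega
  · intro v u u' h h' heq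
    rcases hcases v u h with ⟨ha, hc⟩ | ⟨ha, hsu, hc, hN⟩ | ⟨ha, hsu, hc⟩ <;>
      rcases hcases v u' h' with ⟨ha', hc'⟩ | ⟨ha', hsu', hc', hN'⟩ | ⟨ha', hsu', hc'⟩ <;>
      rw [hc, hc'] at heq
    · exact (hX v).2.2.2.2.2.1 u ha u' ha' (Sum.inl_injective heq)
    · exfalso
      apply (hX v).2.2.2.2.2.2.1 u ha
      rw [Sum.inl_injective heq]
      exact hN'
    · exact absurd heq Sum.inl_ne_inr
    · exfalso
      apply (hX v).2.2.2.2.2.2.1 u' ha'
      rw [← Sum.inl_injective heq]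
      exact hN
    · have := Sum.inl_injective heq
      rw [Prod.mk.injEq] at this
      exact hjinj v u u' ha ha' this.1 this.2
    · exact absurd heq Sum.inl_ne_inr
    · exact absurd heq Sum.inr_ne_inl
    · exact absurd heq Sum.inr_ne_inl
    · have := Sum.inr_injective heq
      rw [Prod.mk.injEq] at this
      exact hjinj v u u' ha ha' (hsu.trans hsu'.symm) this.1
  · intro v u h
    rcases hcases v u h with ⟨ha, hc⟩ | ⟨ha, hsu, hc, hN⟩ | ⟨ha, hsu, hc⟩
    · rw [hc]
      exact (hX v).2.2.2.2.2.2.2 u ha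
    · rw [hc]
      have h1 := (hX v).2.2.2.2.1 _ hN
      have h2 : (X u).1 (s u, j v u) = 0 := by
        by_contra hcon
        exact (hX u).2.2.2.1 _ hcon rfl
      show (X u).1 (s u, j v u) < (X v).1 (s u, j v u)
      omega
    · rw [hc]
      simp only [hxdef, Sum.elim_inr, if_true]
      have := hφ (j v u) v u ⟨ha, hsu, rfl⟩
      rw [if_neg (fun h => this h.symm)]
      exact Nat.zero_lt_one
  · simp only [Fintype.card_sum, Fintype.card_prod, Fintype.card_fin]
    omega

/-- Every graph which is a union of `k ≤ 10 p` forests has a decomposition into `19 p` forests of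
diameter at most four. -/
theorem decomposes_four {V : Type} [Finite V] (G : SimpleGraph V) (k p : ℕ) (hp : 400 ≤ p)
    (hk : k ≤ 10 * p) (h : Decomposes ⊤ G k) (m : ℕ) (hm : 19 * p ≤ m) : Decomposes 4 G m := by
  classical
  have := Fintype.ofFinite V
  obtain ⟨F, hac, -, hdis, hsup⟩ := h
  choose P hP1 hP2 hP3 hP4 using fun i => exists_orient (F i) (hac i)
  set E : V → V → Prop := fun v u => ∃ i, P i v u with hE
  refine core G E ?_ ?_ p hp (fun v => univ.filter (fun u => E v u)) (fun v u => by simp)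
    ?_ m hm
  · intro v u
    rw [← hsup, SimpleGraph.iSup_adj]
    constructor
    · rintro ⟨i, hi⟩
      rcases hP3 i v u hi with h | h
      · exact Or.inl ⟨i, h⟩
      · exact Or.inr ⟨i, h⟩
    · rintro (⟨i, h⟩ | ⟨i, h⟩)
      · exact ⟨i, hP2 i v u h⟩
      · exact ⟨i, (hP2 i u v h).symm⟩
  · rintro v u ⟨i, hi⟩ ⟨i', hi'⟩
    by_cases hii : i = i'
    · subst hii
      exact hP4 i v u hi hi'
    · have := hdis i i' hii
      rw [SimpleGraph.disjoint_left] at this
      exact this v u (hP2 i v u hi) (hP2 i' u v hi').symm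
  · intro v
    have hsub : univ.filter (fun u => E v u) ⊆
        (univ : Finset (Fin k)).biUnion (fun i => univ.filter (fun u => P i v u)) := by
      intro u hu
      obtain ⟨i, hi⟩ := (mem_filter.mp hu).2
      exact mem_biUnion.mpr ⟨i, mem_univ _, mem_filter.mpr ⟨mem_univ _, hi⟩⟩
    calc (univ.filter (fun u => E v u)).card ≤ _ := card_le_card hsub
      _ ≤ ∑ i : Fin k, (univ.filter (fun u => P i v u)).card := card_biUnion_le
      _ ≤ ∑ i : Fin k, 1 := by
          refine sum_le_sum (fun i _ => ?_)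
          rw [card_le_one]
          intro a ha b hb
          exact hP1 i v a b (mem_filter.mp ha).2 (mem_filter.mp hb).2
      _ = k := by simp
      _ ≤ 10 * p := hk

theorem arb_four_le {V : Type} [Finite V] (G : SimpleGraph V) (k : ℕ) (hk : 4000 ≤ k)
    (h : arb ⊤ G = k) (d : ℕ∞) (hd : 4 ≤ d) : arb d G ≤ 2 * k - 1 := by
  have hne : {m : ℕ | Decomposes ⊤ G m}.Nonempty := by
    apply Nat.nonempty_of_pos_sInf
    have : sInf {m : ℕ | Decomposes ⊤ G m} = k := h
    rw [this]; omega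
  have hmem : Decomposes ⊤ G k := by
    have := Nat.sInf_mem hne
    have h2 : sInf {m : ℕ | Decomposes ⊤ G m} = k := h
    rw [h2] at this
    exact this
  have h4 := decomposes_four G k ((k + 9) / 10) (by omega) (by omega) hmem (2 * k - 1) (by omega)
  refine Nat.sInf_le ?_
  obtain ⟨F, h1, h2, h3, h5⟩ := h4
  exact ⟨F, h1, fun i u v h => (h2 i u v h).trans hd, h3, h5⟩

end Pool.Agent.Helper32.E7
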