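import Mathlib

/-!
The set of trees on `ℕ` with an infinite branch is not Borel (diagonal argument).
-/

set_option autoImplicit false

namespace Pool.Agent.Helper32.Banach

open Set Filter Topology

/-- The initial segment of length `n` of a sequence, as a list with the latest entry first. -/
def br {A : Type} (f : ℕ → A) : ℕ → List A
  | 0 => []
  | (n + 1) => f n :: br f n

theorem br_length {A : Type} (f : ℕ → A) (n : ℕ) : (br f n).length = n := by
  induction n with
  | zero => rfl
  | succ n ih => simp [br, ih]

theorem br_eq_iff {A : Type} (f g : ℕ → A) (n : ℕ) : br f n = br g n ↔ ∀ i < n, f i = g i := by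
  induction n with
  | zero => simp [br]
  | succ n ih =>
    simp only [br, List.cons.injEq, ih]
    constructor
    · rintro ⟨h1, h2⟩ i hi
      rcases Nat.lt_succ_iff_lt_or_eq.1 hi with h | h
      · exact h2 i h
      · rw [h]; exact h1
    · intro h
      exact ⟨h n (Nat.lt_succ_self n), fun i hi => h i (Nat.lt_succ_of_lt hi)⟩

/-- The sets of nodes which contain all nodes of an infinite branch. -/
def IF : Set (List ℕ → Bool) := {T | ∃ f : ℕ → ℕ, ∀ n, T (br f n) = true}

/-- The diagonal map. -/
def diagR (y : ℕ → Bool) (σ : List ℕ) : Bool :=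
  y (Encodable.encode (σ, br y σ.length))

theorem br_eventually (y : ℕ → Bool) (n : ℕ) : ∀ᶠ y' in 𝓝 y, br y' n = br y n := by
  simp only [br_eq_iff]
  have h : ∀ i ∈ Finset.range n, ∀ᶠ y' in 𝓝 y, y' i = y i := by
    intro i _
    have hc : ContinuousAt (fun y' : ℕ → Bool => y' i) y := (continuous_apply i).continuousAt
    have hs : ({y i} : Set Bool) ∈ 𝓝 (y i) := by
      rw [nhds_discrete]; simp
    have := hc.preimage_mem_nhds hs
    filter_upwards [this] with y' hy'
    simpa using hy'
  have := (Filter.eventually_all_finset (Finset.range n)).2 h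
  filter_upwards [this] with y' hy' i hi
  exact hy' i (Finset.mem_range.2 hi)

theorem continuous_diagR : Continuous diagR := by
  refine continuous_pi fun σ => ?_
  rw [continuous_iff_continuousAt]
  intro y
  have h1 : ContinuousAt (fun y' : ℕ → Bool => y' (Encodable.encode (σ, br y σ.length))) y :=
    (continuous_apply _).continuousAt
  refine h1.congr ?_
  filter_upwards [br_eventually y σ.length] with y' hy'
  simp only [diagR, hy']

theorem polishSpace_bool : PolishSpace Bool := by
  have hcl : IsClosedEmbedding Bool.toNat :=
    IsClosedEmbedding.of_continuous_injective_isClosedMap continuous_of_discreteTopology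
      (fun a b => by cases a <;> cases b <;> simp) (fun s _ => isClosed_discrete _)
  exact hcl.polishSpace

theorem not_measurableSet_IF : ¬ MeasurableSet IF := by
  intro hIF
  have := polishSpace_bool
  classical
  have hD : MeasurableSet {y : ℕ → Bool | diagR y ∉ IF} :=
    (continuous_diagR.measurable hIF.compl)
  have hA := hD.analyticSet
  rw [MeasureTheory.AnalyticSet] at hA
  rcases hA with hA | ⟨f, hf, hrange⟩
  · -- the empty case
    have : (fun _ : ℕ => false) ∈ {y : ℕ → Bool | diagR y ∉ IF} := by
      simp [IF, diagR]
    rw [hA] at this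
    exact this
  · set d : ℕ → Bool := fun m =>
      decide (∃ σ : List ℕ, ∃ s : List Bool, Encodable.encode (σ, s) = m ∧
        ∃ z : ℕ → ℕ, br z σ.length = σ ∧ br (f z) σ.length = s) with hd
    have hRd : ∀ σ : List ℕ, diagR d σ = true ↔
        ∃ z : ℕ → ℕ, br z σ.length = σ ∧ br (f z) σ.length = br d σ.length := by
      intro σ
      have h0 : diagR d σ = decide (∃ σ' : List ℕ, ∃ s : List Bool,
          Encodable.encode (σ', s) = Encodable.encode (σ, br d σ.length) ∧
          ∃ z : ℕ → ℕ, br z σ'.length = σ' ∧ br (f z) σ'.length = s) := rfl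
      rw [h0, decide_eq_true_eq]
      constructor
      · rintro ⟨σ', s, he, z, hz1, hz2⟩
        have := Encodable.encode_injective he
        rw [Prod.mk.injEq] at this
        obtain ⟨rfl, rfl⟩ := this
        exact ⟨z, hz1, hz2⟩
      · rintro ⟨z, hz1, hz2⟩
        exact ⟨σ, br d σ.length, rfl, z, hz1, hz2⟩
    have key : diagR d ∈ IF ↔ d ∈ range f := by
      constructor
      · rintro ⟨g, hg⟩
        choose z hz1 hz2 using fun n => (hRd (br g n)).1 (hg n)
        simp only [br_length] at hz1 hz2
        have hzg : Tendsto z atTop (𝓝 g) := by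
          rw [tendsto_pi_nhds]
          intro i
          refine tendsto_const_nhds.congr' ?_
          filter_upwards [eventually_gt_atTop i] with n hn
          exact ((br_eq_iff _ _ _).1 (hz1 n) i hn).symm
        have hfz : Tendsto (fun n => f (z n)) atTop (𝓝 d) := by
          rw [tendsto_pi_nhds]
          intro i
          refine tendsto_const_nhds.congr' ?_
          filter_upwards [eventually_gt_atTop i] with n hn
          exact ((br_eq_iff _ _ _).1 (hz2 n) i hn).symm
        have hfz' : Tendsto (fun n => f (z n)) atTop (𝓝 (f g)) :=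
          (hf.tendsto g).comp hzg
        exact ⟨g, tendsto_nhds_unique hfz' hfz⟩
      · rintro ⟨z, hz⟩
        refine ⟨z, fun n => ?_⟩
        rw [hRd]
        refine ⟨z, by rw [br_length], by rw [hz]⟩
    have h1 : d ∈ {y : ℕ → Bool | diagR y ∉ IF} ↔ d ∈ range f := by rw [hrange]
    simp only [mem_ofPred_eq, key] at h1
    tauto

end Pool.Agent.Helper32.Banach
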