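import Pool.Agent.Helper32.L1
import Pool.Agent.Helper32.Trees

/-!
# A family of multiplication tables indexed by sets of nodes
-/

set_option autoImplicit false

open Topology Filter

namespace Pool.Agent.Helper32.Banach

/-- Nodes. -/
abbrev Nd : Type := List ℕ

/-- Index set of the basis: matrix units and annihilating vectors. -/
abbrev Ix : Type := (Nd × Nd) ⊕ Nd

/-- All suffixes of the list belong to `T`. -/
def allT (T : Nd → Bool) : Nd → Bool
  | [] => T []
  | (k :: σ) => T (k :: σ) && allT T σ

/-- Small weights. -/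
noncomputable def lam (σ : Nd) : ℝ := (1 / 2) ^ (σ.length + 1)

theorem lam_pos (σ : Nd) : 0 < lam σ := by unfold lam; positivity

theorem lam_le_half (σ : Nd) : lam σ ≤ 1 / 2 := by
  unfold lam
  calc ((1 : ℝ) / 2) ^ (σ.length + 1) ≤ (1 / 2) ^ 1 :=
        pow_le_pow_of_le_one (by norm_num) (by norm_num) (by omega)
    _ = 1 / 2 := by norm_num

/-- Weights of matrix units. -/
noncomputable def eps (i j : Nd) : ℝ := min (lam i) (lam j)

theorem eps_pos (i j : Nd) : 0 < eps i j := lt_min (lam_pos i) (lam_pos j)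

theorem eps_self (i : Nd) : eps i i = lam i := min_self _

theorem eps_mul_le (i j l : Nd) : eps i j * eps j l ≤ 1 / 2 * eps i l := by
  have h1 : eps i j ≤ lam i := min_le_left _ _
  have h2 : eps j l ≤ lam l := min_le_right _ _
  have h3 : eps i j ≤ 1 / 2 := h1.trans (lam_le_half i)
  have h4 : eps j l ≤ 1 / 2 := h2.trans (lam_le_half l)
  have p1 := eps_pos i j
  have p2 := eps_pos j l
  unfold eps at *
  rcases le_total (lam i) (lam l) with h | h
  · rw [min_eq_left h]
    nlinarith
  · rw [min_eq_right h]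
    nlinarith

theorem eps_mul_self_le (i j : Nd) : eps i j * eps j i ≤ lam i ^ 2 := by
  have h1 : eps i j ≤ lam i := min_le_left _ _
  have h2 : eps j i ≤ lam i := min_le_right _ _
  have p1 := eps_pos i j
  have p2 := eps_pos j i
  nlinarith [lam_pos i]

/-- The vectors `v_σ`. -/
noncomputable def vv : Nd → L1 Ix
  | [] => ((1 / 2 : ℝ) : ℂ) • delta (Sum.inr [])
  | (k :: σ) => vv σ + (((1 / 2 : ℝ) ^ (σ.length + 2) : ℝ) : ℂ) • delta (Sum.inr (k :: σ))

theorem norm_vv_le' (σ : Nd) : ‖vv σ‖ ≤ 1 - (1 / 2) ^ (σ.length + 1) := by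
  induction σ with
  | nil =>
    rw [vv, norm_smul, L1.norm_delta, Complex.norm_real]
    norm_num
  | cons k σ ih =>
    rw [vv]
    refine (norm_add_le _ _).trans ?_
    rw [norm_smul, L1.norm_delta, Complex.norm_real, Real.norm_of_nonneg (by positivity),
      List.length_cons]
    have : ((1 : ℝ) / 2) ^ (σ.length + 1) = 2 * (1 / 2) ^ (σ.length + 2) := by ring
    have h2 : ((1 : ℝ) / 2) ^ (σ.length + 1 + 1) = (1 / 2) ^ (σ.length + 2) := by ring
    rw [h2]
    linarith

theorem norm_vv_le (σ : Nd) : ‖vv σ‖ ≤ 1 := by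
  have := norm_vv_le' σ
  have h : (0 : ℝ) < (1 / 2) ^ (σ.length + 1) := by positivity
  linarith

theorem vv_inl (σ : Nd) (p : Nd × Nd) : vv σ (Sum.inl p) = 0 := by
  induction σ with
  | nil => rw [vv, lp.coeFn_smul, Pi.smul_apply, L1.delta_apply, if_neg (by simp), smul_zero]
  | cons k σ ih =>
    rw [vv, lp.coeFn_add, Pi.add_apply, ih, lp.coeFn_smul, Pi.smul_apply, L1.delta_apply,
      if_neg (by simp), smul_zero, zero_add]

theorem vv_inr (T : Nd → Bool) (σ ρ : Nd) (h : vv σ (Sum.inr ρ) ≠ 0) (hσ : allT T σ = true) :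
    allT T ρ = true := by
  induction σ with
  | nil =>
    rw [vv, lp.coeFn_smul, Pi.smul_apply, L1.delta_apply] at h
    by_cases hρ : ρ = []
    · rw [hρ]; exact hσ
    · rw [if_neg (by simpa using hρ), smul_zero] at h
      exact absurd rfl h
  | cons k σ ih =>
    rw [vv, lp.coeFn_add, Pi.add_apply, lp.coeFn_smul, Pi.smul_apply, L1.delta_apply] at h
    by_cases hρ : ρ = k :: σ
    · rw [hρ]; exact hσ
    · rw [if_neg (by simpa using hρ), smul_zero, add_zero] at h
      rw [allT, Bool.and_eq_true] at hσ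
      exact ih h hσ.2

theorem vv_root (σ : Nd) : vv σ (Sum.inr []) = 1 / 2 := by
  induction σ with
  | nil =>
    rw [vv, lp.coeFn_smul, Pi.smul_apply, L1.delta_apply, if_pos rfl]
    simp
  | cons k σ ih =>
    rw [vv, lp.coeFn_add, Pi.add_apply, ih, lp.coeFn_smul, Pi.smul_apply, L1.delta_apply,
      if_neg (by simp), smul_zero, add_zero]

/-- The annihilating component of the matrix unit `e_{σσ}`. -/
noncomputable def uu (T : Nd → Bool) (σ : Nd) : L1 Ix :=
  if allT T σ = true then ((1 / 2 * (lam σ ^ 2)⁻¹ : ℝ) : ℂ) • vv σ else 0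

theorem norm_uu_le (T : Nd → Bool) (σ : Nd) : ‖uu T σ‖ ≤ 1 / 2 * (lam σ ^ 2)⁻¹ := by
  unfold uu
  have hp : 0 < 1 / 2 * (lam σ ^ 2)⁻¹ := by have := lam_pos σ; positivity
  split_ifs
  · rw [norm_smul, Complex.norm_real, Real.norm_of_nonneg hp.le]
    calc _ ≤ 1 / 2 * (lam σ ^ 2)⁻¹ * 1 := by gcongr; exact norm_vv_le σ
      _ = _ := mul_one _
  · simpa using hp.le

theorem uu_inl (T : Nd → Bool) (σ : Nd) (p : Nd × Nd) : uu T σ (Sum.inl p) = 0 := by
  unfold uu
  split_ifs
  · rw [lp.coeFn_smul, Pi.smul_apply, vv_inl, smul_zero]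
  · rfl

/-- The matrix units of the dense subalgebra. -/
noncomputable def Eh (T : Nd → Bool) (i j : Nd) : L1 Ix :=
  (((eps i j)⁻¹ : ℝ) : ℂ) • delta (Sum.inl (i, j)) + if i = j then uu T i else 0

/-- The multiplication table. -/
noncomputable def mT (T : Nd → Bool) : Ix → Ix → L1 Ix
  | Sum.inl (i, j), Sum.inl (k, l) =>
      if j = k then ((eps i j * eps k l : ℝ) : ℂ) • Eh T i l else 0
  | _, _ => 0

theorem norm_mT_le (T : Nd → Bool) (g h : Ix) : ‖mT T g h‖ ≤ 1 := by
  rcases g with ⟨i, j⟩ | ρ
  · rcases h with ⟨k, l⟩ | ρ'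
    · rw [mT]
      split_ifs with hjk
      · subst hjk
        rw [norm_smul, Complex.norm_real,
          Real.norm_of_nonneg (mul_nonneg (eps_pos i j).le (eps_pos j l).le)]
        have hE : ‖Eh T i l‖ ≤ (eps i l)⁻¹ + if i = l then 1 / 2 * (lam i ^ 2)⁻¹ else 0 := by
          unfold Eh
          refine (norm_add_le _ _).trans ?_
          rw [norm_smul, L1.norm_delta, Complex.norm_real,
            Real.norm_of_nonneg (inv_nonneg.2 (eps_pos i l).le), mul_one]
          gcongr
          split_ifs
          · exact norm_uu_le T i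
          · simp
        have hp : 0 < eps i j * eps j l := mul_pos (eps_pos i j) (eps_pos j l)
        calc eps i j * eps j l * ‖Eh T i l‖
            ≤ eps i j * eps j l * ((eps i l)⁻¹ + if i = l then 1 / 2 * (lam i ^ 2)⁻¹ else 0) := by
              gcongr
          _ = eps i j * eps j l * (eps i l)⁻¹ +
              (if i = l then eps i j * eps j l * (1 / 2 * (lam i ^ 2)⁻¹) else 0) := by
              split_ifs <;> ring
          _ ≤ 1 / 2 + 1 / 2 := by
              refine add_le_add ?_ ?_
              · have := eps_mul_le i j l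
                rw [mul_inv_le_iff₀ (eps_pos i l)]
                exact this
              · split_ifs with hil
                · subst hil
                  have h1 := eps_mul_self_le i j
                  have h2 : 0 < lam i ^ 2 := by have := lam_pos i; positivity
                  calc eps i j * eps j i * (1 / 2 * (lam i ^ 2)⁻¹)
                      ≤ lam i ^ 2 * (1 / 2 * (lam i ^ 2)⁻¹) := by gcongr
                    _ = 1 / 2 := by rw [mul_left_comm, mul_inv_cancel₀ h2.ne', mul_one]
                · norm_num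
          _ = 1 := by norm_num
      · simp
    · simp [mT]
  · simp [mT]

/-- The multiplication as a continuous bilinear map. -/
noncomputable def mulT (T : Nd → Bool) : L1 Ix →L[ℂ] L1 Ix →L[ℂ] L1 Ix :=
  bilin (mT T) (norm_mT_le T)

theorem mulT_delta (T : Nd → Bool) (g h : Ix) : mulT T (delta g) (delta h) = mT T g h :=
  bilin_delta _ _ _ _

/-- An element without matrix coefficients annihilates everything from the left. -/
theorem mulT_eq_zero_left (T : Nd → Bool) (x y : L1 Ix) (hx : ∀ p, x (Sum.inl p) = 0) :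
    mulT T x y = 0 := by
  have h1 : mulT T x = 0 := by
    have h := ((L1.hasSum_delta x).mapL (mulT T)).tsum_eq
    rw [← h]
    refine (tsum_congr fun g => ?_).trans tsum_zero
    rw [map_smul]
    rcases g with p | ρ
    · rw [hx p, zero_smul]
    · have : mulT T (delta (Sum.inr ρ)) = 0 := by
        refine L1.clm_ext fun k => ?_
        rw [mulT_delta]
        simp [mT]
      rw [this, smul_zero]
  rw [h1]; rfl

/-- An element without matrix coefficients annihilates everything from the right. -/
theorem mulT_eq_zero_right (T : Nd → Bool) (x y : L1 Ix) (hy : ∀ p, y (Sum.inl p) = 0) :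
    mulT T x y = 0 := by
  have h1 : (mulT T).flip y = 0 := by
    have h := ((L1.hasSum_delta y).mapL (mulT T).flip).tsum_eq
    rw [← h]
    refine (tsum_congr fun g => ?_).trans tsum_zero
    rw [map_smul]
    rcases g with p | ρ
    · rw [hy p, zero_smul]
    · have : (mulT T).flip (delta (Sum.inr ρ)) = 0 := by
        refine L1.clm_ext fun k => ?_
        rw [ContinuousLinearMap.flip_apply, mulT_delta]
        rcases k with ⟨i, j⟩ | ρ' <;> simp [mT]
      rw [this, smul_zero]
  have := congrArg (fun f => f x) h1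
  simpa using this

theorem mulT_Eh_delta (T : Nd → Bool) (i j k l : Nd) :
    mulT T (Eh T i j) (delta (Sum.inl (k, l))) =
      if j = k then ((eps k l : ℝ) : ℂ) • Eh T i l else 0 := by
  rw [Eh, map_add, add_apply]
  have h2 : mulT T (if i = j then uu T i else 0) (delta (Sum.inl (k, l))) = 0 := by
    refine mulT_eq_zero_left T _ _ fun p => ?_
    split_ifs
    · exact uu_inl T i p
    · rfl
  rw [h2, add_zero, map_smul, smul_apply, mulT_delta, mT]
  split_ifs
  · rw [smul_smul, ← Complex.ofReal_mul, ← mul_assoc, inv_mul_cancel₀ (eps_pos i j).ne', one_mul]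
  · simp

theorem mulT_delta_Eh (T : Nd → Bool) (i j k l : Nd) :
    mulT T (delta (Sum.inl (i, j))) (Eh T k l) =
      if j = k then ((eps i j : ℝ) : ℂ) • Eh T i l else 0 := by
  rw [Eh, map_add]
  have h2 : mulT T (delta (Sum.inl (i, j))) (if k = l then uu T k else 0) = 0 := by
    refine mulT_eq_zero_right T _ _ fun p => ?_
    split_ifs
    · exact uu_inl T k p
    · rfl
  rw [h2, add_zero, map_smul, mulT_delta, mT]
  split_ifs
  · rw [smul_smul, ← Complex.ofReal_mul, mul_comm (eps i j), ← mul_assoc,
      inv_mul_cancel₀ (eps_pos k l).ne', one_mul]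
  · simp

theorem mulT_Eh_Eh (T : Nd → Bool) (i j k l : Nd) :
    mulT T (Eh T i j) (Eh T k l) = if j = k then Eh T i l else 0 := by
  conv_lhs => rw [Eh, map_add, add_apply]
  have h2 : mulT T (if i = j then uu T i else 0) (Eh T k l) = 0 := by
    refine mulT_eq_zero_left T _ _ fun p => ?_
    split_ifs
    · exact uu_inl T i p
    · rfl
  rw [h2, add_zero, map_smul, smul_apply, mulT_delta_Eh]
  split_ifs
  · rw [smul_smul, ← Complex.ofReal_mul, inv_mul_cancel₀ (eps_pos i j).ne', Complex.ofReal_one,
      one_smul]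
  · simp

theorem mT_assoc (T : Nd → Bool) (g h k : Ix) :
    mulT T (mT T g h) (delta k) = mulT T (delta g) (mT T h k) := by
  rcases g with ⟨i, j⟩ | ρ
  · rcases h with ⟨i', j'⟩ | ρ
    · rcases k with ⟨i'', j''⟩ | ρ
      · rw [mT, mT]
        by_cases h1 : j = i'
        · by_cases h2 : j' = i''
          · subst h1 h2
            rw [if_pos rfl, if_pos rfl, map_smul, map_smul, smul_apply,
              mulT_Eh_delta, mulT_delta_Eh, if_pos rfl, if_pos rfl, smul_smul, smul_smul,
              ← Complex.ofReal_mul, ← Complex.ofReal_mul]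
            congr 2
            ring
          · rw [if_pos h1, if_neg h2, map_smul, smul_apply, mulT_Eh_delta,
              if_neg h2, smul_zero, map_zero]
        · rw [if_neg h1, map_zero, zero_apply]
          by_cases h2 : j' = i''
          · rw [if_pos h2, map_smul, mulT_delta_Eh, if_neg h1, smul_zero]
          · rw [if_neg h2, map_zero]
      · have h1 : mT T (Sum.inl (i', j')) (Sum.inr ρ) = 0 := by simp [mT]
        rw [h1, map_zero]
        exact mulT_eq_zero_right T _ _ fun p => by rw [L1.delta_apply, if_neg (by simp)]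
    · have h1 : mT T (Sum.inl (i, j)) (Sum.inr ρ) = 0 := by simp [mT]
      have h2 : mT T (Sum.inr ρ) k = 0 := by simp [mT]
      rw [h1, h2, map_zero, map_zero, zero_apply]
  · have h1 : mT T (Sum.inr ρ) h = 0 := by simp [mT]
    rw [h1, map_zero, zero_apply]
    exact (mulT_eq_zero_left T _ _ fun p => by rw [L1.delta_apply, if_neg (by simp)]).symm

/-- The table as a `Table`. -/
noncomputable def tab (T : Nd → Bool) : Table Ix where
  m := mT T
  norm_le := norm_mT_le T
  assoc := mT_assoc T

/-- Sandwiching with matrix units picks out a coefficient. -/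
theorem sandwich (T : Nd → Bool) (i j k l : Nd) (x : L1 Ix) :
    mulT T (mulT T (Eh T k i) x) (Eh T j l) =
      (x (Sum.inl (i, j)) * ((eps i j : ℝ) : ℂ)) • Eh T k l := by
  let F : L1 Ix →L[ℂ] L1 Ix := ((mulT T).flip (Eh T j l)).comp (mulT T (Eh T k i))
  let F' : L1 Ix →L[ℂ] L1 Ix :=
    L1.lift (fun g => if g = Sum.inl (i, j) then ((eps i j : ℝ) : ℂ) • Eh T k l else 0)
      ‖((eps i j : ℝ) : ℂ) • Eh T k l‖ (by intro g; split_ifs <;> simp)
  have hFF : F = F' := by
    refine L1.clm_ext fun g => ?_
    change mulT T (mulT T (Eh T k i) (delta g)) (Eh T j l) = F' (delta g)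
    rw [L1.lift_delta]
    rcases g with ⟨a, b⟩ | ρ
    · rw [mulT_Eh_delta]
      by_cases ha : i = a
      · rw [if_pos ha, map_smul, smul_apply, mulT_Eh_Eh]
        by_cases hb : b = j
        · subst ha hb
          rw [if_pos rfl, if_pos rfl]
        · rw [if_neg hb, smul_zero, if_neg]
          intro h
          rw [Sum.inl.injEq, Prod.mk.injEq] at h
          exact hb h.2
      · rw [if_neg ha, map_zero, zero_apply, if_neg]
        intro h
        rw [Sum.inl.injEq, Prod.mk.injEq] at h
        exact ha h.1.symm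
    · rw [if_neg (by simp)]
      have : mulT T (Eh T k i) (delta (Sum.inr ρ)) = 0 :=
        mulT_eq_zero_right T _ _ fun p => by rw [L1.delta_apply, if_neg (by simp)]
      rw [this, map_zero, zero_apply]
  have h := congrArg (fun f => f x) hFF
  change mulT T (mulT T (Eh T k i) x) (Eh T j l) = F' x at h
  rw [h, L1.lift_apply, tsum_eq_single (Sum.inl (i, j))]
  · rw [if_pos rfl, smul_smul]
  · intro g hg
    rw [if_neg hg, smul_zero]

/-! ### The relations satisfied by the closure of the matrix units -/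

open Classical in
/-- The coefficients of the relation functional. -/
noncomputable def rr (T : Nd → Bool) (ρ : Nd) : Ix → ℂ
  | Sum.inl (i, j) =>
      if i = ρ ∧ j = ρ ∧ allT T ρ = true then -(((1 / 2 * (lam ρ)⁻¹ : ℝ)) : ℂ) else 0
  | Sum.inr τ => if τ = ρ then ((2 ^ (ρ.length + 1) : ℝ) : ℂ)
      else if ∃ k, τ = k :: ρ then -((2 ^ (ρ.length + 2) : ℝ) : ℂ) else 0

theorem norm_rr_le (T : Nd → Bool) (ρ : Nd) (g : Ix) :
    ‖rr T ρ g‖ ≤ 1 / 2 * (lam ρ)⁻¹ + 2 ^ (ρ.length + 1) + 2 ^ (ρ.length + 2) := by
  have h0 : 0 < 1 / 2 * (lam ρ)⁻¹ := by have := lam_pos ρ; positivity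
  have h1 : (0 : ℝ) < 2 ^ (ρ.length + 1) := by positivity
  have h2 : (0 : ℝ) < 2 ^ (ρ.length + 2) := by positivity
  rcases g with ⟨i, j⟩ | τ
  · rw [rr]
    split_ifs
    · rw [norm_neg, Complex.norm_real, Real.norm_of_nonneg h0.le]; linarith
    · rw [norm_zero]; linarith
  · rw [rr]
    split_ifs
    · rw [Complex.norm_real, Real.norm_of_nonneg h1.le]; linarith
    · rw [norm_neg, Complex.norm_real, Real.norm_of_nonneg h2.le]; linarith
    · rw [norm_zero]; linarith

/-- The relation functional. -/
noncomputable def RR (T : Nd → Bool) (ρ : Nd) : L1 Ix →L[ℂ] ℂ :=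
  L1.lift (rr T ρ) _ (norm_rr_le T ρ)

theorem RR_delta (T : Nd → Bool) (ρ : Nd) (g : Ix) : RR T ρ (delta g) = rr T ρ g :=
  L1.lift_delta _ _ _ _

theorem RR_vv (T : Nd → Bool) (ρ σ : Nd) : RR T ρ (vv σ) = if σ = ρ then 1 else 0 := by
  induction σ with
  | nil =>
    rw [vv, map_smul, RR_delta, rr]
    by_cases h : ([] : Nd) = ρ
    · subst h
      simp
    · rw [if_neg h, if_neg h, if_neg (by simp), smul_zero]
  | cons k σ ih =>
    rw [vv, map_add, ih, map_smul, RR_delta, rr]
    by_cases h : k :: σ = ρ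
    · have h' : ¬ σ = ρ := by
        intro h2
        have := congrArg List.length (h.trans h2.symm)
        simp at this
      rw [if_pos h, if_pos h, if_neg h', zero_add, smul_eq_mul, ← Complex.ofReal_mul, ← h,
        List.length_cons]
      have : ((1 : ℝ) / 2) ^ (σ.length + 2) * 2 ^ (σ.length + 1 + 1) = 1 := by
        rw [show σ.length + 1 + 1 = σ.length + 2 from rfl, ← mul_pow]
        norm_num
      rw [this]; simp
    · rw [if_neg h, if_neg h]
      by_cases h' : σ = ρ
      · rw [if_pos h', if_pos ⟨k, by rw [h']⟩, h', smul_eq_mul, mul_neg, ← Complex.ofReal_mul]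
        have : ((1 : ℝ) / 2) ^ (ρ.length + 2) * 2 ^ (ρ.length + 2) = 1 := by
          rw [← mul_pow]
          norm_num
        rw [this]; simp
      · rw [if_neg h', if_neg, smul_zero, add_zero]
        rintro ⟨k', hk'⟩
        exact h' (List.cons.inj hk').2

theorem RR_Eh (T : Nd → Bool) (ρ i j : Nd) : RR T ρ (Eh T i j) = 0 := by
  rw [Eh, map_add, map_smul, RR_delta, rr]
  by_cases hij : i = j
  · subst hij
    rw [if_pos rfl, uu, eps_self]
    by_cases hi : i = ρ
    · subst hi
      by_cases hT : allT T i = true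
      · rw [if_pos ⟨rfl, rfl, hT⟩, if_pos hT, map_smul, RR_vv, if_pos rfl, smul_eq_mul, smul_eq_mul,
          mul_neg, mul_one, ← Complex.ofReal_mul, ← Complex.ofReal_neg, ← Complex.ofReal_add,
          Complex.ofReal_eq_zero]
        have := (lam_pos i).ne'
        rw [sq, mul_inv]
        ring
      · rw [if_neg (fun h => hT h.2.2), if_neg hT, smul_zero, map_zero, add_zero]
    · rw [if_neg (fun h => hi h.1), smul_zero, zero_add]
      split_ifs
      · rw [map_smul, RR_vv, if_neg hi, smul_zero]
      · rw [map_zero]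
  · rw [if_neg hij, if_neg (fun h => hij (h.1.trans h.2.1.symm)), smul_zero, map_zero, add_zero]

/-- The coordinate functional. -/
noncomputable def coord (g : Ix) : L1 Ix →L[ℂ] ℂ :=
  L1.lift (fun h => if h = g then 1 else 0) 1 (by intro h; split_ifs <;> simp)

theorem coord_apply (g : Ix) (x : L1 Ix) : coord g x = x g := by
  rw [coord, L1.lift_apply, tsum_eq_single g]
  · simp
  · intro h hh
    rw [if_neg hh, smul_zero]

theorem Eh_inr (T : Nd → Bool) (i j ρ : Nd) (hρ : allT T ρ ≠ true) :
    Eh T i j (Sum.inr ρ) = 0 := by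
  rw [Eh, lp.coeFn_add, Pi.add_apply, lp.coeFn_smul, Pi.smul_apply, L1.delta_apply,
    if_neg (by simp), smul_zero, zero_add]
  split_ifs
  · unfold uu
    split_ifs with h
    · rw [lp.coeFn_smul, Pi.smul_apply]
      by_contra hne
      exact hρ (vv_inr T i ρ (fun h0 => hne (by rw [h0, smul_zero])) h)
    · rfl
  · rfl

/-- The closed linear span of the matrix units. -/
noncomputable def BB (T : Nd → Bool) : Submodule ℂ (L1 Ix) :=
  (Submodule.span ℂ (Set.range fun p : Nd × Nd => Eh T p.1 p.2)).topologicalClosure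

theorem BB_closed (T : Nd → Bool) : IsClosed (BB T : Set (L1 Ix)) :=
  Submodule.isClosed_topologicalClosure _

theorem Eh_mem_BB (T : Nd → Bool) (i j : Nd) : Eh T i j ∈ BB T :=
  Submodule.le_topologicalClosure _ (Submodule.subset_span ⟨(i, j), rfl⟩)

theorem BB_le_ker {V : Type*} [NormedAddCommGroup V] [NormedSpace ℂ V] (T : Nd → Bool)
    (f : L1 Ix →L[ℂ] V) (hf : ∀ i j, f (Eh T i j) = 0) (x : L1 Ix) (hx : x ∈ BB T) : f x = 0 := by
  have h : BB T ≤ LinearMap.ker (f : L1 Ix →ₗ[ℂ] V) := by
    refine Submodule.topologicalClosure_minimal _ ?_ ?_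
    · rw [Submodule.span_le]
      rintro _ ⟨p, rfl⟩
      exact hf p.1 p.2
    · exact f.isClosed_ker
  exact h hx

/-- If an element of the closed span has no matrix coefficients and is nonzero, then `T` contains
an infinite branch. -/
theorem branch_of_mem (T : Nd → Bool) (x : L1 Ix) (hx : x ∈ BB T)
    (hinl : ∀ p, x (Sum.inl p) = 0) (hne : x ≠ 0) : T ∈ IF := by
  have h1 : ∀ ρ, x (Sum.inr ρ) ≠ 0 → allT T ρ = true := by
    intro ρ hρ
    by_contra hT
    apply hρ
    rw [← coord_apply]
    exact BB_le_ker T _ (fun i j => by rw [coord_apply, Eh_inr T i j ρ hT]) x hx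
  have h2 : ∀ ρ, x (Sum.inr ρ) ≠ 0 → ∃ k, x (Sum.inr (k :: ρ)) ≠ 0 := by
    intro ρ hρ
    by_contra hk
    push Not at hk
    have h3 : RR T ρ x = 0 := BB_le_ker T _ (RR_Eh T ρ) x hx
    rw [RR, L1.lift_apply, tsum_eq_single (Sum.inr ρ)] at h3
    · rw [rr, if_pos rfl, smul_eq_mul, mul_eq_zero] at h3
      rcases h3 with h3 | h3
      · exact hρ h3
      · rw [Complex.ofReal_eq_zero] at h3
        have : (0 : ℝ) < 2 ^ (ρ.length + 1) := by positivity
        exact this.ne' h3
    · intro g hg
      rcases g with p | τ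
      · rw [hinl, zero_smul]
      · rw [rr]
        have hτ : ¬ τ = ρ := fun h => hg (by rw [h])
        rw [if_neg hτ]
        split_ifs with h4
        · obtain ⟨k, rfl⟩ := h4
          rw [hk k, zero_smul]
        · rw [smul_zero]
  obtain ⟨ρ₀, hρ₀⟩ : ∃ ρ, x (Sum.inr ρ) ≠ 0 := by
    by_contra h
    push Not at h
    apply hne
    apply lp.ext
    funext g
    rcases g with p | ρ
    · exact hinl p
    · exact h ρ
  -- a sequence of nodes, each obtained from the previous one by adding one entry
  let P : ℕ → Nd → Prop := fun n ρ => ∃ r : ℕ → Nd, r 0 = ρ ∧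
    (∀ n, allT T (r n) = true) ∧ ∀ n, ∃ k, r (n + 1) = k :: r n
  have hroot : ∀ ρ : Nd, (∃ r : ℕ → Nd, r 0 = ρ ∧
      (∀ n, allT T (r n) = true) ∧ ∀ n, ∃ k, r (n + 1) = k :: r n) →
      ∃ r : ℕ → Nd, r 0 = [] ∧ (∀ n, allT T (r n) = true) ∧ ∀ n, ∃ k, r (n + 1) = k :: r n := by
    intro ρ
    induction ρ with
    | nil => exact fun h => h
    | cons k ρ ih =>
      rintro ⟨r, hr0, hrT, hr⟩
      apply ih
      refine ⟨fun n => Nat.casesOn n ρ r, rfl, ?_, ?_⟩
      · intro n
        cases n with
        | zero =>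
          have := hrT 0
          rw [hr0, allT, Bool.and_eq_true] at this
          exact this.2
        | succ n => exact hrT n
      · intro n
        cases n with
        | zero => exact ⟨k, hr0⟩
        | succ n => exact hr n
  have hseq : ∃ r : ℕ → Nd, r 0 = ρ₀ ∧
      (∀ n, allT T (r n) = true) ∧ ∀ n, ∃ k, r (n + 1) = k :: r n := by
    choose! next hnext using h2
    let r : ℕ → Nd := fun n => Nat.rec ρ₀ (fun _ ρ => next ρ :: ρ) n
    have hr : ∀ n, x (Sum.inr (r n)) ≠ 0 := by
      intro n
      induction n with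
      | zero => exact hρ₀
      | succ n ih => exact hnext _ ih
    exact ⟨r, rfl, fun n => h1 _ (hr n), fun n => ⟨next (r n), rfl⟩⟩
  obtain ⟨r, hr0, hrT, hr⟩ := hroot ρ₀ hseq
  choose f hf using hr
  have hbr : ∀ n, br f n = r n := by
    intro n
    induction n with
    | zero => rw [hr0]; rfl
    | succ n ih => rw [hf n, ← ih]; rfl
  refine ⟨f, fun n => ?_⟩
  have := hrT n
  rw [hbr]
  cases hrn : r n with
  | nil => rw [hrn] at this; exact this
  | cons k σ =>
    rw [hrn, allT, Bool.and_eq_true] at this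
    exact this.1

/-- If `T` contains an infinite branch then the closed span contains a nonzero element without
matrix coefficients. -/
theorem mem_of_branch (T : Nd → Bool) (hT : T ∈ IF) :
    ∃ x ∈ BB T, (∀ p, x (Sum.inl p) = 0) ∧ x ≠ 0 := by
  obtain ⟨f, hf⟩ := hT
  have hall : ∀ n, allT T (br f n) = true := by
    intro n
    induction n with
    | zero => exact hf 0
    | succ n ih =>
      have := hf (n + 1)
      rw [br] at this ⊢
      rw [allT, Bool.and_eq_true]
      exact ⟨this, ih⟩
  have hcau : CauchySeq (fun n => vv (br f n)) := by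
    refine cauchySeq_of_le_geometric (1 / 2) 1 (by norm_num) fun n => ?_
    rw [dist_comm, dist_eq_norm, br, vv, add_sub_cancel_left, norm_smul, L1.norm_delta,
      Complex.norm_real, Real.norm_of_nonneg (by positivity), mul_one, one_mul, br_length]
    exact pow_le_pow_of_le_one (by norm_num) (by norm_num) (by omega)
  obtain ⟨x, hx⟩ := cauchySeq_tendsto_of_complete hcau
  refine ⟨x, ?_, ?_, ?_⟩
  · -- membership
    have hlam : Tendsto (fun n => (((2 * lam (br f n) : ℝ)) : ℂ) •
        (delta (Sum.inl (br f n, br f n)) : L1 Ix)) atTop (𝓝 0) := by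
      rw [tendsto_zero_iff_norm_tendsto_zero]
      have h1 : ∀ n, ‖(((2 * lam (br f n) : ℝ)) : ℂ) •
          (delta (Sum.inl (br f n, br f n)) : L1 Ix)‖ = 2 * ((1 / 2 : ℝ) ^ n * (1 / 2)) := by
        intro n
        rw [norm_smul, L1.norm_delta, Complex.norm_real,
          Real.norm_of_nonneg (by have := lam_pos (br f n); positivity), mul_one, lam, br_length,
          pow_succ]
      simp only [h1]
      have h2 : Tendsto (fun n : ℕ => (1 / 2 : ℝ) ^ n) atTop (𝓝 0) :=
        tendsto_pow_atTop_nhds_zero_of_lt_one (by norm_num) (by norm_num)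
      have h3 := (h2.mul_const (1 / 2)).const_mul 2
      simpa using h3
    have hsum := hlam.add hx
    rw [zero_add] at hsum
    refine (BB_closed T).mem_of_tendsto hsum (Eventually.of_forall fun n => ?_)
    have heq : (((2 * lam (br f n) : ℝ)) : ℂ) • (delta (Sum.inl (br f n, br f n)) : L1 Ix) +
        vv (br f n) = (((2 * lam (br f n) ^ 2 : ℝ)) : ℂ) • Eh T (br f n) (br f n) := by
      have hl := (lam_pos (br f n)).ne'
      rw [Eh, if_pos rfl, uu, if_pos (hall n), eps_self, smul_add, smul_smul, smul_smul,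
        ← Complex.ofReal_mul, ← Complex.ofReal_mul]
      have e1 : 2 * lam (br f n) ^ 2 * (lam (br f n))⁻¹ = 2 * lam (br f n) := by
        field_simp
      have e2 : 2 * lam (br f n) ^ 2 * (1 / 2 * (lam (br f n) ^ 2)⁻¹) = 1 := by
        field_simp
      rw [e1, e2, Complex.ofReal_one, one_smul]
    rw [heq]
    exact (BB T).smul_mem _ (Eh_mem_BB T _ _)
  · intro p
    have h1 := ((coord (Sum.inl p)).continuous.tendsto x).comp hx
    have h2 : ((coord (Sum.inl p)) ∘ fun n => vv (br f n)) = fun _ => 0 := by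
      funext n
      simp only [Function.comp, coord_apply, vv_inl]
    rw [h2] at h1
    rw [← coord_apply]
    exact (tendsto_nhds_unique h1 tendsto_const_nhds)
  · intro h0
    have h1 := ((coord (Sum.inr [])).continuous.tendsto x).comp hx
    have h2 : ((coord (Sum.inr [])) ∘ fun n => vv (br f n)) = fun _ => 1 / 2 := by
      funext n
      simp only [Function.comp, coord_apply, vv_root]
    rw [h2, h0, map_zero] at h1
    have := tendsto_nhds_unique h1 tendsto_const_nhds
    norm_num at this

end Pool.Agent.Helper32.Banach
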