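import Pool.Agent.Helper32.Hom
import Pool.Agent.Helper32.Family

/-!
# The family of homomorphisms and its continuity
-/

set_option autoImplicit false

open Topology Filter

namespace Pool.Agent.Helper32.Banach

/-! ### Continuity in `T` -/

theorem continuous_allT (σ : Nd) : Continuous (fun T : Nd → Bool => allT T σ) := by
  induction σ with
  | nil => exact continuous_apply []
  | cons k σ ih =>
    have h : Continuous (fun p : Bool × Bool => p.1 && p.2) := continuous_of_discreteTopology
    exact h.comp ((continuous_apply (k :: σ)).prodMk ih)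

theorem continuous_uu (σ : Nd) : Continuous (fun T : Nd → Bool => uu T σ) := by
  have h : Continuous (fun b : Bool =>
      if b = true then ((1 / 2 * (lam σ ^ 2)⁻¹ : ℝ) : ℂ) • vv σ else 0) :=
    continuous_of_discreteTopology
  exact h.comp (continuous_allT σ)

theorem continuous_Eh (i j : Nd) : Continuous (fun T : Nd → Bool => Eh T i j) := by
  unfold Eh
  refine continuous_const.add ?_
  split_ifs
  · exact continuous_uu i
  · exact continuous_const

theorem continuous_mT (g h : Ix) : Continuous (fun T : Nd → Bool => mT T g h) := by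
  rcases g with ⟨i, j⟩ | ρ
  · rcases h with ⟨k, l⟩ | ρ
    · unfold mT
      dsimp only
      split_ifs
      · exact (continuous_Eh i l).fun_const_smul _
      · exact continuous_const
    · have : (fun T : Nd → Bool => mT T (Sum.inl (i, j)) (Sum.inr ρ)) = fun _ => 0 := by
        funext T; simp [mT]
      rw [this]; exact continuous_const
  · have : (fun T : Nd → Bool => mT T (Sum.inr ρ) h) = fun _ => 0 := by
      funext T; simp [mT]
    rw [this]; exact continuous_const

theorem norm_mulT_le (T : Nd → Bool) (x y : L1 Ix) : ‖mulT T x y‖ ≤ ‖x‖ * ‖y‖ :=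
  bilin_norm_le _ _ x y

theorem continuous_mulT_delta (g : Ix) (y : L1 Ix) :
    Continuous (fun T : Nd → Bool => mulT T (delta g) y) := by
  have h : (fun T : Nd → Bool => mulT T (delta g) y) = fun T => ∑' h, y h • mT T g h := by
    funext T
    rw [mulT, bilin, L1.lift_delta, L1.lift_apply]
  rw [h]
  refine continuous_tsum (fun h => (continuous_mT g h).fun_const_smul _) (L1.summable_norm y) ?_
  intro h T
  rw [norm_smul]
  exact mul_le_of_le_one_right (norm_nonneg _) (norm_mT_le T g h)

theorem continuous_mulT (x y : L1 Ix) : Continuous (fun T : Nd → Bool => mulT T x y) := by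
  have h : (fun T : Nd → Bool => mulT T x y) = fun T => ∑' g, x g • mulT T (delta g) y := by
    funext T
    have h := ((L1.hasSum_delta x).mapL ((mulT T).flip y)).tsum_eq
    simp only [map_smul, ContinuousLinearMap.flip_apply] at h
    exact h.symm
  rw [h]
  refine continuous_tsum (fun g => (continuous_mulT_delta g y).fun_const_smul _)
    ((L1.summable_norm x).mul_right ‖y‖) ?_
  intro g T
  rw [norm_smul]
  gcongr
  calc ‖mulT T (delta g) y‖ ≤ ‖(delta g : L1 Ix)‖ * ‖y‖ := norm_mulT_le _ _ _
    _ = ‖y‖ := by rw [L1.norm_delta, one_mul]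

theorem continuous_mulT_joint (x y : (Nd → Bool) → L1 Ix) (hx : Continuous x)
    (hy : Continuous y) : Continuous (fun T : Nd → Bool => mulT T (x T) (y T)) := by
  rw [continuous_iff_continuousAt]
  intro T₀
  have h1 : Tendsto (fun T => mulT T (x T₀) (y T₀)) (𝓝 T₀) (𝓝 (mulT T₀ (x T₀) (y T₀))) :=
    (continuous_mulT (x T₀) (y T₀)).tendsto T₀
  have h2 : Tendsto (fun T => mulT T (x T) (y T) - mulT T (x T₀) (y T₀)) (𝓝 T₀) (𝓝 0) := by
    have hb : Tendsto (fun T => ‖x T - x T₀‖ * ‖y T‖ + ‖x T₀‖ * ‖y T - y T₀‖) (𝓝 T₀) (𝓝 0) := by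
      have e : Continuous (fun T => ‖x T - x T₀‖ * ‖y T‖ + ‖x T₀‖ * ‖y T - y T₀‖) := by
        fun_prop
      have := e.tendsto T₀
      simpa using this
    refine squeeze_zero_norm (fun T => ?_) hb
    have e : mulT T (x T) (y T) - mulT T (x T₀) (y T₀) =
        mulT T (x T - x T₀) (y T) + mulT T (x T₀) (y T - y T₀) := by
      rw [map_sub, map_sub, sub_apply]; abel
    rw [e]
    exact (norm_add_le _ _).trans (add_le_add (norm_mulT_le _ _ _) (norm_mulT_le _ _ _))
  have h3 := h2.add h1
  simp only [sub_add_cancel, zero_add] at h3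
  exact h3

/-! ### The countable dense subgroup -/

/-- Gaussian rational coefficients. -/
noncomputable def qc : ℚ × ℚ →+ ℂ where
  toFun q := (q.1 : ℂ) + (q.2 : ℂ) * Complex.I
  map_zero' := by simp
  map_add' p q := by simp; ring

theorem denseRange_qc : DenseRange qc := by
  have h1 : DenseRange (Rat.cast : ℚ → ℝ) := Rat.denseRange_cast
  have h2 : DenseRange (Prod.map (Rat.cast : ℚ → ℝ) (Rat.cast : ℚ → ℝ)) := h1.prodMap h1
  have h3 : DenseRange (Complex.equivRealProdCLM.symm ∘
      Prod.map (Rat.cast : ℚ → ℝ) (Rat.cast : ℚ → ℝ)) :=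
    (Complex.equivRealProdCLM.symm.surjective.denseRange).comp h2
      Complex.equivRealProdCLM.symm.continuous
  have h4 : (Complex.equivRealProdCLM.symm ∘ Prod.map (Rat.cast : ℚ → ℝ) (Rat.cast : ℚ → ℝ)) =
      (qc : ℚ × ℚ → ℂ) := by
    funext q
    apply Complex.ext <;> simp [qc]
  rw [← h4]
  exact h3

/-- Index group. -/
abbrev Gam : Type := (Nd × Nd) →₀ (ℚ × ℚ)

/-- Gaussian rational combinations of the matrix units. -/
noncomputable def iot (T : Nd → Bool) : Gam →+ L1 Ix :=
  Finsupp.liftAddHom fun p => ((smulAddHom ℂ (L1 Ix)).flip (Eh T p.1 p.2)).comp qc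

theorem iot_apply (T : Nd → Bool) (γ : Gam) :
    iot T γ = ∑ p ∈ γ.support, qc (γ p) • Eh T p.1 p.2 := rfl

theorem iot_single (T : Nd → Bool) (p : Nd × Nd) (q : ℚ × ℚ) :
    iot T (Finsupp.single p q) = qc q • Eh T p.1 p.2 := by
  rw [iot, Finsupp.liftAddHom_apply_single]; rfl

theorem continuous_iot (γ : Gam) : Continuous (fun T : Nd → Bool => iot T γ) := by
  simp only [iot_apply]
  exact continuous_finsetSum _ fun p _ => (continuous_Eh p.1 p.2).fun_const_smul _

theorem iot_closure (T : Nd → Bool) (x : L1 Ix) (hx : x ∈ BB T) :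
    x ∈ (iot T).range.topologicalClosure := by
  set R := (iot T).range.topologicalClosure with hR
  have hcl : IsClosed (R : Set (L1 Ix)) := AddSubgroup.isClosed_topologicalClosure _
  have h1 : ∀ (p : Nd × Nd) (c : ℂ), c • Eh T p.1 p.2 ∈ R := by
    intro p c
    have hcont : Continuous (fun c : ℂ => c • Eh T p.1 p.2) := continuous_id.smul continuous_const
    have hsub : Set.range qc ⊆ (fun c : ℂ => c • Eh T p.1 p.2) ⁻¹' (R : Set (L1 Ix)) := by
      rintro _ ⟨q, rfl⟩
      exact AddSubgroup.le_topologicalClosure _ ⟨Finsupp.single p q, iot_single T p q⟩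
    have hsub2 := closure_minimal hsub (hcl.preimage hcont)
    rw [denseRange_qc.closure_range] at hsub2
    exact hsub2 (Set.mem_univ c)
  have h2 : ∀ y ∈ Submodule.span ℂ (Set.range fun p : Nd × Nd => Eh T p.1 p.2),
      ∀ c : ℂ, c • y ∈ R := by
    intro y hy
    induction hy using Submodule.span_induction with
    | mem y hy =>
      obtain ⟨p, rfl⟩ := hy
      exact h1 p
    | zero => intro c; rw [smul_zero]; exact R.zero_mem
    | add y z _ _ hy hz => intro c; rw [smul_add]; exact R.add_mem (hy c) (hz c)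
    | smul a y _ hy => intro c; rw [smul_smul]; exact hy _
  have h3 : (Submodule.span ℂ (Set.range fun p : Nd × Nd => Eh T p.1 p.2) : Set (L1 Ix)) ⊆ R := by
    intro y hy
    have := h2 y hy 1
    rwa [one_smul] at this
  have h4 := closure_minimal h3 hcl
  exact h4 hx

theorem iot_mem_BB (T : Nd → Bool) (γ : Gam) : iot T γ ∈ BB T := by
  rw [iot_apply]
  exact (BB T).sum_mem fun p _ => (BB T).smul_mem _ (Eh_mem_BB T _ _)

theorem mulT_mem_BB (T : Nd → Bool) (x y : L1 Ix) (hx : x ∈ BB T) (hy : y ∈ BB T) :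
    mulT T x y ∈ BB T := by
  have h1 : ∀ i j, ∀ y ∈ BB T, mulT T (Eh T i j) y ∈ BB T := by
    intro i j y hy
    have hle : BB T ≤ (BB T).comap (mulT T (Eh T i j) : L1 Ix →ₗ[ℂ] L1 Ix) := by
      refine Submodule.topologicalClosure_minimal _ ?_ ?_
      · rw [Submodule.span_le]
        rintro _ ⟨p, rfl⟩
        change mulT T (Eh T i j) (Eh T p.1 p.2) ∈ BB T
        rw [mulT_Eh_Eh]
        split_ifs
        · exact Eh_mem_BB T _ _
        · exact (BB T).zero_mem
      · exact (BB_closed T).preimage (mulT T (Eh T i j)).continuous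
    exact hle hy
  have hle : BB T ≤ (BB T).comap ((mulT T).flip y : L1 Ix →ₗ[ℂ] L1 Ix) := by
    refine Submodule.topologicalClosure_minimal _ ?_ ?_
    · rw [Submodule.span_le]
      rintro _ ⟨p, rfl⟩
      exact h1 p.1 p.2 y hy
    · exact (BB_closed T).preimage ((mulT T).flip y).continuous
  exact hle hx

/-! ### The homomorphisms -/

/-- The target algebras. -/
abbrev DD (T : Nd → Bool) : Type := L1Alg (tab T)

/-- The generator images. -/
noncomputable def gg (T : Nd → Bool) (γ : Gam) : DD T := unitize (iot T) γ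

theorem norm_gg_le (T : Nd → Bool) (γ : Gam) : ‖gg T γ‖ ≤ 1 := norm_unitize_le _ γ

/-- The source algebra: `ℓ¹` of the free semigroup on the countable set `Gam`. -/
abbrev CC : Type := L1S (FreeSemigroup Gam)

/-- The homomorphisms `ℓ¹(free semigroup) → ℓ¹(Ix)` with closed range `BB T`. -/
noncomputable def pii (T : Nd → Bool) : CC →L[ℂ] DD T := homOf (gg T) (norm_gg_le T)

theorem pii_mul (T : Nd → Bool) (x y : CC) : pii T (x * y) = pii T x * pii T y :=
  homOf_mul _ _ x y

theorem gg_mem_BB (T : Nd → Bool) (γ : Gam) : (gg T γ : L1 Ix) ∈ BB T :=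
  (BB T).smul_mem _ (iot_mem_BB T γ)

theorem lift_mem_BB (T : Nd → Bool) (s : FreeSemigroup Gam) :
    ((FreeSemigroup.lift (gg T) s : DD T) : L1 Ix) ∈ BB T := by
  induction s using FreeSemigroup.recOnMul with
  | ih1 x => rw [FreeSemigroup.lift_of]; exact gg_mem_BB T x
  | ih2 x y hx hy =>
    rw [map_mul]
    exact mulT_mem_BB T _ _ hx hy

/-- The image of a word, as an element of `ℓ¹(Ix)`. -/
noncomputable def fl (T : Nd → Bool) (s : FreeSemigroup Gam) : L1 Ix :=
  (FreeSemigroup.lift (gg T) s : DD T)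

theorem norm_fl_le (T : Nd → Bool) (s : FreeSemigroup Gam) : ‖fl T s‖ ≤ 1 :=
  norm_freeLift_le (gg T) (norm_gg_le T) s

theorem fl_mem_BB (T : Nd → Bool) (s : FreeSemigroup Gam) : fl T s ∈ BB T := lift_mem_BB T s

/-- The underlying linear map of `pii T`. -/
noncomputable def piL (T : Nd → Bool) : L1 (FreeSemigroup Gam) →L[ℂ] L1 Ix :=
  L1.lift (fl T) 1 (norm_fl_le T)

theorem pii_eq (T : Nd → Bool) (c : CC) : (pii T c : DD T) = piL T c := rfl

theorem piL_mem_BB (T : Nd → Bool) (c : L1 (FreeSemigroup Gam)) : piL T c ∈ BB T := by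
  have h := (L1.hasSum_delta c).mapL (piL T)
  refine (BB_closed T).mem_of_tendsto h (Eventually.of_forall fun s => ?_)
  refine (BB T).sum_mem fun t _ => ?_
  rw [map_smul, piL, L1.lift_delta]
  exact (BB T).smul_mem _ (fl_mem_BB T t)

theorem pii_mem_BB (T : Nd → Bool) (c : CC) : ((pii T c : DD T) : L1 Ix) ∈ BB T :=
  piL_mem_BB T c

theorem pii_surj (T : Nd → Bool) (d : DD T) (hd : (d : L1 Ix) ∈ BB T) :
    ∃ c : CC, pii T c = d ∧ ‖c‖ ≤ 2 * ‖d‖ := by
  refine homOf_surj (gg T) (norm_gg_le T) (D := DD T) ((iot T : Gam →+ L1 Ix).range) ?_ d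
    (iot_closure T d hd)
  rintro _ ⟨γ, rfl⟩ h
  exact ⟨γ, unitize_of_one_le _ γ h⟩

theorem continuous_gg (γ : Gam) : Continuous (fun T : Nd → Bool => (gg T γ : L1 Ix)) := by
  have h := continuous_iot γ
  have h1 : Continuous (fun T : Nd → Bool => (max 1 ‖iot T γ‖)⁻¹) := by
    refine Continuous.inv₀ (continuous_const.max h.norm) fun T => ?_
    exact (lt_of_lt_of_le one_pos (le_max_left _ _)).ne'
  exact (Complex.continuous_ofReal.comp h1).smul h

theorem continuous_fl (s : FreeSemigroup Gam) : Continuous (fun T : Nd → Bool => fl T s) := by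
  induction s using FreeSemigroup.recOnMul with
  | ih1 x => exact continuous_gg x
  | ih2 x y hx hy =>
    have : (fun T : Nd → Bool => fl T (FreeSemigroup.of x * y)) =
        fun T => mulT T (fl T (FreeSemigroup.of x)) (fl T y) := by
      funext T
      unfold fl
      rw [map_mul]
      rfl
    rw [this]
    exact continuous_mulT_joint _ _ hx hy

theorem continuous_piL (c : L1 (FreeSemigroup Gam)) :
    Continuous (fun T : Nd → Bool => piL T c) := by
  have : (fun T : Nd → Bool => piL T c) = fun T => ∑' s, c s • fl T s := rfl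
  rw [this]
  refine continuous_tsum (fun s => (continuous_fl s).fun_const_smul _)
    (L1.summable_norm c) ?_
  intro s T
  rw [norm_smul]
  exact mul_le_of_le_one_right (norm_nonneg _) (norm_fl_le T s)

theorem continuous_norm_pii (c : CC) : Continuous (fun T : Nd → Bool => ‖pii T c‖) :=
  (continuous_piL c).norm

end Pool.Agent.Helper32.Banach
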