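import Pool.Agent.Helper32.L1
import Pool.Agent.Helper32.BanachDefs

/-!
# The universal property of `ℓ¹` of a free semigroup
-/

set_option autoImplicit false

open Topology Filter

namespace Pool.Agent.Helper32.Banach

section

variable {I : Type} [DecidableEq (FreeSemigroup I)]
variable {D : Type*} [NonUnitalNormedRing D] [NormedSpace ℂ D] [IsScalarTower ℂ D D]
  [SMulCommClass ℂ D D] [CompleteSpace D]

omit [NormedSpace ℂ D] [IsScalarTower ℂ D D] [SMulCommClass ℂ D D] [CompleteSpace D]
  [DecidableEq (FreeSemigroup I)] in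
theorem norm_freeLift_le (g : I → D) (hg : ∀ i, ‖g i‖ ≤ 1) (s : FreeSemigroup I) :
    ‖FreeSemigroup.lift g s‖ ≤ 1 := by
  induction s using FreeSemigroup.recOnMul with
  | ih1 x => rw [FreeSemigroup.lift_of]; exact hg x
  | ih2 x y hx hy =>
    rw [map_mul]
    exact (norm_mul_le _ _).trans (mul_le_one₀ hx (norm_nonneg _) hy)

/-- The contractive homomorphism from `ℓ¹` of the free semigroup on `I` to `D` determined by a
family of elements of the unit ball of `D`. -/
noncomputable def homOf (g : I → D) (hg : ∀ i, ‖g i‖ ≤ 1) : L1S (FreeSemigroup I) →L[ℂ] D :=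
  (L1.lift (fun s => FreeSemigroup.lift g s) 1 (norm_freeLift_le g hg) :
    L1 (FreeSemigroup I) →L[ℂ] D)

/-- The basis vector as an element of the algebra. -/
noncomputable def dl (s : FreeSemigroup I) : L1S (FreeSemigroup I) :=
  (delta s : L1 (FreeSemigroup I))

omit [IsScalarTower ℂ D D] [SMulCommClass ℂ D D] in
theorem homOf_dl (g : I → D) (hg : ∀ i, ‖g i‖ ≤ 1) (s : FreeSemigroup I) :
    homOf g hg (dl s) = FreeSemigroup.lift g s :=
  L1.lift_delta _ _ _ _

theorem norm_dl (s : FreeSemigroup I) : ‖dl s‖ = 1 := L1.norm_delta s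

theorem homOf_mul (g : I → D) (hg : ∀ i, ‖g i‖ ≤ 1) (x y : L1S (FreeSemigroup I)) :
    homOf g hg (x * y) = homOf g hg x * homOf g hg y := by
  let π : L1 (FreeSemigroup I) →L[ℂ] D :=
    L1.lift (fun s => FreeSemigroup.lift g s) 1 (norm_freeLift_le g hg)
  let F : L1 (FreeSemigroup I) →L[ℂ] L1 (FreeSemigroup I) →L[ℂ] D :=
    (ContinuousLinearMap.compL ℂ _ _ _ π).comp
      (bilin (semigroupTable (FreeSemigroup I)).m (semigroupTable (FreeSemigroup I)).norm_le)
  let F' : L1 (FreeSemigroup I) →L[ℂ] L1 (FreeSemigroup I) →L[ℂ] D :=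
    (ContinuousLinearMap.flip
      (((ContinuousLinearMap.mul ℂ D).comp π).flip.comp π))
  have h : F = F' := by
    refine bilin_ext fun s t => ?_
    change π (bilin _ _ (delta s) (delta t)) = π (delta s) * π (delta t)
    rw [bilin_delta]
    change π (delta (s * t)) = _
    rw [L1.lift_delta, L1.lift_delta, L1.lift_delta, map_mul]
  exact congrArg (fun T => T (x : L1 (FreeSemigroup I)) (y : L1 (FreeSemigroup I))) h

omit [IsScalarTower ℂ D D] [SMulCommClass ℂ D D] in
theorem norm_homOf_le (g : I → D) (hg : ∀ i, ‖g i‖ ≤ 1) (x : L1S (FreeSemigroup I)) :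
    ‖homOf g hg x‖ ≤ ‖x‖ := by
  have := L1.norm_lift_apply_le (fun s => FreeSemigroup.lift g s) 1 (norm_freeLift_le g hg)
    (x : L1 (FreeSemigroup I))
  rw [one_mul] at this
  exact this

omit [IsScalarTower ℂ D D] [SMulCommClass ℂ D D] in
/-- If the generators contain the normalisations of all elements of norm at least one of an additive
subgroup `H`, then every element of the closure of `H` has a preimage of comparable norm. -/
theorem homOf_surj (g : I → D) (hg : ∀ i, ‖g i‖ ≤ 1) (H : AddSubgroup D)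
    (hH : ∀ d ∈ H, 1 ≤ ‖d‖ → ∃ i, g i = ((‖d‖⁻¹ : ℝ) : ℂ) • d) (d : D)
    (hd : d ∈ H.topologicalClosure) : ∃ c, homOf g hg c = d ∧ ‖c‖ ≤ 2 * ‖d‖ := by
  let f : NormedAddGroupHom (L1S (FreeSemigroup I)) D :=
    { toFun := homOf g hg
      map_add' := map_add _
      bound' := ⟨1, fun x => by rw [one_mul]; exact norm_homOf_le g hg x⟩ }
  have hyp : f.SurjectiveOnWith H 1 := by
    intro h hh
    by_cases h0 : h = 0
    · exact ⟨0, by rw [h0]; exact map_zero _, by simp⟩
    · have hpos : 0 < ‖h‖ := norm_pos_iff.2 h0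
      obtain ⟨m, hm⟩ := exists_nat_gt (1 / ‖h‖)
      have hm0 : (0 : ℝ) < m := lt_trans (by positivity) hm
      have hm1 : 1 ≤ (m : ℝ) * ‖h‖ := by
        rw [div_lt_iff₀ hpos] at hm
        exact hm.le
      have hmem : m • h ∈ H := H.nsmul_mem hh m
      have hnorm : ‖m • h‖ = (m : ℝ) * ‖h‖ := by
        rw [← Nat.cast_smul_eq_nsmul ℂ, norm_smul]
        simp
      obtain ⟨i, hi⟩ := hH _ hmem (by rw [hnorm]; exact hm1)
      refine ⟨((‖h‖ : ℝ) : ℂ) • dl (FreeSemigroup.of i), ?_, ?_⟩
      · change homOf g hg _ = h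
        rw [map_smul, homOf_dl, FreeSemigroup.lift_of, hi, hnorm, ← Nat.cast_smul_eq_nsmul ℂ,
          smul_smul, smul_smul]
        have : ((‖h‖ : ℝ) : ℂ) * (((((m : ℝ) * ‖h‖)⁻¹ : ℝ)) : ℂ) * (m : ℂ) = 1 := by
          rw [← Complex.ofReal_natCast, ← Complex.ofReal_mul, ← Complex.ofReal_mul]
          have : ‖h‖ * ((m : ℝ) * ‖h‖)⁻¹ * (m : ℝ) = 1 := by
            field_simp
          rw [this, Complex.ofReal_one]
        rw [this, one_smul]
      · rw [norm_smul, norm_dl, Complex.norm_real, norm_norm, mul_one, one_mul]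
  have := controlled_closure_of_complete one_pos one_pos hyp d hd
  obtain ⟨c, hc1, hc2⟩ := this
  refine ⟨c, hc1, ?_⟩
  norm_num at hc2
  exact hc2

end

/-- Elements of a countable additive group, mapped to `D` and scaled into the unit ball. -/
noncomputable def unitize {Γ D : Type*} [NormedAddCommGroup D] [NormedSpace ℂ D] (ι : Γ → D)
    (γ : Γ) : D := (((max 1 ‖ι γ‖)⁻¹ : ℝ) : ℂ) • ι γ

theorem norm_unitize_le {Γ D : Type*} [NormedAddCommGroup D] [NormedSpace ℂ D] (ι : Γ → D)
    (γ : Γ) : ‖unitize ι γ‖ ≤ 1 := by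
  unfold unitize
  have h : 0 < max 1 ‖ι γ‖ := lt_of_lt_of_le one_pos (le_max_left _ _)
  rw [norm_smul, Complex.norm_real, Real.norm_of_nonneg (inv_nonneg.2 h.le),
    inv_mul_le_iff₀ h, mul_one]
  exact le_max_right _ _

theorem unitize_of_one_le {Γ D : Type*} [NormedAddCommGroup D] [NormedSpace ℂ D] (ι : Γ → D)
    (γ : Γ) (h : 1 ≤ ‖ι γ‖) : unitize ι γ = ((‖ι γ‖⁻¹ : ℝ) : ℂ) • ι γ := by
  unfold unitize
  rw [max_eq_right h]

/-- `ℓ¹(G)` is separable for countable `G`. -/
theorem separable_L1 (G : Type*) [DecidableEq G] [Countable G] :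
    TopologicalSpace.SeparableSpace (L1 G) := by
  have h1 : TopologicalSpace.IsSeparable (Set.range (fun g : G => (delta g : L1 G))) :=
    (Set.countable_range _).isSeparable
  have h2 : TopologicalSpace.IsSeparable
      ((Submodule.span ℂ (Set.range (fun g : G => (delta g : L1 G))) : Submodule ℂ (L1 G)) :
        Set (L1 G)) := h1.span
  have h3 := h2.closure
  rw [← TopologicalSpace.isSeparable_univ_iff]
  convert h3
  symm
  rw [Set.eq_univ_iff_forall]
  intro x
  have hx := L1.hasSum_delta x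
  refine mem_closure_of_tendsto hx (Eventually.of_forall fun s => ?_)
  exact Submodule.sum_mem _ fun g _ => Submodule.smul_mem _ _ (Submodule.subset_span ⟨g, rfl⟩)

theorem countable_freeSemigroup (I : Type) [Countable I] : Countable (FreeSemigroup I) := by
  have : Function.Injective (fun s : FreeSemigroup I => (s.head, s.tail)) := by
    intro s t h
    rw [Prod.mk.injEq] at h
    exact FreeSemigroup.ext h.1 h.2
  exact this.countable

end Pool.Agent.Helper32.Banach
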