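import Mathlib

set_option autoImplicit false
open MeasureTheory Filter

namespace Pool.Agent.Helper32.KG

lemma summable_of_conv (f g : ℕ → ℝ) (hf0 : ∀ k, 0 ≤ f k) (hg0 : ∀ k, 0 ≤ g k) (hg : Summable g)
    (h : ∀ k, ∃ r ≤ k, f k ≤ g r * (1 / 2 : ℝ) ^ (k - r)) : Summable f := by
  have h2 : Summable (fun n : ℕ => ‖((1 : ℝ) / 2) ^ n‖) := by
    have : Summable (fun n : ℕ => ((1 : ℝ) / 2) ^ n) := summable_geometric_two
    exact this.norm
  have h1 : Summable (fun n => ‖g n‖) := hg.norm
  have h3 := summable_norm_sum_mul_range_of_summable_norm h1 h2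
  refine Summable.of_nonneg_of_le hf0 (fun k => ?_) h3
  obtain ⟨r, hr, hle⟩ := h k
  refine hle.trans (le_trans ?_ (le_abs_self _))
  have := Finset.single_le_sum (f := fun i => g i * (1 / 2 : ℝ) ^ (k - i))
    (s := Finset.range (k + 1)) (fun i _ => mul_nonneg (hg0 i) (by positivity))
    (Finset.mem_range.mpr (Nat.lt_succ_of_le hr))
  exact this

lemma summable_psi (n : ℕ) (hn : 1 ≤ n) (ψ : ℕ → ℝ) (h0 : ∀ q, 0 ≤ ψ q) (K : ℝ) (hK : 0 < K)
    (L : ℕ → ℕ) (hL : ∀ k q, q < L k → K * (1 / 2 : ℝ) ^ k < ψ q)
    (hL' : ∀ k q, L k ≤ q → ψ q ≤ K * (1 / 2 : ℝ) ^ k)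
    (hs : Summable (fun k => (L k : ℝ) * (1 / 2 : ℝ) ^ (k * n))) :
    Summable (fun q => ψ q ^ n) := by
  classical
  set h : ℕ × ℕ → ℝ := fun x => if x.2 < L x.1 then (1 / 2 : ℝ) ^ (x.1 * n) else 0 with hh
  have hpos : 0 ≤ h := by
    intro x; simp only [hh, Pi.zero_apply]; split_ifs <;> positivity
  have hts : ∀ k, HasSum (fun q => h (k, q)) ((L k : ℝ) * (1 / 2 : ℝ) ^ (k * n)) := by
    intro k
    have h1 : HasSum (fun q => h (k, q)) (∑ q ∈ Finset.range (L k), h (k, q)) :=
      hasSum_sum_of_ne_finset_zero (fun q hq => by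
        simp only [hh]
        rw [if_neg (by simpa using hq)])
    have h2 : ∑ q ∈ Finset.range (L k), h (k, q) = (L k : ℝ) * (1 / 2 : ℝ) ^ (k * n) := by
      rw [Finset.sum_congr rfl (g := fun _ => (1 / 2 : ℝ) ^ (k * n))]
      · simp
      · intro q hq
        simp only [hh]
        rw [if_pos (by simpa using hq)]
    rw [← h2]
    exact h1
  have hsum : Summable h := by
    rw [summable_prod_of_nonneg hpos]
    refine ⟨fun k => (hts k).summable, ?_⟩
    refine hs.congr (fun k => ?_)
    rw [(hts k).tsum_eq]
  have hsw : Summable (fun x : ℕ × ℕ => h x.swap) := hsum.prod_symm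
  have hq := hsw.prod
  have hfib : ∀ q, Summable (fun k => h (k, q)) := fun q => hsw.prod_factor q
  rw [← summable_nat_add_iff (L 0)]
  have hq' := (summable_nat_add_iff (L 0)).mpr (hq.mul_left ((2 * K) ^ n))
  refine Summable.of_nonneg_of_le (fun q => pow_nonneg (h0 _) n) (fun q => ?_) hq'
  set q' := q + L 0 with hq'def
  change ψ q' ^ n ≤ (2 * K) ^ n * ∑' k, h (k, q')
  rcases (h0 q').lt_or_eq with hp | hp
  · have hex : ∃ k, q' < L k := by
      by_contra hcon
      push Not at hcon
      have hlim : Tendsto (fun k : ℕ => K * (1 / 2 : ℝ) ^ k) atTop (nhds (K * 0)) :=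
        (tendsto_pow_atTop_nhds_zero_of_lt_one (by norm_num) (by norm_num)).const_mul K
      have := ge_of_tendsto' hlim (fun k => hL' k q' (hcon k))
      simp at this
      linarith
    have hfind := Nat.find_spec hex
    set k := Nat.find hex with hk
    have hk0 : k ≠ 0 := by
      intro hk0
      rw [hk0] at hfind
      omega
    obtain ⟨l, hl⟩ := Nat.exists_eq_succ_of_ne_zero hk0
    have hnot : ¬ q' < L l := Nat.find_min hex (by omega)
    have hle : ψ q' ≤ (2 * K) * (1 / 2 : ℝ) ^ k := by
      have := hL' l q' (not_lt.mp hnot)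
      rw [hl, pow_succ]
      linarith
    have h1 : ψ q' ^ n ≤ (2 * K) ^ n * h (k, q') := by
      calc ψ q' ^ n ≤ ((2 * K) * (1 / 2 : ℝ) ^ k) ^ n := pow_le_pow_left₀ (h0 _) hle n
        _ = (2 * K) ^ n * h (k, q') := by
          simp only [hh]
          rw [if_pos hfind, mul_pow, pow_mul]
    refine h1.trans ?_
    refine mul_le_mul_of_nonneg_left ?_ (by positivity)
    exact (hfib q').le_tsum k (fun j _ => hpos (j, q'))
  · rw [← hp, zero_pow (by omega)]
    refine mul_nonneg (by positivity) (tsum_nonneg (fun k => hpos (k, q')))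

/-- MODULE M1 (selection of scales). -/
theorem selection (d e : ℕ) (hd : 1 ≤ d) (ψ : ℕ → ℝ)
    (h0 : ∀ q, 0 ≤ ψ q) (hψ : Antitone ψ) (hdiv : ¬ Summable (fun q : ℕ => ψ q ^ (d + e)))
    (K : ℝ) (hK : 0 < K) :
    ∃ k m Q : ℕ → ℕ, StrictMono k ∧ StrictMono m ∧ Monotone Q ∧
      (∀ j, 2 ^ (m j * d + k j * e) ≤ Q j) ∧
      (∀ j, K * (1 / 2 : ℝ) ^ (k j) < ψ (Q j)) ∧
      ¬ Summable (fun j : ℕ => ((2 : ℝ) ^ (m j) / 2 ^ (k j)) ^ d) := by
  classical
  by_cases hz : ∀ k : ℕ, ∃ q, ψ q ≤ K * (1 / 2 : ℝ) ^ k
  swap
  · push Not at hz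
    obtain ⟨k0, hk0⟩ := hz
    refine ⟨fun j => k0 + j, fun j => k0 + j, fun j => 2 ^ ((k0 + j) * d + (k0 + j) * e),
      fun a b h => by simpa using h, fun a b h => by simpa using h, ?_, fun j => le_rfl, ?_, ?_⟩
    · intro a b h
      refine Nat.pow_le_pow_right (by norm_num) ?_
      gcongr
    · intro j
      refine lt_of_le_of_lt ?_ (hk0 _)
      refine mul_le_mul_of_nonneg_left ?_ hK.le
      exact pow_le_pow_of_le_one (by norm_num) (by norm_num) (Nat.le_add_right k0 j)
    · have : (fun j : ℕ => ((2 : ℝ) ^ (k0 + j) / 2 ^ (k0 + j)) ^ d) = fun _ => 1 := by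
        funext j
        rw [div_self (by positivity), one_pow]
      rw [this]
      intro hs
      have := hs.tendsto_atTop_zero
      have h2 := tendsto_nhds_unique this tendsto_const_nhds
      norm_num at h2
  · set L : ℕ → ℕ := fun k => Nat.find (hz k) with hLdef
    have hL : ∀ k q, q < L k → K * (1 / 2 : ℝ) ^ k < ψ q := by
      intro k q hq
      have := Nat.find_min (hz k) hq
      exact not_le.mp this
    have hL' : ∀ k q, L k ≤ q → ψ q ≤ K * (1 / 2 : ℝ) ^ k := by
      intro k q hq
      exact (hψ hq).trans (Nat.find_spec (hz k))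
    have hLmono : Monotone L := by
      intro k k' hkk
      refine Nat.find_mono ?_
      intro q hq
      refine hq.trans ?_
      refine mul_le_mul_of_nonneg_left ?_ hK.le
      exact pow_le_pow_of_le_one (by norm_num) (by norm_num) hkk
    have hexM : ∀ k, ∃ m : ℕ, L k - 1 < 2 ^ (m * d + k * e) := by
      intro k
      refine ⟨L k, ?_⟩
      have h1 : L k < 2 ^ (L k) := Nat.lt_two_pow_self
      have h2 : 2 ^ (L k) ≤ 2 ^ (L k * d + k * e) :=
        Nat.pow_le_pow_right (by norm_num) (by nlinarith)
      omega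
    set M : ℕ → ℕ := fun k => Nat.find (hexM k) with hMdef
    have hM1 : ∀ k m, m < M k → 2 ^ (m * d + k * e) ≤ L k - 1 := by
      intro k m hm
      exact not_lt.mp (Nat.find_min (hexM k) hm)
    have hM2 : ∀ k, L k - 1 < 2 ^ (M k * d + k * e) := fun k => Nat.find_spec (hexM k)
    set f : ℕ → ℝ := fun k => ((2 : ℝ) ^ (M k) / 2 ^ k) ^ d with hf
    have hf0 : ∀ k, 0 ≤ f k := fun k => by simp only [hf]; positivity
    set R : Set ℕ := {k | 1 ≤ M k ∧ ∀ k' < k, M k' < M k} with hR
    -- key claim
    have key : ¬ Summable (R.indicator f) := by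
      intro hs
      apply hdiv
      have hg : Summable (fun r => R.indicator f r + (if r = 0 then f 0 else 0)) := by
        refine hs.add ?_
        exact summable_of_ne_finset_zero (s := {0}) (fun b hb => by
          rw [if_neg (by simpa using hb)])
      have hP : ∀ k, ∃ r ≤ k, (r ∈ R ∨ r = 0) ∧ ∀ k' ≤ k, M k' ≤ M r := by
        intro k
        induction k with
        | zero =>
          refine ⟨0, le_rfl, Or.inr rfl, fun k' hk' => ?_⟩
          rw [Nat.le_zero.mp hk']
        | succ k ih =>
          obtain ⟨r, hr, hrR, hmax⟩ := ih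
          by_cases hlt : M r < M (k + 1)
          · refine ⟨k + 1, le_rfl, Or.inl ⟨by omega, fun k' hk' => ?_⟩, fun k' hk' => ?_⟩
            · exact lt_of_le_of_lt (hmax k' (by omega)) hlt
            · rcases Nat.lt_or_ge k' (k + 1) with h | h
              · exact ((hmax k' (by omega)).trans hlt.le)
              · have : k' = k + 1 := by omega
                rw [this]
          · refine ⟨r, by omega, hrR, fun k' hk' => ?_⟩
            rcases Nat.lt_or_ge k' (k + 1) with h | h
            · exact hmax k' (by omega)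
            · have : k' = k + 1 := by omega
              rw [this]; omega
      have hfs : Summable f := by
        refine summable_of_conv f _ hf0 ?_ hg ?_
        · intro k
          refine add_nonneg (Set.indicator_nonneg (fun x _ => hf0 x) k) ?_
          split_ifs
          · exact hf0 0
          · exact le_rfl
        · intro k
          obtain ⟨r, hr, hrR, hmax⟩ := hP k
          refine ⟨r, hr, ?_⟩
          have h1 : f r ≤ R.indicator f r + (if r = 0 then f 0 else 0) := by
            rcases hrR with h | h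
            · rw [Set.indicator_of_mem h]
              have : (0 : ℝ) ≤ (if r = 0 then f 0 else 0) := by
                split_ifs
                · exact hf0 0
                · exact le_rfl
              linarith
            · rw [if_pos h, h]
              have := Set.indicator_nonneg (s := R) (fun x _ => hf0 x) 0
              linarith
          have h2 : f k ≤ f r * (1 / 2 : ℝ) ^ (k - r) := by
            have h3 : (2 : ℝ) ^ (M k) / 2 ^ k ≤ (2 : ℝ) ^ (M r) / 2 ^ r * (1 / 2) ^ (k - r) := by
              have h4 : (2 : ℝ) ^ k = 2 ^ r * 2 ^ (k - r) := by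
                rw [← pow_add]; congr 1; omega
              have h5 : (2 : ℝ) ^ (M k) ≤ 2 ^ (M r) :=
                pow_le_pow_right₀ (by norm_num) (hmax k le_rfl)
              rw [h4, div_pow, one_pow, div_mul_div_comm, mul_one]
              gcongr
            have h6 : f k ≤ ((2 : ℝ) ^ (M r) / 2 ^ r * (1 / 2) ^ (k - r)) ^ d :=
              pow_le_pow_left₀ (by positivity) h3 d
            rw [mul_pow] at h6
            refine h6.trans ?_
            refine mul_le_mul_of_nonneg_left ?_ (hf0 r)
            rw [← pow_mul]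
            exact pow_le_pow_of_le_one (by norm_num) (by norm_num)
              (Nat.le_mul_of_pos_right _ (by omega))
          refine h2.trans ?_
          exact mul_le_mul_of_nonneg_right h1 (by positivity)
      refine summable_psi (d + e) (by omega) ψ h0 K hK L hL hL' ?_
      have hgeo : Summable (fun n : ℕ => ((1 : ℝ) / 2) ^ n) := summable_geometric_two
      refine Summable.of_nonneg_of_le (fun k => by positivity) (fun k => ?_) (hfs.add hgeo)
      have h1 : (L k : ℝ) ≤ 2 ^ (M k * d + k * e) + 1 := by
        have := hM2 k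
        have h2 : L k ≤ 2 ^ (M k * d + k * e) + 1 := by omega
        exact_mod_cast h2
      have h2 : (L k : ℝ) * (1 / 2 : ℝ) ^ (k * (d + e)) ≤
          (2 ^ (M k * d + k * e) + 1) * (1 / 2 : ℝ) ^ (k * (d + e)) :=
        mul_le_mul_of_nonneg_right h1 (by positivity)
      refine h2.trans ?_
      rw [add_mul, one_mul]
      refine add_le_add (le_of_eq ?_) ?_
      · simp only [hf]
        have e1 : ((1 : ℝ) / 2) ^ (k * (d + e)) = 1 / (2 ^ (k * d) * 2 ^ (k * e)) := by
          rw [div_pow, one_pow, mul_add, pow_add]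
        have e2 : ((2 : ℝ) ^ M k / 2 ^ k) ^ d = 2 ^ (M k * d) / 2 ^ (k * d) := by
          rw [div_pow, ← pow_mul, ← pow_mul]
        rw [e1, e2, pow_add]
        field_simp
      · exact pow_le_pow_of_le_one (by norm_num) (by norm_num)
          (Nat.le_mul_of_pos_right _ (by omega))
    have hRinf : R.Infinite := by
      intro hfin
      apply key
      refine summable_of_ne_finset_zero (s := hfin.toFinset) (fun b hb => ?_)
      rw [Set.indicator_of_notMem]
      simpa using hb
    have : Infinite R := hRinf.to_subtype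
    set kk := Nat.orderEmbeddingOfSet R with hkk
    have hmem : ∀ j, kk j ∈ R := fun j => by
      have : kk j ∈ Set.range kk := ⟨j, rfl⟩
      rwa [hkk, Nat.orderEmbeddingOfSet_range] at this
    refine ⟨fun j => kk j, fun j => M (kk j) - 1, fun j => L (kk j) - 1, kk.strictMono, ?_, ?_, ?_,
      ?_, ?_⟩
    · intro i j hij
      have h1 := (hmem j).2 (kk i) (kk.strictMono hij)
      have h2 := (hmem i).1
      show M (kk i) - 1 < M (kk j) - 1
      omega
    · intro i j hij
      have := hLmono (kk.monotone hij)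
      show L (kk i) - 1 ≤ L (kk j) - 1
      omega
    · intro j
      have h2 := (hmem j).1
      exact hM1 (kk j) (M (kk j) - 1) (by omega)
    · intro j
      have h2 := (hmem j).1
      have h3 := hM1 (kk j) (M (kk j) - 1) (by omega)
      have h4 : 0 < 2 ^ ((M (kk j) - 1) * d + kk j * e) := by positivity
      exact hL (kk j) (L (kk j) - 1) (by omega)
    · intro hs
      apply key
      have hinj : Function.Injective (fun j => kk j) := kk.injective
      rw [← hinj.summable_iff (by
        intro x hx
        rw [Set.indicator_of_notMem]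
        intro hxR
        apply hx
        have : x ∈ Set.range kk := by rw [hkk, Nat.orderEmbeddingOfSet_range]; exact hxR
        exact this)]
      refine (hs.mul_left (2 ^ d)).congr (fun j => ?_)
      show _ = R.indicator f (kk j)
      rw [Set.indicator_of_mem (hmem j)]
      simp only [hf]
      have h2 := (hmem j).1
      rw [← mul_pow]
      congr 1
      rw [← mul_div_assoc, ← pow_succ']
      congr 2
      omega

end Pool.Agent.Helper32.KG
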