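import Mathlib

/-!
# `ℓ¹` Banach algebras given by a multiplication table
-/

set_option autoImplicit false

open Topology

namespace Pool.Agent.Helper32.Banach

/-- The Banach space `ℓ¹(G)` of absolutely summable complex families indexed by `G`. -/
abbrev L1 (G : Type*) : Type _ := lp (fun _ : G => ℂ) 1

/-- The basis vector `δ_g` of `ℓ¹(G)`. -/
noncomputable def delta {G : Type*} [DecidableEq G] (g : G) : L1 G := lp.single 1 g (1 : ℂ)

namespace L1

variable {G : Type*}

theorem summable_norm (x : L1 G) : Summable (fun g => ‖x g‖) := by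
  have h := x.2.summable (by simp)
  simpa using h

theorem norm_eq (x : L1 G) : ‖x‖ = ∑' g, ‖x g‖ := by
  rw [lp.norm_eq_tsum_rpow (by simp)]
  simp

variable {V : Type*} [NormedAddCommGroup V] [NormedSpace ℂ V] [CompleteSpace V]

omit [CompleteSpace V] in
theorem summable_norm_smul (v : G → V) (C : ℝ) (hv : ∀ g, ‖v g‖ ≤ C) (x : L1 G) :
    Summable (fun g => ‖x g • v g‖) := by
  refine Summable.of_nonneg_of_le (fun _ => norm_nonneg _) (fun g => ?_)
    ((summable_norm x).mul_right C)
  rw [norm_smul]
  exact mul_le_mul_of_nonneg_left (hv g) (norm_nonneg _)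

theorem summable_smul (v : G → V) (C : ℝ) (hv : ∀ g, ‖v g‖ ≤ C) (x : L1 G) :
    Summable (fun g => x g • v g) :=
  (summable_norm_smul v C hv x).of_norm

/-- The continuous linear map `ℓ¹(G) → V` which sends `δ_g` to `v g`, for a bounded family `v`. -/
noncomputable def lift (v : G → V) (C : ℝ) (hv : ∀ g, ‖v g‖ ≤ C) : L1 G →L[ℂ] V :=
  LinearMap.mkContinuous
    { toFun := fun x => ∑' g, x g • v g
      map_add' := by
        intro x y
        rw [← (summable_smul v C hv x).tsum_add (summable_smul v C hv y)]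
        congr 1
        funext g
        rw [lp.coeFn_add, Pi.add_apply, add_smul]
      map_smul' := by
        intro c x
        rw [RingHom.id_apply, ← (summable_smul v C hv x).tsum_const_smul c]
        congr 1
        funext g
        rw [lp.coeFn_smul, Pi.smul_apply, smul_eq_mul, mul_smul] } C (by
    intro x
    change ‖∑' g, x g • v g‖ ≤ C * ‖x‖
    calc ‖∑' g, x g • v g‖ ≤ ∑' g, ‖x g • v g‖ :=
          norm_tsum_le_tsum_norm (summable_norm_smul v C hv x)
      _ ≤ ∑' g, ‖x g‖ * C := by
          refine (summable_norm_smul v C hv x).tsum_le_tsum (fun g => ?_)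
            ((summable_norm x).mul_right C)
          rw [norm_smul]
          exact mul_le_mul_of_nonneg_left (hv g) (norm_nonneg _)
      _ = C * ‖x‖ := by rw [tsum_mul_right, norm_eq, mul_comm])

theorem lift_apply (v : G → V) (C : ℝ) (hv : ∀ g, ‖v g‖ ≤ C) (x : L1 G) :
    lift v C hv x = ∑' g, x g • v g := rfl

theorem norm_lift_apply_le (v : G → V) (C : ℝ) (hv : ∀ g, ‖v g‖ ≤ C) (x : L1 G) :
    ‖lift v C hv x‖ ≤ C * ‖x‖ := by
  rw [lift_apply]
  calc ‖∑' g, x g • v g‖ ≤ ∑' g, ‖x g • v g‖ :=
        norm_tsum_le_tsum_norm (summable_norm_smul v C hv x)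
    _ ≤ ∑' g, ‖x g‖ * C := by
        refine (summable_norm_smul v C hv x).tsum_le_tsum (fun g => ?_)
          ((summable_norm x).mul_right C)
        rw [norm_smul]
        exact mul_le_mul_of_nonneg_left (hv g) (norm_nonneg _)
    _ = C * ‖x‖ := by rw [tsum_mul_right, norm_eq, mul_comm]

theorem norm_lift_le (v : G → V) (C : ℝ) (hC : 0 ≤ C) (hv : ∀ g, ‖v g‖ ≤ C) :
    ‖lift v C hv‖ ≤ C :=
  ContinuousLinearMap.opNorm_le_bound _ hC (norm_lift_apply_le v C hv)

variable [DecidableEq G]

theorem delta_apply (g h : G) : (delta g : L1 G) h = if h = g then 1 else 0 := by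
  rw [delta, lp.single_apply, Pi.single_apply]

@[simp]
theorem norm_delta (g : G) : ‖(delta g : L1 G)‖ = 1 := by
  rw [delta, lp.norm_single (by simp)]; simp

@[simp]
theorem lift_delta (v : G → V) (C : ℝ) (hv : ∀ g, ‖v g‖ ≤ C) (g : G) :
    lift v C hv (delta g) = v g := by
  rw [lift_apply, tsum_eq_single g]
  · rw [delta_apply, if_pos rfl, one_smul]
  · intro h hh
    rw [delta_apply, if_neg hh, zero_smul]

omit [CompleteSpace V] in
/-- Continuous linear maps on `ℓ¹(G)` agree if they agree on the basis vectors. -/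
theorem clm_ext {f f' : L1 G →L[ℂ] V} (h : ∀ g, f (delta g) = f' (delta g)) : f = f' := by
  refine lp.ext_continuousLinearMap (by simp) fun g => ?_
  ext
  simpa [delta] using h g

theorem hasSum_delta (x : L1 G) : HasSum (fun g => x g • delta g) x := by
  have := lp.hasSum_single (p := 1) (by simp) x
  refine this.congr_fun ?_
  intro g
  rw [delta, ← lp.single_smul, smul_eq_mul, mul_one]

end L1

/-- The continuous bilinear map `ℓ¹(G) × ℓ¹(G) → ℓ¹(G)` which sends `(δ_g, δ_h)` to `m g h`. -/
noncomputable def bilin {G : Type*} (m : G → G → L1 G) (hm : ∀ g h, ‖m g h‖ ≤ 1) :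
    L1 G →L[ℂ] L1 G →L[ℂ] L1 G :=
  L1.lift (fun g => L1.lift (fun h => m g h) 1 (hm g)) 1
    (fun g => L1.norm_lift_le _ 1 zero_le_one (hm g))

theorem bilin_norm_le {G : Type*} (m : G → G → L1 G) (hm : ∀ g h, ‖m g h‖ ≤ 1) (x y : L1 G) :
    ‖bilin m hm x y‖ ≤ ‖x‖ * ‖y‖ := by
  have h1 : ‖bilin m hm x‖ ≤ 1 * ‖x‖ := L1.norm_lift_apply_le _ 1 _ x
  calc ‖bilin m hm x y‖ ≤ ‖bilin m hm x‖ * ‖y‖ := (bilin m hm x).le_opNorm y
    _ ≤ ‖x‖ * ‖y‖ := by rw [one_mul] at h1; gcongr

section

variable {G : Type*} [DecidableEq G]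

@[simp]
theorem bilin_delta (m : G → G → L1 G) (hm : ∀ g h, ‖m g h‖ ≤ 1) (g h : G) :
    bilin m hm (delta g) (delta h) = m g h := by
  rw [bilin, L1.lift_delta, L1.lift_delta]

/-- A continuous bilinear map on `ℓ¹(G)` is determined by its values on basis vectors. -/
theorem bilin_ext {V : Type*} [NormedAddCommGroup V] [NormedSpace ℂ V]
    {f f' : L1 G →L[ℂ] L1 G →L[ℂ] V} (h : ∀ g h, f (delta g) (delta h) = f' (delta g) (delta h)) :
    f = f' := by
  refine L1.clm_ext fun g => ?_
  exact L1.clm_ext fun k => h g k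

end

/-- A multiplication table on the basis vectors of `ℓ¹(G)`: elements `m g h` of norm at most `1`
whose bilinear extension is associative on basis vectors. -/
structure Table (G : Type*) [DecidableEq G] where
  m : G → G → L1 G
  norm_le : ∀ g h, ‖m g h‖ ≤ 1
  assoc : ∀ g h k, bilin m norm_le (m g h) (delta k) = bilin m norm_le (delta g) (m h k)

/-- The Banach algebra `ℓ¹(G)` with the multiplication determined by a table. -/
def L1Alg {G : Type*} [DecidableEq G] (_t : Table G) : Type _ := L1 G

namespace L1Alg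

variable {G : Type*} [DecidableEq G] (t : Table G)

noncomputable instance instNormedAddCommGroup : NormedAddCommGroup (L1Alg t) :=
  inferInstanceAs (NormedAddCommGroup (L1 G))

noncomputable instance instNormedSpace : NormedSpace ℂ (L1Alg t) :=
  inferInstanceAs (NormedSpace ℂ (L1 G))

instance instCompleteSpace : CompleteSpace (L1Alg t) :=
  inferInstanceAs (CompleteSpace (L1 G))

/-- The multiplication: the continuous bilinear extension of the table. -/
noncomputable instance instMul : Mul (L1Alg t) where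
  mul x y := bilin t.m t.norm_le (x : L1 G) (y : L1 G)

variable {t}

theorem mul_def (x y : L1Alg t) : x * y = bilin t.m t.norm_le (x : L1 G) (y : L1 G) := rfl

theorem mul_assoc' (x y z : L1Alg t) : x * y * z = x * (y * z) := by
  set B := bilin t.m t.norm_le with hB
  -- both sides as trilinear maps
  let F : L1 G →L[ℂ] L1 G →L[ℂ] L1 G →L[ℂ] L1 G :=
    (ContinuousLinearMap.compL ℂ (L1 G) (L1 G) (L1 G →L[ℂ] L1 G) B).comp B
  let F' : L1 G →L[ℂ] L1 G →L[ℂ] L1 G →L[ℂ] L1 G :=
    ((ContinuousLinearMap.compL ℂ (L1 G) (L1 G →L[ℂ] L1 G) (L1 G →L[ℂ] L1 G)).flip B).comp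
      ((ContinuousLinearMap.compL ℂ (L1 G) (L1 G) (L1 G)).comp B)
  have hF : F = F' := by
    refine bilin_ext fun g h => ?_
    refine L1.clm_ext fun k => ?_
    change B (B (delta g) (delta h)) (delta k) = B (delta g) (B (delta h) (delta k))
    rw [hB, bilin_delta, bilin_delta]
    exact t.assoc g h k
  have := congrArg (fun T => T (x : L1 G) (y : L1 G) (z : L1 G)) hF
  exact this

noncomputable instance instNonUnitalNormedRing : NonUnitalNormedRing (L1Alg t) :=
  { instNormedAddCommGroup t, instMul t with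
    left_distrib := fun x y z => (bilin t.m t.norm_le (x : L1 G)).map_add y z
    right_distrib := fun x y z => (bilin t.m t.norm_le).map_add₂ (x : L1 G) (y : L1 G) (z : L1 G)
    zero_mul := fun x => (bilin t.m t.norm_le).map_zero₂ (x : L1 G)
    mul_zero := fun x => (bilin t.m t.norm_le (x : L1 G)).map_zero
    mul_assoc := mul_assoc'
    norm_mul_le := fun x y => bilin_norm_le t.m t.norm_le x y }

instance instIsScalarTower : IsScalarTower ℂ (L1Alg t) (L1Alg t) where
  smul_assoc c x y := (bilin t.m t.norm_le).map_smul₂ c (x : L1 G) (y : L1 G)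

instance instSMulCommClass : SMulCommClass ℂ (L1Alg t) (L1Alg t) where
  smul_comm c x y := ((bilin t.m t.norm_le (x : L1 G)).map_smul c (y : L1 G)).symm

end L1Alg

/-- The multiplication table of a semigroup: `δ_s * δ_t = δ_{s t}`. -/
noncomputable def semigroupTable (S : Type*) [Semigroup S] [DecidableEq S] : Table S where
  m s t := delta (s * t)
  norm_le s t := by simp
  assoc s t u := by simp [mul_assoc]

/-- The convolution Banach algebra `ℓ¹(S)` of a semigroup `S`. -/
abbrev L1S (S : Type*) [Semigroup S] [DecidableEq S] : Type _ := L1Alg (semigroupTable S)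

end Pool.Agent.Helper32.Banach
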