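import Mathlib

set_option autoImplicit false

/-!
`q`-types of coloured relational structures, their finiteness, and the composition lemma for
sums whose cross relations are determined by the colours on the first summand.
-/

namespace Pool.Agent.Helper32.Pump

/-- A relational vocabulary; the arities are arbitrary types. -/
structure Voc where
  ι : Type
  ar : ι → Type

/-- finite vocabularies -/
class Voc.Fin (V : Voc) : Prop where
  fin : Finite V.ι
  far : ∀ i, Finite (V.ar i)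

/-- Structures with vertex colours in `κ` and relations in `V`. -/
structure Col (κ : Type) (V : Voc) where
  carrier : Type
  col : carrier → κ
  rel : ∀ R : V.ι, (V.ar R → carrier) → Prop

/-- atomic types -/
abbrev T0 (κ : Type) (V : Voc) (n : ℕ) : Type :=
  (Fin n → κ) × (∀ R : V.ι, (V.ar R → Fin n) → Prop) × (Fin n → Fin n → Prop)

/-- `q`-types of `n`-tuples -/
def T (κ : Type) (V : Voc) : ℕ → ℕ → Type
  | 0, n => T0 κ V n
  | q + 1, n => T0 κ V n × Set (T κ V q (n + 1))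

variable {κ : Type} {V : Voc}

instance finite_T [Finite κ] [hV : V.Fin] (q n : ℕ) : Finite (T κ V q n) := by
  have h1 := hV.fin
  have h2 := hV.far
  induction q generalizing n with
  | zero => show Finite (T0 κ V n); infer_instance
  | succ q ih =>
    have := ih (n + 1)
    show Finite (T0 κ V n × Set (T κ V q (n + 1)))
    infer_instance

/-- the atomic type of a tuple -/
def tp0 (S : Col κ V) {n : ℕ} (a : Fin n → S.carrier) : T0 κ V n :=
  (fun i => S.col (a i), fun R f => S.rel R (fun k => a (f k)), fun i j => a i = a j)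

/-- the `q`-type of a tuple -/
def tp (S : Col κ V) : ∀ (q : ℕ) {n : ℕ}, (Fin n → S.carrier) → T κ V q n
  | 0, _, a => tp0 S a
  | q + 1, n, a => (tp0 S a, {t : T κ V q (n + 1) | ∃ x : S.carrier, t = tp S q (Fin.snoc a x)})

lemma tp_succ_iff {S S' : Col κ V} {q n : ℕ} {a : Fin n → S.carrier} {a' : Fin n → S'.carrier} :
    tp S (q + 1) a = tp S' (q + 1) a' ↔ tp0 S a = tp0 S' a' ∧
      (∀ x, ∃ x', tp S q (Fin.snoc a x : Fin (n + 1) → S.carrier) =
        tp S' q (Fin.snoc a' x' : Fin (n + 1) → S'.carrier)) ∧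
      (∀ x', ∃ x, tp S q (Fin.snoc a x : Fin (n + 1) → S.carrier) =
        tp S' q (Fin.snoc a' x' : Fin (n + 1) → S'.carrier)) := by
  simp only [tp]
  constructor
  · intro h
    have h1 := congrArg Prod.fst h
    have h2 := congrArg Prod.snd h
    refine ⟨h1, ?_, ?_⟩
    · intro x
      have h3 : tp S q (Fin.snoc a x : Fin (n + 1) → S.carrier) ∈
          {t : T κ V q (n + 1) | ∃ x : S.carrier, t = tp S q (Fin.snoc a x)} := ⟨x, rfl⟩
      have h4 : {t : T κ V q (n + 1) | ∃ x : S.carrier, t = tp S q (Fin.snoc a x)} =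
          {t : T κ V q (n + 1) | ∃ x : S'.carrier, t = tp S' q (Fin.snoc a' x)} := h2
      rw [h4] at h3
      exact h3
    · intro x
      have h3 : tp S' q (Fin.snoc a' x : Fin (n + 1) → S'.carrier) ∈
          {t : T κ V q (n + 1) | ∃ x : S'.carrier, t = tp S' q (Fin.snoc a' x)} := ⟨x, rfl⟩
      have h4 : {t : T κ V q (n + 1) | ∃ x : S.carrier, t = tp S q (Fin.snoc a x)} =
          {t : T κ V q (n + 1) | ∃ x : S'.carrier, t = tp S' q (Fin.snoc a' x)} := h2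
      rw [← h4] at h3
      obtain ⟨y, hy⟩ := h3
      exact ⟨y, hy.symm⟩
  · rintro ⟨h1, h2, h3⟩
    refine Prod.ext h1 ?_
    ext t
    constructor
    · rintro ⟨x, rfl⟩
      obtain ⟨x', hx'⟩ := h2 x
      exact ⟨x', hx'⟩
    · rintro ⟨x', rfl⟩
      obtain ⟨x, hx⟩ := h3 x'
      exact ⟨x, hx.symm⟩

lemma tp0_of_tp {S S' : Col κ V} {q n : ℕ} {a : Fin n → S.carrier} {a' : Fin n → S'.carrier}
    (h : tp S q a = tp S' q a') : tp0 S a = tp0 S' a' := by
  cases q with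
  | zero => exact h
  | succ q => exact (tp_succ_iff.1 h).1

lemma tp_pred {S S' : Col κ V} {q n : ℕ} {a : Fin n → S.carrier} {a' : Fin n → S'.carrier}
    (h : tp S (q + 1) a = tp S' (q + 1) a') : tp S q a = tp S' q a' := by
  induction q generalizing n with
  | zero => exact (tp_succ_iff.1 h).1
  | succ q ih =>
    obtain ⟨h1, h2, h3⟩ := tp_succ_iff.1 h
    refine tp_succ_iff.2 ⟨h1, ?_, ?_⟩
    · intro x
      obtain ⟨x', hx'⟩ := h2 x
      exact ⟨x', ih hx'⟩
    · intro x'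
      obtain ⟨x, hx⟩ := h3 x'
      exact ⟨x, ih hx⟩

/-- isomorphic structures have the same types -/
lemma tp_iso {S S' : Col κ V} (e : S.carrier ≃ S'.carrier) (h1 : ∀ x, S'.col (e x) = S.col x)
    (h2 : ∀ R (x : V.ar R → S.carrier), S'.rel R (fun i => e (x i)) ↔ S.rel R x) (q : ℕ) {n : ℕ}
    (a : Fin n → S.carrier) : tp S q a = tp S' q (e ∘ a) := by
  have h0 : ∀ {n : ℕ} (a : Fin n → S.carrier), tp0 S a = tp0 S' (e ∘ a) := by
    intro n a
    simp only [tp0, Function.comp_apply, h1, EmbeddingLike.apply_eq_iff_eq]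
    refine Prod.ext rfl (Prod.ext ?_ rfl)
    funext R f
    exact propext (h2 R fun k => a (f k)).symm
  induction q generalizing n with
  | zero => exact h0 a
  | succ q ih =>
    refine tp_succ_iff.2 ⟨h0 a, ?_, ?_⟩
    · intro x
      refine ⟨e x, ?_⟩
      rw [ih, Fin.comp_snoc]
    · intro x'
      refine ⟨e.symm x', ?_⟩
      rw [ih, Fin.comp_snoc, Equiv.apply_symm_apply]

/-- The vocabulary of the second summand: a relation symbol together with colours for those of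
its argument places that are filled from the first summand. -/
def Voc.ext (V : Voc) (κ₁ : Type) : Voc where
  ι := Σ R : V.ι, (V.ar R → Option κ₁)
  ar := fun z => {i : V.ar z.1 // z.2 i = none}

instance ext_fin {κ₁ : Type} [Finite κ₁] [hV : V.Fin] : (V.ext κ₁).Fin where
  fin := by
    have h1 := hV.fin
    have h2 := hV.far
    show Finite (Σ R : V.ι, (V.ar R → Option κ₁))
    infer_instance
  far := by
    have h2 := hV.far
    rintro ⟨R, p⟩
    show Finite {i : V.ar R // p i = none}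
    infer_instance

variable {κ₁ κ₂ : Type}

/-- The sum of two structures. -/
def sum (c₁ : κ₁ → κ) (c₂ : κ₂ → κ) (S₁ : Col κ₁ V) (S₂ : Col κ₂ (V.ext κ₁)) : Col κ V where
  carrier := S₁.carrier ⊕ S₂.carrier
  col := Sum.elim (fun u => c₁ (S₁.col u)) (fun d => c₂ (S₂.col d))
  rel := fun R x =>
    (∃ y : V.ar R → S₁.carrier, (∀ i, x i = Sum.inl (y i)) ∧ S₁.rel R y) ∨
    ((∃ i d, x i = Sum.inr d) ∧
      ∃ (p : V.ar R → Option κ₁) (y : {i : V.ar R // p i = none} → S₂.carrier),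
        (∀ i u, x i = Sum.inl u → p i = some (S₁.col u)) ∧ (∀ i d, x i = Sum.inr d → p i = none) ∧
        (∀ i, x i.1 = Sum.inr (y i)) ∧ S₂.rel ⟨R, p⟩ y)

/-- the tuple of the sum with pattern `w` -/
def mix {A B : Type} {n₁ n₂ n : ℕ} (a : Fin n₁ → A) (b : Fin n₂ → B)
    (w : Fin n → Fin n₁ ⊕ Fin n₂) : Fin n → A ⊕ B := fun i => Sum.map a b (w i)

lemma mix_eq_inl {A B : Type} {n₁ n₂ n : ℕ} {a : Fin n₁ → A} {b : Fin n₂ → B}
    {w : Fin n → Fin n₁ ⊕ Fin n₂} {i : Fin n} {u : A} (h : mix a b w i = Sum.inl u) :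
    ∃ k, w i = Sum.inl k ∧ a k = u := by
  unfold mix at h
  rcases hw : w i with k | k
  · rw [hw] at h
    exact ⟨k, rfl, Sum.inl.inj h⟩
  · rw [hw] at h
    exact absurd h (by simp)

lemma mix_eq_inr {A B : Type} {n₁ n₂ n : ℕ} {a : Fin n₁ → A} {b : Fin n₂ → B}
    {w : Fin n → Fin n₁ ⊕ Fin n₂} {i : Fin n} {d : B} (h : mix a b w i = Sum.inr d) :
    ∃ k, w i = Sum.inr k ∧ b k = d := by
  unfold mix at h
  rcases hw : w i with k | k
  · rw [hw] at h
    exact absurd h (by simp)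
  · rw [hw] at h
    exact ⟨k, rfl, Sum.inr.inj h⟩

lemma mix_inl {A B : Type} {n₁ n₂ n : ℕ} {a : Fin n₁ → A} {b : Fin n₂ → B}
    {w : Fin n → Fin n₁ ⊕ Fin n₂} {i : Fin n} {k : Fin n₁} (h : w i = Sum.inl k) :
    mix a b w i = Sum.inl (a k) := by
  unfold mix; rw [h]; rfl

lemma mix_inr {A B : Type} {n₁ n₂ n : ℕ} {a : Fin n₁ → A} {b : Fin n₂ → B}
    {w : Fin n → Fin n₁ ⊕ Fin n₂} {i : Fin n} {k : Fin n₂} (h : w i = Sum.inr k) :
    mix a b w i = Sum.inr (b k) := by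
  unfold mix; rw [h]; rfl

lemma mix_snoc_inl {A B : Type} {n₁ n₂ n : ℕ} (a : Fin n₁ → A) (b : Fin n₂ → B)
    (w : Fin n → Fin n₁ ⊕ Fin n₂) (u : A) :
    (Fin.snoc (mix a b w) (Sum.inl u) : Fin (n + 1) → A ⊕ B) =
      mix (Fin.snoc a u : Fin (n₁ + 1) → A) b
        (Fin.snoc (fun i => Sum.map Fin.castSucc id (w i)) (Sum.inl (Fin.last n₁)) :
          Fin (n + 1) → Fin (n₁ + 1) ⊕ Fin n₂) := by
  funext i
  refine Fin.lastCases ?_ (fun i => ?_) i
  · simp [mix]
  · simp only [mix, Fin.snoc_castSucc]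
    rcases w i with j | j
    · simp
    · simp

lemma mix_snoc_inr {A B : Type} {n₁ n₂ n : ℕ} (a : Fin n₁ → A) (b : Fin n₂ → B)
    (w : Fin n → Fin n₁ ⊕ Fin n₂) (d : B) :
    (Fin.snoc (mix a b w) (Sum.inr d) : Fin (n + 1) → A ⊕ B) =
      mix a (Fin.snoc b d : Fin (n₂ + 1) → B)
        (Fin.snoc (fun i => Sum.map id Fin.castSucc (w i)) (Sum.inr (Fin.last n₂)) :
          Fin (n + 1) → Fin n₁ ⊕ Fin (n₂ + 1)) := by
  funext i
  refine Fin.lastCases ?_ (fun i => ?_) i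
  · simp [mix]
  · simp only [mix, Fin.snoc_castSucc]
    rcases w i with j | j
    · simp
    · simp

lemma rel_sum_imp (c₁ : κ₁ → κ) (c₂ : κ₂ → κ) {S₁ S₁' : Col κ₁ V} {S₂ S₂' : Col κ₂ (V.ext κ₁)}
    {n₁ n₂ n : ℕ} (a : Fin n₁ → S₁.carrier) (b : Fin n₂ → S₂.carrier)
    (a' : Fin n₁ → S₁'.carrier) (b' : Fin n₂ → S₂'.carrier) (w : Fin n → Fin n₁ ⊕ Fin n₂)
    (h1 : tp0 S₁ a = tp0 S₁' a') (h2 : tp0 S₂ b = tp0 S₂' b') (R : V.ι) (f : V.ar R → Fin n)
    (h : (sum c₁ c₂ S₁ S₂).rel R fun k => mix a b w (f k)) :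
    (sum c₁ c₂ S₁' S₂').rel R fun k => mix a' b' w (f k) := by
  simp only [tp0, Prod.mk.injEq] at h1 h2
  obtain ⟨h1a, h1b, -⟩ := h1
  obtain ⟨-, h2b, -⟩ := h2
  rcases h with ⟨y, hy, hr⟩ | ⟨⟨i₀, d₀, hi₀⟩, p, y, hp1, hp2, hy, hr⟩
  · left
    choose g hg1 hg2 using fun i => mix_eq_inl (hy i)
    refine ⟨fun i => a' (g i), fun i => mix_inl (hg1 i), ?_⟩
    have h3 := congrFun (congrFun h1b R) g
    have h4 : (fun k => a (g k)) = y := funext hg2
    rw [h4] at h3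
    exact h3.mp hr
  · right
    obtain ⟨k₀, hk₀, -⟩ := mix_eq_inr hi₀
    refine ⟨⟨i₀, b' k₀, mix_inr hk₀⟩, p, ?_⟩
    choose g hg1 hg2 using fun i => mix_eq_inr (hy i)
    refine ⟨fun i => b' (g i), ?_, ?_, fun i => mix_inr (hg1 i), ?_⟩
    · intro i u hu
      obtain ⟨k, hk, rfl⟩ := mix_eq_inl hu
      rw [hp1 i (a k) (mix_inl hk)]
      exact congrArg some (congrFun h1a k)
    · intro i d hd
      obtain ⟨k, hk, -⟩ := mix_eq_inr hd
      exact hp2 i (b k) (mix_inr hk)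
    · have h3 := congrFun (congrFun h2b ⟨R, p⟩) g
      have h4 : (fun k => b (g k)) = y := funext hg2
      have h5 : S₂.rel ⟨R, p⟩ (fun k => b (g k)) :=
        (congrArg (fun z : {i : V.ar R // p i = none} → S₂.carrier => S₂.rel ⟨R, p⟩ z) h4).mpr hr
      exact h3.mp h5

/-- **Composition lemma.** -/
theorem tp_sum (c₁ : κ₁ → κ) (c₂ : κ₂ → κ) {S₁ S₁' : Col κ₁ V} {S₂ S₂' : Col κ₂ (V.ext κ₁)}
    (q : ℕ) :
    ∀ {n₁ n₂ n : ℕ} (a : Fin n₁ → S₁.carrier) (b : Fin n₂ → S₂.carrier)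
      (a' : Fin n₁ → S₁'.carrier) (b' : Fin n₂ → S₂'.carrier)
      (w : Fin n → Fin n₁ ⊕ Fin n₂),
      tp S₁ q a = tp S₁' q a' → tp S₂ q b = tp S₂' q b' →
      tp (sum c₁ c₂ S₁ S₂) q (mix a b w) = tp (sum c₁ c₂ S₁' S₂') q (mix a' b' w) := by
  have h0 : ∀ {n₁ n₂ n : ℕ} (a : Fin n₁ → S₁.carrier) (b : Fin n₂ → S₂.carrier)
      (a' : Fin n₁ → S₁'.carrier) (b' : Fin n₂ → S₂'.carrier)
      (w : Fin n → Fin n₁ ⊕ Fin n₂),
      tp0 S₁ a = tp0 S₁' a' → tp0 S₂ b = tp0 S₂' b' →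
      tp0 (sum c₁ c₂ S₁ S₂) (mix a b w) = tp0 (sum c₁ c₂ S₁' S₂') (mix a' b' w) := by
    intro n₁ n₂ n a b a' b' w h1 h2
    have hh1 := h1
    have hh2 := h2
    simp only [tp0, Prod.mk.injEq] at h1 h2 ⊢
    obtain ⟨h1a, h1b, h1c⟩ := h1
    obtain ⟨h2a, h2b, h2c⟩ := h2
    have h1a' := fun i => congrFun h1a i
    have h1c' := fun i j => congrFun (congrFun h1c i) j
    have h2a' := fun i => congrFun h2a i
    have h2c' := fun i j => congrFun (congrFun h2c i) j
    refine ⟨?_, ?_, ?_⟩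
    · funext i
      simp only [sum, mix]
      rcases w i with k | k
      · simp only [Sum.map_inl, Sum.elim_inl]; exact congrArg c₁ (h1a' k)
      · simp only [Sum.map_inr, Sum.elim_inr]; exact congrArg c₂ (h2a' k)
    · funext R f
      exact propext ⟨rel_sum_imp c₁ c₂ a b a' b' w hh1 hh2 R f,
        rel_sum_imp c₁ c₂ a' b' a b w hh1.symm hh2.symm R f⟩
    · funext i j
      simp only [mix]
      rcases w i with k | k <;> rcases w j with l | l
      · exact propext ⟨fun h => congrArg Sum.inl ((h1c' k l).mp (Sum.inl.inj h)),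
          fun h => congrArg Sum.inl ((h1c' k l).mpr (Sum.inl.inj h))⟩
      · simp
      · simp
      · exact propext ⟨fun h => congrArg Sum.inr ((h2c' k l).mp (Sum.inr.inj h)),
          fun h => congrArg Sum.inr ((h2c' k l).mpr (Sum.inr.inj h))⟩
  induction q with
  | zero => intro n₁ n₂ n a b a' b' w h1 h2; exact h0 a b a' b' w h1 h2
  | succ q ih =>
    intro n₁ n₂ n a b a' b' w h1 h2
    have h1' := tp_succ_iff.1 h1
    have h2' := tp_succ_iff.1 h2
    refine tp_succ_iff.2 ⟨h0 a b a' b' w h1'.1 h2'.1, ?_, ?_⟩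
    · rintro (u | d)
      · obtain ⟨u', hu'⟩ := h1'.2.1 u
        refine ⟨Sum.inl u', ?_⟩
        have e1 := mix_snoc_inl a b w u
        have e2 := mix_snoc_inl a' b' w u'
        have := ih (Fin.snoc a u) b (Fin.snoc a' u') b'
          (Fin.snoc (fun i => Sum.map Fin.castSucc id (w i)) (Sum.inl (Fin.last n₁)) :
            Fin (n + 1) → Fin (n₁ + 1) ⊕ Fin n₂) hu' (tp_pred h2)
        rw [← e1, ← e2] at this
        exact this
      · obtain ⟨d', hd'⟩ := h2'.2.1 d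
        refine ⟨Sum.inr d', ?_⟩
        have e1 := mix_snoc_inr a b w d
        have e2 := mix_snoc_inr a' b' w d'
        have := ih a (Fin.snoc b d) a' (Fin.snoc b' d')
          (Fin.snoc (fun i => Sum.map id Fin.castSucc (w i)) (Sum.inr (Fin.last n₂)) :
            Fin (n + 1) → Fin n₁ ⊕ Fin (n₂ + 1)) (tp_pred h1) hd'
        rw [← e1, ← e2] at this
        exact this
    · rintro (u' | d')
      · obtain ⟨u, hu⟩ := h1'.2.2 u'
        refine ⟨Sum.inl u, ?_⟩
        have e1 := mix_snoc_inl a b w u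
        have e2 := mix_snoc_inl a' b' w u'
        have := ih (Fin.snoc a u) b (Fin.snoc a' u') b'
          (Fin.snoc (fun i => Sum.map Fin.castSucc id (w i)) (Sum.inl (Fin.last n₁)) :
            Fin (n + 1) → Fin (n₁ + 1) ⊕ Fin n₂) hu (tp_pred h2)
        rw [← e1, ← e2] at this
        exact this
      · obtain ⟨d, hd⟩ := h2'.2.2 d'
        refine ⟨Sum.inr d, ?_⟩
        have e1 := mix_snoc_inr a b w d
        have e2 := mix_snoc_inr a' b' w d'
        have := ih a (Fin.snoc b d) a' (Fin.snoc b' d')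
          (Fin.snoc (fun i => Sum.map id Fin.castSucc (w i)) (Sum.inr (Fin.last n₂)) :
            Fin (n + 1) → Fin n₁ ⊕ Fin (n₂ + 1)) (tp_pred h1) hd
        rw [← e1, ← e2] at this
        exact this

/-- The `q`-type of a structure. -/
def tpS (S : Col κ V) (q : ℕ) : T κ V q 0 := tp S q (Fin.elim0 : Fin 0 → S.carrier)

lemma tpS_sum (c₁ : κ₁ → κ) (c₂ : κ₂ → κ) {S₁ S₁' : Col κ₁ V} {S₂ S₂' : Col κ₂ (V.ext κ₁)}
    {q : ℕ} (h1 : tpS S₁ q = tpS S₁' q) (h2 : tpS S₂ q = tpS S₂' q) :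
    tpS (sum c₁ c₂ S₁ S₂) q = tpS (sum c₁ c₂ S₁' S₂') q := by
  have := tp_sum c₁ c₂ q (Fin.elim0 : Fin 0 → S₁.carrier) (Fin.elim0 : Fin 0 → S₂.carrier)
    (Fin.elim0 : Fin 0 → S₁'.carrier) (Fin.elim0 : Fin 0 → S₂'.carrier)
    (Fin.elim0 : Fin 0 → Fin 0 ⊕ Fin 0) h1 h2
  have e1 : mix (Fin.elim0 : Fin 0 → S₁.carrier) (Fin.elim0 : Fin 0 → S₂.carrier)
    (Fin.elim0 : Fin 0 → Fin 0 ⊕ Fin 0) = (Fin.elim0 : Fin 0 → (sum c₁ c₂ S₁ S₂).carrier) :=
    Subsingleton.elim _ _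
  have e2 : mix (Fin.elim0 : Fin 0 → S₁'.carrier) (Fin.elim0 : Fin 0 → S₂'.carrier)
    (Fin.elim0 : Fin 0 → Fin 0 ⊕ Fin 0) = (Fin.elim0 : Fin 0 → (sum c₁ c₂ S₁' S₂').carrier) :=
    Subsingleton.elim _ _
  rw [e1, e2] at this
  exact this

lemma tpS_iso {S S' : Col κ V} (e : S.carrier ≃ S'.carrier) (h1 : ∀ x, S'.col (e x) = S.col x)
    (h2 : ∀ R (x : V.ar R → S.carrier), S'.rel R (fun i => e (x i)) ↔ S.rel R x) (q : ℕ) :
    tpS S q = tpS S' q := by
  have := tp_iso e h1 h2 q (Fin.elim0 : Fin 0 → S.carrier)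
  have e1 : e ∘ (Fin.elim0 : Fin 0 → S.carrier) = (Fin.elim0 : Fin 0 → S'.carrier) :=
    Subsingleton.elim _ _
  rw [e1] at this
  exact this

end Pool.Agent.Helper32.Pump
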