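import Mathlib
import Pool.Agent.Helper32.PumpTypes

set_option autoImplicit false

/-! Pumping along chains of cuts of bounded index, for coloured relational structures. -/

namespace Pool.Agent.Helper32.Pump

open Function

variable {κ : Type} {V : Voc}

/-- `u` and `u'` are interchangeable in tuples that have another entry outside `U`. -/
def Inter (S : Col κ V) (U : Set S.carrier) (u u' : S.carrier) : Prop :=
  ∀ (R : V.ι) (x : V.ar R → S.carrier) (i j : V.ar R), i ≠ j → x j ∉ U → ∀ y y' : V.ar R → S.carrier,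
    (∀ k, k ≠ i → y k = x k) → (∀ k, k ≠ i → y' k = x k) → y i = u → y' i = u' →
    (S.rel R y ↔ S.rel R y')

lemma Inter.refl (S : Col κ V) (U : Set S.carrier) (u : S.carrier) : Inter S U u u := by
  intro R x i j _ _ y y' h1 h2 h3 h4
  have : y = y' := by
    funext k
    by_cases hk : k = i
    · rw [hk, h3, h4]
    · rw [h1 k hk, h2 k hk]
  rw [this]

lemma Inter.symm {S : Col κ V} {U : Set S.carrier} {u v : S.carrier} (h : Inter S U u v) :
    Inter S U v u := fun R x i j hij hj y y' h1 h2 h3 h4 =>
  (h R x i j hij hj y' y h2 h1 h4 h3).symm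

lemma Inter.trans {S : Col κ V} {U : Set S.carrier} {u v z : S.carrier}
    (h : Inter S U u v) (h' : Inter S U v z) : Inter S U u z := by
  classical
  intro R x i j hij hj y y' h1 h2 h3 h4
  have e1 := h R x i j hij hj y (update x i v) h1 (fun k hk => update_of_ne hk _ _) h3
    (update_self _ _ _)
  have e2 := h' R x i j hij hj (update x i v) y' (fun k hk => update_of_ne hk _ _) h2
    (update_self _ _ _) h4
  exact e1.trans e2

lemma Inter.mono {S : Col κ V} {U W : Set S.carrier} (hUW : U ⊆ W) {u v : S.carrier}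
    (h : Inter S U u v) : Inter S W u v :=
  fun R x i j hij hj => h R x i j hij fun h' => hj (hUW h')

/-- The elements of `U` fall into at most `r` classes with respect to the outside. -/
def CutLE (S : Col κ V) (r : ℕ) (U : Set S.carrier) : Prop :=
  ∃ c : S.carrier → Fin r, ∀ u ∈ U, ∀ u' ∈ U, c u = c u' → Inter S U u u'

lemma canonical {S : Col κ V} {r : ℕ} {U : Set S.carrier} (h : CutLE S r U) :
    ∃ c : S.carrier → Fin r, ∀ u ∈ U, ∀ u' ∈ U, (c u = c u' ↔ Inter S U u u') := by
  classical
  obtain ⟨c, hc⟩ := h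
  rcases isEmpty_or_nonempty S.carrier with he | hne
  · exact ⟨c, fun u => (he.false u).elim⟩
  let rep : S.carrier → S.carrier := fun u => Classical.epsilon fun v => v ∈ U ∧ Inter S U v u
  have hrep : ∀ u ∈ U, rep u ∈ U ∧ Inter S U (rep u) u := fun u hu =>
    Classical.epsilon_spec (p := fun v => v ∈ U ∧ Inter S U v u) ⟨u, hu, Inter.refl S U u⟩
  refine ⟨fun u => c (rep u), fun u hu u' hu' => ⟨fun h => ?_, fun h => ?_⟩⟩
  · have h1 := hc _ (hrep u hu).1 _ (hrep u' hu').1 h
    exact (hrep u hu).2.symm.trans (h1.trans (hrep u' hu').2)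
  · have : (fun v => v ∈ U ∧ Inter S U v u) = fun v => v ∈ U ∧ Inter S U v u' := by
      funext v
      exact propext ⟨fun hv => ⟨hv.1, hv.2.trans h⟩, fun hv => ⟨hv.1, hv.2.trans h.symm⟩⟩
    show c (Classical.epsilon _) = c (Classical.epsilon _)
    rw [this]

/-- replacing several entries at once -/
lemma multi [hV : V.Fin] {S : Col κ V} {U : Set S.carrier} {r : ℕ} {c : S.carrier → Fin r}
    (hc : ∀ u ∈ U, ∀ u' ∈ U, c u = c u' → Inter S U u u') (R : V.ι)
    (x x' : V.ar R → S.carrier)
    (h : ∀ i, x i = x' i ∨ (x i ∈ U ∧ x' i ∈ U ∧ c (x i) = c (x' i)))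
    (hout : ∃ j, x j ∉ U) : S.rel R x ↔ S.rel R x' := by
  classical
  have := hV.far R
  cases nonempty_fintype (V.ar R)
  obtain ⟨j, hj⟩ := hout
  have hj' : x j = x' j := by
    rcases h j with h | h
    · exact h
    · exact absurd h.1 hj
  have key : ∀ s : Finset (V.ar R), S.rel R x ↔ S.rel R fun i => if i ∈ s then x' i else x i := by
    intro s
    induction s using Finset.induction_on with
    | empty => simp
    | insert i₀ s hi₀ ih =>
      rw [ih]
      rcases h i₀ with h0 | ⟨h1, h2, h3⟩
      · have : (fun i => if i ∈ s then x' i else x i) =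
            fun i => if i ∈ insert i₀ s then x' i else x i := by
          funext i
          by_cases hi : i = i₀
          · subst hi; simp [hi₀, h0]
          · simp [Finset.mem_insert, hi]
        rw [this]
      · have hij : i₀ ≠ j := by
          rintro rfl
          exact hj h1
        refine hc _ h1 _ h2 h3 R (fun i => if i ∈ s then x' i else x i) i₀ j hij ?_ _ _
          (fun k _ => rfl) ?_ ?_ ?_
        · by_cases hjs : j ∈ s
          · simp only [hjs, if_true]; rw [← hj']; exact hj
          · simp only [hjs, if_false]; exact hj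
        · intro k hk
          simp [Finset.mem_insert, hk]
        · simp [hi₀]
        · simp
  have := key Finset.univ
  simpa using this

/-- The substructure on `A`, recoloured. -/
def restr {κ' : Type} (S : Col κ V) (A : Set S.carrier) (colA : S.carrier → κ') : Col κ' V where
  carrier := A
  col := fun u => colA u
  rel := fun R x => S.rel R fun i => x i

/-- The part of `S` on `D`, with the relations to the elements of `U`, which are remembered by
their colours `cU`. -/
def restrExt {κ₁ κ' : Type} (S : Col κ V) (U D : Set S.carrier) (cU : S.carrier → κ₁)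
    (colD : S.carrier → κ') : Col κ' (V.ext κ₁) where
  carrier := D
  col := fun u => colD u
  rel := fun z y => ∃ x : V.ar z.1 → S.carrier, (∀ i, x i.1 = y i) ∧
    (∀ i k, z.2 i = some k → x i ∈ U ∧ cU (x i) = k) ∧ S.rel z.1 x

lemma split [hV : V.Fin] (S : Col κ V) {A B : Set S.carrier} (hAB : A ⊆ B) {r : ℕ}
    (c : S.carrier → Fin r) (hc : ∀ u ∈ A, ∀ u' ∈ A, c u = c u' → Inter S A u u') {κ' : Type}
    (colB : S.carrier → κ') (c₁ : κ × Fin r → κ') (h1 : ∀ u ∈ A, colB u = c₁ (S.col u, c u))
    (q : ℕ) : tpS (restr S B colB) q =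
      tpS (sum c₁ id (restr S A fun u => (S.col u, c u))
        (restrExt S A (B \ A) (fun u => (S.col u, c u)) colB)) q := by
  classical
  refine (tpS_iso (Equiv.Set.sumDiffSubset hAB) ?_ ?_ q).symm
  · rintro (⟨u, hu⟩ | ⟨d, hd⟩)
    · exact h1 u hu
    · rfl
  · intro R x
    change V.ar R → ↥A ⊕ ↥(B \ A) at x
    -- the underlying tuple
    set x₀ : V.ar R → S.carrier := fun i => ((Equiv.Set.sumDiffSubset hAB) (x i)).1 with hx₀
    have hval1 : ∀ i (u : A), x i = Sum.inl u → x₀ i = u.1 := by
      intro i u hu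
      simp only [hx₀, hu]
      rfl
    have hval2 : ∀ i (d : ↥(B \ A)), x i = Sum.inr d → x₀ i = d.1 := by
      intro i d hd
      simp only [hx₀, hd]
      rfl
    obtain ⟨g, hg1, hg2⟩ : ∃ g : ↥A ⊕ ↥(B \ A) → Option (κ × Fin r),
        (∀ u : A, g (Sum.inl u) = some (S.col u.1, c u.1)) ∧
        (∀ d : ↥(B \ A), g (Sum.inr d) = none) :=
      ⟨Sum.elim (fun u : A => some (S.col u.1, c u.1)) (fun _ => none), fun _ => rfl,
        fun _ => rfl⟩
    show S.rel R x₀ ↔ _
    constructor
    · intro hr
      by_cases hall : ∀ i, ∃ u : A, x i = Sum.inl u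
      · left
        choose y hy using hall
        refine ⟨y, hy, ?_⟩
        show S.rel R fun i => (y i).1
        have : (fun i => (y i).1) = x₀ := funext fun i => (hval1 i _ (hy i)).symm
        rw [this]; exact hr
      · right
        push Not at hall
        obtain ⟨i₀, hi₀⟩ := hall
        have hi₀' : ∃ d : ↥(B \ A), x i₀ = Sum.inr d := by
          rcases hx : x i₀ with u | d
          · exact absurd hx (hi₀ u)
          · exact ⟨d, rfl⟩
        obtain ⟨d₀, hd₀⟩ := hi₀'
        have hnone : ∀ i, g (x i) = none → ∃ d : ↥(B \ A), x i = Sum.inr d := by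
          intro i hi
          rcases hx : x i with u | d
          · rw [hx, hg1] at hi; exact absurd hi (by simp)
          · exact ⟨d, rfl⟩
        refine ⟨⟨i₀, d₀, hd₀⟩, fun i => g (x i), fun i => (hnone i.1 i.2).choose, ?_, ?_, ?_, ?_⟩
        · intro i u hu
          have hu' : x i = Sum.inl u := hu
          exact (congrArg g hu').trans (hg1 u)
        · intro i d hd
          have hd' : x i = Sum.inr d := hd
          exact (congrArg g hd').trans (hg2 d)
        · intro i
          exact (hnone i.1 i.2).choose_spec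
        · refine ⟨x₀, ?_, ?_, hr⟩
          · intro i
            exact hval2 i.1 _ (hnone i.1 i.2).choose_spec
          · intro i k hk
            have hk' : g (x i) = some k := hk
            rcases hx : x i with u | d
            · rw [hx, hg1] at hk'
              rw [hval1 i u hx]
              exact ⟨u.2, Option.some.inj hk'⟩
            · rw [hx, hg2] at hk'
              exact absurd hk' (by simp)
    · rintro (⟨y, hy, hr⟩ | ⟨⟨i₀, d₀, hd₀⟩, p, y, hp1, hp2, hy, x', hx'1, hx'2, hr⟩)
      · have : (fun i => (y i).1) = x₀ := funext fun i => (hval1 i _ (hy i)).symm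
        have hr' : S.rel R fun i => (y i).1 := hr
        rw [this] at hr'
        exact hr'
      · refine (multi hc R x₀ x' ?_ ⟨i₀, ?_⟩).2 hr
        · intro i
          rcases hx : x i with u | d
          · right
            have h2 := hx'2 i _ (hp1 i u hx)
            rw [hval1 i u hx]
            refine ⟨u.2, h2.1, ?_⟩
            exact (congrArg Prod.snd h2.2).symm
          · left
            have h2 := hp2 i d hx
            have h3 := hx'1 ⟨i, h2⟩
            have h4 := hy ⟨i, h2⟩
            rw [hval2 i d hx]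
            have h5 : x i = Sum.inr (y ⟨i, h2⟩) := h4
            rw [hx] at h5
            have h6 : d = y ⟨i, h2⟩ := Sum.inr.inj h5
            rw [h6]
            exact h3.symm
        · rw [hval2 i₀ d₀ hd₀]
          exact d₀.2.2

lemma tpS_univ (S : Col κ V) (q : ℕ) : tpS S q = tpS (restr S Set.univ S.col) q :=
  (tpS_iso (Equiv.Set.univ S.carrier) (fun _ => rfl) (fun _ _ => Iff.rfl) q).symm

/-- **Pumping theorem** for coloured relational structures. -/
theorem pump (κ : Type) (V : Voc) [Finite κ] [V.Fin] (q r : ℕ) : ∃ N P : ℕ, 0 < P ∧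
    ∀ S : Col κ V, Finite S.carrier →
      (∃ U : Fin (N + 1) → Set S.carrier, StrictMono U ∧ ∀ i, CutLE S r (U i)) →
      ∀ k : ℕ, ∃ S' : Col κ V, Finite S'.carrier ∧
        Nat.card S'.carrier = Nat.card S.carrier + k * P ∧ tpS S' q = tpS S q := by
  classical
  have fT := fun (κ' : Type) (V' : Voc) (q n : ℕ) [Finite κ'] [V'.Fin] =>
    Fintype.ofFinite (T κ' V' q n)
  let _ := fT (κ × Fin r) V q 0
  let _ := fT (κ × Fin r) (V.ext (κ × Fin r)) q 0
  let ex : T (κ × Fin r) (V.ext (κ × Fin r)) q 0 → Prop := fun t =>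
    ∃ D : Col (κ × Fin r) (V.ext (κ × Fin r)),
      Finite D.carrier ∧ Nonempty D.carrier ∧ tpS D q = t
  let m : T (κ × Fin r) (V.ext (κ × Fin r)) q 0 → ℕ := fun t =>
    if h : ex t then Nat.card h.choose.carrier else 1
  have hm : ∀ t, 0 < m t := by
    intro t
    simp only [m]
    split_ifs with h
    · have := h.choose_spec.1
      have := h.choose_spec.2.1
      exact Nat.card_pos
    · exact Nat.one_pos
  refine ⟨Fintype.card (T (κ × Fin r) V q 0), ∏ t, m t, Finset.prod_pos fun t _ => hm t, ?_⟩
  intro S hS hU k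
  obtain ⟨U, hmono, hcut⟩ := hU
  choose c hc using fun i => canonical (hcut i)
  obtain ⟨i, j, hij, htij⟩ := Fintype.exists_ne_map_eq_of_card_lt
    (fun i : Fin (Fintype.card (T (κ × Fin r) V q 0) + 1) =>
      tpS (restr S (U i) fun u => (S.col u, c i u)) q) (by simp)
  wlog hlt : i < j generalizing i j
  · exact this j i hij.symm htij.symm (lt_of_le_of_ne (not_lt.1 hlt) hij.symm)
  have hsub : U i ⊂ U j := hmono hlt
  -- the recolouring of `U i`
  let σ : Fin r → Fin r := fun k => if h : ∃ u ∈ U i, c i u = k then c j h.choose else k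
  have hσ : ∀ u ∈ U i, c j u = σ (c i u) := by
    intro u hu
    have hex : ∃ u' ∈ U i, c i u' = c i u := ⟨u, hu, rfl⟩
    simp only [σ, dif_pos hex]
    have h1 := (hc i _ hex.choose_spec.1 u hu).1 hex.choose_spec.2
    exact ((hc j _ (hsub.1 hex.choose_spec.1) u (hsub.1 hu)).2 (h1.mono hsub.1)).symm
  have hρ := split S hsub.1 (c i) (fun u hu u' hu' h => (hc i u hu u' hu').1 h)
    (fun u => (S.col u, c j u)) (fun p : κ × Fin r => (p.1, σ p.2)) (by
      intro u hu
      show (S.col u, c j u) = (S.col u, σ (c i u))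
      rw [hσ u hu])
  have hρ' := split S (Set.subset_univ (U i)) (c i)
    (fun u hu u' hu' h => (hc i u hu u' hu').1 h) S.col (fun p : κ × Fin r => p.1)
    (fun _ _ => rfl)
  set D : Col (κ × Fin r) (V.ext (κ × Fin r)) :=
    restrExt S (U i) (U j \ U i) (fun u => (S.col u, c i u)) (fun u => (S.col u, c j u)) with hD
  have hDne : Nonempty D.carrier := by
    obtain ⟨x, hx1, hx2⟩ := Set.exists_of_ssubset hsub
    exact ⟨⟨x, hx1, hx2⟩⟩
  have hDfin : Finite D.carrier := by
    show Finite ↥(U j \ U i)
    infer_instance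
  have hexD : ex (tpS D q) := ⟨D, hDfin, hDne, rfl⟩
  -- the small copy of the middle piece
  obtain ⟨Ds, hDs1, hDs2, hDs3⟩ : ∃ Ds : Col (κ × Fin r) (V.ext (κ × Fin r)),
      Finite Ds.carrier ∧ Nat.card Ds.carrier = m (tpS D q) ∧ tpS Ds q = tpS D q := by
    refine ⟨hexD.choose, hexD.choose_spec.1, ?_, hexD.choose_spec.2.2⟩
    simp only [m, dif_pos hexD]
  have hW : ∀ k : ℕ, ∃ W : Col (κ × Fin r) V, Finite W.carrier ∧
      Nat.card W.carrier = Nat.card (U i) + k * m (tpS D q) ∧
      tpS W q = tpS (restr S (U i) fun u => (S.col u, c i u)) q := by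
    intro k
    induction k with
    | zero =>
      refine ⟨restr S (U i) fun u => (S.col u, c i u), ?_, ?_, rfl⟩
      · show Finite ↥(U i)
        infer_instance
      · rw [zero_mul, add_zero]; rfl
    | succ k ih =>
      obtain ⟨W, hW1, hW2, hW3⟩ := ih
      refine ⟨sum (fun p : κ × Fin r => (p.1, σ p.2)) id W Ds, ?_, ?_, ?_⟩
      · show Finite (W.carrier ⊕ Ds.carrier)
        infer_instance
      · show Nat.card (W.carrier ⊕ Ds.carrier) = _
        rw [Nat.card_sum, hW2, hDs2]
        ring
      · rw [tpS_sum (fun p : κ × Fin r => (p.1, σ p.2)) id hW3 hDs3, ← hρ q]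
        exact htij.symm
  have hdvd : m (tpS D q) ∣ ∏ t, m t := Finset.dvd_prod_of_mem m (Finset.mem_univ _)
  obtain ⟨l, hl⟩ := hdvd
  obtain ⟨W, hW1, hW2, hW3⟩ := hW (k * l)
  set E : Col κ (V.ext (κ × Fin r)) :=
    restrExt S (U i) (Set.univ \ U i) (fun u => (S.col u, c i u)) S.col with hE
  have hEfin : Finite E.carrier := by
    show Finite ↥(Set.univ \ U i)
    infer_instance
  refine ⟨sum (fun p : κ × Fin r => p.1) id W E, ?_, ?_, ?_⟩
  · show Finite (W.carrier ⊕ E.carrier)
    infer_instance
  · show Nat.card (W.carrier ⊕ E.carrier) = _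
    rw [Nat.card_sum, hW2]
    have h1 : Nat.card S.carrier = Nat.card (U i) + Nat.card E.carrier := by
      have e : ↥(U i) ⊕ ↥(Set.univ \ U i) ≃ S.carrier :=
        (Equiv.Set.sumDiffSubset (Set.subset_univ (U i))).trans (Equiv.Set.univ _)
      have := Nat.card_congr e
      rw [Nat.card_sum] at this
      exact this.symm
    rw [h1, hl]
    ring
  · rw [tpS_sum (fun p : κ × Fin r => p.1) id hW3 (rfl : tpS E q = tpS E q), ← hρ' q,
      tpS_univ S q]

end Pool.Agent.Helper32.Pump
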