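import Mathlib

set_option autoImplicit false

/-! Chains of cuts of bounded index in relational structures. -/

namespace Pool.Agent.Helper32.Pump

open FirstOrder FirstOrder.Language

/-- The cut `(U, M \ U)` of the structure `M` has index at most `r`: the elements of `U` can be
given `r` labels so that two elements of `U` with the same label can replace each other in every
relation between elements of `M` at least one of which (at another argument place) lies outside
`U`. -/
def CutIndexLE (L : FirstOrder.Language.{0, 0}) (M : Type) [L.Structure M] (r : ℕ)
    (U : Set M) : Prop :=
  ∃ c : M → Fin r, ∀ u ∈ U, ∀ u' ∈ U, c u = c u' →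
    ∀ (n : ℕ) (R : L.Relations n) (x : Fin n → M) (i j : Fin n), i ≠ j → x j ∉ U →
      (Structure.RelMap R (Function.update x i u) ↔ Structure.RelMap R (Function.update x i u'))

/-- `M` has a strictly increasing chain of `N + 1` subsets whose cuts have index at most `r`. -/
def HasCutChain (L : FirstOrder.Language.{0, 0}) (M : Type) [L.Structure M] (r N : ℕ) : Prop :=
  ∃ U : Fin (N + 1) → Set M, StrictMono U ∧ ∀ i, CutIndexLE L M r (U i)

end Pool.Agent.Helper32.Pump
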