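import Mathlib
import Pool.Agent.Helper32.PumpCol
import Pool.Agent.Helper32.PumpDefs

set_option autoImplicit false

/-! From first-order structures over relational vocabularies to coloured structures. -/

namespace Pool.Agent.Helper32.Pump

open FirstOrder FirstOrder.Language

/-- the vocabulary of `L` -/
def vocOf (L : FirstOrder.Language.{0, 0}) : Voc where
  ι := Σ n, L.Relations n
  ar := fun z => Fin z.1

variable {L : FirstOrder.Language.{0, 0}}

/-- the structure defined by a coloured structure -/
@[instance_reducible]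
def ofCol (hL : ∀ n, IsEmpty (L.Functions n)) (S : Col Unit (vocOf L)) :
    L.Structure S.carrier where
  funMap := fun {n} f _ => ((hL n).false f).elim
  RelMap := fun {n} R x => S.rel ⟨n, R⟩ x

/-- the coloured structure of a structure -/
def toCol (L : FirstOrder.Language.{0, 0}) (M : Type) [L.Structure M] :
    Col Unit (vocOf L) where
  carrier := M
  col := fun _ => ()
  rel := fun z x => Structure.RelMap z.2 x

lemma ofCol_toCol (hL : ∀ n, IsEmpty (L.Functions n)) (M : Type) [sM : L.Structure M] :
    ofCol hL (toCol L M) = sM := by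
  apply Structure.ext
  · funext n f
    exact ((hL n).false f).elim
  · rfl

lemma term_var (hL : ∀ n, IsEmpty (L.Functions n)) {α : Type} (t : L.Term α) :
    ∃ a, t = Term.var a := by
  cases t with
  | var a => exact ⟨a, rfl⟩
  | func f ts => exact ((hL _).false f).elim

/-- The truth value of a formula is determined by the `q`-type for large `q`. -/
theorem realize_tp (hL : ∀ n, IsEmpty (L.Functions n)) {n : ℕ} (φ : L.BoundedFormula Empty n) :
    ∃ q₀ : ℕ, ∀ q, q₀ ≤ q → ∀ (S S' : Col Unit (vocOf L))
      (a : Fin n → S.carrier) (a' : Fin n → S'.carrier),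
      tp S q a = tp S' q a' →
      (@BoundedFormula.Realize L S.carrier (ofCol hL S) _ _ φ default a ↔
        @BoundedFormula.Realize L S'.carrier (ofCol hL S') _ _ φ default a') := by
  induction φ with
  | falsum => exact ⟨0, fun q _ S S' a a' _ => Iff.rfl⟩
  | @equal n t₁ t₂ =>
    refine ⟨0, fun q _ S S' a a' h => ?_⟩
    obtain ⟨x, rfl⟩ := term_var hL t₁
    obtain ⟨y, rfl⟩ := term_var hL t₂
    rcases x with x | x
    · exact x.elim
    rcases y with y | y
    · exact y.elim
    have h0 := tp0_of_tp h
    simp only [tp0, Prod.mk.injEq] at h0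
    have h1 := congrFun (congrFun h0.2.2 x) y
    show (a x = a y) ↔ (a' x = a' y)
    rw [h1]
  | @rel n l R ts =>
    refine ⟨0, fun q _ S S' a a' h => ?_⟩
    have h0 := tp0_of_tp h
    simp only [tp0, Prod.mk.injEq] at h0
    have hts : ∃ f : Fin l → Fin n, ts = fun i => Term.var (Sum.inr (f i)) := by
      have : ∀ i, ∃ j : Fin n, ts i = Term.var (Sum.inr j) := by
        intro i
        obtain ⟨x, hx⟩ := term_var hL (ts i)
        rcases x with x | x
        · exact x.elim
        · exact ⟨x, hx⟩
      choose f hf using this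
      exact ⟨f, funext hf⟩
    obtain ⟨f, rfl⟩ := hts
    have h1 := congrFun (congrFun h0.2.1 ⟨l, R⟩) f
    exact iff_of_eq h1
  | imp φ ψ ih1 ih2 =>
    obtain ⟨q1, h1⟩ := ih1
    obtain ⟨q2, h2⟩ := ih2
    refine ⟨max q1 q2, fun q hq S S' a a' h => ?_⟩
    have e1 := h1 q (le_trans (le_max_left _ _) hq) S S' a a' h
    have e2 := h2 q (le_trans (le_max_right _ _) hq) S S' a a' h
    exact imp_congr e1 e2
  | @all n φ ih =>
    obtain ⟨q1, h1⟩ := ih
    refine ⟨q1 + 1, fun q hq S S' a a' h => ?_⟩
    obtain ⟨q', rfl⟩ : ∃ q', q = q' + 1 := ⟨q - 1, by omega⟩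
    obtain ⟨_, h2, h3⟩ := tp_succ_iff.1 h
    show (∀ x : S.carrier, _) ↔ (∀ x : S'.carrier, _)
    constructor
    · intro hall x'
      obtain ⟨x, hx⟩ := h3 x'
      exact (h1 q' (by omega) S S' _ _ hx).1 (hall x)
    · intro hall x
      obtain ⟨x', hx'⟩ := h2 x
      exact (h1 q' (by omega) S S' _ _ hx').2 (hall x')

/-- **Pumping theorem for first-order sentences over finite relational vocabularies.** -/
theorem pump_sentence (hL : ∀ n, IsEmpty (L.Functions n)) (hfin : Finite (Σ n, L.Relations n))
    (φ : L.Sentence) (r : ℕ) : ∃ N P : ℕ, 0 < P ∧ ∀ (M : Type) [L.Structure M] [Finite M],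
      HasCutChain L M r N → φ.Realize M → ∀ k : ℕ, ∃ (M' : Type) (_ : L.Structure M'),
        Finite M' ∧ Nat.card M' = Nat.card M + k * P ∧ φ.Realize M' := by
  have hV : (vocOf L).Fin := ⟨hfin, fun z => by
    show Finite (Fin z.1)
    infer_instance⟩
  obtain ⟨q, hq⟩ := realize_tp hL φ
  obtain ⟨N, P, hP, hpump⟩ := pump Unit (vocOf L) q r
  refine ⟨N, P, hP, ?_⟩
  intro M sM fM hchain hφ k
  obtain ⟨U, hU1, hU2⟩ := hchain
  obtain ⟨S', hS'1, hS'2, hS'3⟩ := hpump (toCol L M) fM ⟨U, hU1, fun i => by
    obtain ⟨c, hc⟩ := hU2 i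
    refine ⟨c, fun u hu u' hu' h z x i j hij hj y y' h1 h2 h3 h4 => ?_⟩
    obtain ⟨n, R⟩ := z
    change Fin n → M at x y y'
    change Fin n at i j
    have h5 := hc u hu u' hu' h n R x i j hij hj
    have e1 : y = Function.update x i u := by
      funext k
      by_cases hk : k = i
      · subst hk; rw [Function.update_self, h3]
      · rw [Function.update_of_ne hk, h1 k hk]
    have e2 : y' = Function.update x i u' := by
      funext k
      by_cases hk : k = i
      · subst hk; rw [Function.update_self, h4]
      · rw [Function.update_of_ne hk, h2 k hk]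
    show Structure.RelMap R y ↔ Structure.RelMap R y'
    rw [e1, e2]
    exact h5⟩ k
  refine ⟨S'.carrier, ofCol hL S', hS'1, hS'2, ?_⟩
  have h1 := hq q le_rfl S' (toCol L M) Fin.elim0 Fin.elim0 hS'3
  have h2 : @BoundedFormula.Realize L (toCol L M).carrier (ofCol hL (toCol L M)) _ _ φ default
      Fin.elim0 := by
    have e1 := ofCol_toCol hL M
    have e2 : @BoundedFormula.Realize L M sM _ _ φ default (Fin.elim0 : Fin 0 → M) := by
      have : (Fin.elim0 : Fin 0 → M) = default := Subsingleton.elim _ _
      rw [this]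
      exact hφ
    have e3 : @BoundedFormula.Realize L M (ofCol hL (toCol L M)) _ _ φ default
        (Fin.elim0 : Fin 0 → M) := by
      rw [e1]; exact e2
    exact e3
  have h3 := h1.2 h2
  have h4 : (Fin.elim0 : Fin 0 → S'.carrier) = default := Subsingleton.elim _ _
  rw [h4] at h3
  exact h3

end Pool.Agent.Helper32.Pump
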