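import Mathlib

/-!
Definitions for a definability result on directed reachability: formulas of first-order logic
with symmetric transitive closure over digraphs, thin directed cuts, and halting randomized
programs with one-sided error.
-/

set_option autoImplicit false

namespace Pool.Agent.Helper32.Stc

/-- Formulas of first-order logic with symmetric transitive closure over one binary relation
(the arc relation).  Variables are numbered by `ℕ`. -/
inductive Fml : Type
  | eq (i j : ℕ) : Fml
  | arc (i j : ℕ) : Fml
  | neg (φ : Fml) : Fml
  | and (φ ψ : Fml) : Fml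
  | all (i : ℕ) (φ : Fml) : Fml
  | stc (i j : ℕ) (φ : Fml) (x y : ℕ) : Fml

/-- Truth of a formula in the digraph `(V, E)` under the assignment `ν` of vertices to variables.
`stc i j φ x y` says that the vertices assigned to `x` and `y` lie in the same class of the
equivalence relation generated by the relation that `φ` defines in the variables `i, j`. -/
def Sat {V : Type} (E : V → V → Prop) : Fml → (ℕ → V) → Prop
  | .eq i j, ν => ν i = ν j
  | .arc i j, ν => E (ν i) (ν j)
  | .neg φ, ν => ¬ Sat E φ ν
  | .and φ ψ, ν => Sat E φ ν ∧ Sat E ψ ν
  | .all i φ, ν => ∀ a : V, Sat E φ (Function.update ν i a)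
  | .stc i j φ x y, ν =>
      Relation.EqvGen (fun a b => Sat E φ (Function.update (Function.update ν i a) j b))
        (ν x) (ν y)

/-- `Reach E s t`: there is a directed path from `s` to `t`. -/
def Reach {V : Type} (E : V → V → Prop) (s t : V) : Prop := Relation.ReflTransGen E s t

/-- `Near E c u v`: there is a directed path of length at most `c` from `u` to `v`. -/
def Near {V : Type} (E : V → V → Prop) : ℕ → V → V → Prop
  | 0, u, v => u = v
  | c + 1, u, v => ∃ z, Near E c u z ∧ (z = v ∨ E z v)

/-- `X` contains no `k + 1` pairwise non-adjacent vertices. -/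
def IndepLE {V : Type} (E : V → V → Prop) (k : ℕ) (X : Set V) : Prop :=
  ∀ I : Finset V, (∀ u ∈ I, u ∈ X) → (∀ u ∈ I, ∀ v ∈ I, u ≠ v → ¬ E u v) → I.card ≤ k

/-- `ThinCut E k c s t`: there is a directed cut (a vertex set `S` that no arc leaves) with `s`
inside and `t` outside, and there are `X ⊆ S`, `Y ⊆ V \ S`, neither containing `k + 1` pairwise
non-adjacent vertices, such that every arc entering `S` has its head at distance at most `c` from
a vertex of `X`, or its tail at distance at most `c` to a vertex of `Y`. -/
def ThinCut {V : Type} (E : V → V → Prop) (k c : ℕ) (s t : V) : Prop :=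
  ∃ S X Y : Set V, s ∈ S ∧ t ∉ S ∧ (∀ u v, E u v → u ∈ S → v ∈ S) ∧
    X ⊆ S ∧ Y ⊆ Sᶜ ∧ IndepLE E k X ∧ IndepLE E k Y ∧
    ∀ u v, E u v → u ∉ S → v ∈ S → (∃ x ∈ X, Near E c x v) ∨ (∃ y ∈ Y, Near E c u y)

/-- The configuration reached from `v` by a randomized program with transition function `δ`
reading the random bits `l`. -/
def run {V : Type} (δ : Bool → V → V) : List Bool → V → V
  | [], v => v
  | b :: l, v => run δ l (δ b v)

/-- The probability that the program started at `s` is at `t` after reading `T` independent
uniformly random bits. -/
noncomputable def accProb {V : Type} (δ : Bool → V → V) (s t : V) (T : ℕ) : ℚ :=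
  (Nat.card {x : Fin T → Bool // run δ (List.ofFn x) s = t} : ℚ) / 2 ^ T

/-- The configuration graph of the program with transition function `δ`. -/
def Conf {V : Type} (δ : Bool → V → V) (u v : V) : Prop := ∃ b, δ b u = v

end Pool.Agent.Helper32.Stc
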