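import Mathlib
import Pool.Agent.Helper32.StcDefs

set_option autoImplicit false

namespace Pool.Agent.Helper32.Stc

open Function

variable {V : Type}

/-- disjunction -/
def fOr (φ ψ : Fml) : Fml := .neg (.and (.neg φ) (.neg ψ))

/-- existential quantifier -/
def fEx (i : ℕ) (φ : Fml) : Fml := .neg (.all i (.neg φ))

/-- implication -/
def fImp (φ ψ : Fml) : Fml := .neg (.and φ (.neg ψ))

lemma sat_or (E : V → V → Prop) (φ ψ : Fml) (ν : ℕ → V) :
    Sat E (fOr φ ψ) ν ↔ Sat E φ ν ∨ Sat E ψ ν := by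
  simp only [fOr, Sat]; tauto

lemma sat_ex (E : V → V → Prop) (i : ℕ) (φ : Fml) (ν : ℕ → V) :
    Sat E (fEx i φ) ν ↔ ∃ a, Sat E φ (update ν i a) := by
  simp only [fEx, Sat]; push Not; rfl

lemma sat_imp (E : V → V → Prop) (φ ψ : Fml) (ν : ℕ → V) :
    Sat E (fImp φ ψ) ν ↔ (Sat E φ ν → Sat E ψ ν) := by
  simp only [fImp, Sat]; tauto

/-- finite disjunction -/
def bigOr : List Fml → Fml
  | [] => .neg (.eq 0 0)
  | φ :: l => fOr φ (bigOr l)

lemma sat_bigOr (E : V → V → Prop) (l : List Fml) (ν : ℕ → V) :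
    Sat E (bigOr l) ν ↔ ∃ φ ∈ l, Sat E φ ν := by
  induction l with
  | nil => simp [bigOr, Sat]
  | cons φ l ih => simp [bigOr, sat_or, ih]

/-- a block of universal quantifiers -/
def allBlock : List ℕ → Fml → Fml
  | [], φ => φ
  | i :: l, φ => .all i (allBlock l φ)

lemma sat_allBlock (E : V → V → Prop) (l : List ℕ) (φ : Fml) (ν : ℕ → V) :
    Sat E (allBlock l φ) ν ↔ ∀ ν' : ℕ → V, (∀ i, i ∉ l → ν' i = ν i) → Sat E φ ν' := by
  induction l generalizing ν with
  | nil =>
    simp only [allBlock]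
    constructor
    · intro h ν' h'
      have : ν' = ν := funext fun i => h' i (by simp)
      rwa [this]
    · intro h
      exact h ν fun _ _ => rfl
  | cons i l ih =>
    simp only [allBlock, Sat]
    constructor
    · intro h ν' h'
      refine (ih _).1 (h (ν' i)) ν' ?_
      intro j hj
      by_cases hji : j = i
      · subst hji; simp
      · rw [update_of_ne hji]
        exact h' j (by simp [hji, hj])
    · intro h a
      rw [ih]
      intro ν' h'
      apply h
      intro j hj
      simp only [List.mem_cons, not_or] at hj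
      rw [h' j hj.2, update_of_ne hj.1]

/-- the formula saying that `x` is at distance at most `c` from `i`, for the relation given by
`e`, with bound variables `z, z'` -/
def nearF (e : ℕ → ℕ → Fml) : ℕ → ℕ → ℕ → ℕ → ℕ → Fml
  | 0, i, x, _, _ => .eq i x
  | c + 1, i, x, z, z' => fEx z (.and (nearF e c i z z' z) (fOr (.eq z x) (e z x)))

lemma sat_nearF (E : V → V → Prop) {R : V → V → Prop} {e : ℕ → ℕ → Fml}
    (he : ∀ a b ν, Sat E (e a b) ν ↔ R (ν a) (ν b)) (c : ℕ) :
    ∀ (i x z z' : ℕ) (ν : ℕ → V), z ≠ x → z ≠ i → z' ≠ z → z' ≠ i →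
      (Sat E (nearF e c i x z z') ν ↔ Near R c (ν i) (ν x)) := by
  induction c with
  | zero => intro i x z z' ν _ _ _ _; simp [nearF, Near, Sat]
  | succ c ih =>
    intro i x z z' ν h1 h2 h3 h4
    simp only [nearF, sat_ex, Sat, Near, sat_or, he]
    refine exists_congr fun a => ?_
    rw [ih i z z' z _ h3 h4 h3.symm h2]
    rw [update_self, update_of_ne h2.symm, update_of_ne h1.symm]

lemma near_trans {R : V → V → Prop} {a b : ℕ} {u v w : V} (h1 : Near R a u v)
    (h2 : Near R b v w) : Near R (a + b) u w := by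
  induction b generalizing w with
  | zero => simp only [Near] at h2; subst h2; exact h1
  | succ b ih =>
    obtain ⟨z, hz, h⟩ := h2
    exact ⟨z, ih hz, h⟩

lemma near_flip {R : V → V → Prop} {n : ℕ} {u v : V} (h : Near R n u v) :
    Near (fun a b => R b a) n v u := by
  induction n generalizing v with
  | zero => simp only [Near] at h ⊢; exact h.symm
  | succ n ih =>
    obtain ⟨z, hz, h⟩ := h
    have h1 : Near (fun a b => R b a) 1 v z := ⟨v, rfl, by
      rcases h with h | h
      · left; exact h.symm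
      · right; exact h⟩
    have := near_trans h1 (ih hz)
    rwa [add_comm] at this

lemma near_closed {R : V → V → Prop} {S : Set V} (hS : ∀ u v, R u v → u ∈ S → v ∈ S) {n : ℕ}
    {u v : V} (h : Near R n u v) (hu : u ∈ S) : v ∈ S := by
  induction n generalizing v with
  | zero => simp only [Near] at h; rwa [← h]
  | succ n ih =>
    obtain ⟨z, hz, h⟩ := h
    rcases h with h | h
    · rw [← h]; exact ih hz
    · exact hS z v h (ih hz)

/-- Chvátal–Lovász: every finite digraph has a quasi-kernel. -/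
lemma quasi_kernel (R : V → V → Prop) (X : Finset V) :
    ∃ Q ⊆ X, (∀ u ∈ Q, ∀ v ∈ Q, u ≠ v → ¬ R u v) ∧ ∀ x ∈ X, ∃ q ∈ Q, Near R 2 q x := by
  classical
  induction X using Finset.strongInduction with
  | H X ih =>
    rcases X.eq_empty_or_nonempty with hX | ⟨v, hv⟩
    · subst hX; exact ⟨∅, by simp, by simp, by simp⟩
    have hsub : X.filter (fun x => x ≠ v ∧ ¬ R v x) ⊂ X := by
      refine Finset.filter_ssubset.2 ⟨v, hv, by simp⟩
    obtain ⟨Q, hQ, hind, hdom⟩ := ih _ hsub
    have hQX : Q ⊆ X := hQ.trans (Finset.filter_subset _ _)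
    by_cases h : ∃ q ∈ Q, R q v
    · obtain ⟨q, hq, hqv⟩ := h
      refine ⟨Q, hQX, hind, ?_⟩
      intro x hx
      by_cases hx' : x ≠ v ∧ ¬ R v x
      · exact hdom x (Finset.mem_filter.2 ⟨hx, hx'⟩)
      · refine ⟨q, hq, v, ⟨q, rfl, Or.inr hqv⟩, ?_⟩
        by_cases hxv : x = v
        · left; exact hxv.symm
        · right; by_contra hc; exact hx' ⟨hxv, hc⟩
    · push Not at h
      refine ⟨insert v Q, ?_, ?_, ?_⟩
      · intro x hx
        rcases Finset.mem_insert.1 hx with rfl | hx
        · exact hv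
        · exact hQX hx
      · intro a ha b hb hab
        rcases Finset.mem_insert.1 ha with rfl | ha'
        · rcases Finset.mem_insert.1 hb with hb' | hb'
          · exact absurd hb'.symm hab
          · exact (Finset.mem_filter.1 (hQ hb')).2.2
        · rcases Finset.mem_insert.1 hb with hb' | hb'
          · rw [hb']; exact h a ha'
          · exact hind a ha' b hb' hab
      · intro x hx
        by_cases hx' : x ≠ v ∧ ¬ R v x
        · obtain ⟨q, hq, hn⟩ := hdom x (Finset.mem_filter.2 ⟨hx, hx'⟩)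
          exact ⟨q, Finset.mem_insert_of_mem hq, hn⟩
        · refine ⟨v, Finset.mem_insert_self _ _, v, ⟨v, rfl, Or.inl rfl⟩, ?_⟩
          by_cases hxv : x = v
          · left; exact hxv.symm
          · right; by_contra hc; exact hx' ⟨hxv, hc⟩

/-- arcs that survive the deletion of the arcs into `A` and of the arcs out of `B` -/
def StepRel (E : V → V → Prop) (A B : Set V) (u v : V) : Prop := E u v ∧ v ∉ A ∧ u ∉ B

/-- the weak components of `{s} ∪ A` after the deletion -/
def Comp (E : V → V → Prop) (A B : Set V) (s : V) : Set V :=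
  {y | ∃ a, (a = s ∨ a ∈ A) ∧ Relation.EqvGen (StepRel E A B) a y}

lemma mem_comp_of_reach {E : V → V → Prop} {A B : Set V} {s t : V} (h : Reach E s t)
    (hB : ∀ y ∈ B, y ∉ Comp E A B s) : t ∈ Comp E A B s := by
  unfold Reach at h
  induction h with
  | refl => exact ⟨s, Or.inl rfl, Relation.EqvGen.refl s⟩
  | @tail b c _ hbc ih =>
    by_cases hc : c ∈ A
    · exact ⟨c, Or.inr hc, Relation.EqvGen.refl c⟩
    · obtain ⟨a, ha, hab⟩ := ih
      refine ⟨a, ha, hab.trans _ _ _ (Relation.EqvGen.rel _ _ ⟨hbc, hc, ?_⟩)⟩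
      intro hbB
      exact hB b hbB ⟨a, ha, hab⟩

lemma comp_subset {E : V → V → Prop} {A B S : Set V} {s : V} (hs : s ∈ S) (hA : A ⊆ S)
    (hS : ∀ u v, E u v → u ∈ S → v ∈ S)
    (hcov : ∀ u v, E u v → u ∉ S → v ∈ S → v ∈ A ∨ u ∈ B) : Comp E A B s ⊆ S := by
  rintro y ⟨a, ha, hay⟩
  have haS : a ∈ S := by
    rcases ha with rfl | ha
    · exact hs
    · exact hA ha
  have key : ∀ u v, Relation.EqvGen (StepRel E A B) u v → (u ∈ S ↔ v ∈ S) := by
    intro u v h
    induction h with
    | rel u v h =>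
      obtain ⟨h1, h2, h3⟩ := h
      refine ⟨hS u v h1, fun hv => ?_⟩
      by_contra hu
      rcases hcov u v h1 hu hv with h | h
      · exact h2 h
      · exact h3 h
    | refl x => rfl
    | symm x y _ ih => exact ih.symm
    | trans x y z _ _ ih1 ih2 => exact ih1.trans ih2
  exact (key a y hay).1 haS

/-- `x` lies in the `c`-ball around the vertices `ν i`, `i ∈ l` -/
def inA (l : List ℕ) (c x : ℕ) : Fml := bigOr (l.map fun i => nearF .arc c i x 5 6)

/-- `x` lies in the backward `c`-ball around the vertices `ν i`, `i ∈ l` -/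
def inB (l : List ℕ) (c x : ℕ) : Fml := bigOr (l.map fun i => nearF (fun a b => .arc b a) c i x 5 6)

/-- the forward ball -/
def ballA (E : V → V → Prop) (l : List ℕ) (c : ℕ) (ν : ℕ → V) : Set V :=
  {v | ∃ i ∈ l, Near E c (ν i) v}

/-- the backward ball -/
def ballB (E : V → V → Prop) (l : List ℕ) (c : ℕ) (ν : ℕ → V) : Set V :=
  {v | ∃ i ∈ l, Near (fun a b => E b a) c (ν i) v}

lemma sat_inA (E : V → V → Prop) (l : List ℕ) (hl : ∀ i ∈ l, 10 ≤ i) (c x : ℕ) (hx : x ≠ 5)
    (ν : ℕ → V) : Sat E (inA l c x) ν ↔ ν x ∈ ballA E l c ν := by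
  simp only [inA, sat_bigOr, List.mem_map, exists_exists_and_eq_and, ballA, Set.mem_ofPred_eq]
  refine exists_congr fun i => and_congr_right fun hi => ?_
  have := hl i hi
  exact sat_nearF E (R := E) (fun a b ν => Iff.rfl) c i x 5 6 ν (by omega) (by omega) (by omega)
    (by omega)

lemma sat_inB (E : V → V → Prop) (l : List ℕ) (hl : ∀ i ∈ l, 10 ≤ i) (c x : ℕ) (hx : x ≠ 5)
    (ν : ℕ → V) : Sat E (inB l c x) ν ↔ ν x ∈ ballB E l c ν := by
  simp only [inB, sat_bigOr, List.mem_map, exists_exists_and_eq_and, ballB, Set.mem_ofPred_eq]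
  refine exists_congr fun i => and_congr_right fun hi => ?_
  have := hl i hi
  exact sat_nearF E (R := fun a b => E b a) (fun a b ν => Iff.rfl) c i x 5 6 ν (by omega)
    (by omega) (by omega) (by omega)

lemma ballA_congr (E : V → V → Prop) {l : List ℕ} {c : ℕ} {ν ν' : ℕ → V}
    (h : ∀ i ∈ l, ν i = ν' i) : ballA E l c ν = ballA E l c ν' := by
  ext v
  simp only [ballA, Set.mem_ofPred_eq]
  exact exists_congr fun i => and_congr_right fun hi => by rw [h i hi]

lemma ballB_congr (E : V → V → Prop) {l : List ℕ} {c : ℕ} {ν ν' : ℕ → V}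
    (h : ∀ i ∈ l, ν i = ν' i) : ballB E l c ν = ballB E l c ν' := by
  ext v
  simp only [ballB, Set.mem_ofPred_eq]
  exact exists_congr fun i => and_congr_right fun hi => by rw [h i hi]

/-- the formula for `StepRel` -/
def stepF (lA lB : List ℕ) (c : ℕ) : Fml :=
  .and (.arc 2 3) (.and (.neg (inA lA c 3)) (.neg (inB lB c 2)))

/-- the formula for `Comp` -/
def compF (lA lB : List ℕ) (c y : ℕ) : Fml :=
  fEx 4 (.and (fOr (.eq 4 0) (inA lA c 4)) (.stc 2 3 (stepF lA lB c) 4 y))

lemma sat_compF (E : V → V → Prop) (lA lB : List ℕ) (hA : ∀ i ∈ lA, 10 ≤ i)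
    (hB : ∀ i ∈ lB, 10 ≤ i) (c y : ℕ) (hy : y ≠ 2 ∧ y ≠ 3 ∧ y ≠ 4) (ν : ℕ → V) :
    Sat E (compF lA lB c y) ν ↔
      ν y ∈ Comp E (ballA E lA c ν) (ballB E lB c ν) (ν 0) := by
  simp only [compF, sat_ex, Sat, sat_or, Comp, Set.mem_ofPred_eq]
  refine exists_congr fun a => ?_
  have e1 : ballA E lA c (update ν 4 a) = ballA E lA c ν := by
    apply ballA_congr
    intro i hi
    have := hA i hi
    rw [update_of_ne (by omega)]
  rw [sat_inA E lA hA c 4 (by omega), e1]
  have e2 : (fun u v => Sat E (stepF lA lB c) (update (update (update ν 4 a) 2 u) 3 v)) =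
      StepRel E (ballA E lA c ν) (ballB E lB c ν) := by
    funext u v
    apply propext
    simp only [stepF, Sat, StepRel]
    rw [sat_inA E lA hA c 3 (by omega), sat_inB E lB hB c 2 (by omega)]
    have e3 : ballA E lA c (update (update (update ν 4 a) 2 u) 3 v) = ballA E lA c ν := by
      apply ballA_congr
      intro i hi
      have := hA i hi
      rw [update_of_ne (by omega), update_of_ne (by omega), update_of_ne (by omega)]
    have e4 : ballB E lB c (update (update (update ν 4 a) 2 u) 3 v) = ballB E lB c ν := by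
      apply ballB_congr
      intro i hi
      have := hB i hi
      rw [update_of_ne (by omega), update_of_ne (by omega), update_of_ne (by omega)]
    rw [e3, e4]
    simp
  rw [e2]
  simp [hy.2.2]

/-- indices of the parameters around which forward balls are taken -/
def lstA (k : ℕ) : List ℕ := (List.range k).map (· + 10)

/-- indices of the parameters around which backward balls are taken -/
def lstB (k : ℕ) : List ℕ := (List.range k).map (· + (10 + k))

lemma mem_lstA {k i : ℕ} : i ∈ lstA k ↔ 10 ≤ i ∧ i < 10 + k := by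
  simp only [lstA, List.mem_map, List.mem_range]
  constructor
  · rintro ⟨a, ha, rfl⟩; omega
  · rintro ⟨h1, h2⟩; exact ⟨i - 10, by omega, by omega⟩

lemma mem_lstB {k i : ℕ} : i ∈ lstB k ↔ 10 + k ≤ i ∧ i < 10 + k + k := by
  simp only [lstB, List.mem_map, List.mem_range]
  constructor
  · rintro ⟨a, ha, rfl⟩; omega
  · rintro ⟨h1, h2⟩; exact ⟨i - (10 + k), by omega, by omega⟩

/-- the formula -/
def Phi (k c : ℕ) : Fml :=
  allBlock (lstA k ++ lstB k)
    (fImp (.all 7 (fImp (inB (lstB k) c 7) (.neg (compF (lstA k) (lstB k) c 7))))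
      (compF (lstA k) (lstB k) c 1))

lemma sat_Phi (E : V → V → Prop) (k c : ℕ) (ν : ℕ → V) :
    Sat E (Phi k c) ν ↔ ∀ ν' : ℕ → V, (∀ i, i ∉ lstA k ++ lstB k → ν' i = ν i) →
      (∀ y ∈ ballB E (lstB k) c ν',
        y ∉ Comp E (ballA E (lstA k) c ν') (ballB E (lstB k) c ν') (ν 0)) →
      ν 1 ∈ Comp E (ballA E (lstA k) c ν') (ballB E (lstB k) c ν') (ν 0) := by
  have hA : ∀ i ∈ lstA k, 10 ≤ i := fun i hi => (mem_lstA.1 hi).1
  have hB : ∀ i ∈ lstB k, 10 ≤ i := fun i hi => by have := (mem_lstB.1 hi).1; omega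
  unfold Phi
  rw [sat_allBlock]
  refine forall_congr' fun ν' => ?_
  refine imp_congr_right fun h' => ?_
  have h0 : ν' 0 = ν 0 := h' 0 (by
    simp only [List.mem_append, mem_lstA, mem_lstB]; omega)
  have h1 : ν' 1 = ν 1 := h' 1 (by
    simp only [List.mem_append, mem_lstA, mem_lstB]; omega)
  rw [sat_imp, sat_compF E _ _ hA hB c 1 (by omega), h0, h1]
  refine imp_congr ?_ Iff.rfl
  simp only [Sat, sat_imp]
  refine forall_congr' fun a => ?_
  rw [sat_inB E _ hB c 7 (by omega), sat_compF E _ _ hA hB c 7 (by omega)]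
  have e1 : ballA E (lstA k) c (update ν' 7 a) = ballA E (lstA k) c ν' := by
    apply ballA_congr
    intro i hi
    have := hA i hi
    rw [update_of_ne (by omega)]
  have e2 : ballB E (lstB k) c (update ν' 7 a) = ballB E (lstB k) c ν' := by
    apply ballB_congr
    intro i hi
    have := hB i hi
    rw [update_of_ne (by omega)]
  rw [e1, e2, update_self, update_of_ne (by omega), h0]

/-- The formula `Phi k (c + 2)` defines reachability across thin cuts. -/
theorem main [Finite V] (k c : ℕ) (E : V → V → Prop) (ν : ℕ → V)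
    (h : ¬ Reach E (ν 0) (ν 1) → ThinCut E k c (ν 0) (ν 1)) :
    Sat E (Phi k (c + 2)) ν ↔ Reach E (ν 0) (ν 1) := by
  classical
  cases nonempty_fintype V
  rw [sat_Phi]
  constructor
  · intro hΦ
    by_contra hr
    obtain ⟨S, X, Y, hs, ht, hS, hX, hY, hXi, hYi, hcov⟩ := h hr
    obtain ⟨P, hP, hPi, hPd⟩ := quasi_kernel E (Finset.univ.filter (· ∈ X))
    obtain ⟨Q, hQ, hQi, hQd⟩ := quasi_kernel (fun a b => E b a) (Finset.univ.filter (· ∈ Y))
    have hPX : ∀ u ∈ P, u ∈ X := fun u hu => (Finset.mem_filter.1 (hP hu)).2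
    have hQY : ∀ u ∈ Q, u ∈ Y := fun u hu => (Finset.mem_filter.1 (hQ hu)).2
    have hPk : P.card ≤ k := hXi P hPX hPi
    have hQk : Q.card ≤ k := hYi Q hQY fun u hu v hv huv => hQi v hv u hu huv.symm
    let ν' : ℕ → V := fun i =>
      if i < 10 then ν i else
      if i < 10 + k then P.toList.getD (i - 10) (ν 0) else
      if i < 10 + k + k then Q.toList.getD (i - (10 + k)) (ν 1) else ν i
    have h' : ∀ i, i ∉ lstA k ++ lstB k → ν' i = ν i := by
      intro i hi
      simp only [List.mem_append, mem_lstA, mem_lstB, not_or, not_and, not_lt] at hi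
      simp only [ν']
      by_cases h1 : i < 10
      · simp [h1]
      · rw [if_neg h1, if_neg (by have := hi.1 (by omega); omega),
          if_neg (by
            have := hi.1 (by omega)
            have := hi.2 (by omega)
            omega)]
    have hA1 : ∀ i ∈ lstA k, ν' i ∈ S := by
      intro i hi
      rw [mem_lstA] at hi
      simp only [ν']
      rw [if_neg (by omega), if_pos (by omega)]
      by_cases hlt : i - 10 < P.toList.length
      · rw [List.getD_eq_getElem _ _ hlt]
        exact hX (hPX _ (Finset.mem_toList.1 (List.getElem_mem hlt)))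
      · rw [List.getD_eq_default _ _ (by omega)]
        exact hs
    have hB1 : ∀ i ∈ lstB k, ν' i ∈ Sᶜ := by
      intro i hi
      rw [mem_lstB] at hi
      simp only [ν']
      rw [if_neg (by omega), if_neg (by omega), if_pos (by omega)]
      by_cases hlt : i - (10 + k) < Q.toList.length
      · rw [List.getD_eq_getElem _ _ hlt]
        exact hY (hQY _ (Finset.mem_toList.1 (List.getElem_mem hlt)))
      · rw [List.getD_eq_default _ _ (by omega)]
        exact ht
    have hA2 : ∀ p ∈ P, ∃ i ∈ lstA k, ν' i = p := by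
      intro p hp
      obtain ⟨n, hn, hnp⟩ := List.mem_iff_getElem.1 (Finset.mem_toList.2 hp)
      have hn' : n < P.card := by rwa [Finset.length_toList] at hn
      refine ⟨n + 10, mem_lstA.2 ⟨by omega, by omega⟩, ?_⟩
      simp only [ν']
      rw [if_neg (by omega), if_pos (by omega)]
      have : n + 10 - 10 = n := by omega
      rw [this, List.getD_eq_getElem _ _ hn]
      exact hnp
    have hB2 : ∀ q ∈ Q, ∃ i ∈ lstB k, ν' i = q := by
      intro q hq
      obtain ⟨n, hn, hnq⟩ := List.mem_iff_getElem.1 (Finset.mem_toList.2 hq)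
      have hn' : n < Q.card := by rwa [Finset.length_toList] at hn
      refine ⟨n + (10 + k), mem_lstB.2 ⟨by omega, by omega⟩, ?_⟩
      simp only [ν']
      rw [if_neg (by omega), if_neg (by omega), if_pos (by omega)]
      have : n + (10 + k) - (10 + k) = n := by omega
      rw [this, List.getD_eq_getElem _ _ hn]
      exact hnq
    have hAS : ballA E (lstA k) (c + 2) ν' ⊆ S := by
      rintro v ⟨i, hi, hv⟩
      exact near_closed hS hv (hA1 i hi)
    have hBS : ballB E (lstB k) (c + 2) ν' ⊆ Sᶜ := by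
      rintro v ⟨i, hi, hv⟩
      refine near_closed (S := Sᶜ) ?_ hv (hB1 i hi)
      intro a b hab ha hb
      exact ha (hS b a hab hb)
    have hsub : Comp E (ballA E (lstA k) (c + 2) ν') (ballB E (lstB k) (c + 2) ν') (ν 0) ⊆ S := by
      refine comp_subset hs hAS hS ?_
      intro u v huv hu hv
      rcases hcov u v huv hu hv with ⟨x, hx, hxv⟩ | ⟨y, hy, huy⟩
      · left
        obtain ⟨p, hp, hpx⟩ := hPd x (by simp [hx])
        obtain ⟨i, hi, hip⟩ := hA2 p hp
        refine ⟨i, hi, ?_⟩
        rw [hip]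
        have := near_trans hpx hxv
        rwa [add_comm] at this
      · right
        obtain ⟨q, hq, hqy⟩ := hQd y (by simp [hy])
        obtain ⟨i, hi, hiq⟩ := hB2 q hq
        refine ⟨i, hi, ?_⟩
        rw [hiq]
        have := near_trans hqy (near_flip huy)
        rwa [add_comm] at this
    have := hΦ ν' h' (fun y hy hyc => hBS hy (hsub hyc))
    exact ht (hsub this)
  · intro hr ν' _ hB
    exact mem_comp_of_reach hr hB

/-! ### Randomized programs -/

lemma run_append (δ : Bool → V → V) (l m : List Bool) (v : V) :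
    run δ (l ++ m) v = run δ m (run δ l v) := by
  induction l generalizing v with
  | nil => rfl
  | cons b l ih => simp only [List.cons_append, run]; exact ih _

lemma run_fixed (δ : Bool → V → V) (l : List Bool) (v : V) (h : ∀ b, δ b v = v) :
    run δ l v = v := by
  induction l with
  | nil => rfl
  | cons b l ih => simp only [run]; rw [h b]; exact ih

lemma reach_run (δ : Bool → V → V) (l : List Bool) (v : V) : Reach (Conf δ) v (run δ l v) := by
  induction l generalizing v with
  | nil => exact Relation.ReflTransGen.refl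
  | cons b l ih => exact Relation.ReflTransGen.head ⟨b, rfl⟩ (ih _)

lemma exists_run (δ : Bool → V → V) {s t : V} (h : Reach (Conf δ) s t) :
    ∃ l, run δ l s = t := by
  unfold Reach at h
  induction h with
  | refl => exact ⟨[], rfl⟩
  | tail _ hbc ih =>
    obtain ⟨l, hl⟩ := ih
    obtain ⟨b, hb⟩ := hbc
    exact ⟨l ++ [b], by rw [run_append, hl]; exact hb⟩

lemma exists_ofFn (T : ℕ) (l : List Bool) (h : l.length = T) :
    ∃ x : Fin T → Bool, List.ofFn x = l := by
  subst h
  exact ⟨l.get, List.ofFn_get l⟩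

lemma exists_fun (δ : Bool → V → V) {s t : V} {T : ℕ} (h : Reach (Conf δ) s t)
    (hs : ∀ x : Fin T → Bool, ∀ b, δ b (run δ (List.ofFn x) s) = run δ (List.ofFn x) s)
    (ht : ∀ b, δ b t = t) : ∃ x : Fin T → Bool, run δ (List.ofFn x) s = t := by
  obtain ⟨l, hl⟩ := exists_run δ h
  rcases le_total l.length T with hle | hle
  · obtain ⟨x, hx⟩ := exists_ofFn T (l ++ List.replicate (T - l.length) false) (by simp; omega)
    refine ⟨x, ?_⟩
    rw [hx, run_append, hl]
    exact run_fixed δ _ t ht
  · obtain ⟨x, hx⟩ := exists_ofFn T (l.take T) (by simp; omega)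
    refine ⟨x, ?_⟩
    have h1 := hs x
    rw [hx] at h1 ⊢
    have h2 : run δ (l.drop T) (run δ (l.take T) s) = run δ (l.take T) s := run_fixed δ _ _ h1
    rw [← run_append, List.take_append_drop, hl] at h2
    exact h2.symm

lemma accProb_pos_iff (δ : Bool → V → V) (s t : V) (T : ℕ) :
    accProb δ s t T ≠ 0 ↔ ∃ x : Fin T → Bool, run δ (List.ofFn x) s = t := by
  unfold accProb
  have h2 : (2 : ℚ) ^ T ≠ 0 := by positivity
  rw [Ne, div_eq_zero_iff, not_or]
  constructor
  · rintro ⟨h, _⟩
    by_contra hne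
    push Not at hne
    apply h
    have : IsEmpty {x : Fin T → Bool // run δ (List.ofFn x) s = t} := ⟨fun x => hne x.1 x.2⟩
    simp
  · rintro ⟨x, hx⟩
    refine ⟨?_, h2⟩
    have : Nonempty {x : Fin T → Bool // run δ (List.ofFn x) s = t} := ⟨⟨x, hx⟩⟩
    exact_mod_cast (Nat.card_pos (α := {x : Fin T → Bool // run δ (List.ofFn x) s = t})).ne'

lemma reach_iff_accProb (δ : Bool → V → V) {s t : V} {T : ℕ}
    (hs : ∀ x : Fin T → Bool, ∀ b, δ b (run δ (List.ofFn x) s) = run δ (List.ofFn x) s)
    (ht : ∀ b, δ b t = t) : Reach (Conf δ) s t ↔ accProb δ s t T ≠ 0 := by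
  rw [accProb_pos_iff]
  constructor
  · intro h; exact exists_fun δ h hs ht
  · rintro ⟨x, hx⟩
    rw [← hx]
    exact reach_run δ _ s

end Pool.Agent.Helper32.Stc
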